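import Pool.Agent.Helper7.GeoProg.PM4

/-! # Elementary facts on densities, and the two one-sided bounds -/

namespace GeoProg

open Filter Topology

lemma count_le (A : Set ℕ) (N : ℕ) : count A N ≤ N := by
  unfold count
  have h1 : (A ∩ Set.Icc 1 N).ncard ≤ (Set.Icc 1 N).ncard :=
    Set.ncard_le_ncard Set.inter_subset_right (Set.finite_Icc _ _)
  have h2 : (Set.Icc 1 N).ncard = N := by
    rw [← Finset.coe_Icc, Set.ncard_coe_finset, Nat.card_Icc]
    omega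
  omega

lemma count_mono {A A' : Set ℕ} (h : A ⊆ A') (N : ℕ) : count A N ≤ count A' N := by
  unfold count
  exact Set.ncard_le_ncard (Set.inter_subset_inter_left _ h)
    ((Set.finite_Icc _ _).subset Set.inter_subset_right)

lemma ratio_nonneg (A : Set ℕ) (N : ℕ) : 0 ≤ (count A N : ℝ) / N := by positivity

lemma ratio_le_one (A : Set ℕ) (N : ℕ) : (count A N : ℝ) / N ≤ 1 := by
  rcases Nat.eq_zero_or_pos N with h | h
  · subst h; simp
  · rw [div_le_one (by exact_mod_cast h)]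
    exact_mod_cast count_le A N

lemma ratio_bdd (A : Set ℕ) :
    IsBoundedUnder (· ≤ ·) atTop (fun n : ℕ => (count A n : ℝ) / (n : ℝ)) :=
  isBoundedUnder_of ⟨1, ratio_le_one A⟩

lemma ratio_cobdd (A : Set ℕ) :
    IsCoboundedUnder (· ≤ ·) atTop (fun n : ℕ => (count A n : ℝ) / (n : ℝ)) :=
  (isBoundedUnder_of ⟨0, ratio_nonneg A⟩ :
    IsBoundedUnder (· ≥ ·) atTop (fun n : ℕ => (count A n : ℝ) / (n : ℝ))).isCoboundedUnder_le

lemma upperDensity_le_one (A : Set ℕ) : upperDensity A ≤ 1 :=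
  limsup_le_of_le (ratio_cobdd A) (Eventually.of_forall (ratio_le_one A))

lemma HasDensity.eq_upper {A : Set ℕ} {d : ℝ} (h : HasDensity A d) : d = upperDensity A :=
  (Tendsto.limsup_eq h).symm

lemma gpFree_empty (k : ℕ) (hk : 1 ≤ k) : GPFree k ∅ := by
  refine ⟨fun m hm => absurd hm (Set.notMem_empty m), ?_⟩
  rintro ⟨a, q, _, _, h⟩
  obtain ⟨m, hm, _⟩ := h 0 (by omega)
  exact absurd hm (Set.notMem_empty m)

lemma GPFree.mono {k : ℕ} {A A' : Set ℕ} (h : GPFree k A) (hs : A' ⊆ A) : GPFree k A' := by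
  refine ⟨fun m hm => h.1 m (hs hm), ?_⟩
  rintro ⟨a, q, ha, hq, hx⟩
  apply h.2
  refine ⟨a, q, ha, hq, fun i hi => ?_⟩
  obtain ⟨m, hm, hm'⟩ := hx i hi
  exact ⟨m, hs hm, hm'⟩

lemma count_empty (N : ℕ) : count ∅ N = 0 := by
  unfold count; simp

lemma hasDensity_empty : HasDensity ∅ 0 := by
  unfold HasDensity
  simp only [count_empty]
  simp

lemma alpha_bdd (k : ℕ) : BddAbove {x | ∃ A : Set ℕ, GPFree k A ∧ x = upperDensity A} := by
  refine ⟨1, ?_⟩
  rintro x ⟨A, _, rfl⟩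
  exact upperDensity_le_one A

lemma beta_bdd (k : ℕ) : BddAbove {x | ∃ A : Set ℕ, GPFree k A ∧ HasDensity A x} := by
  refine ⟨1, ?_⟩
  rintro x ⟨A, _, h⟩
  rw [h.eq_upper]
  exact upperDensity_le_one A

lemma le_beta {k : ℕ} {A : Set ℕ} {d : ℝ} (h : GPFree k A) (hd : HasDensity A d) : d ≤ beta k :=
  le_csSup (beta_bdd k) ⟨A, h, hd⟩

lemma le_alpha {k : ℕ} {A : Set ℕ} (h : GPFree k A) : upperDensity A ≤ alpha k :=
  le_csSup (alpha_bdd k) ⟨A, h, rfl⟩

lemma hasDensity_rough (hR : StmtR) (n : ℕ) : HasDensity {m | Rough n m} (delta n) := by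
  obtain ⟨C, hC⟩ := hR n
  unfold HasDensity
  have h1 : Tendsto (fun N : ℕ => C / (N : ℝ)) atTop (𝓝 0) :=
    tendsto_const_nhds.div_atTop tendsto_natCast_atTop_atTop
  rw [tendsto_iff_norm_sub_tendsto_zero]
  apply squeeze_zero' (g := fun N : ℕ => C / (N : ℝ)) _ _ h1
  · exact Eventually.of_forall (fun N => norm_nonneg _)
  · filter_upwards [eventually_gt_atTop 0] with N hN
    have hN' : (0 : ℝ) < N := by exact_mod_cast hN
    rw [Real.norm_eq_abs]
    have e : (count {m | Rough n m} N : ℝ) / N - delta n =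
        ((count {m | Rough n m} N : ℝ) - delta n * N) / N := by
      field_simp
    rw [e, abs_div, abs_of_pos hN']
    exact div_le_div_of_nonneg_right (hC N) hN'.le

/-- Upper bound for `beta`. -/
lemma beta_le (hR : StmtR) (hL : StmtL) (hU1 : StmtU1) {k : ℕ} (hk : 3 ≤ k) (n : ℕ) (H : ℝ)
    (hH : ∀ B : Finset ℕ, SmoothFin n B → GPFree k (B : Set ℕ) → hsum B ≤ H) :
    beta k ≤ H * delta n := by
  unfold beta
  refine csSup_le ⟨0, ∅, gpFree_empty k (by omega), hasDensity_empty⟩ ?_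
  rintro d ⟨A, hA, hd⟩
  have h1 := hL A d hd
  have h2 := hL {m | Rough n m} (delta n) (hasDensity_rough hR n)
  have h3 := h2.const_mul H
  apply le_of_tendsto_of_tendsto h1 h3
  filter_upwards [eventually_gt_atTop 1] with N hN
  have hlog : 0 < Real.log N := Real.log_pos (by exact_mod_cast hN)
  rw [← mul_div_assoc]
  exact div_le_div_of_nonneg_right (hU1 k n H A hk hA hH N) hlog.le

/-- Lower bound for `alpha`. -/
lemma alpha_ge (hB2 : StmtB2) (hB3 : StmtB3) {k n T : ℕ} {Q : Set ℕ} {D : ℝ} {B : ℕ → Finset ℕ}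
    (hk : 3 ≤ k) (hT : 1 ≤ T) (hQ : GPFree k Q) (hQr : ∀ m ∈ Q, Rough n m) (hD : HasDensity Q D)
    (hB : ∀ j, 1 ≤ j → j ≤ T → SmoothFin n (B j) ∧ GPFree k (B j : Set ℕ) ∧ ∀ b ∈ B j, b ≤ j) :
    D * (∑ j ∈ Finset.Ico 1 T, ((B j).card : ℝ) / ((j : ℝ) * (j + 1)) + ((B T).card : ℝ) / T)
      ≤ alpha k := by
  apply le_of_forall_pos_le_add
  intro ε hε
  have h := hB2 k n T Q D B hk hT hQ hQr hD hB ε hε
  rw [eventually_atTop] at h
  obtain ⟨N₀, hN₀⟩ := h
  obtain ⟨A, hA, hc⟩ := hB3 k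
    (D * (∑ j ∈ Finset.Ico 1 T, ((B j).card : ℝ) / ((j : ℝ) * (j + 1)) + ((B T).card : ℝ) / T) - ε)
    hk (fun M => ⟨max M N₀, le_max_left _ _, hN₀ _ (le_max_right _ _)⟩)
  have := le_alpha hA
  linarith

/-- Abel summation for finite sets. -/
lemma abel_card (B : Finset ℕ) (hpos : ∀ b ∈ B, 0 < b) (T : ℕ)
    (hBT : ∀ b ∈ B, b ≤ T) :
    ∑ j ∈ Finset.Ico 1 T, ((B.filter (· ≤ j)).card : ℝ) / ((j : ℝ) * (j + 1)) + (B.card : ℝ) / T
      = hsum B := by
  classical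
  have tel : ∀ b : ℕ, 1 ≤ b → ∀ T, b ≤ T →
      ∑ j ∈ Finset.Ico b T, (1 : ℝ) / ((j : ℝ) * (j + 1)) + 1 / (T : ℝ) = 1 / b := by
    intro b hb T hT
    induction T, hT using Nat.le_induction with
    | base => simp
    | succ T hT ih =>
      rw [Finset.sum_Ico_succ_top hT, ← ih]
      have h1 : (0 : ℝ) < T := by exact_mod_cast (by omega : 0 < T)
      push_cast
      field_simp
      ring
  unfold hsum
  have h1 : ∀ j ∈ Finset.Ico 1 T, ((B.filter (· ≤ j)).card : ℝ) / ((j : ℝ) * (j + 1)) =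
      ∑ b ∈ B, if b ≤ j then 1 / ((j : ℝ) * (j + 1)) else 0 := by
    intro j _
    rw [Finset.card_filter, Nat.cast_sum, Finset.sum_div]
    apply Finset.sum_congr rfl
    intro b _
    split_ifs <;> simp
  rw [Finset.sum_congr rfl h1, Finset.sum_comm]
  have h2 : (B.card : ℝ) / T = ∑ b ∈ B, 1 / (T : ℝ) := by
    rw [Finset.sum_const, nsmul_eq_mul]; ring
  rw [h2, ← Finset.sum_add_distrib]
  apply Finset.sum_congr rfl
  intro b hb
  rw [← tel b (hpos b hb) T (hBT b hb)]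
  congr 1
  rw [← Finset.sum_filter]
  apply Finset.sum_congr _ (fun _ _ => rfl)
  ext j
  rw [Finset.mem_filter, Finset.mem_Ico, Finset.mem_Ico]
  have := hpos b hb
  constructor
  · rintro ⟨⟨h1, h2⟩, h3⟩; exact ⟨h3, h2⟩
  · rintro ⟨h1, h2⟩; exact ⟨⟨by omega, h2⟩, h1⟩

end GeoProg
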