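import Mathlib

/-!
# Sets of positive integers without `k`-term geometric progressions (MP_f5ac68_nt): definitions
-/

namespace GeoProg

open Filter Topology

/-- `A` contains a `k`-term geometric progression `a, a q, …, a q^(k-1)` with `a` a positive
integer and `q > 1` rational. -/
def HasGP (k : ℕ) (A : Set ℕ) : Prop :=
  ∃ (a : ℕ) (q : ℚ), 0 < a ∧ 1 < q ∧ ∀ i < k, ∃ m ∈ A, (m : ℚ) = (a : ℚ) * q ^ i

/-- The family `GPF_k`: sets of positive integers without a `k`-term geometric progression. -/
def GPFree (k : ℕ) (A : Set ℕ) : Prop := (∀ m ∈ A, 0 < m) ∧ ¬ HasGP k A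

/-- The counting function `A(n) = |A ∩ {1, …, n}|`. -/
noncomputable def count (A : Set ℕ) (n : ℕ) : ℕ := (A ∩ Set.Icc 1 n).ncard

/-- The upper asymptotic density. -/
noncomputable def upperDensity (A : Set ℕ) : ℝ :=
  limsup (fun n : ℕ => (count A n : ℝ) / (n : ℝ)) atTop

/-- `A` has asymptotic density `d`. -/
def HasDensity (A : Set ℕ) (d : ℝ) : Prop :=
  Tendsto (fun n : ℕ => (count A n : ℝ) / (n : ℝ)) atTop (𝓝 d)

/-- `α_k`, the supremum of the upper densities of the members of `GPF_k`. -/
noncomputable def alpha (k : ℕ) : ℝ := sSup {x | ∃ A : Set ℕ, GPFree k A ∧ x = upperDensity A}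

/-- `β_k`, the supremum of the densities of the members of `GPF_k` that have a density. -/
noncomputable def beta (k : ℕ) : ℝ := sSup {x | ∃ A : Set ℕ, GPFree k A ∧ HasDensity A x}

/-! ## Auxiliary notions -/

/-- The harmonic sum `∑_{a ∈ A, a ≤ N} 1/a`. -/
noncomputable def harm (A : Set ℕ) (N : ℕ) : ℝ :=
  ∑ a ∈ Finset.Icc 1 N, A.indicator (fun a : ℕ => (1 : ℝ) / a) a

/-- `m` is `n`-rough: positive and without a prime factor below `n`. -/
def Rough (n m : ℕ) : Prop := 0 < m ∧ ∀ p : ℕ, p.Prime → p ∣ m → n ≤ p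

/-- The density `∏_{p < n} (1 - 1/p)` of the `n`-rough numbers. -/
noncomputable def delta (n : ℕ) : ℝ := ∏ p ∈ Nat.primesBelow n, (1 - 1 / (p : ℝ))

/-- The `n`-rough numbers without a `(k-1)`-st power of a prime as divisor. -/
def Qset (k n : ℕ) : Set ℕ := {m | Rough n m ∧ ∀ p : ℕ, p.Prime → ¬ p ^ (k - 1) ∣ m}

/-- All elements of the finite set `B` are `n`-smooth (no prime factor `≥ n`; in particular they
are positive). -/
def SmoothFin (n : ℕ) (B : Finset ℕ) : Prop := ∀ b ∈ B, b ∈ Nat.smoothNumbers n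

/-- The harmonic sum of a finite set. -/
noncomputable def hsum (B : Finset ℕ) : ℝ := ∑ b ∈ B, (1 : ℝ) / b

/-- A set of natural numbers (exponents) without a `k`-term arithmetic progression with positive
difference. -/
def APFree (k : ℕ) (S : Set ℕ) : Prop := ¬ ∃ a d : ℕ, 0 < d ∧ ∀ i < k, a + i * d ∈ S

/-- The greedy `k`-AP-free set of exponents, as a predicate defined by strong recursion:
`a` belongs to it unless `a` is the last term of a `k`-term arithmetic progression of natural
numbers all of whose earlier terms belong to it. -/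
def GreedyExp (k : ℕ) (a : ℕ) : Prop :=
  ¬ ∃ d : ℕ, 0 < d ∧ (k - 1) * d ≤ a ∧
    ∀ i : ℕ, ∀ _ : 0 < i ∧ i < k ∧ 0 < d ∧ i * d ≤ a, GreedyExp k (a - i * d)
termination_by a
decreasing_by
  rename_i h
  have : 0 < i * d := Nat.mul_pos h.1 h.2.2.1
  omega

/-- The positive integers all of whose prime exponents are in the greedy set (Rankin's set). -/
def Gset (k : ℕ) : Set ℕ := {s | 0 < s ∧ ∀ p : ℕ, p.Prime → GreedyExp k (s.factorization p)}

end GeoProg
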