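import Pool.Agent.Helper7.GeoProg.Stmts

/-! # The local modification: finite sums -/

namespace GeoProg

open Filter Topology

/-- sums of reciprocals over a finite set covered by a family -/
lemma hsum_le_tsum {ι : Type*} (e : ι → ℕ) (F : Finset ℕ) (hF : ∀ b ∈ F, ∃ i, e i = b)
    (hs : Summable (fun i => (1 : ℝ) / (e i : ℝ))) :
    hsum F ≤ ∑' i, (1 : ℝ) / (e i : ℝ) := by
  classical
  rcases F.eq_empty_or_nonempty with rfl | ⟨b0, hb0⟩
  · unfold hsum
    simp only [Finset.sum_empty]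
    exact tsum_nonneg (fun i => by positivity)
  haveI : Nonempty ι := ⟨(hF b0 hb0).choose⟩
  unfold hsum
  choose! g hg using hF
  have hinj : Set.InjOn g (F : Set ℕ) := by
    intro a ha b hb hab
    rw [← hg a ha, ← hg b hb, hab]
  have h1 : ∑ b ∈ F, (1 : ℝ) / (b : ℝ) = ∑ i ∈ F.image g, (1 : ℝ) / (e i : ℝ) := by
    rw [Finset.sum_image hinj]
    apply Finset.sum_congr rfl
    intro b hb
    rw [hg b hb]
  rw [h1]
  exact hs.sum_le_tsum _ (fun i _ => by positivity)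

lemma hsum_two_pow (R : ℕ) (hR : 0 < R) (F : Finset ℕ) (hF : ∀ b ∈ F, ∃ j, b = 2 ^ j * R) :
    hsum F ≤ 2 / R := by
  have hR' : (0 : ℝ) < R := by exact_mod_cast hR
  have hs : HasSum (fun j : ℕ => (1 : ℝ) / ((2 ^ j * R : ℕ) : ℝ)) (2 / R) := by
    have h := (hasSum_geometric_two).mul_right (1 / (R : ℝ))
    have e1 : (fun j : ℕ => (1 : ℝ) / ((2 ^ j * R : ℕ) : ℝ)) =
        fun j : ℕ => ((1 : ℝ) / 2) ^ j * (1 / (R : ℝ)) := by
      ext j
      push_cast
      rw [one_div_pow]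
      field_simp
    have e2 : (2 : ℝ) / R = 2 * (1 / (R : ℝ)) := by ring
    rw [e1, e2]
    exact h
  have := hsum_le_tsum (fun j : ℕ => 2 ^ j * R) F (fun b hb => by
    obtain ⟨j, hj⟩ := hF b hb
    exact ⟨j, hj.symm⟩) hs.summable
  rwa [hs.tsum_eq] at this

lemma hsum_two_q (k q W : ℕ) (hq : 2 ≤ q) (hW : 0 < W) (F : Finset ℕ)
    (hF : ∀ b ∈ F, ∃ x y, b = 2 ^ x * q ^ (y + k) * W) :
    hsum F ≤ 4 / ((q : ℝ) ^ k * W) := by
  have hW' : (0 : ℝ) < W := by exact_mod_cast hW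
  have hq' : (2 : ℝ) ≤ q := by exact_mod_cast hq
  have hq0 : (0 : ℝ) < q := by linarith
  have hg2 : HasSum (fun x : ℕ => ((1 : ℝ) / 2) ^ x) 2 := hasSum_geometric_two
  have hgq : HasSum (fun y : ℕ => ((1 : ℝ) / q) ^ y) (1 - 1 / (q : ℝ))⁻¹ := by
    apply hasSum_geometric_of_lt_one (by positivity)
    rw [div_lt_one hq0]
    linarith
  have hs : HasSum (fun z : ℕ × ℕ => (1 : ℝ) / ((2 ^ z.1 * q ^ (z.2 + k) * W : ℕ) : ℝ))
      (2 * (1 - 1 / (q : ℝ))⁻¹ * (1 / ((q : ℝ) ^ k * W))) := by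
    have hprod : HasSum (fun z : ℕ × ℕ => ((1 : ℝ) / 2) ^ z.1 * ((1 : ℝ) / q) ^ z.2)
        (2 * (1 - 1 / (q : ℝ))⁻¹) := by
      apply HasSum.mul hg2 hgq
      apply Summable.mul_of_nonneg hg2.summable hgq.summable
      · intro x; positivity
      · intro x; positivity
    have h := hprod.mul_right (1 / ((q : ℝ) ^ k * W))
    have e1 : (fun z : ℕ × ℕ => (1 : ℝ) / ((2 ^ z.1 * q ^ (z.2 + k) * W : ℕ) : ℝ)) =
        fun z : ℕ × ℕ => ((1 : ℝ) / 2) ^ z.1 * ((1 : ℝ) / q) ^ z.2 * (1 / ((q : ℝ) ^ k * W)) := by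
      ext z
      push_cast
      rw [one_div_pow, one_div_pow, pow_add]
      field_simp
    rw [e1]
    exact h
  have h1 := hsum_le_tsum (fun z : ℕ × ℕ => 2 ^ z.1 * q ^ (z.2 + k) * W) F (fun b hb => by
    obtain ⟨x, y, hxy⟩ := hF b hb
    exact ⟨(x, y), hxy.symm⟩) hs.summable
  rw [hs.tsum_eq] at h1
  refine h1.trans ?_
  have h2 : (1 - 1 / (q : ℝ))⁻¹ ≤ 2 := by
    rw [inv_le_comm₀ _ (by norm_num)]
    · have : 1 / (q : ℝ) ≤ 1 / 2 := by
        apply one_div_le_one_div_of_le (by norm_num) hq'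
      linarith
    · have : 1 / (q : ℝ) ≤ 1 / 2 := by
        apply one_div_le_one_div_of_le (by norm_num) hq'
      linarith
  have h3 : (0 : ℝ) < 1 / ((q : ℝ) ^ k * W) := by positivity
  have : 2 * (1 - 1 / (q : ℝ))⁻¹ * (1 / ((q : ℝ) ^ k * W)) ≤ 2 * 2 * (1 / ((q : ℝ) ^ k * W)) := by
    gcongr
  refine this.trans (le_of_eq ?_)
  ring

/-- numbers `w * u^j` with `w ≤ K` and `2 ≤ j ≤ k` -/
def Tset (k K : ℕ) : Set ℕ := {b | ∃ w u j : ℕ, 0 < w ∧ w ≤ K ∧ 0 < u ∧ 2 ≤ j ∧ j ≤ k ∧ b = w * u ^ j}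

lemma tail_Tset (k K : ℕ) (ε : ℝ) (hε : 0 < ε) : ∃ Z : ℕ, ∀ F : Finset ℕ,
    (∀ b ∈ F, Z < b ∧ b ∈ Tset k K) → hsum F < ε := by
  classical
  -- the family
  let e : (Fin K × Fin (k + 1)) × ℕ → ℕ := fun z => (z.1.1 + 1) * (z.2 + 1) ^ ((z.1.2 : ℕ) + 2)
  have hsum_e : Summable (fun z => (1 : ℝ) / (e z : ℝ)) := by
    have hb : Summable (fun z : (Fin K × Fin (k + 1)) × ℕ => (1 : ℝ) * (1 / ((z.2 : ℝ) + 1) ^ 2)) := by
      apply Summable.mul_of_nonneg (f := fun _ : Fin K × Fin (k + 1) => (1 : ℝ))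
        (g := fun u : ℕ => (1 / ((u : ℝ) + 1) ^ 2))
      · exact (hasSum_fintype _).summable
      · have := (summable_nat_add_iff 1).2 (Real.summable_one_div_nat_pow.2 (by norm_num : 1 < 2))
        simpa using this
      · intro x; simp
      · intro x; positivity
    apply Summable.of_nonneg_of_le _ _ hb
    · intro z; positivity
    · intro z
      rw [one_mul]
      apply one_div_le_one_div_of_le (by positivity)
      have h1 : ((z.2 : ℝ) + 1) ^ 2 ≤ ((z.2 : ℝ) + 1) ^ ((z.1.2 : ℕ) + 2) := by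
        apply pow_le_pow_right₀
        · have : (0 : ℝ) ≤ z.2 := by positivity
          linarith
        · omega
      have h2 : (1 : ℝ) ≤ ((z.1.1 : ℕ) : ℝ) + 1 := by
        have : (0 : ℝ) ≤ ((z.1.1 : ℕ) : ℝ) := by positivity
        linarith
      simp only [e]
      push_cast
      calc ((z.2 : ℝ) + 1) ^ 2 ≤ ((z.2 : ℝ) + 1) ^ ((z.1.2 : ℕ) + 2) := h1
        _ = 1 * ((z.2 : ℝ) + 1) ^ ((z.1.2 : ℕ) + 2) := (one_mul _).symm
        _ ≤ _ := by gcongr
  have hcov : ∀ b ∈ Tset k K, ∃ z, e z = b := by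
    rintro b ⟨w, u, j, hw, hwK, hu, hj2, hjk, rfl⟩
    refine ⟨((⟨w - 1, by omega⟩, ⟨j - 2, by omega⟩), u - 1), ?_⟩
    simp only [e]
    rw [show w - 1 + 1 = w by omega, show u - 1 + 1 = u by omega, show j - 2 + 2 = j by omega]
  have hs : Summable ((Tset k K).indicator (fun b : ℕ => (1 : ℝ) / b)) := by
    apply summable_of_sum_le (c := ∑' z, (1 : ℝ) / (e z : ℝ))
    · intro b
      apply Set.indicator_nonneg
      intro b _
      positivity
    · intro F
      have : ∑ b ∈ F, (Tset k K).indicator (fun b : ℕ => (1 : ℝ) / b) b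
          = hsum (F.filter (· ∈ Tset k K)) := by
        unfold hsum
        rw [Finset.sum_filter]
        apply Finset.sum_congr rfl
        intro b _
        rw [Set.indicator_apply]
      rw [this]
      apply hsum_le_tsum e _ _ hsum_e
      intro b hb
      exact hcov b (Finset.mem_filter.1 hb).2
  have hv := (summable_iff_vanishing_norm.1 hs) ε hε
  obtain ⟨s, hs⟩ := hv
  refine ⟨s.sup id, fun F hF => ?_⟩
  have hd : Disjoint F s := by
    rw [Finset.disjoint_left]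
    intro b hb hbs
    have h1 := (hF b hb).1
    have h2 : id b ≤ s.sup id := Finset.le_sup hbs
    simp only [id] at h2
    omega
  have h3 := hs F hd
  have h4 : ∑ b ∈ F, (Tset k K).indicator (fun b : ℕ => (1 : ℝ) / b) b = hsum F := by
    unfold hsum
    apply Finset.sum_congr rfl
    intro b hb
    rw [Set.indicator_of_mem (hF b hb).2]
  rw [h4] at h3
  exact (le_abs_self _).trans_lt h3

end GeoProg
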