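import Pool.Agent.Helper7.GeoProg.PM1

/-! # The local modification: it is free of progressions -/

namespace GeoProg

open Filter Topology

lemma ap_const {k : ℕ} {X : Set ℕ} (hAP : APFree k X) (hk : 3 ≤ k) (a : ℕ → ℕ) (c d : ℤ)
    (h : ∀ i < k, (a i : ℤ) = c + i * d) (hm : ∀ i < k, a i ∈ X) : d = 0 := by
  by_contra hd
  apply hAP
  rcases lt_or_gt_of_ne hd with hneg | hpos
  · refine ⟨a (k - 1), (-d).toNat, by omega, ?_⟩
    intro i hi
    have h1 := h (k - 1) (by omega)
    have h2 := h (k - 1 - i) (by omega)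
    have e : a (k - 1) + i * (-d).toNat = a (k - 1 - i) := by
      zify
      rw [Int.toNat_of_nonneg (by omega), h1, h2]
      have : ((k - 1 - i : ℕ) : ℤ) = ((k - 1 : ℕ) : ℤ) - i := by omega
      rw [this]
      ring
    rw [e]
    exact hm _ (by omega)
  · refine ⟨a 0, d.toNat, by omega, ?_⟩
    intro i hi
    have h1 := h 0 (by omega)
    have h2 := h i (by omega)
    have e : a 0 + i * d.toNat = a i := by
      zify
      rw [Int.toNat_of_nonneg hpos.le, h1, h2]
      push_cast
      ring
    rw [e]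
    exact hm _ (by omega)

/-- the odd part of the centre -/
def PP (k : ℕ) (S : Finset ℕ) : ℕ := ∏ r ∈ S, r ^ (k - 2)

/-- the centre of the modification -/
def RR (k : ℕ) (S : Finset ℕ) : ℕ := 2 ^ (k - 2) * PP k S

lemma PP_pos {k : ℕ} {S : Finset ℕ} (hS : ∀ q ∈ S, q.Prime) : 0 < PP k S :=
  Finset.prod_pos (fun q hq => pow_pos (hS q hq).pos _)

lemma RR_pos {k : ℕ} {S : Finset ℕ} (hS : ∀ q ∈ S, q.Prime) : 0 < RR k S :=
  Nat.mul_pos (by positivity) (PP_pos hS)

lemma fact_PP {k : ℕ} {S : Finset ℕ} (hS : ∀ q ∈ S, q.Prime) (p : ℕ) :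
    (PP k S).factorization p = if p ∈ S then k - 2 else 0 := by
  classical
  unfold PP
  rw [Nat.factorization_prod (fun q hq => pow_ne_zero _ (hS q hq).ne_zero)]
  rw [Finsupp.finsetSum_apply]
  have : ∀ q ∈ S, (q ^ (k - 2)).factorization p = if p = q then k - 2 else 0 := by
    intro q hq
    rw [(hS q hq).factorization_pow, Finsupp.single_apply]
    simp only [eq_comm]
  rw [Finset.sum_congr rfl this]
  simp

lemma fact_RR {k : ℕ} {S : Finset ℕ} (hS : ∀ q ∈ S, q.Prime) (h2 : 2 ∉ S) {p : ℕ}
    (hp : p.Prime) :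
    (RR k S).factorization p = if p = 2 ∨ p ∈ S then k - 2 else 0 := by
  unfold RR
  rw [Nat.factorization_mul (by positivity) (PP_pos hS).ne', Finsupp.add_apply, fact_PP hS p,
    Nat.prime_two.factorization_pow, Finsupp.single_apply]
  by_cases h : p = 2
  · subst h
    simp [h2]
  · have h' : ¬ (2 = p) := fun e => h e.symm
    simp [h, h']

/-- an addition -/
lemma fact_add {k : ℕ} (hk : 3 ≤ k) {S : Finset ℕ} (hS : ∀ q ∈ S, q.Prime) (h2 : 2 ∉ S)
    {q : ℕ} (hq : q = 1 ∨ q ∈ S) {p : ℕ} (hp : p.Prime) :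
    (2 * RR k S * q).factorization p =
      if p = 2 then k - 1 else if p = q then k - 1 else if p ∈ S then k - 2 else 0 := by
  have hR := (RR_pos hS (k := k)).ne'
  have hq0 : q ≠ 0 := by
    rcases hq with rfl | hq
    · simp
    · exact (hS q hq).ne_zero
  rw [Nat.factorization_mul (by positivity) hq0, Nat.factorization_mul (by norm_num) hR,
    Finsupp.add_apply, Finsupp.add_apply, fact_RR hS h2 hp, Nat.prime_two.factorization,
    Finsupp.single_apply]
  rcases hq with rfl | hq
  · have hp1 : ¬ (p = 1) := hp.one_lt.ne'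
    by_cases h : p = 2
    · subst h
      simp
      omega
    · have h' : ¬ (2 = p) := fun e => h e.symm
      simp [h, h', hp1]
  · have hqp := hS q hq
    rw [hqp.factorization, Finsupp.single_apply]
    have hq2 : q ≠ 2 := fun e => h2 (e ▸ hq)
    by_cases h : p = 2
    · subst h
      simp [hq2]
      omega
    · have h' : ¬ (2 = p) := fun e => h e.symm
      by_cases hpq : p = q
      · subst hpq
        simp [h, h', hq]
        omega
      · have h'' : ¬ (q = p) := fun e => hpq e.symm
        simp [h, h', hpq, h'']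

/-- the removed numbers -/
def Bad (k : ℕ) (S : Finset ℕ) (K Z b : ℕ) : Prop :=
  (∃ j, b = 2 ^ j * RR k S) ∨
  (∃ q ∈ S, ∃ x y, b = 2 ^ x * q ^ (y + k) * PP k (S.erase q)) ∨
  (Z < b ∧ b ∈ Tset k K)

/-- the top term of a progression through an added number is not too large or removed -/
lemma top_bad {k K Z : ℕ} (hk : 3 ≤ k) (hZ : K * K ≤ Z) (x : ℕ → ℕ) (hpos : ∀ i < k, 0 < x i)
    (hrel : ∀ i, i + 2 < k → x i * x (i + 2) = x (i + 1) ^ 2) (h01 : x 0 < x 1)
    (e : ℕ) (he : e + 1 < k) (heK : x e ≤ K) (htop : Z < x (k - 1)) : x (k - 1) ∈ Tset k K := by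
  -- ratio
  set g := Nat.gcd (x 0) (x 1) with hg
  have hgpos : 0 < g := Nat.gcd_pos_of_pos_left _ (hpos 0 (by omega))
  obtain ⟨v, hv⟩ : g ∣ x 0 := Nat.gcd_dvd_left _ _
  obtain ⟨u, hu⟩ : g ∣ x 1 := Nat.gcd_dvd_right _ _
  have hco : Nat.Coprime v u := by
    have := Nat.coprime_div_gcd_div_gcd (m := x 0) (n := x 1) hgpos
    rw [← hg] at this
    rw [hv, hu, Nat.mul_div_cancel_left _ hgpos, Nat.mul_div_cancel_left _ hgpos] at this
    exact this
  have hv0 : 0 < v := by
    rcases Nat.eq_zero_or_pos v with h | h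
    · rw [h, mul_zero] at hv
      have := hpos 0 (by omega)
      omega
    · exact h
  have hu0 : 0 < u := by
    rcases Nat.eq_zero_or_pos u with h | h
    · rw [h, mul_zero] at hu
      have := hpos 1 (by omega)
      omega
    · exact h
  -- x i * u = x (i+1) * v
  have hstep : ∀ i, i + 1 < k → x i * u = x (i + 1) * v := by
    intro i
    induction i with
    | zero =>
      intro _
      rw [hv, hu]
      ring
    | succ i ih =>
      intro hi
      have h1 := ih (by omega)
      have h2 := hrel i (by omega)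
      have hx := hpos i (by omega)
      -- x i * (x (i+1) * u) = x(i+1)^2 v = x i x (i+2) v
      have : x i * (x (i + 1) * u) = x i * (x (i + 2) * v) := by
        calc x i * (x (i + 1) * u) = x (i + 1) * (x i * u) := by ring
          _ = x (i + 1) ^ 2 * v := by rw [h1]; ring
          _ = x i * (x (i + 2) * v) := by rw [← h2]; ring
      exact Nat.eq_of_mul_eq_mul_left hx this
  have hiter : ∀ j i, i + j < k → x i * u ^ j = x (i + j) * v ^ j := by
    intro j
    induction j with
    | zero => intro i _; simp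
    | succ j ih =>
      intro i hi
      have h1 := ih i (by omega)
      have h2 := hstep (i + j) (by omega)
      calc x i * u ^ (j + 1) = (x i * u ^ j) * u := by ring
        _ = (x (i + j) * u) * v ^ j := by rw [h1]; ring
        _ = x (i + (j + 1)) * v ^ (j + 1) := by rw [h2, ← add_assoc]; ring
  set j := k - 1 - e with hj
  have hj1 : 1 ≤ j := by omega
  have htopeq : x e * u ^ j = x (k - 1) * v ^ j := by
    have := hiter j e (by omega)
    rwa [show e + j = k - 1 by omega] at this
  have hdvd : v ^ j ∣ x e := by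
    have h1 : v ^ j ∣ x e * u ^ j := by rw [htopeq]; exact dvd_mul_left _ _
    exact (Nat.Coprime.pow j j hco).dvd_of_dvd_mul_right h1
  obtain ⟨w, hw⟩ := hdvd
  have hxe := hpos e (by omega)
  have hw0 : 0 < w := by
    rcases Nat.eq_zero_or_pos w with h | h
    · rw [h, mul_zero] at hw; omega
    · exact h
  have hvj : 0 < v ^ j := by positivity
  have hwK : w ≤ K := by
    have : w ≤ x e := by
      rw [hw]
      exact Nat.le_mul_of_pos_left _ hvj
    omega
  have htop2 : x (k - 1) = w * u ^ j := by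
    have : v ^ j * x (k - 1) = v ^ j * (w * u ^ j) := by
      calc v ^ j * x (k - 1) = x (k - 1) * v ^ j := by ring
        _ = x e * u ^ j := htopeq.symm
        _ = v ^ j * (w * u ^ j) := by rw [hw]; ring
    exact Nat.eq_of_mul_eq_mul_left hvj this
  by_cases hj2 : 2 ≤ j
  · exact ⟨w, u, j, hw0, hwK, hu0, hj2, by omega, htop2⟩
  · -- j = 1, so u divides x e
    exfalso
    have hj1' : j = 1 := by omega
    have he1 : 1 ≤ e := by omega
    have h3 := hiter e 0 (by omega)
    rw [Nat.zero_add] at h3
    have hdvd2 : u ^ e ∣ x e := by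
      have h1 : u ^ e ∣ x e * v ^ e := by rw [← h3]; exact dvd_mul_left _ _
      exact (Nat.Coprime.pow e e hco.symm).dvd_of_dvd_mul_right h1
    have hu_le : u ≤ K := by
      have h4 : u ∣ x e := dvd_trans (dvd_pow_self u (by omega)) hdvd2
      exact (Nat.le_of_dvd hxe h4).trans heK
    have : x (k - 1) ≤ K * K := by
      rw [htop2, hj1', pow_one]
      exact Nat.mul_le_mul hwK hu_le
    omega

end GeoProg
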