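import Pool.Agent.Helper7.GeoProg.PM2

/-! # The local modification is free of progressions -/

namespace GeoProg

open Filter Topology

lemma core (V1 : StmtV1) (V2 : StmtV2) (G1 : StmtG1) {k : ℕ} (hk : 3 ≤ k) {S : Finset ℕ}
    (hS : ∀ q ∈ S, q.Prime) (h2 : 2 ∉ S) {K Z : ℕ}
    (hK : ∀ q, q = 1 ∨ q ∈ S → 2 * RR k S * q ≤ K) (hZ : K * K ≤ Z) {n : ℕ} {B : Set ℕ}
    (hB : GPFree k B) (hBs : ∀ b ∈ B, b ∈ Nat.smoothNumbers n)
    (hBZ : ∀ s, s ≤ Z → s ∈ Nat.smoothNumbers n → (s ∈ B ↔ s ∈ Gset k)) :
    GPFree k {b | (b ∈ B ∧ ¬ Bad k S K Z b) ∨ ∃ q, (q = 1 ∨ q ∈ S) ∧ b = 2 * RR k S * q} := by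
  classical
  set A : Set ℕ := {b | (b ∈ B ∧ ¬ Bad k S K Z b) ∨ ∃ q, (q = 1 ∨ q ∈ S) ∧ b = 2 * RR k S * q}
    with hA
  have hR := RR_pos hS (k := k)
  obtain ⟨hAP, _, hgr, hngr⟩ := G1 k hk
  have hqpos : ∀ q, (q = 1 ∨ q ∈ S) → 0 < q := by
    rintro q (rfl | hq)
    · norm_num
    · exact (hS q hq).pos
  have hApos : ∀ m ∈ A, 0 < m := by
    rintro m (hm | ⟨q, hq, rfl⟩)
    · exact hB.1 m hm.1
    · have := hqpos q hq
      positivity
  have hK1 : 1 ≤ K := by
    have := hK 1 (Or.inl rfl)
    have h3 : 0 < 2 * RR k S * 1 := by positivity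
    omega
  have hKZ : K ≤ Z := by nlinarith
  refine ⟨hApos, fun hGP => ?_⟩
  obtain ⟨x, hxA, h01, hrel⟩ := (V1 k A hk hApos).1 hGP
  have hpos : ∀ i < k, 0 < x i := fun i hi => hApos _ (hxA i hi)
  obtain ⟨hval, hmono⟩ := V2 k x hk hpos hrel
  have hmono := hmono h01
  -- step 1: some term is an addition
  have hex : ∃ e < k, ∃ q, (q = 1 ∨ q ∈ S) ∧ x e = 2 * RR k S * q := by
    by_contra hcon
    push Not at hcon
    apply hB.2
    refine (V1 k B hk hB.1).2 ⟨x, ?_, h01, hrel⟩
    intro i hi
    rcases hxA i hi with h | ⟨q, hq, hxq⟩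
    · exact h.1
    · exact absurd hxq (hcon i hi q hq)
  obtain ⟨e, he, q, hq, hxe⟩ := hex
  have hxeK : x e ≤ K := by rw [hxe]; exact hK q hq
  -- step 2: the top term is at most Z
  have htop : x (k - 1) ≤ Z := by
    by_contra hcon
    push Not at hcon
    have hne : ¬ ∃ q, (q = 1 ∨ q ∈ S) ∧ x (k - 1) = 2 * RR k S * q := by
      rintro ⟨q', hq', h⟩
      have := hK q' hq'
      omega
    rcases hxA (k - 1) (by omega) with h | h
    · apply h.2
      right; right
      refine ⟨hcon, ?_⟩
      have hek : e ≠ k - 1 := by
        intro h'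
        rw [h'] at hxe
        exact hne ⟨q, hq, hxe⟩
      exact top_bad hk hZ x hpos hrel h01 e (by omega) hxeK hcon
    · exact hne h
  have hle : ∀ i < k, x i ≤ Z := by
    intro i hi
    rcases Nat.lt_or_ge i (k - 1) with h | h
    · exact (hmono i (k - 1) h (by omega)).le.trans htop
    · have : i = k - 1 := by omega
      rw [this]; exact htop
  -- step 3: terms of B are in Gset
  have hG : ∀ i < k, x i ∈ B → x i ∈ Gset k := by
    intro i hi hiB
    exact (hBZ _ (hle i hi) (hBs _ hiB)).1 hiB
  have hfactG : ∀ i < k, x i ∈ B → ∀ p : ℕ, p.Prime → GreedyExp k ((x i).factorization p) :=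
    fun i hi hiB p hp => (hG i hi hiB).2 p hp
  have hcases : ∀ i < k, (x i ∈ B ∧ ¬ Bad k S K Z (x i)) ∨
      ∃ q, (q = 1 ∨ q ∈ S) ∧ x i = 2 * RR k S * q := fun i hi => hxA i hi
  -- exponent of 2
  obtain ⟨c2, d2, hv2⟩ := hval 2
  have hv2e : ((x e).factorization 2 : ℤ) = k - 1 := by
    rw [hxe, fact_add hk hS h2 hq Nat.prime_two]
    simp
    omega
  have hd2 : d2 ≠ 0 := by
    intro hd0
    -- all exponents of 2 are k - 1, all terms are additions
    have hall : ∀ i < k, ∃ q, (q = 1 ∨ q ∈ S) ∧ x i = 2 * RR k S * q := by
      intro i hi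
      rcases hcases i hi with h | h
      · exfalso
        have h1 := hfactG i hi h.1 2 Nat.prime_two
        have h3 := hv2 i hi
        have h4 := hv2 e he
        rw [hd0] at h3 h4
        have : (x i).factorization 2 = k - 1 := by omega
        rw [this] at h1
        exact hngr h1
      · exact h
    obtain ⟨q0, hq0, hx0⟩ := hall 0 (by omega)
    obtain ⟨q1, hq1, hx1⟩ := hall 1 (by omega)
    obtain ⟨q2, hq2, hx2⟩ := hall 2 (by omega)
    have hr := hrel 0 (by omega)
    rw [Nat.zero_add, Nat.zero_add, hx0, hx1, hx2] at hr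
    have hq012 : q0 * q2 = q1 ^ 2 := by
      have h4 : (2 * RR k S) ^ 2 * (q0 * q2) = (2 * RR k S) ^ 2 * q1 ^ 2 := by
        calc (2 * RR k S) ^ 2 * (q0 * q2) = 2 * RR k S * q0 * (2 * RR k S * q2) := by ring
          _ = (2 * RR k S * q1) ^ 2 := hr
          _ = _ := by ring
      exact Nat.eq_of_mul_eq_mul_left (by positivity) h4
    have hq01 : q0 = q1 := by
      rcases hq1 with rfl | hq1
      · rw [one_pow] at hq012
        exact Nat.eq_one_of_mul_eq_one_right hq012
      · have hp1 := hS q1 hq1
        have hd0' : q0 ∣ q1 ^ 2 := by rw [← hq012]; exact dvd_mul_right _ _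
        have hd2' : q2 ∣ q1 ^ 2 := by rw [← hq012]; exact dvd_mul_left _ _
        rcases hq0 with rfl | hq0
        · exfalso
          rw [one_mul] at hq012
          rcases hq2 with rfl | hq2
          · have : 1 < q1 ^ 2 := Nat.one_lt_pow (by norm_num) hp1.one_lt
            omega
          · have hp2 := hS q2 hq2
            have h5 : q2 = q1 := (Nat.prime_dvd_prime_iff_eq hp2 hp1).1 (hp2.dvd_of_dvd_pow hd2')
            rw [h5] at hq012
            have h6 : q1 * 1 = q1 * q1 := by rw [mul_one]; nlinarith
            have h7 := Nat.eq_of_mul_eq_mul_left hp1.pos h6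
            have := hp1.one_lt
            omega
        · have hp0 := hS q0 hq0
          exact (Nat.prime_dvd_prime_iff_eq hp0 hp1).1 (hp0.dvd_of_dvd_pow hd0')
    rw [hx0, hx1, hq01] at h01
    exact lt_irrefl _ h01
  -- uniqueness of the addition
  have hothers : ∀ i < k, i ≠ e → x i ∈ B ∧ ¬ Bad k S K Z (x i) := by
    intro i hi hie
    rcases hcases i hi with h | ⟨q', hq', hxi⟩
    · exact h
    · exfalso
      have h3 : ((x i).factorization 2 : ℤ) = k - 1 := by
        rw [hxi, fact_add hk hS h2 hq' Nat.prime_two]
        simp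
        omega
      rw [hv2 i hi] at h3
      rw [hv2 e he] at hv2e
      have h4 : ((i : ℤ) - e) * d2 = 0 := by linarith
      rcases mul_eq_zero.1 h4 with h | h
      · omega
      · exact hd2 h
  -- exponents at the other primes are constant
  have hconst : ∀ p : ℕ, p.Prime → p ≠ 2 → p ≠ q → ∀ i < k,
      (x i).factorization p = if p ∈ S then k - 2 else 0 := by
    intro p hp hp2 hpq
    obtain ⟨c, d, hcd⟩ := hval p
    have hxep : (x e).factorization p = if p ∈ S then k - 2 else 0 := by
      rw [hxe, fact_add hk hS h2 hq hp]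
      simp [hp2, hpq]
    have hd : d = 0 := by
      apply ap_const hAP hk (fun i => (x i).factorization p) c d hcd
      intro i hi
      by_cases hie : i = e
      · show GreedyExp k ((x i).factorization p)
        rw [hie, hxep]
        split_ifs
        · exact hgr _ (by omega)
        · exact hgr _ (by omega)
      · exact hfactG i hi (hothers i hi hie).1 p hp
    intro i hi
    have h3 := hcd i hi
    have h4 := hcd e he
    rw [hd] at h3 h4
    rw [← hxep]
    omega
  -- the terms have the exponent of 2 below k - 2, if the exponent of q is k - 2 (or q = 1)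
  have hlow : ∀ i < k, i ≠ e → (q = 1 ∨ (x i).factorization q = k - 2) →
      (x i).factorization 2 < k - 2 := by
    intro i hi hie hqi
    by_contra hcon
    push Not at hcon
    apply (hothers i hi hie).2
    left
    refine ⟨(x i).factorization 2 - (k - 2), ?_⟩
    apply Nat.eq_of_factorization_eq (hpos i hi).ne' (by positivity)
    intro p
    by_cases hp : p.Prime
    · rw [Nat.factorization_mul (by positivity) hR.ne', Finsupp.add_apply,
        fact_RR hS h2 hp, Nat.prime_two.factorization_pow, Finsupp.single_apply]
      by_cases hp2 : p = 2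
      · subst hp2
        simp
        omega
      · have hp2' : ¬ (2 = p) := fun h => hp2 h.symm
        by_cases hpq : p = q
        · have hq1 : q ≠ 1 := by rw [← hpq]; exact hp.one_lt.ne'
          have hqS : q ∈ S := by
            rcases hq with h | h
            · exact absurd h hq1
            · exact h
          rcases hqi with h | h
          · exact absurd h hq1
          · rw [hpq, h]
            have hq2' : ¬ (2 = q) := fun h => hp2 (hpq.trans h.symm)
            simp [hq2', hqS]
        · rw [hconst p hp hp2 hpq i hi]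
          simp [hp2, hp2']
    · rw [Nat.factorization_eq_zero_of_not_prime _ hp, Nat.factorization_eq_zero_of_not_prime _ hp]
  -- a neighbour with exponent condition gives the contradiction
  have hv2i : ∀ i < k, ((x i).factorization 2 : ℤ) = (k - 1) + (i - e) * d2 := by
    intro i hi
    have h3 := hv2 i hi
    have h4 := hv2 e he
    rw [hv2e] at h4
    rw [h3]
    linarith
  have hfinish0 : e = 0 → (q = 1 ∨ (x 1).factorization q = k - 2) → False := by
    intro he0 hq1
    have h3 := hlow 1 (by omega) (by omega) hq1
    have h4 := hv2i 1 (by omega)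
    have h5 := hv2i (k - 1) (by omega)
    rw [he0] at h4 h5
    have h6 : ((k - 1 : ℕ) : ℤ) = (k : ℤ) - 1 := by omega
    rw [h6] at h5
    push_cast at h4 h5
    have h7 : (0 : ℤ) ≤ ((x (k - 1)).factorization 2 : ℤ) := by positivity
    have h8 : d2 ≤ -2 := by omega
    nlinarith
  have hfinish1 : e = k - 1 → (q = 1 ∨ (x (k - 2)).factorization q = k - 2) → False := by
    intro he0 hq1
    have h3 := hlow (k - 2) (by omega) (by omega) hq1
    have h4 := hv2i (k - 2) (by omega)
    have h5 := hv2i 0 (by omega)
    have h6 : ((k - 1 : ℕ) : ℤ) = (k : ℤ) - 1 := by omega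
    have h6' : ((k - 2 : ℕ) : ℤ) = (k : ℤ) - 2 := by omega
    have h6e : (e : ℤ) = k - 1 := by omega
    rw [h6e] at h4 h5
    rw [h6'] at h4
    push_cast at h4 h5
    have h7 : (0 : ℤ) ≤ ((x 0).factorization 2 : ℤ) := by positivity
    have h8 : 2 ≤ d2 := by
      have : ((k : ℤ) - 2 - (k - 1)) * d2 = - d2 := by ring
      rw [this] at h4
      omega
    nlinarith
  by_cases hq1 : q = 1
  · -- first case
    have hlow' : ∀ i < k, i ≠ e → (x i).factorization 2 < k - 2 :=
      fun i hi hie => hlow i hi hie (Or.inl hq1)
    rcases Nat.eq_zero_or_pos e with he0 | he0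
    · exact hfinish0 he0 (Or.inl hq1)
    · rcases Nat.lt_or_ge (e + 1) k with he1 | he1
      · -- both neighbours
        have h3 := hlow' (e + 1) he1 (by omega)
        have h4 := hlow' (e - 1) (by omega) (by omega)
        have h5 := hv2i (e + 1) he1
        have h6 := hv2i (e - 1) (by omega)
        have h7 : ((e - 1 : ℕ) : ℤ) = (e : ℤ) - 1 := by omega
        rw [h7] at h6
        push_cast at h5
        have h8 : ((e : ℤ) + 1 - e) * d2 = d2 := by ring
        have h9 : ((e : ℤ) - 1 - e) * d2 = - d2 := by ring
        rw [h8] at h5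
        rw [h9] at h6
        omega
      · exact hfinish1 (by omega) (Or.inl hq1)
  · -- second case
    have hqS : q ∈ S := by
      rcases hq with h | h
      · exact absurd h hq1
      · exact h
    have hqp := hS q hqS
    have hq2 : q ≠ 2 := fun h => h2 (h ▸ hqS)
    obtain ⟨cq, dq, hvq⟩ := hval q
    have hvqe : ((x e).factorization q : ℤ) = k - 1 := by
      rw [hxe, fact_add hk hS h2 (Or.inr hqS) hqp]
      simp [hq2]
      omega
    have hvqi : ∀ i < k, ((x i).factorization q : ℤ) = (k - 1) + (i - e) * dq := by
      intro i hi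
      have h3 := hvq i hi
      have h4 := hvq e he
      rw [hvqe] at h4
      rw [h3]
      linarith
    -- exponents of q of the others are at most k - 2
    have hqlow : ∀ i < k, i ≠ e → (x i).factorization q ≤ k - 2 := by
      intro i hi hie
      by_contra hcon
      push Not at hcon
      have h3 := hfactG i hi (hothers i hi hie).1 q hqp
      have h4 : (x i).factorization q ≠ k - 1 := by
        intro h
        rw [h] at h3
        exact hngr h3
      apply (hothers i hi hie).2
      right; left
      refine ⟨q, hqS, (x i).factorization 2, (x i).factorization q - k, ?_⟩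
      have hP' : ∀ r ∈ S.erase q, r.Prime := fun r hr => hS r (Finset.mem_of_mem_erase hr)
      apply Nat.eq_of_factorization_eq (hpos i hi).ne'
        (by have := PP_pos hP' (k := k); have := hqp.pos; positivity)
      intro p
      by_cases hp : p.Prime
      · rw [Nat.factorization_mul (by have := hqp.pos; positivity) (PP_pos hP').ne',
          Nat.factorization_mul (by positivity) (by have := hqp.pos; positivity),
          Finsupp.add_apply, Finsupp.add_apply, fact_PP hP' p, Nat.prime_two.factorization_pow,
          hqp.factorization_pow, Finsupp.single_apply, Finsupp.single_apply]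
        by_cases hp2 : p = 2
        · subst hp2
          simp [hq2, h2]
        · have hp2' : ¬ (2 = p) := fun h => hp2 h.symm
          by_cases hpq : p = q
          · subst hpq
            simp [hp2']
            omega
          · have hpq' : ¬ (q = p) := fun h => hpq h.symm
            rw [hconst p hp hp2 hpq i hi]
            simp [hp2', hpq, hpq']
      · rw [Nat.factorization_eq_zero_of_not_prime _ hp,
          Nat.factorization_eq_zero_of_not_prime _ hp]
    rcases Nat.eq_zero_or_pos e with he0 | he0
    · apply hfinish0 he0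
      right
      have h3 := hqlow 1 (by omega) (by omega)
      have h4 := hvqi 1 (by omega)
      have h5 := hvqi (k - 1) (by omega)
      rw [he0] at h4 h5
      have h6 : ((k - 1 : ℕ) : ℤ) = (k : ℤ) - 1 := by omega
      rw [h6] at h5
      push_cast at h4 h5
      have h7 : (0 : ℤ) ≤ ((x (k - 1)).factorization q : ℤ) := by positivity
      have h8 : dq ≤ -1 := by omega
      have h9 : -1 ≤ dq := by
        by_contra hc
        push Not at hc
        nlinarith
      omega
    · rcases Nat.lt_or_ge (e + 1) k with he1 | he1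
      · exfalso
        have h3 := hqlow (e + 1) he1 (by omega)
        have h4 := hqlow (e - 1) (by omega) (by omega)
        have h5 := hvqi (e + 1) he1
        have h6 := hvqi (e - 1) (by omega)
        have h7 : ((e - 1 : ℕ) : ℤ) = (e : ℤ) - 1 := by omega
        rw [h7] at h6
        push_cast at h5
        have h8 : ((e : ℤ) + 1 - e) * dq = dq := by ring
        have h9 : ((e : ℤ) - 1 - e) * dq = - dq := by ring
        rw [h8] at h5
        rw [h9] at h6
        omega
      · have hek : e = k - 1 := by omega
        apply hfinish1 hek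
        right
        have h3 := hqlow (k - 2) (by omega) (by omega)
        have h4 := hvqi (k - 2) (by omega)
        have h5 := hvqi 0 (by omega)
        have h6' : ((k - 2 : ℕ) : ℤ) = (k : ℤ) - 2 := by omega
        have h6e : (e : ℤ) = k - 1 := by omega
        rw [h6e] at h4 h5
        rw [h6'] at h4
        push_cast at h4 h5
        have h7 : (0 : ℤ) ≤ ((x 0).factorization q : ℤ) := by positivity
        have h8 : ((k : ℤ) - 2 - (k - 1)) * dq = - dq := by ring
        rw [h8] at h4
        have h9 : 1 ≤ dq := by omega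
        have h10 : dq ≤ 1 := by
          by_contra hc
          push Not at hc
          nlinarith
        omega

end GeoProg
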