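import Pool.Agent.Helper7.GeoProg.PM3

/-! # The local modification: conclusion -/

namespace GeoProg

open Filter Topology

lemma hsum_mono {F F' : Finset ℕ} (h : F ⊆ F') : hsum F ≤ hsum F' := by
  unfold hsum
  exact Finset.sum_le_sum_of_subset_of_nonneg h (fun i _ _ => by positivity)

lemma hsum_nonneg (F : Finset ℕ) : 0 ≤ hsum F := by
  unfold hsum
  exact Finset.sum_nonneg (fun i _ => by positivity)

lemma hsum_union_le (F F' : Finset ℕ) : hsum (F ∪ F') ≤ hsum F + hsum F' := by
  have h := Finset.sum_union_inter (s₁ := F) (s₂ := F') (f := fun b : ℕ => (1 : ℝ) / b)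
  have h2 := hsum_nonneg (F ∩ F')
  unfold hsum at *
  linarith

lemma hsum_biUnion_le (S : Finset ℕ) (f : ℕ → Finset ℕ) :
    hsum (S.biUnion f) ≤ ∑ q ∈ S, hsum (f q) := by
  classical
  induction S using Finset.induction_on with
  | empty => simp [hsum]
  | insert a S ha ih =>
    rw [Finset.biUnion_insert, Finset.sum_insert ha]
    refine (hsum_union_le _ _).trans ?_
    linarith

lemma exists_primes (N₀ : ℕ) (M : ℝ) : ∃ S : Finset ℕ, (∀ q ∈ S, q.Prime ∧ N₀ ≤ q) ∧
    M ≤ ∑ q ∈ S, (1 : ℝ) / q := by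
  classical
  by_contra hcon
  push Not at hcon
  apply not_summable_one_div_on_primes
  -- bound the partial sums
  apply summable_of_sum_le (c := ∑ q ∈ Finset.range N₀, (1 : ℝ) / q + M)
  · intro n
    apply Set.indicator_nonneg
    intro m _
    positivity
  · intro F
    have h1 : ∑ n ∈ F, Set.indicator {p : ℕ | p.Prime} (fun n : ℕ => (1 : ℝ) / n) n =
        ∑ n ∈ F.filter (fun n => n.Prime), (1 : ℝ) / n := by
      rw [Finset.sum_filter]
      apply Finset.sum_congr rfl
      intro b _
      rw [Set.indicator_apply]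
      rfl
    rw [h1]
    have h2 : F.filter (fun n => n.Prime) ⊆
        (Finset.range N₀) ∪ F.filter (fun n => n.Prime ∧ N₀ ≤ n) := by
      intro m hm
      rw [Finset.mem_filter] at hm
      rw [Finset.mem_union, Finset.mem_range, Finset.mem_filter]
      rcases Nat.lt_or_ge m N₀ with h | h
      · exact Or.inl h
      · exact Or.inr ⟨hm.1, hm.2, h⟩
    have h3 := hsum_mono h2
    have h4 := hsum_union_le (Finset.range N₀) (F.filter (fun n => n.Prime ∧ N₀ ≤ n))
    have h5 := hcon (F.filter (fun n => n.Prime ∧ N₀ ≤ n)) (fun q hq => (Finset.mem_filter.1 hq).2)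
    unfold hsum at h3 h4
    linarith

theorem stmtM (V1 : StmtV1) (V2 : StmtV2) (G1 : StmtG1) : StmtM := by
  classical
  intro k hk
  obtain ⟨S, hS', hσ⟩ := exists_primes (2 ^ (k + 2)) 8
  have hS : ∀ q ∈ S, q.Prime := fun q hq => (hS' q hq).1
  have hbig : ∀ q ∈ S, 2 ^ (k + 2) ≤ q := fun q hq => (hS' q hq).2
  have h2 : 2 ∉ S := by
    intro h
    have h1 := hbig 2 h
    have h3 : 2 ^ 5 ≤ 2 ^ (k + 2) := Nat.pow_le_pow_right (by norm_num) (by omega)
    omega
  have h1S : 1 ∉ S := fun h => Nat.not_prime_one (hS 1 h)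
  set R := RR k S with hRdef
  have hR : 0 < R := RR_pos hS
  have hR' : (0 : ℝ) < R := by exact_mod_cast hR
  set K := 2 * R * (1 + ∑ q ∈ S, q) with hKdef
  have hK : ∀ q, q = 1 ∨ q ∈ S → 2 * R * q ≤ K := by
    intro q hq
    apply Nat.mul_le_mul_left
    rcases hq with rfl | hq
    · omega
    · have := Finset.single_le_sum (f := fun q : ℕ => q) (fun i _ => Nat.zero_le i) hq
      omega
  obtain ⟨Z0, hZ0⟩ := tail_Tset k K (1 / (4 * R)) (by positivity)
  set Z := max Z0 (K * K) with hZdef
  have hZK : K * K ≤ Z := le_max_right _ _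
  have hKpos : 1 ≤ K := by
    have := hK 1 (Or.inl rfl)
    have h3 : 0 < 2 * R * 1 := by positivity
    omega
  have hKZ : K ≤ Z := by nlinarith
  refine ⟨Z, K + 1, 1 / (4 * R), by positivity, ?_⟩
  intro n hn B hBs hB hBZ
  obtain ⟨hAP, _, hgr, hngr⟩ := G1 k hk
  have hqpos : ∀ q, (q = 1 ∨ q ∈ S) → 0 < q := by
    rintro q (rfl | hq)
    · norm_num
    · exact (hS q hq).pos
  set Add : Finset ℕ := (insert 1 S).image (fun q => 2 * R * q) with hAdd
  have hmemAdd : ∀ b, b ∈ Add ↔ ∃ q, (q = 1 ∨ q ∈ S) ∧ b = 2 * R * q := by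
    intro b
    rw [hAdd, Finset.mem_image]
    constructor
    · rintro ⟨q, hq, rfl⟩
      exact ⟨q, Finset.mem_insert.1 hq, rfl⟩
    · rintro ⟨q, hq, rfl⟩
      exact ⟨q, Finset.mem_insert.2 hq, rfl⟩
  set Bg := B.filter (fun b => ¬ Bad k S K Z b) with hBg
  have hAddB : ∀ b ∈ Add, b ∉ B := by
    intro b hb hbB
    obtain ⟨q, hq, rfl⟩ := (hmemAdd b).1 hb
    have h3 := (hBZ _ ((hK q hq).trans hKZ) (hBs _ hbB)).1 hbB
    have h4 := h3.2 2 Nat.prime_two
    rw [fact_add hk hS h2 hq Nat.prime_two] at h4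
    simp only [if_true] at h4
    exact hngr h4
  refine ⟨Bg ∪ Add, ?_, ?_, ?_⟩
  · -- smooth
    intro b hb
    rcases Finset.mem_union.1 hb with hb | hb
    · exact hBs b (Finset.mem_filter.1 hb).1
    · obtain ⟨q, hq, rfl⟩ := (hmemAdd b).1 hb
      have hpos : 0 < 2 * R * q := Nat.mul_pos (by positivity) (hqpos q hq)
      rw [Nat.mem_smoothNumbers]
      refine ⟨hpos.ne', ?_⟩
      intro p hp
      have h3 : p ∣ 2 * R * q := Nat.dvd_of_mem_primeFactorsList hp
      have h4 := Nat.le_of_dvd hpos h3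
      have h5 := hK q hq
      omega
  · -- free of progressions
    have h := core V1 V2 G1 hk hS h2 (K := K) (Z := Z) hK hZK hB (fun b hb => hBs b hb)
      (fun s hs hsn => hBZ s hs hsn)
    have e : ((Bg ∪ Add : Finset ℕ) : Set ℕ) =
        {b | (b ∈ (B : Set ℕ) ∧ ¬ Bad k S K Z b) ∨ ∃ q, (q = 1 ∨ q ∈ S) ∧ b = 2 * RR k S * q} := by
      ext b
      rw [Finset.mem_coe, Finset.mem_union, hmemAdd, hBg, Finset.mem_filter]
      rfl
    rw [e]
    exact h
  · -- the weights
    have hdisj : Disjoint Bg Add := by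
      rw [Finset.disjoint_left]
      intro b hb hb'
      exact hAddB b hb' (Finset.mem_filter.1 hb).1
    have hsum' : hsum (Bg ∪ Add) = hsum Bg + hsum Add := by
      unfold hsum
      exact Finset.sum_union hdisj
    have hsB : hsum B = hsum (B.filter (fun b => Bad k S K Z b)) + hsum Bg := by
      unfold hsum
      exact (Finset.sum_filter_add_sum_filter_not B (fun b => Bad k S K Z b) _).symm
    -- the additions
    have hAddsum : hsum Add = 1 / (2 * R) * (1 + ∑ q ∈ S, (1 : ℝ) / q) := by
      unfold hsum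
      rw [hAdd, Finset.sum_image, Finset.sum_insert h1S, mul_add, Finset.mul_sum]
      · congr 1
        · push_cast; ring
        · apply Finset.sum_congr rfl
          intro q hq
          have : (0 : ℝ) < q := by exact_mod_cast (hS q hq).pos
          push_cast
          field_simp
      · intro a _ b _ hab
        exact Nat.eq_of_mul_eq_mul_left (by positivity) hab
    -- the removals
    have hrem : hsum (B.filter (fun b => Bad k S K Z b)) ≤
        2 / R + ∑ q ∈ S, 1 / (4 * R) * ((1 : ℝ) / q) + 1 / (4 * R) := by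
      have hsub : B.filter (fun b => Bad k S K Z b) ⊆
          (B.filter (fun b => ∃ j, b = 2 ^ j * R)) ∪
          ((S.biUnion (fun q => B.filter
            (fun b => ∃ x y, b = 2 ^ x * q ^ (y + k) * PP k (S.erase q)))) ∪
          (B.filter (fun b => Z < b ∧ b ∈ Tset k K))) := by
        intro b hb
        rw [Finset.mem_filter] at hb
        obtain ⟨hb1, hb2⟩ := hb
        rw [Finset.mem_union, Finset.mem_union, Finset.mem_biUnion]
        rcases hb2 with h | ⟨q, hq, h⟩ | h
        · left; exact Finset.mem_filter.2 ⟨hb1, h⟩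
        · right; left; exact ⟨q, hq, Finset.mem_filter.2 ⟨hb1, h⟩⟩
        · right; right; exact Finset.mem_filter.2 ⟨hb1, h⟩
      have h3 := hsum_mono hsub
      have h4 := hsum_union_le (B.filter (fun b => ∃ j, b = 2 ^ j * R))
        ((S.biUnion (fun q => B.filter
            (fun b => ∃ x y, b = 2 ^ x * q ^ (y + k) * PP k (S.erase q)))) ∪
          (B.filter (fun b => Z < b ∧ b ∈ Tset k K)))
      have h5 := hsum_union_le (S.biUnion (fun q => B.filter
            (fun b => ∃ x y, b = 2 ^ x * q ^ (y + k) * PP k (S.erase q))))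
          (B.filter (fun b => Z < b ∧ b ∈ Tset k K))
      have h6 := hsum_biUnion_le S (fun q => B.filter
            (fun b => ∃ x y, b = 2 ^ x * q ^ (y + k) * PP k (S.erase q)))
      have h7 : hsum (B.filter (fun b => ∃ j, b = 2 ^ j * R)) ≤ 2 / R :=
        hsum_two_pow R hR _ (fun b hb => (Finset.mem_filter.1 hb).2)
      have h8 : hsum (B.filter (fun b => Z < b ∧ b ∈ Tset k K)) ≤ 1 / (4 * R) := by
        apply le_of_lt
        apply hZ0
        intro b hb
        have := (Finset.mem_filter.1 hb).2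
        exact ⟨lt_of_le_of_lt (le_max_left _ _) this.1, this.2⟩
      have h9 : ∑ q ∈ S, hsum (B.filter
            (fun b => ∃ x y, b = 2 ^ x * q ^ (y + k) * PP k (S.erase q))) ≤
          ∑ q ∈ S, 1 / (4 * R) * ((1 : ℝ) / q) := by
        apply Finset.sum_le_sum
        intro q hq
        have hP' : ∀ r ∈ S.erase q, r.Prime := fun r hr => hS r (Finset.mem_of_mem_erase hr)
        have hqp := hS q hq
        have hq0 : (0 : ℝ) < q := by exact_mod_cast hqp.pos
        have h10 := hsum_two_q k q (PP k (S.erase q)) hqp.two_le (PP_pos hP')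
          (B.filter (fun b => ∃ x y, b = 2 ^ x * q ^ (y + k) * PP k (S.erase q)))
          (fun b hb => (Finset.mem_filter.1 hb).2)
        refine h10.trans ?_
        have hPP : PP k S = q ^ (k - 2) * PP k (S.erase q) := by
          unfold PP
          rw [Finset.mul_prod_erase S (fun r => r ^ (k - 2)) hq]
        have hW : (0 : ℝ) < (PP k (S.erase q) : ℝ) := by exact_mod_cast PP_pos hP'
        have hReq : (R : ℝ) = 2 ^ (k - 2) * (q ^ (k - 2) * (PP k (S.erase q) : ℝ)) := by
          rw [hRdef]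
          unfold RR
          rw [hPP]
          push_cast
          ring
        have hqbig : (2 : ℝ) ^ (k + 2) ≤ q := by exact_mod_cast hbig q hq
        have hk2 : k = (k - 2) + 2 := by omega
        rw [hReq]
        rw [div_le_iff₀ (by positivity)]
        have h11 : 1 / (4 * (2 ^ (k - 2) * ((q : ℝ) ^ (k - 2) * (PP k (S.erase q) : ℝ)))) *
            ((1 : ℝ) / q) * ((q : ℝ) ^ k * (PP k (S.erase q) : ℝ)) = q / (4 * 2 ^ (k - 2)) := by
          have e1 : (q : ℝ) ^ k = (q : ℝ) ^ (k - 2) * q ^ 2 := by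
            rw [← pow_add]; congr 1
          rw [e1]
          field_simp
        rw [h11, le_div_iff₀ (by positivity)]
        have e2 : (4 : ℝ) * (4 * 2 ^ (k - 2)) = 2 ^ (k + 2) := by
          have : k + 2 = (k - 2) + 4 := by omega
          rw [this, pow_add]
          ring
        rw [e2]
        exact hqbig
      linarith
    have hsplit : ∑ q ∈ S, 1 / (4 * (R : ℝ)) * ((1 : ℝ) / q) =
        1 / (4 * R) * ∑ q ∈ S, (1 : ℝ) / q := by
      rw [Finset.mul_sum]
    rw [hsplit] at hrem
    rw [hsum', hsB, hAddsum]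
    set σ := ∑ q ∈ S, (1 : ℝ) / q with hσdef
    have hfin : 1 / (4 * (R : ℝ)) + (2 / R + 1 / (4 * R) * σ + 1 / (4 * R)) ≤
        1 / (2 * R) * (1 + σ) := by
      have hRi : (0 : ℝ) < 1 / R := by positivity
      have e1 : 1 / (4 * (R : ℝ)) = 1 / 4 * (1 / R) := by field_simp
      have e2 : (2 : ℝ) / R = 2 * (1 / R) := by ring
      have e3 : 1 / (2 * (R : ℝ)) = 1 / 2 * (1 / R) := by field_simp
      rw [e1, e2, e3]
      nlinarith
    linarith

end GeoProg
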