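import Pool.Agent.Helper7.GeoProg.Stmts

/-!
# MP_f5ac68_nt, packet 7: lower bounds
-/

namespace GeoProg

open Filter Topology Finset

namespace PB

theorem gpfree_mono {k : ℕ} {A B : Set ℕ} (h : A ⊆ B) (hB : GPFree k B) : GPFree k A := by
  refine ⟨fun m hm => hB.1 m (h hm), fun ⟨a, q, ha, hq, hi⟩ => hB.2 ⟨a, q, ha, hq, ?_⟩⟩
  intro i hik
  obtain ⟨m, hm, hm'⟩ := hi i hik
  exact ⟨m, h hm, hm'⟩

/-- the members of `A` in `[1, N]` as a finite set -/
noncomputable def fin (A : Set ℕ) (N : ℕ) : Finset ℕ :=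
  @Finset.filter ℕ (fun x => x ∈ A) (Classical.decPred _) (Finset.Icc 1 N)

theorem mem_fin {A : Set ℕ} {N x : ℕ} : x ∈ fin A N ↔ (1 ≤ x ∧ x ≤ N) ∧ x ∈ A := by
  simp only [fin, Finset.mem_filter, Finset.mem_Icc]

theorem count_eq_fin (A : Set ℕ) (N : ℕ) : count A N = (fin A N).card := by
  unfold count
  rw [← Set.ncard_coe_finset]
  congr 1
  ext x
  simp only [Set.mem_inter_iff, Set.mem_Icc, Finset.mem_coe, mem_fin]
  tauto

/-- `(count Q (N / s)) / N → D / s`. -/
theorem tendsto_count_div {Q : Set ℕ} {D : ℝ} (hQ : HasDensity Q D) {s : ℕ} (hs : 0 < s) :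
    Tendsto (fun N : ℕ => (count Q (N / s) : ℝ) / N) atTop (𝓝 (D * (1 / (s : ℝ)))) := by
  have hs' : (0 : ℝ) < s := by exact_mod_cast hs
  have h1 : Tendsto (fun N : ℕ => N / s) atTop atTop :=
    Nat.tendsto_div_const_atTop hs.ne'
  have h2 : Tendsto (fun N : ℕ => ((N / s : ℕ) : ℝ) / N) atTop (𝓝 (1 / (s : ℝ))) := by
    have hl : Tendsto (fun N : ℕ => 1 / (s : ℝ) - 1 / (N : ℝ)) atTop (𝓝 (1 / (s : ℝ) - 0)) :=
      tendsto_const_nhds.sub tendsto_one_div_atTop_nhds_zero_nat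
    rw [sub_zero] at hl
    refine tendsto_of_tendsto_of_tendsto_of_le_of_le' hl tendsto_const_nhds ?_ ?_
    · filter_upwards [eventually_gt_atTop 0] with N hN
      have hN' : (0 : ℝ) < N := by exact_mod_cast hN
      rw [div_sub_div _ _ hs'.ne' hN'.ne', div_le_div_iff₀ (by positivity) hN']
      have h3 : N < s * (N / s) + s := by
        have := Nat.div_add_mod N s
        have := Nat.mod_lt N hs
        omega
      have h4 : (N : ℝ) ≤ s * ((N / s : ℕ) : ℝ) + s := by exact_mod_cast h3.le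
      nlinarith
    · filter_upwards [eventually_gt_atTop 0] with N hN
      have hN' : (0 : ℝ) < N := by exact_mod_cast hN
      rw [div_le_div_iff₀ hN' hs']
      have h3 : (N / s) * s ≤ N := Nat.div_mul_le_self N s
      have h4 : ((N / s : ℕ) : ℝ) * s ≤ N := by exact_mod_cast h3
      linarith
  have h3 : Tendsto (fun N : ℕ => (count Q (N / s) : ℝ) / ((N / s : ℕ) : ℝ)) atTop (𝓝 D) :=
    Tendsto.comp hQ h1
  refine (h3.mul h2).congr' ?_
  filter_upwards [eventually_ge_atTop s] with N hN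
  have h4 : 0 < N / s := Nat.div_pos hN hs
  have h5 : (((N / s : ℕ) : ℝ)) ≠ 0 := by exact_mod_cast h4.ne'
  have h6 : (N : ℝ) ≠ 0 := by exact_mod_cast (lt_of_lt_of_le hs hN).ne'
  field_simp

theorem smooth_pos {n s : ℕ} (h : s ∈ Nat.smoothNumbers n) : 0 < s :=
  Nat.pos_of_ne_zero (Nat.ne_zero_of_mem_smoothNumbers h)

end PB

open PB

/-- Packet B1. -/
theorem stmtB1 (hD1 : StmtD1) (hD2 : StmtD2) : StmtB1 := by
  classical
  intro k n Q D B hk hQ hrough hdens hB hBg
  refine ⟨{x | ∃ m ∈ Q, ∃ s ∈ (B : Set ℕ), x = s * m},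
    hD2 k n Q (fun _ => (B : Set ℕ)) hk hQ hrough fun m _ => ⟨hBg, fun s hs => hB s hs⟩, ?_⟩
  have hcount : ∀ N, count {x | ∃ m ∈ Q, ∃ s ∈ (B : Set ℕ), x = s * m} N =
      ∑ s ∈ B, count Q (N / s) := by
    intro N
    rw [count_eq_fin]
    have h1 : fin {x | ∃ m ∈ Q, ∃ s ∈ (B : Set ℕ), x = s * m} N =
        B.biUnion (fun s => (fin Q (N / s)).image (fun m => s * m)) := by
      ext x
      rw [mem_fin, Finset.mem_biUnion]
      constructor
      · rintro ⟨⟨hx1, hxN⟩, m, hm, s, hs, rfl⟩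
        refine ⟨s, hs, Finset.mem_image.mpr ⟨m, mem_fin.mpr ⟨⟨hQ.1 m hm, ?_⟩, hm⟩, rfl⟩⟩
        rw [Nat.le_div_iff_mul_le (smooth_pos (hB s hs)), mul_comm]
        exact hxN
      · rintro ⟨s, hs, hx⟩
        obtain ⟨m, hm, rfl⟩ := Finset.mem_image.mp hx
        obtain ⟨⟨hm1, hmN⟩, hmQ⟩ := mem_fin.mp hm
        have hspos := smooth_pos (hB s hs)
        refine ⟨⟨Nat.mul_pos hspos hm1, ?_⟩, m, hmQ, s, hs, rfl⟩
        rw [Nat.le_div_iff_mul_le hspos, mul_comm] at hmN
        exact hmN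
    rw [h1, Finset.card_biUnion]
    · refine Finset.sum_congr rfl fun s hs => ?_
      rw [count_eq_fin, Finset.card_image_of_injective]
      intro a b hab
      exact Nat.eq_of_mul_eq_mul_left (smooth_pos (hB s hs)) hab
    · intro s hs t ht hst
      rw [Function.onFun, Finset.disjoint_left]
      intro x hx hx'
      obtain ⟨m, hm, rfl⟩ := Finset.mem_image.mp hx
      obtain ⟨m', hm', hmm⟩ := Finset.mem_image.mp hx'
      have := (hD1 n).2 t s m' m (hB t ht) (hB s hs) (hrough _ (mem_fin.mp hm').2)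
        (hrough _ (mem_fin.mp hm).2) hmm
      exact hst this.1.symm
  unfold HasDensity hsum
  rw [Finset.mul_sum]
  have h2 : (fun N : ℕ => (count {x | ∃ m ∈ Q, ∃ s ∈ (B : Set ℕ), x = s * m} N : ℝ) / N) =
      fun N : ℕ => ∑ s ∈ B, (count Q (N / s) : ℝ) / N := by
    funext N
    rw [hcount N]
    push_cast
    rw [Finset.sum_div]
  rw [h2]
  exact tendsto_finsetSum _ fun s hs => tendsto_count_div hdens (smooth_pos (hB s hs))

/-- Packet B2. -/
theorem stmtB2 (hD1 : StmtD1) (hD2 : StmtD2) : StmtB2 := by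
  classical
  intro k n T Q D B hk hT hQ hrough hdens hB ε hε
  -- the level of `m`
  obtain ⟨lev, hlev⟩ : ∃ lev : ℕ → ℕ → ℕ, ∀ N m, lev N m = min (N / m) T := ⟨_, fun _ _ => rfl⟩
  obtain ⟨F, hF⟩ : ∃ F : ℕ → Finset ℕ, ∀ N, F N =
      (fin Q N).biUnion (fun m => (B (lev N m)).image (fun s => s * m)) := ⟨_, fun _ => rfl⟩
  have hlev1 : ∀ N m, m ∈ fin Q N → 1 ≤ lev N m ∧ lev N m ≤ T := by
    intro N m hm
    obtain ⟨⟨hm1, hmN⟩, _⟩ := mem_fin.mp hm
    rw [hlev]
    exact ⟨le_min (Nat.div_pos hmN hm1) hT, min_le_right _ _⟩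
  have hsub : ∀ N, F N ⊆ Finset.Icc 1 N := by
    intro N x hx
    rw [hF, Finset.mem_biUnion] at hx
    obtain ⟨m, hm, hx⟩ := hx
    obtain ⟨s, hs, rfl⟩ := Finset.mem_image.mp hx
    obtain ⟨h1, h2⟩ := hlev1 N m hm
    obtain ⟨hsm, _, hle⟩ := hB _ h1 h2
    obtain ⟨⟨hm1, hmN⟩, _⟩ := mem_fin.mp hm
    rw [Finset.mem_Icc]
    refine ⟨Nat.mul_pos (smooth_pos (hsm s hs)) hm1, ?_⟩
    have h3 : s ≤ N / m := le_trans (hle s hs) (by rw [hlev]; exact min_le_left _ _)
    rwa [Nat.le_div_iff_mul_le hm1] at h3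
  have hgp : ∀ N, GPFree k (F N : Set ℕ) := by
    intro N
    have h1 := hD2 k n (fin Q N : Set ℕ) (fun m => (B (lev N m) : Set ℕ)) hk
      (gpfree_mono (fun x hx => (mem_fin.mp (Finset.mem_coe.mp hx)).2) hQ)
      (fun m hm => hrough m (mem_fin.mp (Finset.mem_coe.mp hm)).2)
      (fun m hm => ⟨(hB _ (hlev1 N m hm).1 (hlev1 N m hm).2).2.1,
        fun s hs => (hB _ (hlev1 N m hm).1 (hlev1 N m hm).2).1 s hs⟩)
    refine gpfree_mono ?_ h1
    intro x hx
    rw [Finset.mem_coe, hF, Finset.mem_biUnion] at hx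
    obtain ⟨m, hm, hx⟩ := hx
    obtain ⟨s, hs, rfl⟩ := Finset.mem_image.mp hx
    exact ⟨m, hm, s, hs, rfl⟩
  have hcard : ∀ N, (F N).card = ∑ m ∈ fin Q N, (B (lev N m)).card := by
    intro N
    rw [hF, Finset.card_biUnion]
    · refine Finset.sum_congr rfl fun m hm => ?_
      rw [Finset.card_image_of_injective]
      intro a b hab
      exact Nat.eq_of_mul_eq_mul_right (mem_fin.mp hm).1.1 hab
    · intro m hm m' hm' hmm
      rw [Function.onFun, Finset.disjoint_left]
      intro x hx hx'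
      obtain ⟨s, hs, rfl⟩ := Finset.mem_image.mp hx
      obtain ⟨s', hs', hss⟩ := Finset.mem_image.mp hx'
      have h1 := hlev1 N m hm
      have h2 := hlev1 N m' hm'
      have := (hD1 n).2 s' s m' m ((hB _ h2.1 h2.2).1 s' hs') ((hB _ h1.1 h1.2).1 s hs)
        (hrough _ (mem_fin.mp hm').2) (hrough _ (mem_fin.mp hm).2) hss
      exact hmm this.2.symm
  -- the number of `m` of a given level
  have hfib : ∀ N, ∑ m ∈ fin Q N, (B (lev N m)).card =
      ∑ j ∈ Finset.Icc 1 T, ((fin Q N).filter (fun m => lev N m = j)).card * (B j).card := by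
    intro N
    rw [← Finset.sum_fiberwise_of_maps_to (s := fin Q N) (t := Finset.Icc 1 T)
      (g := fun m => lev N m) (fun m hm => Finset.mem_Icc.mpr (hlev1 N m hm))]
    refine Finset.sum_congr rfl fun j _ => ?_
    rw [Finset.sum_congr rfl (g := fun _ => (B j).card) (fun m hm => by
      rw [(Finset.mem_filter.mp hm).2]), Finset.sum_const, smul_eq_mul]
  have hlevT : ∀ N, ((fin Q N).filter (fun m => lev N m = T)).card = count Q (N / T) := by
    intro N
    rw [count_eq_fin]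
    congr 1
    ext m
    rw [Finset.mem_filter, mem_fin, mem_fin, hlev]
    constructor
    · rintro ⟨⟨⟨h1, h2⟩, h3⟩, h4⟩
      refine ⟨⟨h1, ?_⟩, h3⟩
      have h5 : T ≤ N / m := by rw [← h4]; exact min_le_left _ _
      rw [Nat.le_div_iff_mul_le h1] at h5
      rw [Nat.le_div_iff_mul_le (by omega), mul_comm]
      exact h5
    · rintro ⟨⟨h1, h2⟩, h3⟩
      rw [Nat.le_div_iff_mul_le (by omega), mul_comm] at h2
      have h5 : T ≤ N / m := (Nat.le_div_iff_mul_le h1).mpr h2
      refine ⟨⟨⟨h1, ?_⟩, h3⟩, min_eq_right h5⟩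
      nlinarith
  have hlevj : ∀ N, ∀ j, 1 ≤ j → j < T →
      ((fin Q N).filter (fun m => lev N m = j)).card + count Q (N / (j + 1)) =
        count Q (N / j) := by
    intro N j hj hjT
    rw [count_eq_fin, count_eq_fin, ← Finset.card_union_of_disjoint]
    · congr 1
      ext m
      rw [Finset.mem_union, Finset.mem_filter, mem_fin, mem_fin, mem_fin, hlev]
      constructor
      · rintro (⟨⟨⟨h1, h2⟩, h3⟩, h4⟩ | ⟨⟨h1, h2⟩, h3⟩)
        · refine ⟨⟨h1, ?_⟩, h3⟩
          have h5 : j ≤ N / m := by rw [← h4]; exact min_le_left _ _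
          rw [Nat.le_div_iff_mul_le h1] at h5
          rw [Nat.le_div_iff_mul_le (by omega), mul_comm]
          exact h5
        · refine ⟨⟨h1, ?_⟩, h3⟩
          rw [Nat.le_div_iff_mul_le (by omega)] at h2
          rw [Nat.le_div_iff_mul_le (by omega)]
          nlinarith
      · rintro ⟨⟨h1, h2⟩, h3⟩
        rw [Nat.le_div_iff_mul_le (by omega), mul_comm] at h2
        have h5 : j ≤ N / m := (Nat.le_div_iff_mul_le h1).mpr h2
        by_cases h6 : j + 1 ≤ N / m
        · right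
          rw [Nat.le_div_iff_mul_le h1] at h6
          refine ⟨⟨h1, ?_⟩, h3⟩
          rw [Nat.le_div_iff_mul_le (by omega), mul_comm]
          exact h6
        · left
          have h7 : N / m = j := by omega
          refine ⟨⟨⟨h1, ?_⟩, h3⟩, ?_⟩
          · nlinarith
          · rw [h7]; exact min_eq_left hjT.le
    · rw [Finset.disjoint_left]
      intro m hm hm'
      obtain ⟨hm1, hm2⟩ := Finset.mem_filter.mp hm
      obtain ⟨⟨h1, h2⟩, _⟩ := mem_fin.mp hm'
      rw [Nat.le_div_iff_mul_le (by omega), mul_comm] at h2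
      have h5 : j + 1 ≤ N / m := (Nat.le_div_iff_mul_le h1).mpr h2
      rw [hlev] at hm2
      have : j + 1 ≤ min (N / m) T := le_min h5 hjT
      omega
  -- the limit
  have hlim : Tendsto (fun N : ℕ => ((F N).card : ℝ) / N) atTop
      (𝓝 (D * (∑ j ∈ Finset.Ico 1 T, ((B j).card : ℝ) / ((j : ℝ) * (j + 1)) +
        ((B T).card : ℝ) / T))) := by
    have hfun : ∀ N : ℕ, ((F N).card : ℝ) / N =
        ∑ j ∈ Finset.Ico 1 T, ((count Q (N / j) : ℝ) / N - (count Q (N / (j + 1)) : ℝ) / N) *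
          ((B j).card : ℝ) + (count Q (N / T) : ℝ) / N * ((B T).card : ℝ) := by
      intro N
      rw [hcard N, hfib N]
      push_cast
      rw [← Finset.Ico_succ_right_eq_Icc, Nat.succ_eq_succ, Finset.sum_Ico_succ_top hT, add_div,
        Finset.sum_div, hlevT N]
      congr 1
      · refine Finset.sum_congr rfl fun j hj => ?_
        obtain ⟨hj1, hj2⟩ := Finset.mem_Ico.mp hj
        have h1 := hlevj N j hj1 hj2
        have h2 : (((fin Q N).filter (fun m => lev N m = j)).card : ℝ) =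
            (count Q (N / j) : ℝ) - count Q (N / (j + 1)) := by
          rw [← h1]; push_cast; ring
        rw [h2]
        ring
      · ring
    have hT' : 0 < T := hT
    have h1 : Tendsto (fun N : ℕ =>
        ∑ j ∈ Finset.Ico 1 T, ((count Q (N / j) : ℝ) / N - (count Q (N / (j + 1)) : ℝ) / N) *
          ((B j).card : ℝ) + (count Q (N / T) : ℝ) / N * ((B T).card : ℝ)) atTop
        (𝓝 (∑ j ∈ Finset.Ico 1 T, (D * (1 / (j : ℝ)) - D * (1 / ((j + 1 : ℕ) : ℝ))) *
          ((B j).card : ℝ) + D * (1 / (T : ℝ)) * ((B T).card : ℝ))) := by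
      refine Tendsto.add ?_ ((tendsto_count_div hdens hT').mul_const _)
      refine tendsto_finsetSum _ fun j hj => ?_
      have hj1 : 0 < j := (Finset.mem_Ico.mp hj).1
      exact ((tendsto_count_div hdens hj1).sub
        (tendsto_count_div hdens (Nat.succ_pos j))).mul_const _
    have h2 : (∑ j ∈ Finset.Ico 1 T, (D * (1 / (j : ℝ)) - D * (1 / ((j + 1 : ℕ) : ℝ))) *
          ((B j).card : ℝ) + D * (1 / (T : ℝ)) * ((B T).card : ℝ)) =
        D * (∑ j ∈ Finset.Ico 1 T, ((B j).card : ℝ) / ((j : ℝ) * (j + 1)) +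
        ((B T).card : ℝ) / T) := by
      rw [mul_add, Finset.mul_sum]
      congr 1
      · refine Finset.sum_congr rfl fun j hj => ?_
        have hj1 : (0 : ℝ) < j := by exact_mod_cast (Finset.mem_Ico.mp hj).1
        push_cast
        field_simp
        ring
      · ring
    rw [h2] at h1
    exact h1.congr fun N => (hfun N).symm
  have hev := hlim.eventually (lt_mem_nhds (sub_lt_self _ hε))
  filter_upwards [hev, eventually_gt_atTop 0] with N hN hN0
  refine ⟨F N, hsub N, hgp N, ?_⟩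
  have hN' : (0 : ℝ) < N := by exact_mod_cast hN0
  rw [lt_div_iff₀ hN'] at hN
  exact hN.le

end GeoProg
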