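import Pool.Agent.Helper7.GeoProg.Stmts2
import Pool.Agent.Helper7.GeoProg.Basic
import Pool.Agent.Helper7.GeoProg.P_B

/-!
# MP_f5ac68_nt, packet 11: the upper bound for `alpha` by the smooth cardinalities
-/

namespace GeoProg

open Filter Topology Finset

theorem A2_bdd (k n j : ℕ) : BddAbove {c : ℕ | ∃ B : Finset ℕ, SmoothFin n B ∧
    (∀ b ∈ B, b ≤ j) ∧ GPFree k (B : Set ℕ) ∧ c = B.card} := by
  refine ⟨j + 1, ?_⟩
  rintro c ⟨B, _, hj, _, rfl⟩
  have h1 : B ⊆ Finset.range (j + 1) := fun b hb => by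
    rw [Finset.mem_range]; have := hj b hb; omega
  calc B.card ≤ (Finset.range (j + 1)).card := Finset.card_le_card h1
    _ = j + 1 := Finset.card_range _

/-- Packet A2. -/
theorem stmtA2 : StmtA2 := by
  intro k n j hk
  refine ⟨?_, fun B h1 h2 h3 => le_csSup (A2_bdd k n j) ⟨B, h1, h2, h3, rfl⟩⟩
  have hne : {c : ℕ | ∃ B : Finset ℕ, SmoothFin n B ∧
      (∀ b ∈ B, b ≤ j) ∧ GPFree k (B : Set ℕ) ∧ c = B.card}.Nonempty := by
    refine ⟨0, ∅, fun b hb => absurd hb (Finset.notMem_empty b),
      fun b hb => absurd hb (Finset.notMem_empty b), ?_, by simp⟩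
    rw [Finset.coe_empty]
    exact gpFree_empty k (by omega)
  exact Nat.sSup_mem hne (A2_bdd k n j)

theorem smoothCard_zero {k n : ℕ} (hk : 3 ≤ k) : smoothCard k n 0 = 0 := by
  obtain ⟨⟨B, hB, hB0, _, hc⟩, _⟩ := stmtA2 k n 0 hk
  rw [hc, Finset.card_eq_zero, Finset.eq_empty_iff_forall_notMem]
  intro b hb
  have h1 := hB0 b hb
  have h2 := PB.smooth_pos (hB b hb)
  omega

theorem smoothCard_mono_succ {k n : ℕ} (hk : 3 ≤ k) (j : ℕ) :
    smoothCard k n j ≤ smoothCard k n (j + 1) := by
  obtain ⟨⟨B, hB, hBj, hg, hc⟩, _⟩ := stmtA2 k n j hk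
  rw [hc]
  exact (stmtA2 k n (j + 1) hk).2 B hB (fun b hb => le_trans (hBj b hb) (Nat.le_succ j)) hg

theorem smoothCard_succ_le {k n : ℕ} (hk : 3 ≤ k) (j : ℕ) :
    (smoothCard k n (j + 1) : ℝ) ≤ smoothCard k n j +
      (Nat.smoothNumbers n).indicator (fun _ => (1 : ℝ)) (j + 1) := by
  classical
  obtain ⟨⟨B, hB, hBj, hg, hc⟩, _⟩ := stmtA2 k n (j + 1) hk
  have h1 : (B.erase (j + 1)).card ≤ smoothCard k n j := by
    refine (stmtA2 k n j hk).2 _ (fun b hb => hB b (Finset.mem_of_mem_erase hb)) ?_ ?_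
    · intro b hb
      have h1 := hBj b (Finset.mem_of_mem_erase hb)
      have h2 := Finset.ne_of_mem_erase hb
      omega
    · exact hg.mono (by intro b hb; exact Finset.mem_of_mem_erase (Finset.mem_coe.mp hb))
  rw [hc]
  by_cases hm : j + 1 ∈ B
  · rw [Set.indicator_of_mem (hB _ hm)]
    rw [Finset.card_erase_of_mem hm] at h1
    have : B.card ≤ smoothCard k n j + 1 := by omega
    exact_mod_cast this
  · rw [Finset.erase_eq_of_notMem hm] at h1
    have h2 : (0 : ℝ) ≤ (Nat.smoothNumbers n).indicator (fun _ => (1 : ℝ)) (j + 1) :=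
      Set.indicator_nonneg (fun _ _ => zero_le_one) _
    have h3 : (B.card : ℝ) ≤ smoothCard k n j := by exact_mod_cast h1
    linarith

/-- the jumps of `smoothCard` -/
noncomputable def jump (k n i : ℕ) : ℝ := (smoothCard k n i : ℝ) - smoothCard k n (i - 1)

theorem jump_nonneg {k n : ℕ} (hk : 3 ≤ k) (i : ℕ) : 0 ≤ jump k n i := by
  unfold jump
  rcases i with _ | i
  · simp
  · have := smoothCard_mono_succ (n := n) hk i
    have h : (smoothCard k n i : ℝ) ≤ smoothCard k n (i + 1) := by exact_mod_cast this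
    simpa using h

theorem jump_le {k n : ℕ} (hk : 3 ≤ k) (i : ℕ) :
    jump k n i ≤ (Nat.smoothNumbers n).indicator (fun _ => (1 : ℝ)) i := by
  unfold jump
  rcases i with _ | i
  · simp only [Nat.zero_sub, sub_self]
    exact Set.indicator_nonneg (fun _ _ => zero_le_one) _
  · have := smoothCard_succ_le (n := n) hk i
    simp only [Nat.add_sub_cancel]
    linarith

theorem sum_jump {k n : ℕ} (hk : 3 ≤ k) (j : ℕ) :
    (smoothCard k n j : ℝ) = ∑ i ∈ range (j + 1), jump k n i := by
  induction j with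
  | zero => simp [jump, smoothCard_zero hk]
  | succ j ih =>
    rw [Finset.sum_range_succ, ← ih]
    simp [jump]

theorem jump_div_le {k n : ℕ} (hk : 3 ≤ k) (i : ℕ) : jump k n i / i ≤
    (Nat.smoothNumbers n).indicator (fun s : ℕ => 1 / (s : ℝ)) i := by
  have h := jump_le (n := n) hk i
  by_cases hi : i ∈ Nat.smoothNumbers n
  · rw [Set.indicator_of_mem hi] at h ⊢
    gcongr
  · rw [Set.indicator_of_notMem hi] at h ⊢
    have h0 := jump_nonneg (n := n) hk i
    have : jump k n i = 0 := le_antisymm h h0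
    rw [this, zero_div]

theorem summable_jump (hS : StmtS) {k n : ℕ} (hk : 3 ≤ k) :
    Summable (fun i : ℕ => jump k n i / i) := by
  refine Summable.of_nonneg_of_le (fun i => div_nonneg (jump_nonneg hk i) (Nat.cast_nonneg i))
    (fun i => jump_div_le hk i) (hS n).2.2.summable

/-- `f(J)/(J+1) → 0`. -/
theorem smoothCard_div_tendsto (hS : StmtS) {k n : ℕ} (hk : 3 ≤ k) :
    Tendsto (fun J : ℕ => (smoothCard k n J : ℝ) / ((J : ℝ) + 1)) atTop (𝓝 0) := by
  have hsum := summable_jump hS (n := n) hk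
  have h1 : Tendsto (fun J : ℕ => ∑' i : ℕ,
      (if i ≤ J then jump k n i / ((J : ℝ) + 1) else 0)) atTop (𝓝 (∑' _i : ℕ, (0 : ℝ))) := by
    refine tendsto_tsum_of_dominated_convergence hsum (fun i => ?_) (Eventually.of_forall
      fun J i => ?_)
    · refine squeeze_zero' (g := fun J : ℕ => jump k n i * (1 / ((J : ℝ) + 1))) ?_ ?_ ?_
      · refine Eventually.of_forall fun J => ?_
        split_ifs
        · exact div_nonneg (jump_nonneg hk i) (by positivity)
        · exact le_rfl
      · refine Eventually.of_forall fun J => ?_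
        have h0 := jump_nonneg (n := n) hk i
        split_ifs
        · rw [mul_one_div]
        · positivity
      · have := (tendsto_one_div_add_atTop_nhds_zero_nat (𝕜 := ℝ)).const_mul (jump k n i)
        rwa [mul_zero] at this
    · have h0 := jump_nonneg (n := n) hk i
      split_ifs with hij
      · rw [Real.norm_eq_abs, abs_of_nonneg (div_nonneg h0 (by positivity))]
        rcases i with _ | i
        · simp [jump]
        · have : ((i + 1 : ℕ) : ℝ) ≤ (J : ℝ) + 1 := by
            have : i + 1 ≤ J + 1 := by omega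
            exact_mod_cast this
          exact div_le_div_of_nonneg_left h0 (by positivity) this
      · rw [norm_zero]
        exact div_nonneg h0 (Nat.cast_nonneg i)
  rw [tsum_zero] at h1
  refine h1.congr fun J => ?_
  rw [tsum_eq_sum (s := range (J + 1))]
  · rw [sum_jump hk J, Finset.sum_div]
    refine Finset.sum_congr rfl fun i hi => ?_
    rw [if_pos (by have := Finset.mem_range.mp hi; omega)]
  · intro i hi
    rw [if_neg (by rw [Finset.mem_range] at hi; omega)]

theorem abel_smoothCard {k n : ℕ} (hk : 3 ≤ k) (J : ℕ) :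
    ∑ j ∈ range (J + 1), (smoothCard k n j : ℝ) / ((j : ℝ) * (j + 1)) +
      (smoothCard k n J : ℝ) / ((J : ℝ) + 1) = ∑ i ∈ range (J + 1), jump k n i / i := by
  induction J with
  | zero => simp [smoothCard_zero hk]
  | succ J ih =>
    rw [Finset.sum_range_succ, Finset.sum_range_succ _ (J + 1), ← ih]
    unfold jump
    have h1 : ((J : ℝ) + 1) ≠ 0 := by positivity
    have h2 : ((J : ℝ) + 1 + 1) ≠ 0 := by positivity
    push_cast
    field_simp
    ring

theorem hasSum_smoothCard (hS : StmtS) {k n : ℕ} (hk : 3 ≤ k) :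
    HasSum (fun j : ℕ => (smoothCard k n j : ℝ) / ((j : ℝ) * (j + 1)))
      (∑' i : ℕ, jump k n i / i) := by
  rw [hasSum_iff_tendsto_nat_of_nonneg (fun j => by positivity)]
  rw [← tendsto_add_atTop_iff_nat 1]
  have h1 := (summable_jump hS (n := n) hk).hasSum.tendsto_sum_nat.comp (tendsto_add_atTop_nat 1)
  have h2 := h1.sub (smoothCard_div_tendsto hS (n := n) hk)
  rw [sub_zero] at h2
  refine h2.congr fun J => ?_
  show ∑ i ∈ range (J + 1), jump k n i / i - (smoothCard k n J : ℝ) / ((J : ℝ) + 1) = _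
  rw [← abel_smoothCard hk J]
  ring

/-- the counting bound rewritten with the jumps -/
theorem rough_sum_eq {k n : ℕ} (hk : 3 ≤ k) (N : ℕ) :
    ∑ m ∈ Finset.Icc 1 N, {m | Rough n m}.indicator
      (fun m : ℕ => (smoothCard k n (N / m) : ℝ)) m =
    ∑ i ∈ range (N + 1), jump k n i * (count {m | Rough n m} (N / i) : ℝ) := by
  classical
  have h1 : ∀ m ∈ Finset.Icc 1 N, {m | Rough n m}.indicator
      (fun m : ℕ => (smoothCard k n (N / m) : ℝ)) m =
      ∑ i ∈ range (N + 1), if (Rough n m ∧ i ≤ N / m) then jump k n i else 0 := by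
    intro m hm
    by_cases hr : Rough n m
    · rw [Set.indicator_of_mem (show m ∈ {m | Rough n m} from hr), sum_jump hk]
      have hle : N / m ≤ N := Nat.div_le_self N m
      rw [← Finset.sum_filter]
      refine Finset.sum_congr ?_ fun _ _ => rfl
      ext i
      simp only [Finset.mem_range, Finset.mem_filter]
      constructor
      · intro h; exact ⟨by omega, hr, by omega⟩
      · rintro ⟨_, _, h⟩; omega
    · rw [Set.indicator_of_notMem (show m ∉ {m | Rough n m} from hr)]
      symm
      refine Finset.sum_eq_zero fun i _ => ?_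
      rw [if_neg (fun h => hr h.1)]
  rw [Finset.sum_congr rfl h1, Finset.sum_comm]
  refine Finset.sum_congr rfl fun i hi => ?_
  rcases Nat.eq_zero_or_pos i with hi0 | hi0
  · subst hi0
    simp [jump]
  rw [← Finset.sum_filter, Finset.sum_const, nsmul_eq_mul, mul_comm]
  congr 2
  rw [PB.count_eq_fin]
  congr 1
  ext m
  rw [Finset.mem_filter, PB.mem_fin, Finset.mem_Icc]
  constructor
  · rintro ⟨⟨h1, h2⟩, h3, h4⟩
    refine ⟨⟨h1, ?_⟩, h3⟩
    rw [Nat.le_div_iff_mul_le h1] at h4
    rw [Nat.le_div_iff_mul_le hi0, mul_comm]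
    exact h4
  · rintro ⟨⟨h1, h2⟩, h3⟩
    rw [Nat.le_div_iff_mul_le hi0, mul_comm] at h2
    refine ⟨⟨h1, ?_⟩, h3, (Nat.le_div_iff_mul_le h1).mpr h2⟩
    nlinarith

/-- Packet A1. -/
theorem stmtA1 (hR : StmtR) (hS : StmtS) (hU2 : StmtU2) : StmtA1 := by
  intro k n hk hn
  have hsum := hasSum_smoothCard hS (n := n) hk
  refine ⟨hsum.summable, ?_⟩
  rw [hsum.tsum_eq]
  have hdens := hasDensity_rough hR n
  -- the limit of the counting bound
  have hlim : Tendsto (fun N : ℕ => ∑' i : ℕ,
      jump k n i * ((count {m | Rough n m} (N / i) : ℝ) / N)) atTop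
      (𝓝 (∑' i : ℕ, jump k n i * (delta n * (1 / (i : ℝ))))) := by
    refine tendsto_tsum_of_dominated_convergence (summable_jump hS (n := n) hk) (fun i => ?_)
      (Eventually.of_forall fun N i => ?_)
    · rcases Nat.eq_zero_or_pos i with hi0 | hi0
      · subst hi0
        simp [jump]
      · exact (PB.tendsto_count_div hdens hi0).const_mul _
    · have h0 := jump_nonneg (n := n) hk i
      rw [Real.norm_eq_abs, abs_of_nonneg (by positivity)]
      have key : (count {m | Rough n m} (N / i) : ℝ) / N ≤ 1 / (i : ℝ) := by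
        rcases Nat.eq_zero_or_pos i with hi0 | hi0
        · subst hi0
          simp [count]
        rcases Nat.eq_zero_or_pos N with hN0 | hN0
        · subst hN0
          simp
        have h1 := count_le {m | Rough n m} (N / i)
        have h2 : (N / i) * i ≤ N := Nat.div_mul_le_self N i
        have h3 : ((count {m | Rough n m} (N / i) : ℕ) : ℝ) * i ≤ N := by
          have : count {m | Rough n m} (N / i) * i ≤ N :=
            le_trans (Nat.mul_le_mul_right i h1) h2
          exact_mod_cast this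
        have hi' : (0 : ℝ) < i := by exact_mod_cast hi0
        have hN' : (0 : ℝ) < N := by exact_mod_cast hN0
        rw [div_le_div_iff₀ hN' hi']
        linarith
      calc jump k n i * ((count {m | Rough n m} (N / i) : ℝ) / N) ≤ jump k n i * (1 / (i : ℝ)) :=
            mul_le_mul_of_nonneg_left key h0
        _ = jump k n i / i := by ring
  have hlim2 : ∑' i : ℕ, jump k n i * (delta n * (1 / (i : ℝ))) =
      delta n * ∑' i : ℕ, jump k n i / i := by
    rw [← tsum_mul_left]
    refine tsum_congr fun i => ?_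
    ring
  rw [hlim2] at hlim
  unfold alpha
  refine csSup_le ⟨_, ∅, gpFree_empty k (by omega), rfl⟩ ?_
  rintro x ⟨A, hA, rfl⟩
  unfold upperDensity
  rw [← hlim.limsup_eq]
  refine limsup_le_limsup ?_ (ratio_cobdd A) hlim.isBoundedUnder_le
  filter_upwards with N
  have h1 := hU2 k n (smoothCard k n) A hk hA
    (fun j B hB hj hg => (stmtA2 k n j hk).2 B hB hj hg) N
  rw [rough_sum_eq hk N] at h1
  have h2 : ∑' i : ℕ, jump k n i * ((count {m | Rough n m} (N / i) : ℝ) / N) =
      (∑ i ∈ range (N + 1), jump k n i * (count {m | Rough n m} (N / i) : ℝ)) / N := by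
    rw [tsum_eq_sum (s := range (N + 1))]
    · rw [Finset.sum_div]
      refine Finset.sum_congr rfl fun i _ => ?_
      rw [mul_div_assoc]
    · intro i hi
      rw [Finset.mem_range] at hi
      have : N / i = 0 := Nat.div_eq_of_lt (by omega)
      rw [this]
      simp [count]
  rw [h2]
  exact div_le_div_of_nonneg_right h1 (Nat.cast_nonneg N)

end GeoProg
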