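import Pool.Agent.Helper7.GeoProg.Stmts2
import Pool.Agent.Helper7.GeoProg.Basic

/-!
# MP_f5ac68_nt, packet 12: the statements A3 and A4
-/

set_option autoImplicit false

namespace GeoProg

open Filter Topology Finset

lemma a3_step (r : ℕ) (hr : 1 ≤ r) (N : ℝ) (hN : 2 ≤ N) :
    1 / N ^ (r + 1) ≤ 1 / ((r : ℝ) * (N - 1) ^ r) - 1 / ((r : ℝ) * N ^ r) := by
  have hN1 : 0 < N - 1 := by linarith
  have hN0 : 0 < N := by linarith
  have hr0 : (0 : ℝ) < r := by exact_mod_cast hr
  have hb : 1 + (r : ℝ) * (1 / (N - 1)) ≤ (1 + 1 / (N - 1)) ^ r :=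
    one_add_mul_le_pow (by have : 0 < 1 / (N - 1) := by positivity
                           linarith) r
  have h1 : (1 + 1 / (N - 1)) = N / (N - 1) := by field_simp; ring
  rw [h1, div_pow] at hb
  -- divide by r * N^r
  have h2 : 1 / ((r : ℝ) * (N - 1) ^ r) = (N ^ r / (N - 1) ^ r) * (1 / ((r : ℝ) * N ^ r)) := by
    field_simp
  rw [h2]
  have h3 : (1 + (r : ℝ) * (1 / (N - 1))) * (1 / ((r : ℝ) * N ^ r)) ≤
      (N ^ r / (N - 1) ^ r) * (1 / ((r : ℝ) * N ^ r)) :=
    mul_le_mul_of_nonneg_right hb (by positivity)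
  have h4 : (1 + (r : ℝ) * (1 / (N - 1))) * (1 / ((r : ℝ) * N ^ r)) =
      1 / ((r : ℝ) * N ^ r) + 1 / (N ^ r * (N - 1)) := by
    field_simp
  have h5 : 1 / N ^ (r + 1) ≤ 1 / (N ^ r * (N - 1)) := by
    rw [pow_succ]
    apply one_div_le_one_div_of_le (by positivity)
    apply mul_le_mul_of_nonneg_left (by linarith) (by positivity)
  linarith

theorem stmtA3 : StmtA3 := by
  intro k n hk hn
  obtain ⟨r, rfl⟩ : ∃ r, k = r + 2 := ⟨k - 2, by omega⟩
  have hr : 1 ≤ r := by omega
  have hr0 : (0 : ℝ) < r := by exact_mod_cast hr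
  have e1 : r + 2 - 1 = r + 1 := by omega
  have e2 : r + 2 - 2 = r := by omega
  have e3 : (((r + 2 : ℕ) : ℝ) - 2) = r := by push_cast; ring
  rw [e1, e2, e3]
  have hn1 : (0 : ℝ) < (n : ℝ) - 1 := by
    have : (2 : ℝ) ≤ n := by exact_mod_cast hn
    linarith
  refine Real.tsum_le_of_sum_range_le (fun m => ?_) (fun N => ?_)
  · split_ifs <;> positivity
  · have key : ∀ N : ℕ, n ≤ N → ∑ m ∈ range N, (if n ≤ m then 1 / (m : ℝ) ^ (r + 1) else 0) ≤
        1 / ((r : ℝ) * ((n : ℝ) - 1) ^ r) - 1 / ((r : ℝ) * ((N : ℝ) - 1) ^ r) := by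
      intro N hN
      induction N, hN using Nat.le_induction with
      | base =>
        rw [Finset.sum_eq_zero]
        · simp
        · intro m hm
          rw [if_neg]
          rw [mem_range] at hm
          omega
      | succ N hN ih =>
        rw [sum_range_succ, if_pos hN]
        have hN2 : (2 : ℝ) ≤ N := by exact_mod_cast hn.trans hN
        have h1 := a3_step r hr N hN2
        push_cast
        have h4 : (N : ℝ) + 1 - 1 = N := by ring
        rw [h4]
        linarith
    rcases le_total n N with h | h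
    · refine (key N h).trans ?_
      have hN1 : (0 : ℝ) ≤ (N : ℝ) - 1 := by
        have : (2 : ℝ) ≤ N := by exact_mod_cast hn.trans h
        linarith
      have : 0 ≤ 1 / ((r : ℝ) * ((N : ℝ) - 1) ^ r) := by positivity
      linarith
    · rw [Finset.sum_eq_zero]
      · positivity
      · intro m hm
        rw [if_neg]
        rw [mem_range] at hm
        omega

lemma a4_count (k : ℕ) (_hk : 3 ≤ k) (A : Set ℕ) (hA : GPFree k A) (N : ℕ) :
    count A N + N / 2 ^ k ≤ N := by
  classical
  have hpos := hA.1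
  have hfree := hA.2
  -- for each odd m a missing multiple
  have hmiss : ∀ m : ℕ, ∃ i : ℕ, 0 < m → i < k ∧ 2 ^ i * m ∉ A := by
    intro m
    by_cases hm : 0 < m
    · by_contra hcon
      push Not at hcon
      apply hfree
      refine ⟨m, 2, hm, by norm_num, fun i hi => ⟨2 ^ i * m, (hcon i).2 hi, ?_⟩⟩
      push_cast; ring
    · exact ⟨0, fun h => absurd h hm⟩
  choose f hf using hmiss
  -- the odd numbers 2 j + 1, j < N / 2^k
  set M := N / 2 ^ k with hM
  have h2k : 0 < 2 ^ k := by positivity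
  have hinj : Set.InjOn (fun j : ℕ => 2 ^ f (2 * j + 1) * (2 * j + 1)) (range M : Finset ℕ) := by
    intro a _ b _ hab
    simp only at hab
    have h1 : (2 * a + 1) = (2 * b + 1) := by
      have ha : ¬ 2 ∣ (2 * a + 1) := by omega
      have hb : ¬ 2 ∣ (2 * b + 1) := by omega
      have hcop : ∀ e j : ℕ, ordCompl[2] (2 ^ e * (2 * j + 1)) = 2 * j + 1 := by
        intro e j
        have hj : ¬ 2 ∣ (2 * j + 1) := by omega
        have h3 : (2 ^ e * (2 * j + 1)).factorization 2 = e := by
          rw [Nat.factorization_mul (by positivity) (by omega)]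
          rw [Nat.Prime.factorization_pow Nat.prime_two]
          simp [Nat.factorization_eq_zero_of_not_dvd hj]
        rw [h3]
        exact Nat.mul_div_cancel_left _ (by positivity)
      rw [← hcop (f (2 * a + 1)) a, ← hcop (f (2 * b + 1)) b, hab]
    omega
  have hcard : ((range M).image (fun j : ℕ => 2 ^ f (2 * j + 1) * (2 * j + 1))).card = M := by
    rw [card_image_of_injOn hinj, card_range]
  -- they are in [1, N] and not in A
  set C : Finset ℕ := (Icc 1 N).filter (fun m => m ∈ A) with hC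
  have hcount : count A N = C.card := by
    unfold count
    rw [← Set.ncard_coe_finset]
    congr 1
    ext m
    simp only [hC, Set.mem_inter_iff, Set.mem_Icc, coe_filter, Finset.mem_Icc, Set.mem_ofPred_eq]
    tauto
  have hdisj : Disjoint C ((range M).image (fun j : ℕ => 2 ^ f (2 * j + 1) * (2 * j + 1))) := by
    rw [Finset.disjoint_left]
    intro x hx hx'
    rw [mem_image] at hx'
    obtain ⟨j, _, rfl⟩ := hx'
    rw [hC, mem_filter] at hx
    exact (hf (2 * j + 1) (by omega)).2 hx.2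
  have hsub : C ∪ ((range M).image (fun j : ℕ => 2 ^ f (2 * j + 1) * (2 * j + 1))) ⊆ Icc 1 N := by
    apply union_subset (filter_subset _ _)
    intro x hx
    rw [mem_image] at hx
    obtain ⟨j, hj, rfl⟩ := hx
    rw [mem_range] at hj
    have hfj := (hf (2 * j + 1) (by omega)).1
    rw [Finset.mem_Icc]
    refine ⟨Nat.mul_pos (by positivity) (by omega), ?_⟩
    have h1 : 2 ^ f (2 * j + 1) ≤ 2 ^ (k - 1) := Nat.pow_le_pow_right (by norm_num) (by omega)
    have h2 : 2 ^ k = 2 ^ (k - 1) * 2 := by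
      rw [← pow_succ]; congr 1; omega
    calc 2 ^ f (2 * j + 1) * (2 * j + 1) ≤ 2 ^ (k - 1) * (2 * (j + 1)) :=
          Nat.mul_le_mul h1 (by omega)
      _ = 2 ^ k * (j + 1) := by rw [h2]; ring
      _ ≤ 2 ^ k * M := Nat.mul_le_mul_left _ hj
      _ ≤ N := Nat.mul_div_le N (2 ^ k)
  have h3 := card_le_card hsub
  rw [card_union_of_disjoint hdisj, hcard, Nat.card_Icc] at h3
  rw [hcount]
  simpa using h3

theorem stmtA4 : StmtA4 := by
  intro k hk
  unfold alpha
  apply csSup_le
  · exact ⟨_, ∅, gpFree_empty k (by omega), rfl⟩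
  · rintro x ⟨A, hA, rfl⟩
    unfold upperDensity
    apply le_of_forall_pos_le_add
    intro ε hε
    apply limsup_le_of_le (ratio_cobdd A)
    obtain ⟨M, hM⟩ := exists_nat_gt (1 / ε)
    filter_upwards [eventually_ge_atTop (max M 1)] with N hN
    have hN1 : 1 ≤ N := le_trans (le_max_right _ _) hN
    have hNM : (M : ℝ) ≤ N := by exact_mod_cast le_trans (le_max_left _ _) hN
    have hN0 : (0 : ℝ) < N := by exact_mod_cast hN1
    rw [div_le_iff₀ hN0]
    have h1 := a4_count k hk A hA N
    have h2 : (count A N : ℝ) + ((N / 2 ^ k : ℕ) : ℝ) ≤ N := by exact_mod_cast h1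
    have h3 : (N : ℝ) / 2 ^ k - 1 ≤ ((N / 2 ^ k : ℕ) : ℝ) := by
      have h4 := Nat.lt_div_mul_add (a := N) (b := 2 ^ k) (by positivity)
      have h5 : (N : ℝ) < ((N / 2 ^ k : ℕ) : ℝ) * 2 ^ k + 2 ^ k := by exact_mod_cast h4
      have h6 : (0 : ℝ) < 2 ^ k := by positivity
      rw [sub_le_iff_le_add, div_le_iff₀ h6]
      linarith
    have h7 : 1 ≤ ε * N := by
      rw [div_lt_iff₀ hε] at hM
      nlinarith
    have h8 : (1 - 1 / (2 : ℝ) ^ k + ε) * N = N - N / 2 ^ k + ε * N := by ring
    rw [h8]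
    linarith

end GeoProg
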