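import Pool.Agent.Helper7.GeoProg.Stmts2

/-!
# MP_f5ac68_nt, packet A5: sums of reciprocals of `GPF_k` sets of numbers `2^a * 3^b`
-/

namespace GeoProg

open Filter Topology

/-- numbers without prime factors other than `2` and `3` -/
lemma A5_smooth {s : ℕ} (hs : s ∈ Nat.smoothNumbers 4) :
    s = 2 ^ (s.factorization 2) * 3 ^ (s.factorization 3) := by
  have hs0 : s ≠ 0 := Nat.ne_zero_of_mem_smoothNumbers hs
  have hsub : s.factorization.support ⊆ {2, 3} := by
    intro p hp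
    have hp' : p ∈ s.primeFactors := hp
    have hpp := Nat.prime_of_mem_primeFactors hp'
    have hlt : p < 4 := Nat.mem_smoothNumbers'.1 hs p hpp (Nat.dvd_of_mem_primeFactors hp')
    have h2 := hpp.two_le
    interval_cases p <;> simp
  conv_lhs => rw [← Nat.prod_factorization_pow_eq_self hs0]
  rw [Finsupp.prod_of_support_subset _ hsub _ (by simp), Finset.prod_pair (by norm_num)]

/-- the case of progressions with quotient `2` -/
lemma A5_two {k : ℕ} {B : Finset ℕ} (hB : GPFree k (B : Set ℕ)) (b : ℕ) :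
    ∃ a < k, 2 ^ a * 3 ^ b ∉ B := by
  by_contra hcon
  push Not at hcon
  refine hB.2 ⟨3 ^ b, 2, by positivity, by norm_num, fun i hi => ⟨2 ^ i * 3 ^ b, hcon i hi, ?_⟩⟩
  push_cast
  ring

/-- the case of progressions with quotient `3` -/
lemma A5_three {k : ℕ} {B : Finset ℕ} (hB : GPFree k (B : Set ℕ)) (a : ℕ) :
    ∃ b < k, 2 ^ a * 3 ^ b ∉ B := by
  by_contra hcon
  push Not at hcon
  refine hB.2 ⟨2 ^ a, 3, by positivity, by norm_num, fun i hi => ⟨2 ^ a * 3 ^ i, hcon i hi, ?_⟩⟩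
  push_cast
  ring

/-- [A5]. -/
theorem stmtA5 : StmtA5 := by
  classical
  intro k B hk hBs hB
  set M : ℕ := k + B.sup id with hM
  have hkM : k ≤ M := by omega
  set w : ℕ → ℕ → ℝ := fun a b => (1 / 2 : ℝ) ^ a * (1 / 3 : ℝ) ^ b with hw
  have hw0 : ∀ a b, 0 ≤ w a b := fun a b => by rw [hw]; positivity
  set x : ℕ → ℕ → ℝ := fun a b => if 2 ^ a * 3 ^ b ∈ B then 0 else 1 with hx
  have hx0 : ∀ a b, 0 ≤ x a b := fun a b => by
    rw [hx]; dsimp only; split_ifs <;> norm_num
  -- the sum over B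
  have hsumB : hsum B ≤ ∑ b ∈ Finset.range M, ∑ a ∈ Finset.range M, (1 - x a b) * w a b := by
    rw [Finset.sum_comm, ← Finset.sum_product' (s := Finset.range M) (t := Finset.range M)
      (f := fun a b => (1 - x a b) * w a b)]
    set e : ℕ → ℕ × ℕ := fun s => (s.factorization 2, s.factorization 3) with he
    have hinj : Set.InjOn e B := by
      intro s hs t ht hst
      have h1 := A5_smooth (hBs s hs)
      have h2 := A5_smooth (hBs t ht)
      have h3 : s.factorization 2 = t.factorization 2 := (Prod.ext_iff.1 hst).1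
      have h4 : s.factorization 3 = t.factorization 3 := (Prod.ext_iff.1 hst).2
      rw [h1, h2, h3, h4]
    have h1 : hsum B = ∑ z ∈ B.image e, w z.1 z.2 := by
      rw [Finset.sum_image hinj, hsum]
      refine Finset.sum_congr rfl (fun s hs => ?_)
      rw [hw, he]
      dsimp only
      conv_lhs => rw [A5_smooth (hBs s hs)]
      push_cast
      rw [one_div_pow, one_div_pow, one_div_mul_one_div]
    have h2 : ∀ z ∈ B.image e, z ∈ Finset.range M ×ˢ Finset.range M ∧ x z.1 z.2 = 0 := by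
      intro z hz
      obtain ⟨s, hs, rfl⟩ := Finset.mem_image.1 hz
      have hsm := A5_smooth (hBs s hs)
      have hs0 : 0 < s := Nat.pos_of_ne_zero (Nat.ne_zero_of_mem_smoothNumbers (hBs s hs))
      have hle : s ≤ B.sup id := Finset.le_sup (f := id) hs
      have hlt : s < 2 ^ M := lt_of_le_of_lt (by omega : s ≤ M) Nat.lt_two_pow_self
      refine ⟨?_, ?_⟩
      · rw [Finset.mem_product, Finset.mem_range, Finset.mem_range]
        constructor
        · have h3 : 2 ^ (s.factorization 2) ≤ s := by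
            conv_rhs => rw [hsm]
            exact Nat.le_mul_of_pos_right _ (by positivity)
          exact (Nat.pow_lt_pow_iff_right (by norm_num : 1 < 2)).1 (lt_of_le_of_lt h3 hlt)
        · have h3 : 3 ^ (s.factorization 3) ≤ s := by
            conv_rhs => rw [hsm]
            exact Nat.le_mul_of_pos_left _ (by positivity)
          have h4 : 2 ^ (s.factorization 3) ≤ 3 ^ (s.factorization 3) :=
            Nat.pow_le_pow_left (by norm_num) _
          exact (Nat.pow_lt_pow_iff_right (by norm_num : 1 < 2)).1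
            (lt_of_le_of_lt (h4.trans h3) hlt)
      · rw [hx, he]
        dsimp only
        rw [← hsm, if_pos hs]
    rw [h1]
    calc ∑ z ∈ B.image e, w z.1 z.2
        = ∑ z ∈ B.image e, (1 - x z.1 z.2) * w z.1 z.2 := by
          refine Finset.sum_congr rfl (fun z hz => ?_)
          rw [(h2 z hz).2, sub_zero, one_mul]
      _ ≤ _ := by
          refine Finset.sum_le_sum_of_subset_of_nonneg (fun z hz => (h2 z hz).1) ?_
          intro z _ _
          refine mul_nonneg ?_ (hw0 _ _)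
          rw [hx]
          dsimp only
          split_ifs <;> norm_num
  -- the total over the box
  have htot : ∑ b ∈ Finset.range M, ∑ a ∈ Finset.range M, (1 - x a b) * w a b =
      (2 * (1 - (1 / 2 : ℝ) ^ M)) * (3 / 2 * (1 - (1 / 3 : ℝ) ^ M)) -
        ∑ b ∈ Finset.range M, (1 / 3 : ℝ) ^ b * ∑ a ∈ Finset.range M, x a b * (1 / 2 : ℝ) ^ a := by
    have g2 : ∑ a ∈ Finset.range M, (1 / 2 : ℝ) ^ a = 2 * (1 - (1 / 2 : ℝ) ^ M) := by
      rw [geom_sum_eq (by norm_num)]
      ring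
    have g3 : ∑ b ∈ Finset.range M, (1 / 3 : ℝ) ^ b = 3 / 2 * (1 - (1 / 3 : ℝ) ^ M) := by
      rw [geom_sum_eq (by norm_num)]
      ring
    rw [← g2, ← g3, mul_comm (∑ a ∈ Finset.range M, (1 / 2 : ℝ) ^ a), Finset.sum_mul,
      ← Finset.sum_sub_distrib]
    refine Finset.sum_congr rfl (fun b _ => ?_)
    rw [← mul_sub, ← Finset.sum_sub_distrib, Finset.mul_sum]
    refine Finset.sum_congr rfl (fun a _ => ?_)
    rw [hw]
    ring
  -- the missing part
  set c : ℝ := (1 / 2 : ℝ) ^ (k - 1) with hc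
  set h : ℕ → ℝ := fun a => (1 / 2 : ℝ) ^ a - c with hh
  have hh0 : ∀ a < k, 0 ≤ h a := by
    intro a ha
    rw [hh, hc]
    exact sub_nonneg.2 (pow_le_pow_of_le_one (by norm_num) (by norm_num) (by omega))
  have hrow : ∀ b : ℕ, c + ∑ a ∈ Finset.range k, x a b * h a ≤
      ∑ a ∈ Finset.range M, x a b * (1 / 2 : ℝ) ^ a := by
    intro b
    have h1 : ∑ a ∈ Finset.range k, x a b * (1 / 2 : ℝ) ^ a ≤
        ∑ a ∈ Finset.range M, x a b * (1 / 2 : ℝ) ^ a := by
      refine Finset.sum_le_sum_of_subset_of_nonneg (Finset.range_mono hkM) ?_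
      intro a _ _
      exact mul_nonneg (hx0 _ _) (by positivity)
    refine le_trans ?_ h1
    have h2 : ∑ a ∈ Finset.range k, x a b * (1 / 2 : ℝ) ^ a =
        c * ∑ a ∈ Finset.range k, x a b + ∑ a ∈ Finset.range k, x a b * h a := by
      rw [Finset.mul_sum, ← Finset.sum_add_distrib]
      refine Finset.sum_congr rfl (fun a _ => ?_)
      rw [hh]
      ring
    rw [h2]
    have h3 : 1 ≤ ∑ a ∈ Finset.range k, x a b := by
      obtain ⟨a, ha, hab⟩ := A5_two hB b
      have h4 : x a b = 1 := by rw [hx]; dsimp only; rw [if_neg hab]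
      rw [← h4]
      exact Finset.single_le_sum (f := fun a => x a b) (fun a _ => hx0 a b)
        (Finset.mem_range.2 ha)
    have hc0 : 0 ≤ c := by rw [hc]; positivity
    nlinarith
  have hcol : (1 / 3 : ℝ) ^ (k - 1) * ∑ a ∈ Finset.range k, h a ≤
      ∑ b ∈ Finset.range M, (1 / 3 : ℝ) ^ b * ∑ a ∈ Finset.range k, x a b * h a := by
    have h1 : ∑ b ∈ Finset.range k, (1 / 3 : ℝ) ^ b * ∑ a ∈ Finset.range k, x a b * h a ≤
        ∑ b ∈ Finset.range M, (1 / 3 : ℝ) ^ b * ∑ a ∈ Finset.range k, x a b * h a := by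
      refine Finset.sum_le_sum_of_subset_of_nonneg (Finset.range_mono hkM) ?_
      intro b _ _
      refine mul_nonneg (by positivity) (Finset.sum_nonneg (fun a ha => ?_))
      exact mul_nonneg (hx0 _ _) (hh0 a (Finset.mem_range.1 ha))
    refine le_trans ?_ h1
    simp only [Finset.mul_sum]
    rw [Finset.sum_comm]
    refine Finset.sum_le_sum (fun a ha => ?_)
    obtain ⟨b, hb, hab⟩ := A5_three hB a
    have hha := hh0 a (Finset.mem_range.1 ha)
    have h4 : x a b = 1 := by rw [hx]; dsimp only; rw [if_neg hab]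
    have h5 : (1 / 3 : ℝ) ^ (k - 1) * h a ≤ (1 / 3 : ℝ) ^ b * (x a b * h a) := by
      rw [h4, one_mul]
      refine mul_le_mul_of_nonneg_right ?_ hha
      exact pow_le_pow_of_le_one (by norm_num) (by norm_num) (by omega)
    refine h5.trans ?_
    exact Finset.single_le_sum (f := fun b => (1 / 3 : ℝ) ^ b * (x a b * h a))
      (fun b _ => mul_nonneg (by positivity) (mul_nonneg (hx0 a b) hha)) (Finset.mem_range.2 hb)
  have hmiss : c * (3 / 2 * (1 - (1 / 3 : ℝ) ^ M)) + (1 / 3 : ℝ) ^ (k - 1) *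
      ∑ a ∈ Finset.range k, h a ≤
      ∑ b ∈ Finset.range M, (1 / 3 : ℝ) ^ b * ∑ a ∈ Finset.range M, x a b * (1 / 2 : ℝ) ^ a := by
    have g3 : ∑ b ∈ Finset.range M, (1 / 3 : ℝ) ^ b = 3 / 2 * (1 - (1 / 3 : ℝ) ^ M) := by
      rw [geom_sum_eq (by norm_num)]
      ring
    have h1 : ∑ b ∈ Finset.range M, (1 / 3 : ℝ) ^ b * (c + ∑ a ∈ Finset.range k, x a b * h a) ≤
        ∑ b ∈ Finset.range M, (1 / 3 : ℝ) ^ b * ∑ a ∈ Finset.range M, x a b * (1 / 2 : ℝ) ^ a :=
      Finset.sum_le_sum (fun b _ => mul_le_mul_of_nonneg_left (hrow b) (by positivity))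
    refine le_trans ?_ h1
    have h2 : ∑ b ∈ Finset.range M, (1 / 3 : ℝ) ^ b * (c + ∑ a ∈ Finset.range k, x a b * h a) =
        c * (3 / 2 * (1 - (1 / 3 : ℝ) ^ M)) +
        ∑ b ∈ Finset.range M, (1 / 3 : ℝ) ^ b * ∑ a ∈ Finset.range k, x a b * h a := by
      rw [← g3, Finset.mul_sum, ← Finset.sum_add_distrib]
      refine Finset.sum_congr rfl (fun b _ => ?_)
      ring
    rw [h2]
    linarith
  have hhsum : ∑ a ∈ Finset.range k, h a = 2 - 2 * ((k : ℝ) + 1) / 2 ^ k := by
    rw [hh, Finset.sum_sub_distrib, geom_sum_eq (by norm_num), Finset.sum_const,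
      Finset.card_range, nsmul_eq_mul, hc]
    obtain ⟨m, rfl⟩ : ∃ m, k = m + 1 := ⟨k - 1, by omega⟩
    rw [Nat.add_sub_cancel, one_div_pow, one_div_pow]
    field_simp
    push_cast
    ring
  have hcval : c = 2 / 2 ^ k := by
    rw [hc]
    obtain ⟨m, rfl⟩ : ∃ m, k = m + 1 := ⟨k - 1, by omega⟩
    rw [Nat.add_sub_cancel, one_div_pow]
    field_simp
    ring
  have h3val : (1 / 3 : ℝ) ^ (k - 1) = 3 / 3 ^ k := by
    obtain ⟨m, rfl⟩ : ∃ m, k = m + 1 := ⟨k - 1, by omega⟩
    rw [Nat.add_sub_cancel, one_div_pow]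
    field_simp
    ring
  rw [hhsum, h3val] at hmiss
  have hfin := hsumB
  rw [htot] at hfin
  have hp3 : 0 ≤ (1 / 3 : ℝ) ^ M := by positivity
  have hp3' : (1 / 3 : ℝ) ^ M ≤ 1 := pow_le_one₀ (by norm_num) (by norm_num)
  have hp2 : 0 ≤ (1 / 2 : ℝ) ^ M := by positivity
  have hc1 : c ≤ 1 := by
    rw [hc]
    exact pow_le_one₀ (by norm_num) (by norm_num)
  have hcv : 3 / 2 * c = 3 / 2 ^ k := by
    rw [hcval]
    ring
  rw [← hcv]
  have e1 : 0 ≤ (1 / 2 : ℝ) ^ M * (1 - (1 / 3 : ℝ) ^ M) := mul_nonneg hp2 (by linarith)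
  have e2 : 0 ≤ (1 / 3 : ℝ) ^ M * (3 - 3 / 2 * c) := mul_nonneg hp3 (by linarith)
  nlinarith

end GeoProg
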