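import Pool.Agent.Helper7.GeoProg.Stmts

/-!
# MP_f5ac68_nt, packet 1 (helper32): geometric progressions as integer sequences
-/

namespace GeoProg

theorem V_incr {k : ℕ} {x : ℕ → ℕ} (hx : ∀ i < k, 0 < x i)
    (h : ∀ i, i + 2 < k → x i * x (i + 2) = x (i + 1) ^ 2) (h01 : x 0 < x 1) :
    ∀ i, i + 1 < k → x i < x (i + 1) := by
  intro i
  induction i with
  | zero => intro _; exact h01
  | succ i ih =>
    intro hi
    have h1 := ih (by omega)
    have h2 := h i (by omega)
    by_contra hcon
    push Not at hcon
    have h3 : x i * x (i + 2) ≤ x i * x (i + 1) := Nat.mul_le_mul_left _ hcon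
    have h4 : x i * x (i + 1) < x (i + 1) * x (i + 1) :=
      Nat.mul_lt_mul_of_pos_right h1 (hx (i + 1) (by omega))
    have h5 : x (i + 1) ^ 2 = x (i + 1) * x (i + 1) := by ring
    omega

theorem V_decr {k : ℕ} {x : ℕ → ℕ} (hx : ∀ i < k, 0 < x i)
    (h : ∀ i, i + 2 < k → x i * x (i + 2) = x (i + 1) ^ 2) (h01 : x 1 < x 0) :
    ∀ i, i + 1 < k → x (i + 1) < x i := by
  intro i
  induction i with
  | zero => intro _; exact h01
  | succ i ih =>
    intro hi
    have h1 := ih (by omega)
    have h2 := h i (by omega)
    by_contra hcon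
    push Not at hcon
    have h3 : x i * x (i + 1) ≤ x i * x (i + 2) := Nat.mul_le_mul_left _ hcon
    have h4 : x (i + 1) * x (i + 1) < x i * x (i + 1) :=
      Nat.mul_lt_mul_of_pos_right h1 (hx (i + 1) (by omega))
    have h5 : x (i + 1) ^ 2 = x (i + 1) * x (i + 1) := by ring
    omega

theorem stmtV1 : StmtV1 := by
  intro k A hk hA
  constructor
  · rintro ⟨a, q, ha, hq, hm⟩
    choose! x hxA hx using hm
    have ha' : (0 : ℚ) < a := by exact_mod_cast ha
    have hq' : (0 : ℚ) < q := by linarith
    refine ⟨x, hxA, ?_, ?_⟩
    · have h0 := hx 0 (by omega)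
      have h1 := hx 1 (by omega)
      have : (x 0 : ℚ) < x 1 := by
        rw [h0, h1]
        nlinarith [mul_lt_mul_of_pos_left hq ha']
      exact_mod_cast this
    · intro i hi
      have h0 := hx i (by omega)
      have h1 := hx (i + 1) (by omega)
      have h2 := hx (i + 2) (by omega)
      have : (x i : ℚ) * x (i + 2) = x (i + 1) ^ 2 := by
        rw [h0, h1, h2]; ring
      exact_mod_cast this
  · rintro ⟨x, hxA, h01, h⟩
    have hx : ∀ i < k, 0 < x i := fun i hi => hA _ (hxA i hi)
    have hx' : ∀ i < k, (x i : ℚ) ≠ 0 := fun i hi => by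
      exact_mod_cast (hx i hi).ne'
    have h0 : (0 : ℚ) < x 0 := by exact_mod_cast hx 0 (by omega)
    refine ⟨x 0, (x 1 : ℚ) / x 0, hx 0 (by omega), ?_, ?_⟩
    · rw [lt_div_iff₀ h0, one_mul]
      exact_mod_cast h01
    · intro i hi
      refine ⟨x i, hxA i hi, ?_⟩
      induction i using Nat.strong_induction_on with
      | _ i ih =>
        match i, ih, hi with
        | 0, _, _ => simp
        | 1, _, _ => field_simp
        | j + 2, ih, hi =>
          have e1 := ih (j + 1) (by omega) (by omega)
          have e0 := ih j (by omega) (by omega)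
          have e2 : (x j : ℚ) * x (j + 2) = x (j + 1) ^ 2 := by exact_mod_cast h j hi
          apply mul_left_cancel₀ (hx' j (by omega))
          rw [e2, e1, e0]
          ring

theorem stmtV2 : StmtV2 := by
  intro k x hk hx h
  refine ⟨?_, ?_⟩
  · intro p
    refine ⟨((x 0).factorization p : ℤ),
      ((x 1).factorization p : ℤ) - ((x 0).factorization p : ℤ), ?_⟩
    intro i hi
    induction i using Nat.strong_induction_on with
    | _ i ih =>
      match i, ih, hi with
      | 0, _, _ => simp
      | 1, _, _ => simp
      | j + 2, ih, hi =>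
        have e1 := ih (j + 1) (by omega) (by omega)
        have e0 := ih j (by omega) (by omega)
        have e2 := congrArg (fun n => n.factorization p) (h j hi)
        rw [Nat.factorization_mul (hx j (by omega)).ne' (hx (j + 2) hi).ne',
          Nat.factorization_pow] at e2
        simp only [Finsupp.add_apply, Finsupp.smul_apply, smul_eq_mul] at e2
        push_cast at e1 e0 ⊢
        have e3 : ((x j).factorization p : ℤ) + (x (j + 2)).factorization p =
          2 * (x (j + 1)).factorization p := by exact_mod_cast e2
        linarith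
  · intro h01 i j hij hj
    have hinc := V_incr hx h h01
    induction j with
    | zero => omega
    | succ j ih =>
      rcases Nat.lt_or_ge i j with h1 | h1
      · exact (ih h1 (by omega)).trans (hinc j hj)
      · have : i = j := by omega
        subst this
        exact hinc i hj

theorem stmtV3 : StmtV3 := by
  intro k A x hk hA hxA h
  have hx : ∀ i < k, 0 < x i := fun i hi => hA.1 _ (hxA i hi)
  rcases lt_trichotomy (x 0) (x 1) with h01 | h01 | h01
  · exact absurd ((stmtV1 k A hk hA.1).2 ⟨x, hxA, h01, h⟩) hA.2
  · intro i hi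
    induction i using Nat.strong_induction_on with
    | _ i ih =>
      match i, ih, hi with
      | 0, _, _ => rfl
      | 1, _, _ => exact h01.symm
      | j + 2, ih, hi =>
        have e1 := ih (j + 1) (by omega) (by omega)
        have e0 := ih j (by omega) (by omega)
        have e2 := h j hi
        rw [e1, e0, pow_two] at e2
        exact Nat.eq_of_mul_eq_mul_left (hx 0 (by omega)) e2
  · exfalso
    apply hA.2
    apply (stmtV1 k A hk hA.1).2
    refine ⟨fun i => x (k - 1 - i), fun i hi => hxA _ (by omega), ?_, ?_⟩
    · have h1 := V_decr hx h h01 (k - 2) (by omega)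
      have e1 : k - 2 + 1 = k - 1 - 0 := by omega
      have e2 : k - 2 = k - 1 - 1 := by omega
      rw [e1, e2] at h1
      exact h1
    · intro i hi
      have h1 := h (k - 1 - (i + 2)) (by omega)
      have e1 : k - 1 - (i + 2) + 2 = k - 1 - i := by omega
      have e2 : k - 1 - (i + 2) + 1 = k - 1 - (i + 1) := by omega
      rw [e1, e2] at h1
      show x (k - 1 - i) * x (k - 1 - (i + 2)) = x (k - 1 - (i + 1)) ^ 2
      rw [← h1, mul_comm]

end GeoProg
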