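import Pool.Agent.Helper7.GeoProg.Defs

/-!
# MP_f5ac68_nt: second set of definitions and packet statements
-/

namespace GeoProg

open Filter Topology

/-- `r_k(N)`: the largest size of a subset of `{1, …, N}` in `GPF_k`. -/
noncomputable def maxCard (k N : ℕ) : ℕ :=
  sSup {c : ℕ | ∃ B : Finset ℕ, B ⊆ Finset.Icc 1 N ∧ GPFree k (B : Set ℕ) ∧ c = B.card}

/-- `L_k(N)`: the largest sum of reciprocals of a subset of `{1, …, N}` in `GPF_k`. -/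
noncomputable def maxHarm (k N : ℕ) : ℝ :=
  sSup {y : ℝ | ∃ B : Finset ℕ, B ⊆ Finset.Icc 1 N ∧ GPFree k (B : Set ℕ) ∧ y = hsum B}

/-- The largest size of a `GPF_k` set of `n`-smooth numbers `≤ j`. -/
noncomputable def smoothCard (k n j : ℕ) : ℕ :=
  sSup {c : ℕ | ∃ B : Finset ℕ, SmoothFin n B ∧ (∀ b ∈ B, b ≤ j) ∧ GPFree k (B : Set ℕ) ∧
    c = B.card}

/-- The supremum of the sums of reciprocals of the finite `GPF_k` sets of `n`-smooth numbers. -/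
noncomputable def smoothHarm (k n : ℕ) : ℝ :=
  sSup {y : ℝ | ∃ B : Finset ℕ, SmoothFin n B ∧ GPFree k (B : Set ℕ) ∧ y = hsum B}

/-- [A1] upper bound for `alpha k`; the series converges. -/
def StmtA1 : Prop := ∀ k n : ℕ, 3 ≤ k → 2 ≤ n →
  Summable (fun j : ℕ => (smoothCard k n j : ℝ) / ((j : ℝ) * (j + 1))) ∧
  alpha k ≤ delta n * ∑' j : ℕ, (smoothCard k n j : ℝ) / ((j : ℝ) * (j + 1))

/-- [A2] the maximum in `smoothCard` is attained, and bounds every such set. -/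
def StmtA2 : Prop := ∀ k n j : ℕ, 3 ≤ k →
  (∃ B : Finset ℕ, SmoothFin n B ∧ (∀ b ∈ B, b ≤ j) ∧ GPFree k (B : Set ℕ) ∧
    smoothCard k n j = B.card) ∧
  (∀ B : Finset ℕ, SmoothFin n B → (∀ b ∈ B, b ≤ j) → GPFree k (B : Set ℕ) →
    B.card ≤ smoothCard k n j)

/-- [A3] an explicit bound for the tail in `StmtQ`. -/
def StmtA3 : Prop := ∀ k n : ℕ, 3 ≤ k → 2 ≤ n →
  ∑' m : ℕ, (if n ≤ m then 1 / (m : ℝ) ^ (k - 1) else 0) ≤
    1 / (((k : ℝ) - 2) * ((n : ℝ) - 1) ^ (k - 2))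

/-- [A4] the trivial upper bound for `alpha k` from the progressions `m, 2m, …, 2^(k-1) m`,
`m` odd. -/
def StmtA4 : Prop := ∀ k : ℕ, 3 ≤ k → alpha k ≤ 1 - 1 / 2 ^ k

/-- [A5] an upper bound for the sums of reciprocals of `GPF_k` sets of numbers `2^a * 3^b`. -/
def StmtA5 : Prop := ∀ (k : ℕ) (B : Finset ℕ), 3 ≤ k → SmoothFin 4 B → GPFree k (B : Set ℕ) →
  hsum B ≤ 3 - 3 / 2 ^ k - 3 / 3 ^ k * (2 - 2 * ((k : ℝ) + 1) / 2 ^ k)

/-- The exponents `0, …, 2k-3` without `k-1`. -/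
def expo (k : ℕ) : Finset ℕ := (Finset.range (2 * k - 2)).erase (k - 1)

/-- The numbers `2^a * 3^b` with both exponents in `expo k`. -/
def grid (k : ℕ) : Finset ℕ := (expo k ×ˢ expo k).image (fun z => 2 ^ z.1 * 3 ^ z.2)

/-- [A6] properties of `grid`. -/
def StmtA6 : Prop := ∀ k : ℕ, 3 ≤ k → SmoothFin 5 (grid k) ∧ GPFree k (grid k : Set ℕ) ∧
  hsum (grid k) = (2 - 2 / 2 ^ k - 8 / 4 ^ k) * (3 / 2 - 3 / 3 ^ k - 27 / 2 / 9 ^ k)

/-- [A7] at some scales `grid k` can be improved by one element. -/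
def StmtA7 : Prop := ∀ k : ℕ, 4 ≤ k → ∃ L U : ℕ, 0 < L ∧ L < U ∧
  1 / (12 * 3 ^ (k - 1) : ℝ) ≤ 1 / (L : ℝ) - 1 / U ∧
  ∀ j : ℕ, L ≤ j → j < U → ∃ F : Finset ℕ, SmoothFin 5 F ∧ GPFree k (F : Set ℕ) ∧
    (∀ b ∈ F, b ≤ j) ∧ ((grid k).filter (· ≤ j)).card + 1 ≤ F.card

end GeoProg
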