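import Pool.Agent.Helper7.GeoProg.Stmts
import Pool.Agent.Helper7.GeoProg.Stmts2
import Pool.Agent.Helper7.GeoProg.P_V

/-!
# MP_f5ac68_nt, packet 14 (handoff 303): properties of `grid`
-/

namespace GeoProg

open Filter Topology

lemma mem_expo {k a : ℕ} : a ∈ expo k ↔ a ≠ k - 1 ∧ a < 2 * k - 2 := by
  simp [expo]

/-- An arithmetic progression of `k` exponents in `expo k` is constant. -/
lemma expo_prog {k : ℕ} (hk : 3 ≤ k) {f : ℕ → ℕ} {c d : ℤ} (hf : ∀ i < k, f i ∈ expo k)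
    (h : ∀ i < k, (f i : ℤ) = c + i * d) : d = 0 := by
  have h0 := h 0 (by omega)
  have h0' := mem_expo.1 (hf 0 (by omega))
  have h1 := h (k - 1) (by omega)
  have h1' := mem_expo.1 (hf (k - 1) (by omega))
  have hc : (f 0 : ℤ) = c := by simpa using h0
  have hk1 : ((k - 1 : ℕ) : ℤ) = (k : ℤ) - 1 := by omega
  rw [hk1] at h1
  have hd1 : d < 2 := by
    by_contra hcon
    push Not at hcon
    have : ((k : ℤ) - 1) * 2 ≤ ((k : ℤ) - 1) * d := by
      apply mul_le_mul_of_nonneg_left hcon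
      omega
    omega
  have hd2 : -2 < d := by
    by_contra hcon
    push Not at hcon
    have : ((k : ℤ) - 1) * d ≤ ((k : ℤ) - 1) * (-2) := by
      apply mul_le_mul_of_nonneg_left hcon
      omega
    omega
  have hcases : d = -1 ∨ d = 0 ∨ d = 1 := by omega
  rcases hcases with hd | hd | hd
  · exfalso
    subst hd
    have h2 := h (f 0 - (k - 1)) (by omega)
    have h2' := mem_expo.1 (hf (f 0 - (k - 1)) (by omega))
    omega
  · exact hd
  · exfalso
    subst hd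
    have h2 := h (k - 1 - f 0) (by omega)
    have h2' := mem_expo.1 (hf (k - 1 - f 0) (by omega))
    omega

lemma fact_two (a b : ℕ) : (2 ^ a * 3 ^ b).factorization 2 = a := by
  rw [Nat.factorization_mul (by positivity) (by positivity), Nat.factorization_pow,
    Nat.factorization_pow]
  simp only [Finsupp.coe_add, Finsupp.coe_smul, Pi.add_apply, Pi.smul_apply, smul_eq_mul]
  rw [Nat.Prime.factorization_self Nat.prime_two,
    Nat.factorization_eq_zero_of_not_dvd (by norm_num : ¬ 2 ∣ 3)]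
  simp

lemma fact_three (a b : ℕ) : (2 ^ a * 3 ^ b).factorization 3 = b := by
  rw [Nat.factorization_mul (by positivity) (by positivity), Nat.factorization_pow,
    Nat.factorization_pow]
  simp only [Finsupp.coe_add, Finsupp.coe_smul, Pi.add_apply, Pi.smul_apply, smul_eq_mul]
  rw [Nat.Prime.factorization_self Nat.prime_three,
    Nat.factorization_eq_zero_of_not_dvd (by norm_num : ¬ 3 ∣ 2)]
  simp

lemma mem_grid {k m : ℕ} : m ∈ grid k ↔ ∃ a ∈ expo k, ∃ b ∈ expo k, 2 ^ a * 3 ^ b = m := by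
  simp only [grid, Finset.mem_image, Finset.mem_product, Prod.exists]
  constructor
  · rintro ⟨a, b, ⟨ha, hb⟩, h⟩
    exact ⟨a, ha, b, hb, h⟩
  · rintro ⟨a, ha, b, hb, h⟩
    exact ⟨a, b, ⟨ha, hb⟩, h⟩

lemma mem_grid' {k m : ℕ} (h : m ∈ grid k) : m.factorization 2 ∈ expo k ∧
    m.factorization 3 ∈ expo k ∧ m = 2 ^ m.factorization 2 * 3 ^ m.factorization 3 := by
  obtain ⟨a, ha, b, hb, rfl⟩ := mem_grid.1 h
  rw [fact_two, fact_three]
  exact ⟨ha, hb, rfl⟩

lemma grid_smooth (k : ℕ) : SmoothFin 5 (grid k) := by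
  intro m hm
  obtain ⟨a, ha, b, hb, rfl⟩ := mem_grid.1 hm
  rw [Nat.mem_smoothNumbers']
  intro p hp hpd
  rcases (Nat.Prime.dvd_mul hp).1 hpd with h | h
  · have := Nat.Prime.dvd_of_dvd_pow hp h
    have := Nat.le_of_dvd (by norm_num) this
    omega
  · have := Nat.Prime.dvd_of_dvd_pow hp h
    have := Nat.le_of_dvd (by norm_num) this
    omega

lemma grid_pos {k m : ℕ} (h : m ∈ grid k) : 0 < m := by
  obtain ⟨a, ha, b, hb, rfl⟩ := mem_grid.1 h
  positivity

lemma grid_gpFree {k : ℕ} (hk : 3 ≤ k) : GPFree k (grid k : Set ℕ) := by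
  refine ⟨fun m hm => grid_pos (by simpa using hm), ?_⟩
  rw [stmtV1 k _ hk (fun m hm => grid_pos (by simpa using hm))]
  rintro ⟨x, hx, hlt, hrec⟩
  have hx' : ∀ i < k, x i ∈ grid k := fun i hi => by simpa using hx i hi
  obtain ⟨hV, -⟩ := stmtV2 k x hk (fun i hi => grid_pos (hx' i hi)) hrec
  obtain ⟨c, d, hcd⟩ := hV 2
  obtain ⟨c', d', hcd'⟩ := hV 3
  have hd : d = 0 := expo_prog hk (f := fun i => (x i).factorization 2)
    (fun i hi => (mem_grid' (hx' i hi)).1) hcd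
  have hd' : d' = 0 := expo_prog hk (f := fun i => (x i).factorization 3)
    (fun i hi => (mem_grid' (hx' i hi)).2.1) hcd'
  have e0 := (mem_grid' (hx' 0 (by omega))).2.2
  have e1 := (mem_grid' (hx' 1 (by omega))).2.2
  have f2 : (x 0).factorization 2 = (x 1).factorization 2 := by
    have a0 := hcd 0 (by omega)
    have a1 := hcd 1 (by omega)
    rw [hd] at a0 a1
    simp at a0 a1
    omega
  have f3 : (x 0).factorization 3 = (x 1).factorization 3 := by
    have a0 := hcd' 0 (by omega)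
    have a1 := hcd' 1 (by omega)
    rw [hd'] at a0 a1
    simp at a0 a1
    omega
  rw [f2, f3] at e0
  rw [← e1] at e0
  omega

lemma grid_hsum_eq (k : ℕ) : hsum (grid k) =
    (∑ a ∈ expo k, (1 / 2 : ℝ) ^ a) * (∑ b ∈ expo k, (1 / 3 : ℝ) ^ b) := by
  unfold hsum grid
  rw [Finset.sum_image, Finset.sum_product, Finset.sum_mul_sum]
  · apply Finset.sum_congr rfl
    intro a _
    apply Finset.sum_congr rfl
    intro b _
    push_cast
    rw [div_pow, div_pow, one_pow, one_pow]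
    field_simp
  · rintro ⟨a, b⟩ _ ⟨a', b'⟩ _ h
    simp only at h
    have h2 := congrArg (fun m => Nat.factorization m 2) h
    have h3 := congrArg (fun m => Nat.factorization m 3) h
    simp only [fact_two, fact_three] at h2 h3
    rw [h2, h3]

lemma expo_sum {k : ℕ} (hk : 3 ≤ k) (r : ℝ) (hr : r ≠ 1) : ∑ a ∈ expo k, r ^ a =
    (r ^ (2 * k - 2) - 1) / (r - 1) - r ^ (k - 1) := by
  have hmem : k - 1 ∈ Finset.range (2 * k - 2) := by
    rw [Finset.mem_range]; omega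
  have h := Finset.sum_erase_add (Finset.range (2 * k - 2)) (fun a => r ^ a) hmem
  rw [geom_sum_eq hr] at h
  unfold expo
  linarith

theorem stmtA6 : StmtA6 := by
  intro k hk
  refine ⟨grid_smooth k, grid_gpFree hk, ?_⟩
  rw [grid_hsum_eq, expo_sum hk _ (by norm_num), expo_sum hk _ (by norm_num)]
  obtain ⟨j, rfl⟩ : ∃ j, k = j + 1 := ⟨k - 1, by omega⟩
  have e1 : 2 * (j + 1) - 2 = 2 * j := by omega
  have e2 : j + 1 - 1 = j := by omega
  rw [e1, e2]
  have h4 : (4 : ℝ) ^ (j + 1) = 4 * ((2 : ℝ) ^ j) ^ 2 := by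
    rw [← pow_mul, mul_comm j 2, pow_mul]; norm_num; ring
  have h9 : (9 : ℝ) ^ (j + 1) = 9 * ((3 : ℝ) ^ j) ^ 2 := by
    rw [← pow_mul, mul_comm j 2, pow_mul]; norm_num; ring
  have h2 : (1 / 2 : ℝ) ^ (2 * j) = 1 / ((2 : ℝ) ^ j) ^ 2 := by
    rw [← pow_mul, mul_comm 2 j, div_pow, one_pow]
  have h3 : (1 / 3 : ℝ) ^ (2 * j) = 1 / ((3 : ℝ) ^ j) ^ 2 := by
    rw [← pow_mul, mul_comm 2 j, div_pow, one_pow]
  have h2' : (1 / 2 : ℝ) ^ j = 1 / (2 : ℝ) ^ j := by rw [div_pow, one_pow]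
  have h3' : (1 / 3 : ℝ) ^ j = 1 / (3 : ℝ) ^ j := by rw [div_pow, one_pow]
  rw [h4, h9, h2, h3, h2', h3', pow_succ (2 : ℝ) j, pow_succ (3 : ℝ) j]
  have p2 : (2 : ℝ) ^ j ≠ 0 := by positivity
  have p3 : (3 : ℝ) ^ j ≠ 0 := by positivity
  generalize (2 : ℝ) ^ j = u at *
  generalize (3 : ℝ) ^ j = v at *
  have a1 : (1 / u ^ 2 - 1) / (1 / 2 - 1) - 1 / u = 2 - 2 / (u * 2) - 8 / (4 * u ^ 2) := by
    field_simp
    ring
  have a2 : (1 / v ^ 2 - 1) / (1 / 3 - 1) - 1 / v =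
      3 / 2 - 3 / (v * 3) - 27 / 2 / (9 * v ^ 2) := by
    field_simp
    ring
  rw [a1, a2]

end GeoProg
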