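import Pool.Agent.Helper7.GeoProg.Stmts2
import Pool.Agent.Helper7.GeoProg.P_V

/-!
# MP_f5ac68_nt, packet 15: `grid k` can be improved at some scales
-/

namespace GeoProg

open Finset

namespace A7

theorem fact2 (a b : ℕ) : (2 ^ a * 3 ^ b).factorization 2 = a := by
  rw [Nat.factorization_mul (by positivity) (by positivity), Finsupp.add_apply,
    Nat.factorization_pow, Nat.factorization_pow, Finsupp.smul_apply, Finsupp.smul_apply,
    Nat.prime_two.factorization, Nat.prime_three.factorization]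
  simp

theorem fact3 (a b : ℕ) : (2 ^ a * 3 ^ b).factorization 3 = b := by
  rw [Nat.factorization_mul (by positivity) (by positivity), Finsupp.add_apply,
    Nat.factorization_pow, Nat.factorization_pow, Finsupp.smul_apply, Finsupp.smul_apply,
    Nat.prime_two.factorization, Nat.prime_three.factorization]
  simp

theorem inj {a b a' b' : ℕ} (h : 2 ^ a * 3 ^ b = 2 ^ a' * 3 ^ b') : a = a' ∧ b = b' := by
  refine ⟨?_, ?_⟩
  · rw [← fact2 a b, h, fact2]
  · rw [← fact3 a b, h, fact3]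

theorem smooth5 (a b : ℕ) : 2 ^ a * 3 ^ b ∈ Nat.smoothNumbers 5 := by
  have h2 : 2 ∈ Nat.smoothNumbers 5 := by
    rw [Nat.mem_smoothNumbers']
    intro p hp hd
    have := Nat.le_of_dvd two_pos hd
    omega
  have h3 : 3 ∈ Nat.smoothNumbers 5 := by
    rw [Nat.mem_smoothNumbers']
    intro p hp hd
    have := Nat.le_of_dvd three_pos hd
    omega
  have hpow : ∀ (x : ℕ), x ∈ Nat.smoothNumbers 5 → ∀ n : ℕ, x ^ n ∈ Nat.smoothNumbers 5 := by
    intro x hx n
    induction n with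
    | zero =>
      rw [pow_zero, Nat.mem_smoothNumbers']
      intro p hp hd
      exact absurd (Nat.dvd_one.mp hd) hp.one_lt.ne'
    | succ n ih => rw [pow_succ]; exact Nat.mul_mem_smoothNumbers ih hx
  exact Nat.mul_mem_smoothNumbers (hpow 2 h2 a) (hpow 3 h3 b)

theorem mem_expo {K a : ℕ} : a ∈ expo (K + 1) ↔ a < 2 * K ∧ a ≠ K := by
  unfold expo
  rw [Finset.mem_erase, Finset.mem_range]
  have h1 : K + 1 - 1 = K := by omega
  have h2 : 2 * (K + 1) - 2 = 2 * K := by omega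
  rw [h1, h2]
  tauto

theorem mem_grid {K y : ℕ} : y ∈ grid (K + 1) ↔
    ∃ a b, (a < 2 * K ∧ a ≠ K) ∧ (b < 2 * K ∧ b ≠ K) ∧ 2 ^ a * 3 ^ b = y := by
  unfold grid
  rw [Finset.mem_image]
  constructor
  · rintro ⟨⟨a, b⟩, h, rfl⟩
    rw [Finset.mem_product] at h
    exact ⟨a, b, mem_expo.mp h.1, mem_expo.mp h.2, rfl⟩
  · rintro ⟨a, b, ha, hb, rfl⟩
    exact ⟨(a, b), Finset.mem_product.mpr ⟨mem_expo.mpr ha, mem_expo.mpr hb⟩, rfl⟩

/-- the two new elements and the removed one -/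
def newF (K b₀ j : ℕ) : Finset ℕ :=
  insert (2 ^ K * 3 ^ b₀) (insert (2 ^ 0 * 3 ^ K)
    (((grid (K + 1)).filter (· ≤ j)).erase (2 ^ 0 * 3 ^ b₀)))

theorem mem_newF {K b₀ j y : ℕ} (h1 : 3 ^ K ≤ j) (h2 : 2 ^ K * 3 ^ b₀ ≤ j) (h : y ∈ newF K b₀ j) :
    y ≤ j ∧ ∃ a b, 2 ^ a * 3 ^ b = y ∧
      (((a < 2 * K ∧ a ≠ K) ∧ (b < 2 * K ∧ b ≠ K) ∧ ¬ (a = 0 ∧ b = b₀)) ∨
        (a = K ∧ b = b₀) ∨ (a = 0 ∧ b = K)) := by
  unfold newF at h
  rw [Finset.mem_insert, Finset.mem_insert, Finset.mem_erase, Finset.mem_filter] at h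
  rcases h with rfl | rfl | ⟨hne, hg, hj⟩
  · exact ⟨h2, K, b₀, rfl, Or.inr (Or.inl ⟨rfl, rfl⟩)⟩
  · exact ⟨by simpa using h1, 0, K, rfl, Or.inr (Or.inr ⟨rfl, rfl⟩)⟩
  · obtain ⟨a, b, ha, hb, rfl⟩ := mem_grid.mp hg
    exact ⟨hj, a, b, rfl, Or.inl ⟨ha, hb, fun h => hne (by rw [h.1, h.2])⟩⟩

theorem card_newF {K b₀ j : ℕ} (hK : 1 ≤ K) (hb : b₀ < K) (hj : 3 ^ b₀ ≤ j) :
    ((grid (K + 1)).filter (· ≤ j)).card + 1 ≤ (newF K b₀ j).card := by
  unfold newF
  have hmem : 2 ^ 0 * 3 ^ b₀ ∈ (grid (K + 1)).filter (· ≤ j) := by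
    rw [Finset.mem_filter, mem_grid]
    exact ⟨⟨0, b₀, ⟨by omega, by omega⟩, ⟨by omega, by omega⟩, rfl⟩, by simpa using hj⟩
  have hn1 : 2 ^ 0 * 3 ^ K ∉ ((grid (K + 1)).filter (· ≤ j)).erase (2 ^ 0 * 3 ^ b₀) := by
    rw [Finset.mem_erase, Finset.mem_filter, mem_grid]
    rintro ⟨_, ⟨a, b, _, hb', h⟩, _⟩
    exact hb'.2 (inj h).2
  have hn2 : 2 ^ K * 3 ^ b₀ ∉ insert (2 ^ 0 * 3 ^ K)
      (((grid (K + 1)).filter (· ≤ j)).erase (2 ^ 0 * 3 ^ b₀)) := by
    rw [Finset.mem_insert, Finset.mem_erase, Finset.mem_filter, mem_grid]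
    rintro (h | ⟨_, ⟨a, b, ha, _, h⟩, _⟩)
    · have := (inj h).1
      omega
    · exact ha.2 (inj h).1
  rw [Finset.card_insert_of_notMem hn2, Finset.card_insert_of_notMem hn1,
    Finset.card_erase_of_mem hmem]
  have : 0 < ((grid (K + 1)).filter (· ≤ j)).card := Finset.card_pos.mpr ⟨_, hmem⟩
  omega

theorem pow_aux {K : ℕ} (hK : 3 ≤ K) : 2 * 3 ^ K < 4 ^ K := by
  induction K, hK using Nat.le_induction with
  | base => norm_num
  | succ K _ ih => rw [pow_succ, pow_succ]; omega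

theorem gpfree_newF {K b₀ j : ℕ} (hK : 3 ≤ K) (hb0 : 1 ≤ b₀) (hbK : b₀ < K) (h1 : 3 ^ K ≤ j)
    (h1' : j < 2 * 3 ^ K) (h2 : 2 ^ K * 3 ^ b₀ ≤ j) (h2' : j < 2 ^ (K + 1) * 3 ^ b₀) :
    GPFree (K + 1) (newF K b₀ j : Set ℕ) := by
  have hposF : ∀ m ∈ (newF K b₀ j : Set ℕ), 0 < m := by
    intro m hm
    obtain ⟨_, a, b, rfl, _⟩ := mem_newF h1 h2 (Finset.mem_coe.mp hm)
    positivity
  refine ⟨hposF, fun hgp => ?_⟩
  obtain ⟨x, hx, hx01, hrel⟩ := (stmtV1 (K + 1) _ (by omega) hposF).mp hgp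
  have hV2 := (stmtV2 (K + 1) x (by omega) (fun i hi => hposF _ (hx i hi)) hrel).1
  obtain ⟨c, d, hcd⟩ := hV2 2
  obtain ⟨c', d', hcd'⟩ := hV2 3
  -- the data of the terms
  have hdata : ∀ i, i ≤ K → ∃ a b : ℕ, 2 ^ a * 3 ^ b = x i ∧ x i ≤ j ∧
      (a : ℤ) = c + i * d ∧ (b : ℤ) = c' + i * d' ∧
      (((a < 2 * K ∧ a ≠ K) ∧ (b < 2 * K ∧ b ≠ K) ∧ ¬ (a = 0 ∧ b = b₀)) ∨
        (a = K ∧ b = b₀) ∨ (a = 0 ∧ b = K)) := by
    intro i hi
    obtain ⟨hj, a, b, hab, hc⟩ := mem_newF h1 h2 (Finset.mem_coe.mp (hx i (by omega)))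
    refine ⟨a, b, hab, hj, ?_, ?_, hc⟩
    · rw [← hcd i (by omega), ← hab, fact2]
    · rw [← hcd' i (by omega), ← hab, fact3]
  -- bounds for the exponents of 3
  have hbK' : ∀ a b : ℕ, 2 ^ a * 3 ^ b ≤ j → b ≤ K := by
    intro a b hab
    by_contra hcon
    have h3 : 3 ^ (K + 1) ≤ 3 ^ b := Nat.pow_le_pow_right (by norm_num) (by omega)
    have h4 : 3 ^ b ≤ 2 ^ a * 3 ^ b := Nat.le_mul_of_pos_left _ (by positivity)
    rw [pow_succ] at h3
    have : 0 < 3 ^ K := by positivity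
    omega
  have haK' : ∀ a : ℕ, 2 ^ a * 3 ^ b₀ ≤ j → a ≤ K := by
    intro a ha
    by_contra hcon
    have h3 : 2 ^ (K + 1) ≤ 2 ^ a := Nat.pow_le_pow_right (by norm_num) (by omega)
    have h4 : 2 ^ (K + 1) * 3 ^ b₀ ≤ 2 ^ a * 3 ^ b₀ := Nat.mul_le_mul_right _ h3
    omega
  have ha2 : ∀ a b x : ℕ, 2 ^ a * 3 ^ b ≤ j → a = x * K → x ≤ 1 := by
    intro a b x hab hax
    by_contra hcon
    have h3 : 2 ^ (2 * K) ≤ 2 ^ a := by
      refine Nat.pow_le_pow_right (by norm_num) ?_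
      rw [hax]
      exact Nat.mul_le_mul_right K (by omega)
    have h4 : 2 ^ a ≤ 2 ^ a * 3 ^ b := Nat.le_mul_of_pos_right _ (by positivity)
    have h5 := pow_aux hK
    rw [pow_mul] at h3
    norm_num at h3
    omega
  have hKpos : (0 : ℤ) < K := by exact_mod_cast (by omega : 0 < K)
  obtain ⟨a0, b0, hab0, hj0, ha0, hb0', hc0⟩ := hdata 0 (by omega)
  obtain ⟨aK, bK, habK, hjK, haK, hbK'', hcK⟩ := hdata K le_rfl
  have hb0le := hbK' a0 b0 (by rw [hab0]; exact hj0)
  have hbKle := hbK' aK bK (by rw [habK]; exact hjK)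
  simp only [Nat.cast_zero, zero_mul, add_zero] at ha0 hb0'
  by_cases hd' : d' = 0
  · -- constant exponent of 3
    subst hd'
    simp only [mul_zero, add_zero] at hbK'' hb0'
    have hbc : b0 = bK := by omega
    have hd0 : d ≠ 0 := by
      intro hd0
      subst hd0
      obtain ⟨a1, b1, hab1, _, ha1, hb1, _⟩ := hdata 1 (by omega)
      simp only [mul_zero, add_zero] at ha1 hb1
      have e1 : a1 = a0 := by omega
      have e2 : b1 = b0 := by omega
      rw [← hab0, ← hab1, e1, e2] at hx01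
      exact lt_irrefl _ hx01
    by_cases hb : b0 = b₀
    · -- inside the column of the removed element
      have hA0 := haK' a0 (by rw [← hb, hab0]; exact hj0)
      have hAK := haK' aK (by rw [← hb, hbc, habK]; exact hjK)
      have hdle : d ≤ 1 := by
        by_contra hcon
        have : (K : ℤ) * 2 ≤ K * d := mul_le_mul_of_nonneg_left (by omega) hKpos.le
        omega
      have hdge : -1 ≤ d := by
        by_contra hcon
        have : (K : ℤ) * d ≤ K * (-2) := mul_le_mul_of_nonneg_left (by omega) hKpos.le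
        omega
      have hd1 : d = 1 ∨ d = -1 := by omega
      rcases hd1 with rfl | rfl
      · have : a0 = 0 := by omega
        rcases hc0 with h | h | h <;> omega
      · have : aK = 0 := by omega
        rcases hcK with h | h | h <;> omega
    · by_cases hbKc : b0 = K
      · -- only one element
        have e0 : a0 = 0 := by rcases hc0 with h | h | h <;> omega
        have eK : aK = 0 := by rcases hcK with h | h | h <;> omega
        have : (K : ℤ) * d = 0 := by omega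
        rcases mul_eq_zero.mp this with h | h
        · omega
        · exact hd0 h
      · -- in the grid
        have hA : ∀ i, i ≤ K → ∃ a : ℕ, (a : ℤ) = c + i * d ∧ a < 2 * K ∧ a ≠ K := by
          intro i hi
          obtain ⟨a, b, _, _, h3, h4, h5⟩ := hdata i hi
          simp only [mul_zero, add_zero] at h4
          refine ⟨a, h3, ?_⟩
          have : b = b0 := by omega
          rcases h5 with h | h | h <;> omega
        obtain ⟨a0', e0, l0, n0⟩ := hA 0 (by omega)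
        obtain ⟨aK', eK, lK, nK⟩ := hA K le_rfl
        simp only [Nat.cast_zero, zero_mul, add_zero] at e0
        have hdle : d ≤ 1 := by
          by_contra hcon
          have : (K : ℤ) * 2 ≤ K * d := mul_le_mul_of_nonneg_left (by omega) hKpos.le
          omega
        have hdge : -1 ≤ d := by
          by_contra hcon
          have : (K : ℤ) * d ≤ K * (-2) := mul_le_mul_of_nonneg_left (by omega) hKpos.le
          omega
        have hd1 : d = 1 ∨ d = -1 := by omega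
        rcases hd1 with rfl | rfl
        · obtain ⟨a, e, l, n⟩ := hA (K - a0') (by omega)
          omega
        · obtain ⟨a, e, l, n⟩ := hA (a0' - K) (by omega)
          omega
  · -- the exponent of 3 is not constant
    have hdle : d' ≤ 1 := by
      by_contra hcon
      have : (K : ℤ) * 2 ≤ K * d' := mul_le_mul_of_nonneg_left (by omega) hKpos.le
      omega
    have hdge : -1 ≤ d' := by
      by_contra hcon
      have : (K : ℤ) * d' ≤ K * (-2) := mul_le_mul_of_nonneg_left (by omega) hKpos.le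
      omega
    have hd1 : d' = 1 ∨ d' = -1 := by omega
    rcases hd1 with rfl | rfl
    · -- b_i = i
      have e0 : b0 = 0 := by omega
      have eK : bK = K := by omega
      have eaK : aK = 0 := by rcases hcK with h | h | h <;> omega
      -- c = - K d
      have hc : c = -(K * d) := by rw [eaK] at haK; push_cast at haK; linarith
      have hdneg : d ≤ 0 := by
        by_contra hcon
        have : 0 < (K : ℤ) * d := mul_pos hKpos (by omega)
        omega
      obtain ⟨y, hy⟩ : ∃ y : ℕ, (y : ℤ) = -d := ⟨(-d).toNat, by omega⟩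
      have hay : a0 = y * K := by
        have : (a0 : ℤ) = y * K := by rw [ha0, hc, hy]; ring
        exact_mod_cast this
      have hy1 := ha2 a0 b0 y (by rw [hab0]; exact hj0) hay
      have hd01 : d = 0 ∨ d = -1 := by omega
      rcases hd01 with rfl | rfl
      · -- the term (0, b₀)
        obtain ⟨a, b, _, _, h3, h4, h5⟩ := hdata b₀ (by omega)
        have : a = 0 := by omega
        have : b = b₀ := by omega
        rcases h5 with h | h | h <;> omega
      · -- the term (K, 0)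
        have : a0 = K := by omega
        rcases hc0 with h | h | h <;> omega
    · -- b_i = K - i
      have e0 : b0 = K := by omega
      have eK : bK = 0 := by omega
      have ea0 : a0 = 0 := by rcases hc0 with h | h | h <;> omega
      have hc : c = 0 := by omega
      subst hc
      have hdpos : 0 ≤ d := by
        by_contra hcon
        have : (K : ℤ) * d < 0 := mul_neg_of_pos_of_neg hKpos (by omega)
        omega
      obtain ⟨y, hy⟩ : ∃ y : ℕ, (y : ℤ) = d := ⟨d.toNat, by omega⟩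
      have hay : aK = y * K := by
        have : (aK : ℤ) = y * K := by rw [haK, hy]; ring
        exact_mod_cast this
      have hy1 := ha2 aK bK y (by rw [habK]; exact hjK) hay
      have hd01 : d = 0 ∨ d = 1 := by omega
      rcases hd01 with rfl | rfl
      · obtain ⟨a, b, _, _, h3, h4, h5⟩ := hdata (K - b₀) (by omega)
        have : a = 0 := by omega
        have : b = b₀ := by omega
        rcases h5 with h | h | h <;> omega
      · have : aK = K := by omega
        rcases hcK with h | h | h <;> omega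

theorem exists_b (K : ℕ) (hK : 1 ≤ K) : ∃ b : ℕ, 2 ^ K * 3 ^ b ≤ 3 ^ K ∧
    3 ^ K < 2 ^ K * 3 ^ (b + 1) := by
  by_contra hcon
  push Not at hcon
  have hall : ∀ b : ℕ, 2 ^ K * 3 ^ b ≤ 3 ^ K := by
    intro b
    induction b with
    | zero => rw [pow_zero, mul_one]; exact Nat.pow_le_pow_left (by norm_num) K
    | succ b ih => exact hcon b ih
  have h1 := hall K
  have h2 : 2 ≤ 2 ^ K := by
    calc 2 = 2 ^ 1 := by norm_num
      _ ≤ 2 ^ K := Nat.pow_le_pow_right (by norm_num) hK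
  have h3 : 0 < 3 ^ K := by positivity
  nlinarith

theorem main_scale {K b₀ j : ℕ} (hK : 3 ≤ K) (h1 : 3 ^ K ≤ j)
    (h1' : j < 2 * 3 ^ K) (h2 : 2 ^ K * 3 ^ b₀ ≤ j) (h2' : j < 2 ^ (K + 1) * 3 ^ b₀) :
    ∃ F : Finset ℕ, SmoothFin 5 F ∧ GPFree (K + 1) (F : Set ℕ) ∧
    (∀ b ∈ F, b ≤ j) ∧ ((grid (K + 1)).filter (· ≤ j)).card + 1 ≤ F.card := by
  have hbK : b₀ < K := by
    by_contra hcon
    have h3 : 3 ^ K ≤ 3 ^ b₀ := Nat.pow_le_pow_right (by norm_num) (by omega)
    have h4 : 2 ≤ 2 ^ K := by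
      calc 2 = 2 ^ 1 := by norm_num
        _ ≤ 2 ^ K := Nat.pow_le_pow_right (by norm_num) (by omega)
    have h5 : 2 * 3 ^ K ≤ 2 ^ K * 3 ^ b₀ := Nat.mul_le_mul h4 h3
    omega
  have hb0 : 1 ≤ b₀ := by
    by_contra hcon
    have h0 : b₀ = 0 := by omega
    subst h0
    rw [pow_zero, mul_one] at h2'
    have h3 : ∀ K : ℕ, 3 ≤ K → 2 ^ (K + 1) ≤ 3 ^ K := by
      intro K hK
      induction K, hK using Nat.le_induction with
      | base => norm_num
      | succ K _ ih => rw [pow_succ, pow_succ 3]; omega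
    have := h3 K hK
    omega
  refine ⟨newF K b₀ j, ?_, gpfree_newF hK hb0 hbK h1 h1' h2 h2', ?_, ?_⟩
  · intro y hy
    obtain ⟨_, a, b, rfl, _⟩ := mem_newF h1 h2 hy
    exact smooth5 a b
  · intro y hy
    exact (mem_newF h1 h2 hy).1
  · refine card_newF (by omega) hbK ?_
    refine le_trans ?_ h2
    exact Nat.le_mul_of_pos_left _ (by positivity)

end A7

/-- Packet A7. -/
theorem stmtA7 : StmtA7 := by
  intro k hk
  obtain ⟨K, rfl⟩ : ∃ K, k = K + 1 := ⟨k - 1, by omega⟩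
  have hK : 3 ≤ K := by omega
  have hKk : K + 1 - 1 = K := by omega
  rw [hKk]
  obtain ⟨b, hb1, hb2⟩ := A7.exists_b K (by omega)
  have hM : 0 < 3 ^ K := by positivity
  have hMr : (0 : ℝ) < (3 : ℝ) ^ K := by positivity
  by_cases hcase : 4 * 3 ^ K ≤ 7 * (2 ^ K * 3 ^ b)
  · obtain ⟨U, hU⟩ : ∃ U, U = min (2 * 3 ^ K) (2 * (2 ^ K * 3 ^ b)) := ⟨_, rfl⟩
    have hU8 : 8 * 3 ^ K ≤ 7 * U := by rw [hU]; omega
    have hUpos : (0 : ℝ) < U := by
      have : 0 < U := by omega
      exact_mod_cast this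
    refine ⟨3 ^ K, U, hM, by omega, ?_, ?_⟩
    · have h1 : (8 : ℝ) * 3 ^ K ≤ 7 * U := by exact_mod_cast hU8
      have h2 : 1 / (U : ℝ) ≤ 7 / (8 * 3 ^ K) := by
        rw [div_le_div_iff₀ hUpos (by positivity)]
        linarith
      have h3 : 1 / (12 * 3 ^ K : ℝ) ≤ 1 / (8 * 3 ^ K) := by
        apply one_div_le_one_div_of_le (by positivity)
        linarith
      have h4 : 1 / ((3 : ℝ) ^ K) = 1 / (8 * 3 ^ K) + 7 / (8 * 3 ^ K) := by
        field_simp
        norm_num
      push_cast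
      rw [h4]
      linarith
    · intro j hj1 hj2
      have h1 : U ≤ 2 * 3 ^ K := by rw [hU]; exact min_le_left _ _
      have h2 : U ≤ 2 * (2 ^ K * 3 ^ b) := by rw [hU]; exact min_le_right _ _
      refine A7.main_scale hK hj1 (by omega) (b₀ := b) (by omega) ?_
      rw [pow_succ]
      have : 2 ^ K * 2 * 3 ^ b = 2 * (2 ^ K * 3 ^ b) := by ring
      omega
  · push Not at hcase
    have hL : 2 ^ K * 3 ^ (b + 1) = 3 * (2 ^ K * 3 ^ b) := by rw [pow_succ]; ring
    have h7 : 7 * (2 ^ K * 3 ^ (b + 1)) < 12 * 3 ^ K := by rw [hL]; omega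
    refine ⟨2 ^ K * 3 ^ (b + 1), 2 * 3 ^ K, by positivity, by omega, ?_, ?_⟩
    · have hLpos : (0 : ℝ) < ((2 ^ K * 3 ^ (b + 1) : ℕ) : ℝ) := by
        have : 0 < 2 ^ K * 3 ^ (b + 1) := by positivity
        exact_mod_cast this
      have h1 : 7 * ((2 ^ K * 3 ^ (b + 1) : ℕ) : ℝ) ≤ 12 * 3 ^ K := by exact_mod_cast h7.le
      have h2 : 7 / (12 * 3 ^ K : ℝ) ≤ 1 / ((2 ^ K * 3 ^ (b + 1) : ℕ) : ℝ) := by
        rw [div_le_div_iff₀ (by positivity) hLpos]
        linarith
      have h3 : 7 / (12 * 3 ^ K : ℝ) - 1 / ((2 * 3 ^ K : ℕ) : ℝ) = 1 / (12 * 3 ^ K) := by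
        push_cast
        field_simp
        norm_num
      rw [← h3]
      linarith
    · intro j hj1 hj2
      refine A7.main_scale hK (by omega) hj2 (b₀ := b + 1) hj1 ?_
      rw [pow_succ 2 K]
      have : 2 ^ K * 2 * 3 ^ (b + 1) = 2 * (2 ^ K * 3 ^ (b + 1)) := by ring
      omega

end GeoProg
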