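import Pool.Agent.Helper7.GeoProg.Stmts

/-!
# MP_f5ac68_nt, packet [B3]: from finite sets to upper density
-/

namespace GeoProg

open Filter Topology

theorem b3_count_le_self (A : Set ℕ) (n : ℕ) : count A n ≤ n := by
  unfold count
  calc (A ∩ Set.Icc 1 n).ncard ≤ (Set.Icc 1 n : Set ℕ).ncard :=
        Set.ncard_le_ncard Set.inter_subset_right (Set.finite_Icc 1 n)
    _ = n := by
        rw [← Finset.coe_Icc, Set.ncard_coe_finset, Nat.card_Icc]; omega

theorem stmtB3 : StmtB3 := by
  intro k c hk h
  choose Nf hNf Ff hF hfree hcard using h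
  -- the recursive choice
  let M : ℕ → ℕ := fun l => Nat.rec 2 (fun l m => (l + 2) ^ 2 * (Nf m) ^ 2 + 1) l
  have hM0 : M 0 = 2 := rfl
  have hMs : ∀ l, M (l + 1) = (l + 2) ^ 2 * (Nf (M l)) ^ 2 + 1 := fun l => rfl
  set n : ℕ → ℕ := fun l => Nf (M l) with hn
  have hn0 : 2 ≤ n 0 := by
    have := hNf (M 0); rw [hM0] at this; exact this
  have hns : ∀ l, (l + 2) ^ 2 * (n l) ^ 2 + 1 ≤ n (l + 1) := by
    intro l
    have := hNf (M (l + 1)); rw [hMs] at this; exact this
  have hnpos : ∀ l, 2 ≤ n l := by
    intro l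
    induction l with
    | zero => exact hn0
    | succ l ih =>
      have h1 := hns l
      nlinarith [sq_nonneg (l : ℤ), Nat.zero_le l, ih, mul_pos (show 0 < l + 2 by omega) (show 0 < n l by omega)]
  have hstep : ∀ l, n l < n (l + 1) := by
    intro l
    have h1 := hns l
    have h2 := hnpos l
    have h3 : 4 ≤ (l + 2) ^ 2 := by nlinarith [Nat.zero_le l]
    have h4 : n l ≤ (n l) ^ 2 := by nlinarith
    nlinarith
  have hmono : StrictMono n := strictMono_nat_of_lt_succ hstep
  set F : ℕ → Finset ℕ := fun l => Ff (M l) with hFdef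
  have hF1 : ∀ l, ∀ a ∈ F l, 1 ≤ a ∧ a ≤ n l := by
    intro l a ha
    have := hF (M l) ha
    rw [Finset.mem_Icc] at this
    exact this
  let A : Set ℕ := {a | ∃ l, a ∈ F l ∧ n l < (l + 1) * a}
  -- lower bound in a block
  have hlow : ∀ l a, n (l + 1) < (l + 1 + 1) * a → (l + 2) * (n l) ^ 2 < a := by
    intro l a ha
    have h1 := hns l
    by_contra hcon
    push Not at hcon
    have : (l + 1 + 1) * a ≤ (l + 2) ^ 2 * (n l) ^ 2 := by
      calc (l + 1 + 1) * a ≤ (l + 2) * ((l + 2) * (n l) ^ 2) := Nat.mul_le_mul_left _ hcon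
        _ = _ := by ring
    omega
  have hblock : ∀ l l' a a', a ∈ F l → n l < (l + 1) * a → a' ∈ F l' → n l' < (l' + 1) * a' →
      l < l' → a < a' := by
    intro l l' a a' ha _ ha' hb' hll
    obtain ⟨m, rfl⟩ : ∃ m, l' = m + 1 := ⟨l' - 1, by omega⟩
    have h1 := hlow m a' hb'
    have h2 : n l ≤ n m := hmono.monotone (by omega)
    have h3 := (hF1 l a ha).2
    have h4 : n m ≤ (n m) ^ 2 := by nlinarith [hnpos m]
    nlinarith [Nat.zero_le m]
  refine ⟨A, ⟨?_, ?_⟩, ?_⟩
  · rintro m ⟨l, hm, -⟩
    exact (hF1 l m hm).1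
  · rintro ⟨a, q, ha0, hq1, hx⟩
    -- choose the sequence
    have hx' : ∀ i : ℕ, ∃ m : ℕ, i < k → m ∈ A ∧ (m : ℚ) = (a : ℚ) * q ^ i := by
      intro i
      by_cases hi : i < k
      · obtain ⟨m, hm, hm'⟩ := hx i hi
        exact ⟨m, fun _ => ⟨hm, hm'⟩⟩
      · exact ⟨0, fun h => absurd h hi⟩
    choose x hxA using hx'
    have haq : (0 : ℚ) < a := by exact_mod_cast ha0
    have hq0 : (0 : ℚ) < q := by linarith
    have hsucc : ∀ i, i + 1 < k → (x (i + 1) : ℚ) = q * x i := by
      intro i hi
      rw [(hxA (i + 1) hi).2, (hxA i (by omega)).2]; ring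
    have hxpos : ∀ i, i < k → (0 : ℚ) < x i := by
      intro i hi
      rw [(hxA i hi).2]; positivity
    have hlt : ∀ i, i + 1 < k → x i < x (i + 1) := by
      intro i hi
      have h1 := hsucc i hi
      have h2 := hxpos i (by omega)
      have : (x i : ℚ) < x (i + 1) := by rw [h1]; nlinarith
      exact_mod_cast this
    have hsq : ∀ i, i + 2 < k → x i * x (i + 2) = x (i + 1) ^ 2 := by
      intro i hi
      have h1 := hsucc i (by omega)
      have h2 := hsucc (i + 1) (by omega)
      have : (x i : ℚ) * x (i + 2) = (x (i + 1) : ℚ) ^ 2 := by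
        rw [show i + 2 = i + 1 + 1 from rfl, h2, h1]; ring
      exact_mod_cast this
    have hblk : ∀ i, i < k → ∃ l, x i ∈ F l ∧ n l < (l + 1) * x i := fun i hi => (hxA i hi).1
    -- blocks of consecutive terms are equal
    have hkey : ∀ i, i + 1 < k → ∀ l l', x i ∈ F l → n l < (l + 1) * x i → x (i + 1) ∈ F l' →
        n l' < (l' + 1) * x (i + 1) → l = l' := by
      intro i hi l l' h1 h2 h3 h4
      rcases lt_trichotomy l l' with hll | hll | hll
      · exfalso
        obtain ⟨m, rfl⟩ : ∃ m, l' = m + 1 := ⟨l' - 1, by omega⟩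
        have h5 := hlow m _ h4
        have h6 : n l ≤ n m := hmono.monotone (by omega)
        have h7 := (hF1 l _ h1).2
        have h7' := (hF1 l _ h1).1
        have h8 := (hF1 (m + 1) _ h3).2
        have h9 := hns m
        have h10 := hnpos m
        set P := n m with hP
        rcases Nat.eq_zero_or_pos i with hi0 | hi0
        · -- use the next term
          have hk2 : i + 2 < k := by omega
          have e1 := hsq i hk2
          obtain ⟨l2, g1, g2⟩ := hblk (i + 2) hk2
          -- x (i+2) > n (m+1)
          have e2 : n (m + 1) < x (i + 2) := by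
            by_contra hcon
            push Not at hcon
            -- x(i+1)^2 = x i * x (i+2) ≤ P * n(m+1); (m+2)^2 x(i+1)^2 > n(m+1)^2
            have f1 : x (i + 1) ^ 2 ≤ P * n (m + 1) := by
              rw [← e1]; exact Nat.mul_le_mul (le_trans h7 h6) hcon
            have f2 : n (m + 1) ^ 2 < ((m + 1 + 1) * x (i + 1)) ^ 2 :=
              Nat.pow_lt_pow_left h4 (by norm_num)
            have f3 : ((m + 1 + 1) * x (i + 1)) ^ 2 ≤ (m + 2) ^ 2 * (P * n (m + 1)) := by
              rw [mul_pow]; exact Nat.mul_le_mul_left _ f1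
            have f4 : (m + 2) ^ 2 * (P * n (m + 1)) ≤ n (m + 1) * n (m + 1) := by
              calc (m + 2) ^ 2 * (P * n (m + 1)) = ((m + 2) ^ 2 * P) * n (m + 1) := by ring
                _ ≤ n (m + 1) * n (m + 1) := by
                    apply Nat.mul_le_mul_right
                    have : (m + 2) ^ 2 * P ≤ (m + 2) ^ 2 * P ^ 2 := by
                      apply Nat.mul_le_mul_left; nlinarith
                    omega
            have f5 : n (m + 1) ^ 2 = n (m + 1) * n (m + 1) := by ring
            omega
          have e3 : m + 1 < l2 := by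
            by_contra hcon
            push Not at hcon
            have := (hF1 l2 _ g1).2
            have e4 : n l2 ≤ n (m + 1) := hmono.monotone hcon
            omega
          obtain ⟨m2, rfl⟩ : ∃ m2, l2 = m2 + 1 := ⟨l2 - 1, by omega⟩
          have e5 := hlow m2 _ g2
          have e60 : m + 1 ≤ m2 := by omega
          have e6 : n (m + 1) ≤ n m2 := hmono.monotone e60
          -- x (i+2) * x i = x(i+1)^2 ≤ n(m+1)^2, but x(i+2) > (m2+2) * n(m2)^2
          have e7 : x (i + 2) ≤ x (i + 1) ^ 2 := by
            rw [← e1]; exact Nat.le_mul_of_pos_left _ h7'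
          have e8 : x (i + 1) ^ 2 ≤ n m2 ^ 2 := Nat.pow_le_pow_left (le_trans h8 e6) 2
          nlinarith [Nat.zero_le m2]
        · -- use the previous term
          obtain ⟨j, rfl⟩ : ∃ j, i = j + 1 := ⟨i - 1, by omega⟩
          have e1 := hsq j (by omega)
          have e2 := hlt j (by omega)
          have e3 : 0 < x j := by
            have := hxpos j (by omega); exact_mod_cast this
          -- x j * x (j+2) = x (j+1)^2 ≤ P^2
          have e4 : x (j + 2) ≤ x (j + 1) ^ 2 := by
            rw [← e1]; exact Nat.le_mul_of_pos_left _ e3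
          have e5 : x (j + 1) ^ 2 ≤ P ^ 2 := Nat.pow_le_pow_left (le_trans h7 h6) 2
          have e6 : (m + 2) * P ^ 2 < x (j + 2) := h5
          nlinarith [Nat.zero_le m]
      · exact hll
      · exfalso
        have := hblock l' l _ _ h3 h4 h1 h2 hll
        have := hlt i hi
        omega
    obtain ⟨l0, hl0, hl0'⟩ := hblk 0 (by omega)
    have hall : ∀ i, i < k → x i ∈ F l0 ∧ n l0 < (l0 + 1) * x i := by
      intro i
      induction i with
      | zero => intro _; exact ⟨hl0, hl0'⟩
      | succ i ih =>
        intro hi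
        obtain ⟨l', g1, g2⟩ := hblk (i + 1) hi
        obtain ⟨h1, h2⟩ := ih (by omega)
        have := hkey i hi l0 l' h1 h2 g1 g2
        subst this
        exact ⟨g1, g2⟩
    apply (hfree (M l0)).2
    exact ⟨a, q, ha0, hq1, fun i hi => ⟨x i, (hall i hi).1, (hxA i hi).2⟩⟩
  · -- the upper density
    have hbdd : IsBoundedUnder (· ≤ ·) atTop (fun m : ℕ => (count A m : ℝ) / (m : ℝ)) := by
      refine isBoundedUnder_of ⟨1, fun m => ?_⟩
      rcases Nat.eq_zero_or_pos m with hm | hm
      · subst hm; simp
      · rw [div_le_one (by exact_mod_cast hm)]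
        exact_mod_cast b3_count_le_self A m
    have hcnt : ∀ l : ℕ, (c - 1 / ((l : ℝ) + 1)) * (n l : ℝ) ≤ (count A (n l) : ℝ) := by
      intro l
      -- elements of F l outside A are at most n l / (l+1)
      have h1 : (F l).card ≤ count A (n l) + n l / (l + 1) := by
        have hsub : (F l : Finset ℕ) ⊆
            (F l).filter (fun a => n l < (l + 1) * a) ∪ Finset.Icc 1 (n l / (l + 1)) := by
          intro a ha
          rw [Finset.mem_union, Finset.mem_filter, Finset.mem_Icc]
          by_cases hc : n l < (l + 1) * a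
          · exact Or.inl ⟨ha, hc⟩
          · right
            refine ⟨(hF1 l a ha).1, ?_⟩
            rw [Nat.le_div_iff_mul_le (by omega)]
            push Not at hc
            linarith [mul_comm a (l + 1)]
        have h2 := Finset.card_le_card hsub
        have h3 := Finset.card_union_le ((F l).filter (fun a => n l < (l + 1) * a))
          (Finset.Icc 1 (n l / (l + 1)))
        have h4 : (Finset.Icc 1 (n l / (l + 1))).card = n l / (l + 1) := by
          rw [Nat.card_Icc, Nat.add_sub_cancel]
        have h5 : ((F l).filter (fun a => n l < (l + 1) * a)).card ≤ count A (n l) := by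
          unfold count
          rw [← Set.ncard_coe_finset]
          apply Set.ncard_le_ncard _ ((Set.finite_Icc 1 (n l)).inter_of_right A)
          intro a ha
          rw [Finset.mem_coe, Finset.mem_filter] at ha
          refine ⟨⟨l, ha.1, ha.2⟩, ?_⟩
          exact Set.mem_Icc.mpr (hF1 l a ha.1)
        rw [h4] at h3
        exact le_trans h2 (le_trans h3 (Nat.add_le_add_right h5 _))
      have h2 : c * n l ≤ (F l).card := hcard (M l)
      have h3 : ((n l / (l + 1) : ℕ) : ℝ) ≤ (n l : ℝ) / ((l : ℝ) + 1) := by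
        have := @Nat.cast_div_le ℝ _ _ _ (n l) (l + 1)
        push_cast at this
        exact this
      have h1' : ((F l).card : ℝ) ≤ count A (n l) + ((n l / (l + 1) : ℕ) : ℝ) := by
        exact_mod_cast h1
      have h4 : (c - 1 / ((l : ℝ) + 1)) * n l = c * n l - (n l : ℝ) / ((l : ℝ) + 1) := by ring
      rw [h4]; linarith
    unfold upperDensity
    apply le_of_forall_pos_sub_le
    intro ε hε
    apply le_limsup_of_frequently_le _ hbdd
    rw [frequently_atTop]
    intro m
    obtain ⟨l, hl⟩ := exists_nat_gt (1 / ε)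
    set l' := max l m with hl'
    refine ⟨n l', ?_, ?_⟩
    · exact le_trans (le_max_right l m) hmono.le_apply
    · have hpos : (0 : ℝ) < n l' := by
        have := hnpos l'; exact_mod_cast (by omega : 0 < n l')
      rw [le_div_iff₀ hpos]
      refine le_trans ?_ (hcnt l')
      apply mul_le_mul_of_nonneg_right _ hpos.le
      have h1 : 1 / ((l' : ℝ) + 1) ≤ ε := by
        rw [div_le_iff₀ (by positivity)]
        have h2 : (l : ℝ) ≤ l' := by exact_mod_cast le_max_left l m
        rw [div_lt_iff₀ hε] at hl
        nlinarith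
      linarith

end GeoProg
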