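import Pool.Agent.Helper7.GeoProg.Stmts

/-!
# MP_f5ac68_nt, packet 2: the decomposition into smooth and rough part
-/

namespace GeoProg

open Filter Topology

theorem coprime_smooth_rough {n s m : ℕ} (hs : s ∈ Nat.smoothNumbers n) (hm : Rough n m) :
    Nat.Coprime s m := by
  by_contra hc
  obtain ⟨p, hp, hps, hpm⟩ := Nat.Prime.not_coprime_iff_dvd.mp hc
  have h1 : p < n := by
    rw [Nat.mem_smoothNumbers'] at hs
    exact hs p hp hps
  have h2 := hm.2 p hp hpm
  omega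

theorem rough_mul {n a b : ℕ} (ha : Rough n a) (hb : Rough n b) : Rough n (a * b) := by
  refine ⟨Nat.mul_pos ha.1 hb.1, fun p hp hpd => ?_⟩
  rcases (hp.dvd_mul).mp hpd with h | h
  · exact ha.2 p hp h
  · exact hb.2 p hp h

theorem stmtD1 : StmtD1 := by
  intro n
  constructor
  · intro N
    induction N using Nat.strong_induction_on with
    | _ N ih =>
      intro hN
      by_cases h : ∃ p : ℕ, p.Prime ∧ p ∣ N ∧ p < n
      · obtain ⟨p, hp, ⟨N', rfl⟩, hpn⟩ := h
        have hN' : 0 < N' := Nat.pos_of_mul_pos_left hN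
        obtain ⟨s, m, hs, hm, hsm⟩ := ih N' (by nlinarith [hp.two_le]) hN'
        refine ⟨p * s, m, ?_, hm, ?_⟩
        · refine Nat.mul_mem_smoothNumbers ?_ hs
          rw [Nat.mem_smoothNumbers']
          intro q hq hqp
          rw [(Nat.prime_dvd_prime_iff_eq hq hp).mp hqp]
          exact hpn
        · rw [hsm]; ring
      · push Not at h
        refine ⟨1, N, ?_, ⟨hN, h⟩, by simp⟩
        rw [Nat.mem_smoothNumbers']
        intro q hq hq1
        exact absurd (Nat.dvd_one.mp hq1) hq.one_lt.ne'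
  · intro s s' m m' hs hs' hm hm' heq
    have h1 : s ∣ s' := by
      have : s ∣ s' * m' := ⟨m, heq.symm⟩
      exact (coprime_smooth_rough hs hm').dvd_of_dvd_mul_right this
    have h2 : s' ∣ s := by
      have : s' ∣ s * m := ⟨m', heq⟩
      exact (coprime_smooth_rough hs' hm).dvd_of_dvd_mul_right this
    have h3 : s = s' := Nat.dvd_antisymm h1 h2
    subst h3
    refine ⟨rfl, ?_⟩
    have hs0 : 0 < s := Nat.pos_of_ne_zero (Nat.ne_zero_of_mem_smoothNumbers hs)
    exact Nat.eq_of_mul_eq_mul_left hs0 heq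

theorem stmtD2 (hV1 : StmtV1) (hV3 : StmtV3) : StmtD2 := by
  intro k n Q B hk hQ hQr hB
  have hpos : ∀ m ∈ {x | ∃ m ∈ Q, ∃ s ∈ B m, x = s * m}, 0 < m := by
    rintro x ⟨m, hm, s, hs, rfl⟩
    exact Nat.mul_pos ((hB m hm).1.1 s hs) (hQ.1 m hm)
  refine ⟨hpos, fun hGP => ?_⟩
  obtain ⟨x, hx, hlt, hrel⟩ := (hV1 k _ hk hpos).mp hGP
  have hx' : ∀ i, i < k → ∃ m, m ∈ Q ∧ ∃ s, s ∈ B m ∧ x i = s * m := by
    intro i hi
    obtain ⟨m, hm, s, hs, h⟩ := hx i hi
    exact ⟨m, hm, s, hs, h⟩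
  choose! m hm s hs hxs using hx'
  have hkey : ∀ i, i + 2 < k → s i * s (i + 2) = s (i + 1) ^ 2 ∧
      m i * m (i + 2) = m (i + 1) ^ 2 := by
    intro i hi
    have h0 : i < k := by omega
    have h1 : i + 1 < k := by omega
    have hr := hrel i hi
    rw [hxs i h0, hxs (i + 1) h1, hxs (i + 2) hi] at hr
    refine (stmtD1 n).2 _ _ _ _ ?_ ?_ ?_ ?_ ?_
    · exact Nat.mul_mem_smoothNumbers ((hB _ (hm i h0)).2 _ (hs i h0))
        ((hB _ (hm _ hi)).2 _ (hs _ hi))
    · rw [pow_two]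
      exact Nat.mul_mem_smoothNumbers ((hB _ (hm _ h1)).2 _ (hs _ h1))
        ((hB _ (hm _ h1)).2 _ (hs _ h1))
    · exact rough_mul (hQr _ (hm i h0)) (hQr _ (hm _ hi))
    · rw [pow_two]
      exact rough_mul (hQr _ (hm _ h1)) (hQr _ (hm _ h1))
    · calc s i * s (i + 2) * (m i * m (i + 2)) = s i * m i * (s (i + 2) * m (i + 2)) := by ring
        _ = (s (i + 1) * m (i + 1)) ^ 2 := hr
        _ = s (i + 1) ^ 2 * m (i + 1) ^ 2 := by ring
  have hm0 : ∀ i < k, m i = m 0 := hV3 k Q m hk hQ hm (fun i hi => (hkey i hi).2)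
  have hs0 : ∀ i < k, s i = s 0 := by
    refine hV3 k (B (m 0)) s hk (hB _ (hm 0 (by omega))).1 (fun i hi => ?_)
      (fun i hi => (hkey i hi).1)
    have := hs i hi
    rwa [hm0 i hi] at this
  have h01 : x 0 = x 1 := by
    rw [hxs 0 (by omega), hxs 1 (by omega), hm0 1 (by omega), hs0 1 (by omega)]
  omega

end GeoProg
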