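import Pool.Agent.Helper7.GeoProg.Stmts3

/-!
# MP_f5ac68_nt, packet E1: an upper bound for the size of `GPF_k` sets of numbers `2^a * 3^b`
-/

set_option autoImplicit false

namespace GeoProg

open Filter Topology

lemma e1_smooth (a b : ℕ) : 2 ^ a * 3 ^ b ∈ Nat.smoothNumbers 4 := by
  rw [Nat.mem_smoothNumbers']
  intro p hp hdvd
  rcases (Nat.Prime.dvd_mul hp).1 hdvd with h | h
  · have := (Nat.prime_dvd_prime_iff_eq hp Nat.prime_two).1 (hp.dvd_of_dvd_pow h)
    omega
  · have := (Nat.prime_dvd_prime_iff_eq hp Nat.prime_three).1 (hp.dvd_of_dvd_pow h)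
    omega

lemma e1_fac2 (a b : ℕ) : (2 ^ a * 3 ^ b).factorization 2 = a := by
  rw [Nat.factorization_mul (by positivity) (by positivity),
    Nat.Prime.factorization_pow Nat.prime_two, Nat.Prime.factorization_pow Nat.prime_three]
  simp

lemma e1_fac3 (a b : ℕ) : (2 ^ a * 3 ^ b).factorization 3 = b := by
  rw [Nat.factorization_mul (by positivity) (by positivity),
    Nat.Prime.factorization_pow Nat.prime_two, Nat.Prime.factorization_pow Nat.prime_three]
  simp

lemma e1_inj {a b a' b' : ℕ} (h : 2 ^ a * 3 ^ b = 2 ^ a' * 3 ^ b') : a = a' ∧ b = b' := by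
  refine ⟨?_, ?_⟩
  · rw [← e1_fac2 a b, h, e1_fac2]
  · rw [← e1_fac3 a b, h, e1_fac3]

/-- a missing element among `k` consecutive elements of a row -/
lemma e1_row {k : ℕ} {B : Finset ℕ} (hB : GPFree k (B : Set ℕ)) (c b : ℕ) :
    ∃ i < k, 2 ^ (c + i) * 3 ^ b ∉ B := by
  by_contra hcon
  push Not at hcon
  refine hB.2 ⟨2 ^ c * 3 ^ b, 2, by positivity, by norm_num,
    fun i hi => ⟨2 ^ (c + i) * 3 ^ b, hcon i hi, ?_⟩⟩
  push_cast
  ring

lemma e1_col {k : ℕ} {B : Finset ℕ} (hB : GPFree k (B : Set ℕ)) (a : ℕ) :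
    ∃ b < k, 2 ^ a * 3 ^ b ∉ B := by
  by_contra hcon
  push Not at hcon
  refine hB.2 ⟨2 ^ a, 3, by positivity, by norm_num, fun i hi => ⟨2 ^ a * 3 ^ i, hcon i hi, ?_⟩⟩
  push_cast
  ring

theorem stmtE1 : StmtE1 := by
  classical
  intro k j B hk hBs hBj hB
  set R : Finset ℕ := (Finset.range j).filter (fun b => 2 ^ (k - 1) * 3 ^ b ≤ j) with hR
  set Cc : Finset ℕ := (Finset.range j).filter (fun a => 2 ^ a * 3 ^ (k - 1) ≤ j) with hCc
  have hrow : rowc k j = R.card := rfl
  have hcol : colc k j = Cc.card := rfl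
  -- the column indices form an initial segment
  have hCc_lt : ∀ a ∈ Cc, a < colc k j := by
    intro a ha
    rw [hCc, Finset.mem_filter, Finset.mem_range] at ha
    have hsub : Finset.range (a + 1) ⊆ Cc := by
      intro a' ha'
      rw [Finset.mem_range] at ha'
      rw [hCc, Finset.mem_filter, Finset.mem_range]
      refine ⟨by omega, le_trans (Nat.mul_le_mul_right _ ?_) ha.2⟩
      exact Nat.pow_le_pow_right (by norm_num) (by omega)
    have := Finset.card_le_card hsub
    rw [Finset.card_range] at this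
    rw [hcol]; omega
  -- the exponent `L b`
  set L : ℕ → ℕ := fun b => Nat.log 2 (j / 3 ^ b) with hL
  have hL1 : ∀ b ∈ R, k - 1 ≤ L b ∧ 2 ^ L b * 3 ^ b ≤ j ∧ j < 2 ^ (L b + 1) * 3 ^ b := by
    intro b hb
    rw [hR, Finset.mem_filter] at hb
    have h3 : 0 < 3 ^ b := by positivity
    have h4 : 2 ^ (k - 1) ≤ j / 3 ^ b := (Nat.le_div_iff_mul_le h3).2 hb.2
    have h5 : j / 3 ^ b ≠ 0 := by
      have : 0 < 2 ^ (k - 1) := by positivity
      omega
    refine ⟨Nat.le_log_of_pow_le (by norm_num) h4, ?_, ?_⟩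
    · exact (Nat.le_div_iff_mul_le h3).1 (Nat.pow_log_le_self 2 h5)
    · exact (Nat.div_lt_iff_lt_mul h3).1 (Nat.lt_pow_succ_log_self (by norm_num) _)
  -- choices
  have hrowc : ∀ b, ∃ a, b ∈ R → L b ≤ a + (k - 1) ∧ a ≤ L b ∧ 2 ^ a * 3 ^ b ∉ B := by
    intro b
    by_cases hb : b ∈ R
    · obtain ⟨i, hi, hi'⟩ := e1_row hB (L b - (k - 1)) b
      have := (hL1 b hb).1
      exact ⟨L b - (k - 1) + i, fun _ => ⟨by omega, by omega, hi'⟩⟩
    · exact ⟨0, fun h => absurd h hb⟩
  choose α hα using hrowc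
  choose β hβ1 hβ2 using fun a => e1_col hB a
  set E : Finset ℕ := R.image (fun b => 2 ^ α b * 3 ^ b) with hE
  set F : Finset ℕ := Cc.image (fun a => 2 ^ a * 3 ^ β a) with hF
  have hEcard : E.card = rowc k j := by
    rw [hE, Finset.card_image_of_injOn, hrow]
    intro b _ b' _ h
    exact (e1_inj h).2
  have hFcard : F.card = colc k j := by
    rw [hF, Finset.card_image_of_injOn, hcol]
    intro b _ b' _ h
    exact (e1_inj h).1
  -- the smooth numbers up to `j`
  set S : Finset ℕ := (Finset.Icc 1 j).filter (fun s => s ∈ Nat.smoothNumbers 4) with hS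
  have hcount : count (Nat.smoothNumbers 4) j = S.card := by
    unfold count
    rw [← Set.ncard_coe_finset]
    congr 1
    ext m
    simp only [hS, Set.mem_inter_iff, Set.mem_Icc, Finset.coe_filter, Finset.mem_Icc,
      Set.mem_ofPred_eq]
    tauto
  have hBS : B ⊆ S := by
    intro b hb
    rw [hS, Finset.mem_filter, Finset.mem_Icc]
    exact ⟨⟨Nat.pos_of_ne_zero (Nat.ne_zero_of_mem_smoothNumbers (hBs b hb)), hBj b hb⟩, hBs b hb⟩
  have hES : E ⊆ S \ B := by
    intro x hx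
    rw [hE, Finset.mem_image] at hx
    obtain ⟨b, hb, rfl⟩ := hx
    rw [Finset.mem_sdiff, hS, Finset.mem_filter, Finset.mem_Icc]
    refine ⟨⟨⟨Nat.mul_pos (by positivity) (by positivity), ?_⟩, e1_smooth _ _⟩, (hα b hb).2.2⟩
    exact le_trans (Nat.mul_le_mul_right _ (Nat.pow_le_pow_right (by norm_num) (hα b hb).2.1))
      (hL1 b hb).2.1
  have hFS : F ⊆ S \ B := by
    intro x hx
    rw [hF, Finset.mem_image] at hx
    obtain ⟨a, ha, rfl⟩ := hx
    rw [Finset.mem_sdiff, hS, Finset.mem_filter, Finset.mem_Icc]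
    refine ⟨⟨⟨Nat.mul_pos (by positivity) (by positivity), ?_⟩, e1_smooth _ _⟩, hβ2 a⟩
    rw [hCc, Finset.mem_filter] at ha
    refine le_trans (Nat.mul_le_mul_left _ (Nat.pow_le_pow_right (by norm_num) ?_)) ha.2
    have := hβ1 a
    omega
  -- the common elements
  set N : Finset ℕ := (Finset.range j).filter (fun b => 2 ^ (k - 1) * 3 ^ b ≤ j ∧
    j < 2 ^ (k - 1 + colc k j) * 3 ^ b) with hN
  have hNcard : nfree k j = N.card := rfl
  have hEF : E ∩ F ⊆ N.image (fun b => 2 ^ α b * 3 ^ b) := by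
    intro x hx
    rw [Finset.mem_inter] at hx
    obtain ⟨hx1, hx2⟩ := hx
    rw [hE, Finset.mem_image] at hx1
    obtain ⟨b, hb, rfl⟩ := hx1
    rw [hF, Finset.mem_image] at hx2
    obtain ⟨a, ha, hab⟩ := hx2
    have h1 := (e1_inj hab).1
    have h2 := hCc_lt a ha
    have h3 := hα b hb
    rw [Finset.mem_image]
    refine ⟨b, ?_, rfl⟩
    rw [hR, Finset.mem_filter] at hb
    rw [hN, Finset.mem_filter]
    refine ⟨hb.1, hb.2, ?_⟩
    have hb' : b ∈ R := by rw [hR, Finset.mem_filter]; exact hb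
    refine lt_of_lt_of_le (hL1 b hb').2.2 (Nat.mul_le_mul_right _ ?_)
    exact Nat.pow_le_pow_right (by norm_num) (by omega)
  have hEFc : (E ∩ F).card ≤ nfree k j := by
    rw [hNcard]
    exact le_trans (Finset.card_le_card hEF) Finset.card_image_le
  have h1 := Finset.card_union_add_card_inter E F
  have h2 : (E ∪ F).card ≤ (S \ B).card := Finset.card_le_card (Finset.union_subset hES hFS)
  have h3 := Finset.card_sdiff_add_card_eq_card hBS
  rw [hcount]
  omega

end GeoProg
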