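import Pool.Agent.Helper7.GeoProg.Stmts

/-!
# MP_f5ac68_nt, packet 3: rough numbers, reciprocals of smooth numbers, lower bound for delta
-/

namespace GeoProg

open Filter Topology Finset

/-- the product of the primes below `n` -/
def primProd (n : ℕ) : ℕ := ∏ p ∈ Nat.primesBelow n, p

theorem prime_of_mem_primesBelow' {n p : ℕ} (h : p ∈ Nat.primesBelow n) : p.Prime :=
  Nat.prime_of_mem_primesBelow h

theorem primProd_pos (n : ℕ) : 0 < primProd n :=
  Finset.prod_pos fun _ hp => (Nat.prime_of_mem_primesBelow hp).pos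

theorem rough_iff (n m : ℕ) : Rough n m ↔ 0 < m ∧ (primProd n).Coprime m := by
  unfold Rough primProd
  refine and_congr_right fun hm => ?_
  rw [Nat.coprime_prod_left_iff]
  constructor
  · intro h p hp
    have hpp := Nat.prime_of_mem_primesBelow hp
    rw [hpp.coprime_iff_not_dvd]
    intro hdvd
    have := h p hpp hdvd
    have := Nat.lt_of_mem_primesBelow hp
    omega
  · intro h p hpp hdvd
    by_contra hlt
    have := h p (Nat.mem_primesBelow.mpr ⟨by omega, hpp⟩)
    rw [hpp.coprime_iff_not_dvd] at this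
    exact this hdvd

theorem totient_primProd (n : ℕ) : ((primProd n).totient : ℝ) = delta n * primProd n := by
  have h1 : (primProd n).primeFactors = Nat.primesBelow n :=
    Nat.primeFactors_prod fun _ hp => Nat.prime_of_mem_primesBelow hp
  have h2 := Nat.totient_eq_mul_prod_factors (primProd n)
  rw [h1] at h2
  have h3 : ((primProd n).totient : ℝ) = (primProd n : ℝ) *
      ∏ p ∈ Nat.primesBelow n, (1 - ((p : ℝ))⁻¹) := by
    have := congrArg (fun x : ℚ => (x : ℝ)) h2
    push_cast at this
    exact this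
  rw [h3, mul_comm]
  unfold delta
  simp only [one_div]

theorem count_rough_eq (n N : ℕ) : count {m | Rough n m} N =
    ((Finset.Icc 1 N).filter (fun m => (primProd n).Coprime m)).card := by
  unfold count
  rw [← Set.ncard_coe_finset]
  congr 1
  ext m
  simp only [Set.mem_inter_iff, Set.mem_ofPred_eq, rough_iff, Set.mem_Icc, Finset.coe_filter,
    Finset.mem_Icc]
  constructor
  · rintro ⟨⟨_, h1⟩, h2⟩
    exact ⟨h2, h1⟩
  · rintro ⟨h2, h1⟩
    exact ⟨⟨by omega, h1⟩, h2⟩

theorem count_rough_add (n N : ℕ) : count {m | Rough n m} (N + primProd n) =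
    count {m | Rough n m} N + (primProd n).totient := by
  rw [count_rough_eq, count_rough_eq]
  have h1 : Finset.Icc 1 (N + primProd n) =
      Finset.Icc 1 N ∪ Finset.Ico (N + 1) (N + 1 + primProd n) := by
    ext x; simp only [Finset.mem_Icc, Finset.mem_union, Finset.mem_Ico]; omega
  have h2 : Disjoint (Finset.Icc 1 N) (Finset.Ico (N + 1) (N + 1 + primProd n)) := by
    rw [Finset.disjoint_left]
    intro x hx hx'
    simp only [Finset.mem_Icc, Finset.mem_Ico] at hx hx'
    omega
  rw [h1, Finset.filter_union, Finset.card_union_of_disjoint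
    (Finset.disjoint_filter_filter h2), Nat.filter_coprime_Ico_eq_totient]

/-- Packet R. -/
theorem stmtR : StmtR := by
  intro n
  obtain ⟨F, hF⟩ : ∃ F : ℕ → ℝ, ∀ N, F N = (count {m | Rough n m} N : ℝ) - delta n * N :=
    ⟨_, fun _ => rfl⟩
  have hper : Function.Periodic F (primProd n) := by
    intro N
    rw [hF, hF, count_rough_add]
    push_cast
    rw [totient_primProd]
    ring
  refine ⟨∑ r ∈ range (primProd n), |F r|, fun N => ?_⟩
  rw [← hF, ← hper.map_mod_nat N]
  exact Finset.single_le_sum (f := fun r => |F r|) (fun r _ => abs_nonneg _)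
    (Finset.mem_range.mpr (Nat.mod_lt _ (primProd_pos n)))

theorem factor_pos {n p : ℕ} (hp : p ∈ Nat.primesBelow n) : 0 < 1 - 1 / (p : ℝ) := by
  have h := (Nat.prime_of_mem_primesBelow hp).two_le
  have h2 : (2 : ℝ) ≤ p := by exact_mod_cast h
  have : 1 / (p : ℝ) ≤ 1 / 2 := one_div_le_one_div_of_le two_pos h2
  linarith

theorem factor_le {p : ℕ} : 1 - 1 / (p : ℝ) ≤ 1 := by
  have : 0 ≤ 1 / (p : ℝ) := by positivity
  linarith

theorem delta_pos' (n : ℕ) : 0 < delta n := Finset.prod_pos fun _ hp => factor_pos hp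

/-- Packet S. -/
theorem stmtS : StmtS := by
  intro n
  refine ⟨delta_pos' n, Finset.prod_le_one (fun _ hp => (factor_pos hp).le)
    fun _ _ => factor_le, ?_⟩
  obtain ⟨f, hf⟩ : ∃ f : ℕ →* ℝ, ∀ m, f m = (m : ℝ)⁻¹ :=
    ⟨{ toFun := fun m => (m : ℝ)⁻¹
       map_one' := by simp
       map_mul' := fun a b => by push_cast; rw [mul_inv] }, fun _ => rfl⟩
  have hnorm : ∀ {p : ℕ}, p.Prime → ‖f p‖ < 1 := by
    intro p hp
    rw [hf, Real.norm_eq_abs, abs_of_nonneg (by positivity)]
    exact inv_lt_one_of_one_lt₀ (by exact_mod_cast hp.one_lt)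
  have h := (EulerProduct.summable_and_hasSum_smoothNumbers_prod_primesBelow_geometric
    (f := f) hnorm n).2
  have h1 : ∏ p ∈ n.primesBelow, (1 - f p)⁻¹ = (delta n)⁻¹ := by
    unfold delta
    rw [Finset.prod_inv_distrib]
    simp only [hf, one_div]
  rw [h1] at h
  have h2 := (hasSum_subtype_iff_indicator (f := fun m : ℕ => f m)
    (s := Nat.smoothNumbers n)).mp h
  have h3 : (fun s : ℕ => (Nat.smoothNumbers n).indicator (fun s : ℕ => 1 / (s : ℝ)) s) =
      (Nat.smoothNumbers n).indicator (fun m : ℕ => f m) := by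
    funext s
    simp only [hf, one_div]
  rw [h3]
  exact h2

theorem delta_succ_prime {n : ℕ} (h : n.Prime) : delta (n + 1) = (1 - 1 / (n : ℝ)) * delta n := by
  unfold delta
  rw [Nat.primesBelow_succ, if_pos h, Finset.prod_insert
    (fun hh => absurd (Nat.lt_of_mem_primesBelow hh) (lt_irrefl _))]

theorem delta_succ_not {n : ℕ} (h : ¬ n.Prime) : delta (n + 1) = delta n := by
  unfold delta
  rw [Nat.primesBelow_succ, if_neg h]

theorem delta_succ_le (n : ℕ) : delta (n + 1) ≤ delta n := by
  by_cases h : n.Prime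
  · rw [delta_succ_prime h]
    have := delta_pos' n
    have h2 : 1 - 1 / (n : ℝ) ≤ 1 := factor_le
    nlinarith
  · rw [delta_succ_not h]

theorem delta_two : delta 2 = 1 := by
  have h0 : delta 0 = 1 := by simp [delta]
  have h1 : delta 1 = 1 := by rw [delta_succ_not (by norm_num), h0]
  rw [delta_succ_not (by norm_num), h1]

theorem delta_odd (j : ℕ) : 1 / (2 * Real.sqrt (2 * j + 1)) ≤ delta (2 * j + 3) := by
  induction j with
  | zero =>
    rw [show 2 * 0 + 3 = 2 + 1 by norm_num, delta_succ_prime Nat.prime_two, delta_two]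
    norm_num
  | succ j ih =>
    have h1 : delta (2 * (j + 1) + 3) = delta (2 * j + 4) := by
      have : ¬ (2 * j + 4).Prime := by
        intro hp
        have := hp.eq_one_or_self_of_dvd 2 ⟨j + 2, by ring⟩
        omega
      rw [show 2 * (j + 1) + 3 = (2 * j + 4) + 1 by ring, delta_succ_not this]
    have h2 : (1 - 1 / ((2 * j + 3 : ℕ) : ℝ)) * delta (2 * j + 3) ≤ delta (2 * j + 4) := by
      rw [show 2 * j + 4 = (2 * j + 3) + 1 by ring]
      by_cases h : (2 * j + 3).Prime
      · rw [delta_succ_prime h]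
      · rw [delta_succ_not h]
        have := delta_pos' (2 * j + 3)
        have h2 : 1 - 1 / ((2 * j + 3 : ℕ) : ℝ) ≤ 1 := factor_le
        nlinarith
    rw [h1]
    refine le_trans ?_ h2
    have hpos : (0 : ℝ) < 2 * j + 1 := by positivity
    have hpos3 : (0 : ℝ) < 2 * j + 3 := by positivity
    have hfac : (0 : ℝ) ≤ 1 - 1 / ((2 * j + 3 : ℕ) : ℝ) := by
      push_cast
      rw [sub_nonneg, div_le_one hpos3]
      have : (0 : ℝ) ≤ j := Nat.cast_nonneg j
      linarith
    refine le_trans ?_ (mul_le_mul_of_nonneg_left ih hfac)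
    have hs1 : 0 < Real.sqrt (2 * j + 1) := Real.sqrt_pos.mpr hpos
    have hs3 : 0 < Real.sqrt (2 * j + 3) := Real.sqrt_pos.mpr hpos3
    push_cast
    have e1 : (2 : ℝ) * (j + 1) + 1 = 2 * j + 3 := by ring
    rw [e1, ← mul_div_assoc, mul_one, div_le_div_iff₀ (by positivity) (by positivity), one_mul]
    -- sqrt (2j+1) ≤ (1 - 1/(2j+3)) sqrt (2j+3)
    have key : Real.sqrt (2 * j + 1) ≤ (1 - 1 / (2 * (j : ℝ) + 3)) * Real.sqrt (2 * j + 3) := by
      refine Real.sqrt_le_iff.mpr ⟨?_, ?_⟩
      · push_cast at hfac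
        positivity
      · rw [mul_pow, Real.sq_sqrt hpos3.le]
        have : (1 - 1 / (2 * (j : ℝ) + 3)) ^ 2 * (2 * j + 3) =
            2 * j + 1 + 1 / (2 * (j : ℝ) + 3) := by
          field_simp
          ring
        rw [this]
        have : 0 < 1 / (2 * (j : ℝ) + 3) := by positivity
        linarith
    nlinarith

/-- Packet Dl. -/
theorem stmtDl : StmtDl := by
  intro n hn
  have hmono : ∀ a b : ℝ, 0 < a → a ≤ b → 1 / (2 * Real.sqrt b) ≤ 1 / (2 * Real.sqrt a) := by
    intro a b ha hab
    have := Real.sqrt_pos.mpr ha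
    have := Real.sqrt_le_sqrt hab
    exact one_div_le_one_div_of_le (by positivity) (by linarith)
  rcases Nat.lt_or_ge n 3 with h3 | h3
  · have hd : delta n = 1 := by
      interval_cases n
      · rw [show (1 : ℕ) = 0 + 1 by norm_num, delta_succ_not (by norm_num)]
        simp [delta]
      · exact delta_two
    rw [hd]
    refine le_trans (hmono 1 n one_pos (by exact_mod_cast hn)) ?_
    rw [Real.sqrt_one]
    norm_num
  · obtain ⟨j, hj⟩ : ∃ j, n = 2 * j + 3 ∨ n = 2 * j + 2 := ⟨(n - 2) / 2, by omega⟩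
    have hpos : (0 : ℝ) < 2 * j + 1 := by positivity
    rcases hj with rfl | rfl
    · refine le_trans (hmono (2 * j + 1) _ hpos ?_) (delta_odd j)
      push_cast
      linarith
    · refine le_trans (hmono (2 * j + 1) _ hpos ?_) (le_trans (delta_odd j) (delta_succ_le _))
      push_cast
      linarith

end GeoProg
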