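import Pool.Agent.Helper7.GeoProg.Stmts3
import Pool.Agent.Helper7.GeoProg.P_RSD

/-!
# MP_f5ac68_nt, packet E2: counting functions and sums of reciprocals
-/

namespace GeoProg

namespace E2

open Filter Topology

theorem hs_of {ι : Type*} {f g : ι → ℝ} {a b : ℝ} (h : HasSum f a) (hfg : ∀ i, g i = f i)
    (hab : b = a) : HasSum g b := by
  rw [hab, funext hfg]
  exact h

/-- telescoping -/
theorem tail_hasSum (s : ℕ) (hs : 0 < s) :
    HasSum (fun j : ℕ => if s ≤ j then 1 / ((j : ℝ) * (j + 1)) else 0) (1 / (s : ℝ)) := by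
  rw [hasSum_iff_tendsto_nat_of_nonneg (fun j => by split_ifs <;> positivity)]
  have h : ∀ T, s ≤ T → ∑ j ∈ Finset.range T, (if s ≤ j then 1 / ((j : ℝ) * (j + 1)) else 0) =
      1 / (s : ℝ) - 1 / (T : ℝ) := by
    intro T hT
    induction T, hT using Nat.le_induction with
    | base =>
      rw [Finset.sum_eq_zero, sub_self]
      intro j hj
      rw [if_neg (by have := Finset.mem_range.1 hj; omega)]
    | succ T hT ih =>
      rw [Finset.sum_range_succ, ih, if_pos hT]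
      have h1 : (0 : ℝ) < T := by exact_mod_cast (by omega : 0 < T)
      push_cast
      field_simp
      ring
  have h2 : Tendsto (fun T : ℕ => 1 / (s : ℝ) - 1 / (T : ℝ)) atTop (𝓝 (1 / (s : ℝ) - 0)) :=
    tendsto_const_nhds.sub tendsto_one_div_atTop_nhds_zero_nat
  rw [sub_zero] at h2
  refine h2.congr' ?_
  filter_upwards [eventually_ge_atTop s] with T hT
  exact (h T hT).symm

/-- counting functions and sums of reciprocals -/
theorem count_hasSum {ι : Type*} (f : ι → ℕ) (hf : ∀ i, 0 < f i) {S : ℝ}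
    (hS : HasSum (fun i => 1 / (f i : ℝ)) S) (c : ℕ → ℕ)
    (hc : ∀ j, ∃ t : Finset ι, (∀ i, i ∈ t ↔ f i ≤ j) ∧ c j = t.card) :
    HasSum (fun j : ℕ => (c j : ℝ) / ((j : ℝ) * (j + 1))) S := by
  have h0 : ∀ i, HasSum (fun j : ℕ => if f i ≤ j then 1 / ((j : ℝ) * (j + 1)) else 0)
      (1 / (f i : ℝ)) := fun i => tail_hasSum (f i) (hf i)
  have hsum : Summable (fun z : ι × ℕ =>
      if f z.1 ≤ z.2 then 1 / ((z.2 : ℝ) * (z.2 + 1)) else 0) := by
    rw [summable_prod_of_nonneg (fun z => by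
      show (0 : ℝ) ≤ _
      split_ifs <;> positivity)]
    refine ⟨fun i => (h0 i).summable, ?_⟩
    have : (fun i : ι => ∑' j : ℕ, if f i ≤ j then 1 / ((j : ℝ) * (j + 1)) else 0) =
        fun i => 1 / (f i : ℝ) := funext fun i => (h0 i).tsum_eq
    show Summable (fun i : ι => ∑' j : ℕ, if f i ≤ j then 1 / ((j : ℝ) * (j + 1)) else 0)
    rw [this]
    exact hS.summable
  have h1 := hsum.hasSum
  have h2 := h1.prod_fiberwise h0
  have h3 := h2.unique hS
  rw [h3] at h1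
  have h4 : HasSum (fun z : ℕ × ι => if f z.2 ≤ z.1 then 1 / ((z.1 : ℝ) * (z.1 + 1)) else 0) S := by
    have := (Equiv.prodComm ℕ ι).hasSum_iff.2 h1
    exact this
  refine h4.prod_fiberwise (fun j => ?_)
  obtain ⟨t, ht, htc⟩ := hc j
  have h5 : HasSum (fun i => if f i ≤ j then 1 / ((j : ℝ) * (j + 1)) else 0)
      (∑ i ∈ t, (if f i ≤ j then 1 / ((j : ℝ) * (j + 1)) else 0)) :=
    hasSum_sum_of_ne_finset_zero (fun i hi => if_neg (fun h => hi ((ht i).2 h)))
  have h6 : ∑ i ∈ t, (if f i ≤ j then 1 / ((j : ℝ) * (j + 1)) else 0) =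
      (c j : ℝ) / ((j : ℝ) * (j + 1)) := by
    rw [Finset.sum_congr rfl (fun i hi => if_pos ((ht i).1 hi)), Finset.sum_const, htc,
      nsmul_eq_mul, mul_one_div]
  rw [h6] at h5
  exact h5

theorem count_set (A : Set ℕ) (hA : ∀ a ∈ A, 0 < a) {S : ℝ}
    (hS : HasSum (fun a : ℕ => A.indicator (fun a : ℕ => 1 / (a : ℝ)) a) S) :
    HasSum (fun j : ℕ => (count A j : ℝ) / ((j : ℝ) * (j + 1))) S := by
  classical
  have h := (hasSum_subtype_iff_indicator (s := A) (f := fun a : ℕ => 1 / (a : ℝ))).2 hS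
  refine count_hasSum (fun i : A => (i : ℕ)) (fun i => hA _ i.2) h _ (fun j => ?_)
  refine ⟨((Finset.Icc 1 j).filter (· ∈ A)).subtype (· ∈ A), fun i => ?_, ?_⟩
  · rw [Finset.mem_subtype, Finset.mem_filter, Finset.mem_Icc]
    have := hA _ i.2
    exact ⟨fun h => h.1.2, fun h => ⟨⟨this, h⟩, i.2⟩⟩
  · rw [Finset.card_subtype]
    unfold count
    rw [← Set.ncard_coe_finset]
    congr 1
    ext x
    simp only [Set.mem_inter_iff, Set.mem_Icc, Finset.coe_filter, Finset.mem_filter,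
      Finset.mem_Icc, Set.mem_ofPred_eq]
    tauto

theorem hasSum_two : HasSum (fun a : ℕ => 1 / ((2 : ℝ) ^ a)) 2 := by
  have h := hasSum_geometric_of_lt_one (r := (1 / 2 : ℝ)) (by norm_num) (by norm_num)
  exact hs_of h (fun a => by rw [one_div_pow]) (by norm_num)

theorem hasSum_three : HasSum (fun b : ℕ => 1 / ((3 : ℝ) ^ b)) (3 / 2) := by
  have h := hasSum_geometric_of_lt_one (r := (1 / 3 : ℝ)) (by norm_num) (by norm_num)
  exact hs_of h (fun a => by rw [one_div_pow]) (by norm_num)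

theorem lt_of_row {k b j : ℕ} (h : 2 ^ (k - 1) * 3 ^ b ≤ j) : b < j := by
  have h1 : b < 3 ^ b := Nat.lt_pow_self (by norm_num)
  have h2 : 1 * 3 ^ b ≤ 2 ^ (k - 1) * 3 ^ b := Nat.mul_le_mul_right _ (Nat.one_le_two_pow)
  omega

theorem lt_of_col {k a j : ℕ} (h : 2 ^ a * 3 ^ (k - 1) ≤ j) : a < j := by
  have h1 : a < 2 ^ a := Nat.lt_pow_self (by norm_num)
  have h2 : 2 ^ a * 1 ≤ 2 ^ a * 3 ^ (k - 1) := Nat.mul_le_mul_left _ (Nat.one_le_pow _ _ (by norm_num))
  omega

end E2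

open E2 in
/-- [E2] -/
theorem stmtE2 : StmtE2 := by
  refine ⟨?_, fun k hk => ⟨?_, ?_⟩⟩
  · have h := (stmtS 4).2.2
    have hd : (delta 4)⁻¹ = 3 := by
      unfold delta
      have : Nat.primesBelow 4 = {2, 3} := by decide
      rw [this]
      norm_num
    rw [hd] at h
    exact count_set _ (fun a ha => Nat.pos_of_ne_zero (Nat.ne_zero_of_mem_smoothNumbers ha)) h
  · refine count_hasSum (fun b : ℕ => 2 ^ (k - 1) * 3 ^ b) (fun b => by positivity) ?_ _
      (fun j => ⟨_, fun b => ?_, rfl⟩)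
    · obtain ⟨n, rfl⟩ : ∃ n, k = n + 1 := ⟨k - 1, by omega⟩
      refine hs_of (hasSum_three.mul_left (1 / (2 : ℝ) ^ n)) (fun b => ?_) ?_
      · push_cast
        rw [div_mul_div_comm, one_mul]
      · rw [pow_succ]
        field_simp
    · rw [Finset.mem_filter, Finset.mem_range]
      exact ⟨fun h => h.2, fun h => ⟨lt_of_row h, h⟩⟩
  · refine count_hasSum (fun a : ℕ => 2 ^ a * 3 ^ (k - 1)) (fun b => by positivity) ?_ _
      (fun j => ⟨_, fun b => ?_, rfl⟩)
    · obtain ⟨n, rfl⟩ : ∃ n, k = n + 1 := ⟨k - 1, by omega⟩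
      refine hs_of (hasSum_two.mul_right (1 / (3 : ℝ) ^ n)) (fun b => ?_) ?_
      · push_cast
        rw [div_mul_div_comm, one_mul]
      · rw [pow_succ]
        field_simp
        norm_num
    · rw [Finset.mem_filter, Finset.mem_range]
      exact ⟨fun h => h.2, fun h => ⟨lt_of_col h, h⟩⟩

end GeoProg
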