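import Pool.Agent.Helper7.GeoProg.P_E1
import Pool.Agent.Helper7.GeoProg.P_V

/-!
# MP_f5ac68_nt, packet E3: large `GPF_k` sets of numbers `2^a * 3^b`
-/

set_option autoImplicit false

namespace GeoProg

open Filter Topology

lemma e3_smooth {s : ℕ} (hs : s ∈ Nat.smoothNumbers 4) :
    s = 2 ^ (s.factorization 2) * 3 ^ (s.factorization 3) := by
  have hs0 : s ≠ 0 := Nat.ne_zero_of_mem_smoothNumbers hs
  have hsub : s.factorization.support ⊆ {2, 3} := by
    intro p hp
    have hp' : p ∈ s.primeFactors := hp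
    have hpp := Nat.prime_of_mem_primeFactors hp'
    have hlt : p < 4 := Nat.mem_smoothNumbers'.1 hs p hpp (Nat.dvd_of_mem_primeFactors hp')
    have h2 := hpp.two_le
    interval_cases p <;> simp
  conv_lhs => rw [← Nat.prod_factorization_pow_eq_self hs0]
  rw [Finsupp.prod_of_support_subset _ hsub _ (by simp), Finset.prod_pair (by norm_num)]

lemma e3_num (n : ℕ) (hn : 15 ≤ n) : 32 * 12500000 ^ n ≤ 15925248 ^ n := by
  induction n, hn using Nat.le_induction with
  | base => norm_num
  | succ n _ ih =>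
    rw [pow_succ, pow_succ]
    calc 32 * (12500000 ^ n * 12500000) = (32 * 12500000 ^ n) * 12500000 := by ring
      _ ≤ 15925248 ^ n * 15925248 := Nat.mul_le_mul ih (by norm_num)

/-- the key numerical estimate in the mixed case -/
lemma e3_key (n s : ℕ) (hn : 15 ≤ n) (h : 4 ^ n * 2 ^ s ≤ 5 ^ n) : 2 ^ (n + 1) * 3 ^ s ≤ 3 ^ n := by
  have h1 : (2 ^ (n + 1) * 3 ^ s) ^ 5 ≤ (3 ^ n) ^ 5 := by
    have h2 : (3 ^ s) ^ 5 ≤ (2 ^ s) ^ 8 := by
      rw [← pow_mul, ← pow_mul, mul_comm s 5, mul_comm s 8, pow_mul, pow_mul]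
      exact Nat.pow_le_pow_left (by norm_num) s
    have h3 : (4 ^ n * 2 ^ s) ^ 8 ≤ (5 ^ n) ^ 8 := Nat.pow_le_pow_left h 8
    have h4 := e3_num n hn
    have hpos : 0 < (4 ^ n) ^ 8 := by positivity
    apply Nat.le_of_mul_le_mul_right _ hpos
    calc (2 ^ (n + 1) * 3 ^ s) ^ 5 * (4 ^ n) ^ 8
        = (2 ^ (n + 1)) ^ 5 * ((3 ^ s) ^ 5 * (4 ^ n) ^ 8) := by ring
      _ ≤ (2 ^ (n + 1)) ^ 5 * ((2 ^ s) ^ 8 * (4 ^ n) ^ 8) := by gcongr
      _ = (2 ^ (n + 1)) ^ 5 * ((4 ^ n * 2 ^ s) ^ 8) := by ring
      _ ≤ (2 ^ (n + 1)) ^ 5 * ((5 ^ n) ^ 8) := by gcongr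
      _ = 32 * (2 ^ 5 * 5 ^ 8) ^ n := by
          rw [mul_pow (2 ^ 5) (5 ^ 8) n, ← pow_mul, ← pow_mul, ← pow_mul, ← pow_mul]
          rw [show (n + 1) * 5 = 5 * n + 5 by ring, show n * 8 = 8 * n by ring, pow_add]
          ring
      _ = 32 * 12500000 ^ n := by norm_num
      _ ≤ 15925248 ^ n := h4
      _ = (3 ^ 5 * 4 ^ 8) ^ n := by norm_num
      _ = (3 ^ n) ^ 5 * (4 ^ n) ^ 8 := by
          rw [mul_pow, ← pow_mul, ← pow_mul, ← pow_mul, ← pow_mul]
          rw [show n * 5 = 5 * n by ring, show n * 8 = 8 * n by ring]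
  exact (Nat.pow_le_pow_iff_left (by norm_num)).1 h1

theorem stmtE3 : StmtE3 := by
  classical
  intro k j hk hj hjk
  obtain ⟨n, rfl⟩ : ∃ n, k = n + 1 := ⟨k - 1, by omega⟩
  have hn : 15 ≤ n := by omega
  rw [Nat.add_sub_cancel] at hjk
  -- numerical consequences
  have hj4 : j < 4 ^ n := by
    have h1 : 15 ^ n < 16 ^ n := Nat.pow_lt_pow_left (by norm_num) (by omega)
    have h2 : (16 : ℕ) ^ n = 4 ^ n * 4 ^ n := by rw [← mul_pow]; norm_num
    have h3 : 0 < 4 ^ n := by positivity
    rw [h2] at h1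
    exact Nat.lt_of_mul_lt_mul_left (lt_of_le_of_lt hjk h1)
  have h4n : (4 : ℕ) ^ n = 2 ^ n * 2 ^ n := by rw [← mul_pow]; norm_num
  have h49 : (4 : ℕ) ^ n ≤ 3 ^ n * 3 ^ n := by
    rw [← mul_pow]; exact Nat.pow_le_pow_left (by norm_num) n
  have h46 : (4 : ℕ) ^ n ≤ 2 ^ n * 3 ^ n := by
    rw [← mul_pow]; exact Nat.pow_le_pow_left (by norm_num) n
  set c := colc (n + 1) j with hc
  set R : Finset ℕ := (Finset.range j).filter (fun b => 2 ^ n * 3 ^ b ≤ j) with hR
  set Cc : Finset ℕ := (Finset.range j).filter (fun a => 2 ^ a * 3 ^ n ≤ j) with hCc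
  have hrow : rowc (n + 1) j = R.card := rfl
  have hcol : c = Cc.card := rfl
  have hmemR : ∀ b, 2 ^ n * 3 ^ b ≤ j → b ∈ R := by
    intro b hb
    rw [hR, Finset.mem_filter, Finset.mem_range]
    refine ⟨?_, hb⟩
    have h1 : b < 3 ^ b := Nat.lt_pow_self (by norm_num)
    have h2 : 3 ^ b ≤ 2 ^ n * 3 ^ b := Nat.le_mul_of_pos_left _ (by positivity)
    omega
  have hmemC : ∀ a, 2 ^ a * 3 ^ n ≤ j → a ∈ Cc := by
    intro a ha
    rw [hCc, Finset.mem_filter, Finset.mem_range]
    refine ⟨?_, ha⟩
    have h1 : a < 2 ^ a := Nat.lt_two_pow_self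
    have h2 : 2 ^ a ≤ 2 ^ a * 3 ^ n := Nat.le_mul_of_pos_right _ (by positivity)
    omega
  have hCceq : Cc = Finset.range c := by
    -- an initial segment of the right cardinality
    have hsub : ∀ a ∈ Cc, ∀ a' ≤ a, a' ∈ Cc := by
      intro a ha a' ha'
      apply hmemC
      rw [hCc, Finset.mem_filter] at ha
      exact le_trans (Nat.mul_le_mul_right _ (Nat.pow_le_pow_right (by norm_num) ha')) ha.2
    have h1 : Cc ⊆ Finset.range c := by
      intro a ha
      have h2 : Finset.range (a + 1) ⊆ Cc := by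
        intro a' ha'
        rw [Finset.mem_range] at ha'
        exact hsub a ha a' (by omega)
      have := Finset.card_le_card h2
      rw [Finset.card_range] at this
      rw [Finset.mem_range, hcol]; omega
    exact Finset.eq_of_subset_of_card_le h1 (by rw [Finset.card_range, hcol])
  -- the exponent `L b`
  set L : ℕ → ℕ := fun b => Nat.log 2 (j / 3 ^ b) with hL
  have hL1 : ∀ b ∈ R, n ≤ L b ∧ 2 ^ L b * 3 ^ b ≤ j ∧ j < 2 ^ (L b + 1) * 3 ^ b := by
    intro b hb
    rw [hR, Finset.mem_filter] at hb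
    have h3 : 0 < 3 ^ b := by positivity
    have h4 : 2 ^ n ≤ j / 3 ^ b := (Nat.le_div_iff_mul_le h3).2 hb.2
    have h5 : j / 3 ^ b ≠ 0 := by
      have : 0 < 2 ^ n := by positivity
      omega
    refine ⟨Nat.le_log_of_pow_le (by norm_num) h4, ?_, ?_⟩
    · exact (Nat.le_div_iff_mul_le h3).1 (Nat.pow_log_le_self 2 h5)
    · exact (Nat.div_lt_iff_lt_mul h3).1 (Nat.lt_pow_succ_log_self (by norm_num) _)
  have hLge : ∀ b ∈ R, ∀ e, 2 ^ e * 3 ^ b ≤ j → e ≤ L b := by
    intro b hb e he
    by_contra hcon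
    push Not at hcon
    have h1 := (hL1 b hb).2.2
    have h2 : 2 ^ (L b + 1) * 3 ^ b ≤ 2 ^ e * 3 ^ b :=
      Nat.mul_le_mul_right _ (Nat.pow_le_pow_right (by norm_num) hcon)
    omega
  have hLinj : ∀ b ∈ R, ∀ b' ∈ R, b < b' → L b' < L b := by
    intro b hb b' hb' hbb
    have h1 : 2 ^ (L b' + 1) * 3 ^ b ≤ j := by
      refine le_trans ?_ (hL1 b' hb').2.1
      rw [pow_succ, mul_assoc]
      apply Nat.mul_le_mul_left
      calc 2 * 3 ^ b ≤ 3 ^ (b + 1) := by rw [pow_succ]; omega
        _ ≤ 3 ^ b' := Nat.pow_le_pow_right (by norm_num) hbb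
    have := hLge b hb _ h1
    omega
  set w : ℕ → ℕ := fun b => L b - n with hw
  set N : Finset ℕ := (Finset.range j).filter (fun b => 2 ^ n * 3 ^ b ≤ j ∧
    j < 2 ^ (n + c) * 3 ^ b) with hN
  have hNcard : nfree (n + 1) j = N.card := rfl
  have hNR : N ⊆ R := by
    intro b hb
    rw [hN, Finset.mem_filter] at hb
    rw [hR, Finset.mem_filter]
    exact ⟨hb.1, hb.2.1⟩
  have hNw : ∀ b ∈ N, w b < c := by
    intro b hb
    have hb' := hNR hb
    rw [hN, Finset.mem_filter] at hb
    have h1 := (hL1 b hb').2.1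
    have h2 : L b < n + c := by
      by_contra hcon
      push Not at hcon
      have h3 : 2 ^ (n + c) * 3 ^ b ≤ 2 ^ L b * 3 ^ b :=
        Nat.mul_le_mul_right _ (Nat.pow_le_pow_right (by norm_num) hcon)
      omega
    have h3 := (hL1 b hb').1
    rw [hw]; dsimp only; omega
  have hRN : ∀ b ∈ R, b ∉ N → 2 ^ (n + c) * 3 ^ b ≤ j := by
    intro b hb hbN
    by_contra hcon
    push Not at hcon
    apply hbN
    rw [hR, Finset.mem_filter] at hb
    rw [hN, Finset.mem_filter]
    exact ⟨hb.1, hb.2, hcon⟩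
  have hwinj : Set.InjOn w N := by
    intro b hb b' hb' hbb
    have h1 := (hL1 b (hNR hb)).1
    have h2 := (hL1 b' (hNR hb')).1
    have h3 : L b = L b' := by rw [hw] at hbb; dsimp only at hbb; omega
    rcases lt_trichotomy b b' with h | h | h
    · have := hLinj b (hNR hb) b' (hNR hb') h; omega
    · exact h
    · have := hLinj b' (hNR hb') b (hNR hb) h; omega
  have hcn : c ≤ n := by
    by_contra hcon
    push Not at hcon
    have h1 : n ∈ Cc := by rw [hCceq, Finset.mem_range]; exact hcon
    rw [hCc, Finset.mem_filter] at h1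
    omega
  -- the set X
  set X1 : Finset ℕ := N.image (fun b => 2 ^ w b * 3 ^ b) with hX1
  set X2 : Finset ℕ := (R \ N).image (fun b => 2 ^ n * 3 ^ b) with hX2
  set X3 : Finset ℕ := (Finset.range c \ N.image w).image (fun a => 2 ^ a * 3 ^ n) with hX3
  set S : Finset ℕ := (Finset.Icc 1 j).filter (fun s => s ∈ Nat.smoothNumbers 4) with hS
  have hcount : count (Nat.smoothNumbers 4) j = S.card := by
    unfold count
    rw [← Set.ncard_coe_finset]
    congr 1
    ext m
    simp only [hS, Set.mem_inter_iff, Set.mem_Icc, Finset.coe_filter, Finset.mem_Icc,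
      Set.mem_ofPred_eq]
    tauto
  have hXcard : (X1 ∪ X2 ∪ X3).card + nfree (n + 1) j ≤ rowc (n + 1) j + c := by
    have h1 : X1.card ≤ N.card := Finset.card_image_le
    have h2 : X2.card ≤ (R \ N).card := Finset.card_image_le
    have h3 : X3.card ≤ (Finset.range c \ N.image w).card := Finset.card_image_le
    have h4 := Finset.card_sdiff_add_card_eq_card hNR
    have h5 : N.image w ⊆ Finset.range c := by
      intro a ha
      rw [Finset.mem_image] at ha
      obtain ⟨b, hb, rfl⟩ := ha
      rw [Finset.mem_range]; exact hNw b hb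
    have h6 := Finset.card_sdiff_add_card_eq_card h5
    rw [Finset.card_range, Finset.card_image_of_injOn hwinj] at h6
    have h7 := Finset.card_union_le (X1 ∪ X2) X3
    have h8 := Finset.card_union_le X1 X2
    rw [hrow, hNcard]
    omega
  refine ⟨S \ (X1 ∪ X2 ∪ X3), ?_, ?_, ?_, ?_⟩
  · intro b hb
    rw [Finset.mem_sdiff, hS, Finset.mem_filter] at hb
    rw [Nat.mem_smoothNumbers']
    intro p hp hpb
    have := Nat.mem_smoothNumbers'.1 hb.1.2 p hp hpb
    omega
  · -- free of progressions
    have hpos : ∀ m ∈ ((S \ (X1 ∪ X2 ∪ X3) : Finset ℕ) : Set ℕ), 0 < m := by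
      intro m hm
      rw [Finset.mem_coe, Finset.mem_sdiff, hS, Finset.mem_filter, Finset.mem_Icc] at hm
      omega
    refine ⟨hpos, ?_⟩
    rw [stmtV1 (n + 1) _ (by omega) hpos]
    rintro ⟨x, hxF, hx01, hxx⟩
    have hxpos : ∀ i < n + 1, 0 < x i := fun i hi => hpos _ (hxF i hi)
    obtain ⟨hexp, -⟩ := stmtV2 (n + 1) x (by omega) hxpos hxx
    obtain ⟨c2, d2, hu⟩ := hexp 2
    obtain ⟨c3, d3, hv⟩ := hexp 3
    have hxS : ∀ i < n + 1, x i ≤ j ∧
        x i = 2 ^ ((x i).factorization 2) * 3 ^ ((x i).factorization 3) := by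
      intro i hi
      have h1 := hxF i hi
      rw [Finset.mem_coe, Finset.mem_sdiff, hS, Finset.mem_filter, Finset.mem_Icc] at h1
      exact ⟨h1.1.1.2, e3_smooth h1.1.2⟩
    have hxX : ∀ i < n + 1, x i ∉ X1 ∧ x i ∉ X2 ∧ x i ∉ X3 := by
      intro i hi
      have h1 := hxF i hi
      rw [Finset.mem_coe, Finset.mem_sdiff, Finset.mem_union, Finset.mem_union] at h1
      tauto
    set u : ℕ → ℕ := fun i => (x i).factorization 2 with hudef
    set v : ℕ → ℕ := fun i => (x i).factorization 3 with hvdef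
    have hxuv : ∀ i < n + 1, x i = 2 ^ u i * 3 ^ v i := fun i hi => (hxS i hi).2
    have hxj : ∀ i < n + 1, 2 ^ u i * 3 ^ v i ≤ j := fun i hi => by
      rw [← hxuv i hi]; exact (hxS i hi).1
    -- bounds on the exponents
    have hub : ∀ i < n + 1, u i < 2 * n := by
      intro i hi
      by_contra hcon
      push Not at hcon
      have h1 : 2 ^ (2 * n) ≤ 2 ^ u i := Nat.pow_le_pow_right (by norm_num) hcon
      have h2 : 2 ^ u i ≤ 2 ^ u i * 3 ^ v i := Nat.le_mul_of_pos_right _ (by positivity)
      have h3 := hxj i hi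
      have h4 : (2 : ℕ) ^ (2 * n) = 4 ^ n := by rw [pow_mul]; norm_num
      omega
    have hvb : ∀ i < n + 1, v i < 2 * n := by
      intro i hi
      by_contra hcon
      push Not at hcon
      have h1 : 3 ^ (2 * n) ≤ 3 ^ v i := Nat.pow_le_pow_right (by norm_num) hcon
      have h2 : 3 ^ v i ≤ 2 ^ u i * 3 ^ v i := Nat.le_mul_of_pos_left _ (by positivity)
      have h3 := hxj i hi
      have h4 : (3 : ℕ) ^ (2 * n) = 3 ^ n * 3 ^ n := by rw [two_mul, pow_add]
      omega
    have hu0 : (u 0 : ℤ) = c2 := by have := hu 0 (by omega); simpa using this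
    have hv0 : (v 0 : ℤ) = c3 := by have := hv 0 (by omega); simpa using this
    have hun : (u n : ℤ) = c2 + n * d2 := hu n (by omega)
    have hvn : (v n : ℤ) = c3 + n * d3 := hv n (by omega)
    have hd2 : -1 ≤ d2 ∧ d2 ≤ 1 := by
      have h1 := hub 0 (by omega)
      have h2 := hub n (by omega)
      constructor
      · by_contra hcon
        push Not at hcon
        have : (n : ℤ) * d2 ≤ n * (-2) := mul_le_mul_of_nonneg_left (by omega) (by positivity)
        omega
      · by_contra hcon
        push Not at hcon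
        have : (n : ℤ) * 2 ≤ n * d2 := mul_le_mul_of_nonneg_left (by omega) (by positivity)
        omega
    have hd3 : -1 ≤ d3 ∧ d3 ≤ 1 := by
      have h1 := hvb 0 (by omega)
      have h2 := hvb n (by omega)
      constructor
      · by_contra hcon
        push Not at hcon
        have : (n : ℤ) * d3 ≤ n * (-2) := mul_le_mul_of_nonneg_left (by omega) (by positivity)
        omega
      · by_contra hcon
        push Not at hcon
        have : (n : ℤ) * 2 ≤ n * d3 := mul_le_mul_of_nonneg_left (by omega) (by positivity)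
        omega
    have hu' : ∀ i < n + 1, (u i : ℤ) = u 0 + i * d2 := by
      intro i hi; rw [hu0]; exact hu i hi
    have hv' : ∀ i < n + 1, (v i : ℤ) = v 0 + i * d3 := by
      intro i hi; rw [hv0]; exact hv i hi
    have hx0 := hxuv 0 (by omega)
    have hx1 := hxuv 1 (by omega)
    have hu1 := hu' 1 (by omega)
    have hv1 := hv' 1 (by omega)
    have hA : 0 < 2 ^ u 0 * 3 ^ v 0 := by positivity
    have hA1 : 0 < 2 ^ u 1 * 3 ^ v 1 := by positivity
    obtain ⟨hd2a, hd2b⟩ := hd2
    obtain ⟨hd3a, hd3b⟩ := hd3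
    have hcase : (d2 = 1 ∧ d3 = 0) ∨ (d2 = 0 ∧ d3 = 1) ∨ (d2 = -1 ∧ d3 = 1) ∨
        (d2 = 1 ∧ d3 = 1) := by
      by_contra hcon
      have : (d2 = -1 ∧ d3 = -1) ∨ (d2 = -1 ∧ d3 = 0) ∨ (d2 = 0 ∧ d3 = -1) ∨
          (d2 = 0 ∧ d3 = 0) ∨ (d2 = 1 ∧ d3 = -1) := by omega
      rcases this with ⟨h1, h2⟩ | ⟨h1, h2⟩ | ⟨h1, h2⟩ | ⟨h1, h2⟩ | ⟨h1, h2⟩
      · have e1 : u 0 = u 1 + 1 := by rw [h1] at hu1; omega
        have e2 : v 0 = v 1 + 1 := by rw [h2] at hv1; omega
        have : x 0 = 6 * x 1 := by rw [hx0, hx1, e1, e2]; ring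
        omega
      · have e1 : u 0 = u 1 + 1 := by rw [h1] at hu1; omega
        have e2 : v 0 = v 1 := by rw [h2] at hv1; omega
        have : x 0 = 2 * x 1 := by rw [hx0, hx1, e1, e2]; ring
        omega
      · have e1 : u 0 = u 1 := by rw [h1] at hu1; omega
        have e2 : v 0 = v 1 + 1 := by rw [h2] at hv1; omega
        have : x 0 = 3 * x 1 := by rw [hx0, hx1, e1, e2]; ring
        omega
      · have e1 : u 0 = u 1 := by rw [h1] at hu1; omega
        have e2 : v 0 = v 1 := by rw [h2] at hv1; omega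
        have : x 0 = x 1 := by rw [hx0, hx1, e1, e2]
        omega
      · have e1 : u 1 = u 0 + 1 := by rw [h1] at hu1; omega
        have e2 : v 0 = v 1 + 1 := by rw [h2] at hv1; omega
        have : 2 * x 0 = 3 * x 1 := by rw [hx0, hx1, e1, e2]; ring
        omega
    rcases hcase with ⟨h1, h2⟩ | ⟨h1, h2⟩ | ⟨h1, h2⟩ | ⟨h1, h2⟩
    · -- a row
      set b := v 0 with hb
      set e := u 0 with he
      have hui : ∀ i < n + 1, u i = e + i := by
        intro i hi; have := hu' i hi; rw [h1] at this; omega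
      have hvi : ∀ i < n + 1, v i = b := by
        intro i hi; have := hv' i hi; rw [h2] at this; omega
      have htop : 2 ^ (e + n) * 3 ^ b ≤ j := by
        have := hxj n (by omega)
        rwa [hui n (by omega), hvi n (by omega)] at this
      have hbR : b ∈ R := by
        apply hmemR
        refine le_trans (Nat.mul_le_mul_right _ ?_) htop
        exact Nat.pow_le_pow_right (by norm_num) (by omega)
      have heL := hLge b hbR _ htop
      by_cases hbN : b ∈ N
      · have hw1 : w b < c := hNw b hbN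
        have hw2 : w b = L b - n := rfl
        have h3 := (hxX (w b - e) (by omega)).1
        apply h3
        rw [hX1, Finset.mem_image]
        refine ⟨b, hbN, ?_⟩
        rw [hxuv (w b - e) (by omega), hui _ (by omega), hvi _ (by omega)]
        congr 2
        omega
      · have hen : e < n := by
          have := hub n (by omega)
          rw [hui n (by omega)] at this
          omega
        have h3 := (hxX (n - e) (by omega)).2.1
        apply h3
        rw [hX2, Finset.mem_image]
        refine ⟨b, ?_, ?_⟩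
        · rw [Finset.mem_sdiff]; exact ⟨hbR, hbN⟩
        · rw [hxuv (n - e) (by omega), hui _ (by omega), hvi _ (by omega)]
          congr 2
          omega
    · -- a column
      set e := v 0 with he
      set a := u 0 with ha
      have hui : ∀ i < n + 1, u i = a := by
        intro i hi; have := hu' i hi; rw [h1] at this; omega
      have hvi : ∀ i < n + 1, v i = e + i := by
        intro i hi; have := hv' i hi; rw [h2] at this; omega
      have htop : 2 ^ a * 3 ^ (e + n) ≤ j := by
        have := hxj n (by omega)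
        rwa [hui n (by omega), hvi n (by omega)] at this
      have haC : a ∈ Cc := by
        apply hmemC
        refine le_trans (Nat.mul_le_mul_left _ ?_) htop
        exact Nat.pow_le_pow_right (by norm_num) (by omega)
      rw [hCceq] at haC
      by_cases haw : a ∈ N.image w
      · rw [Finset.mem_image] at haw
        obtain ⟨b, hbN, hba⟩ := haw
        have hbR := hNR hbN
        have hL2 := hL1 b hbR
        have hw2 : w b = L b - n := rfl
        have hLb : L b = a + n := by omega
        have hbn : b < n := by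
          by_contra hcon
          push Not at hcon
          rw [hR, Finset.mem_filter] at hbR
          have h3 : 2 ^ n * 3 ^ n ≤ 2 ^ n * 3 ^ b :=
            Nat.mul_le_mul_left _ (Nat.pow_le_pow_right (by norm_num) hcon)
          omega
        have heb : e ≤ b := by
          by_contra hcon
          push Not at hcon
          have h3 : 2 ^ a * 3 ^ (b + 1 + n) ≤ 2 ^ a * 3 ^ (e + n) :=
            Nat.mul_le_mul_left _ (Nat.pow_le_pow_right (by norm_num) (by omega))
          have h4 := hL2.2.2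
          rw [hLb] at h4
          have h5 : 2 ^ (a + n + 1) * 3 ^ b ≤ 2 ^ a * 3 ^ (b + 1 + n) := by
            have h6 : 2 ^ (n + 1) ≤ 3 ^ (n + 1) := Nat.pow_le_pow_left (by norm_num) _
            calc 2 ^ (a + n + 1) * 3 ^ b = 2 ^ a * 3 ^ b * 2 ^ (n + 1) := by ring
              _ ≤ 2 ^ a * 3 ^ b * 3 ^ (n + 1) := Nat.mul_le_mul_left _ h6
              _ = 2 ^ a * 3 ^ (b + 1 + n) := by ring
          omega
        have h3 := (hxX (b - e) (by omega)).1
        apply h3
        rw [hX1, Finset.mem_image]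
        refine ⟨b, hbN, ?_⟩
        rw [hxuv (b - e) (by omega), hui _ (by omega), hvi _ (by omega), hba]
        congr 2
        omega
      · have hen : e < n := by
          have := hvb n (by omega)
          rw [hvi n (by omega)] at this
          omega
        have h3 := (hxX (n - e) (by omega)).2.2
        apply h3
        rw [hX3, Finset.mem_image]
        refine ⟨a, ?_, ?_⟩
        · rw [Finset.mem_sdiff]; exact ⟨haC, haw⟩
        · rw [hxuv (n - e) (by omega), hui _ (by omega), hvi _ (by omega)]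
          congr 2
          omega
    · -- the mixed case
      set b := v 0 with hb
      have hun' : (u n : ℤ) = u 0 - n := by have := hu' n (by omega); rw [h1] at this; omega
      set a := u n with ha
      have hui : ∀ i < n + 1, u i = a + n - i := by
        intro i hi; have := hu' i hi; rw [h1] at this; omega
      have hvi : ∀ i < n + 1, v i = b + i := by
        intro i hi; have := hv' i hi; rw [h2] at this; omega
      have htop : 2 ^ a * 3 ^ (b + n) ≤ j := by
        have := hxj n (by omega)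
        rwa [hvi n (by omega)] at this
      have hkey1 : 4 ^ n * 2 ^ (a + b) ≤ 5 ^ n := by
        have h3 : 0 < 3 ^ n := by positivity
        apply Nat.le_of_mul_le_mul_right _ h3
        calc 4 ^ n * 2 ^ (a + b) * 3 ^ n = 4 ^ n * (2 ^ a * (2 ^ b * 3 ^ n)) := by ring
          _ ≤ 4 ^ n * (2 ^ a * (3 ^ b * 3 ^ n)) := by gcongr; norm_num
          _ = 4 ^ n * (2 ^ a * 3 ^ (b + n)) := by ring
          _ ≤ 4 ^ n * j := Nat.mul_le_mul_left _ htop
          _ ≤ 15 ^ n := hjk
          _ = 5 ^ n * 3 ^ n := by rw [← mul_pow]; norm_num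
      have hkey2 := e3_key n (a + b) hn hkey1
      have han : a < n + 1 := by
        by_contra hcon
        push Not at hcon
        have h3 : 2 ^ (n + 1) ≤ 2 ^ (a + b) := Nat.pow_le_pow_right (by norm_num) (by omega)
        have h4 : 4 ^ n * 2 ^ (n + 1) ≤ 4 ^ n * 2 ^ (a + b) := Nat.mul_le_mul_left _ h3
        have h5 : 5 ^ n ≤ 8 ^ n := Nat.pow_le_pow_left (by norm_num) n
        have h6 : 4 ^ n * 2 ^ (n + 1) = 2 * 8 ^ n := by
          rw [pow_succ, ← mul_assoc, ← mul_pow]; norm_num; ring
        have h7 : 0 < 8 ^ n := by positivity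
        omega
      -- c ≥ 1
      have hc1 : 0 ∈ Cc := by
        apply hmemC
        rw [pow_zero, one_mul]
        refine le_trans ?_ htop
        calc 3 ^ n ≤ 3 ^ (b + n) := Nat.pow_le_pow_right (by norm_num) (by omega)
          _ ≤ 2 ^ a * 3 ^ (b + n) := Nat.le_mul_of_pos_left _ (by positivity)
      rw [hCceq, Finset.mem_range] at hc1
      have hc2 : c - 1 ∈ Cc := by rw [hCceq, Finset.mem_range]; omega
      rw [hCc, Finset.mem_filter] at hc2
      have hc3 := hc2.2
      have hnon : 2 ^ (n + c) * 3 ^ (a + b) ≤ j := by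
        have h3 : 0 < 3 ^ n := by positivity
        apply Nat.le_of_mul_le_mul_right _ h3
        have h4 : n + c = (n + 1) + (c - 1) := by omega
        calc 2 ^ (n + c) * 3 ^ (a + b) * 3 ^ n
            = (2 ^ (n + 1) * 3 ^ (a + b)) * (2 ^ (c - 1) * 3 ^ n) := by rw [h4, pow_add]; ring
          _ ≤ 3 ^ n * j := Nat.mul_le_mul hkey2 hc3
          _ = j * 3 ^ n := mul_comm _ _
      have hrow2 : a + b ∈ R := by
        apply hmemR
        refine le_trans (Nat.mul_le_mul_right _ ?_) hnon
        exact Nat.pow_le_pow_right (by norm_num) (by omega)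
      have hnotN : a + b ∉ N := by
        intro hcon
        rw [hN, Finset.mem_filter] at hcon
        omega
      have h3 := (hxX a han).2.1
      apply h3
      rw [hX2, Finset.mem_image]
      refine ⟨a + b, ?_, ?_⟩
      · rw [Finset.mem_sdiff]; exact ⟨hrow2, hnotN⟩
      · rw [hxuv a han, hui a han, hvi a han]
        congr 2 <;> omega
    · -- both exponents increase
      have e1 : n ≤ u n := by have := hu' n (by omega); rw [h1] at this; omega
      have e2 : n ≤ v n := by have := hv' n (by omega); rw [h2] at this; omega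
      have h3 : 2 ^ n * 3 ^ n ≤ 2 ^ u n * 3 ^ v n :=
        Nat.mul_le_mul (Nat.pow_le_pow_right (by norm_num) e1)
          (Nat.pow_le_pow_right (by norm_num) e2)
      have h4 := hxj n (by omega)
      omega
  · intro b hb
    rw [Finset.mem_sdiff, hS, Finset.mem_filter, Finset.mem_Icc] at hb
    exact hb.1.1.2
  · have h1 := Finset.le_card_sdiff (X1 ∪ X2 ∪ X3) S
    rw [hcount]
    omega

end GeoProg
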