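import Pool.Agent.Helper7.GeoProg.Stmts3

/-!
# MP_f5ac68_nt: packet E5 (the sum of `nfree`), by helper36
-/

namespace GeoProg

open Filter Topology

namespace E5

lemma hs_conv {f g : ℕ → ℝ} {a b : ℝ} (h : HasSum f a) (hf : ∀ i, g i = f i) (hab : b = a) :
    HasSum g b := by
  have : g = f := funext hf
  rw [this, hab]; exact h

lemma hasSum_tail (s : ℕ) (hs : 0 < s) :
    HasSum (fun j : ℕ => if s ≤ j then 1 / ((j : ℝ) * (j + 1)) else 0) (1 / (s : ℝ)) := by
  have hpart : ∀ n : ℕ, ∑ j ∈ Finset.range n, (if s ≤ j then 1 / ((j : ℝ) * (j + 1)) else 0)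
      = if s ≤ n then 1 / (s : ℝ) - 1 / (n : ℝ) else 0 := by
    intro n
    induction n with
    | zero => simp; omega
    | succ n ih =>
      rw [Finset.sum_range_succ, ih]
      by_cases h : s ≤ n
      · have hn : (0 : ℝ) < n := by exact_mod_cast (lt_of_lt_of_le hs h)
        rw [if_pos h, if_pos h, if_pos (by omega)]
        push_cast
        field_simp
        ring
      · rw [if_neg h, if_neg h]
        by_cases h2 : s ≤ n + 1
        · have : s = n + 1 := by omega
          subst this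
          simp
        · rw [if_neg h2]; simp
  rw [hasSum_iff_tendsto_nat_of_nonneg (fun j => by split_ifs <;> positivity)]
  simp_rw [hpart]
  have h1 : Tendsto (fun n : ℕ => 1 / (s : ℝ) - 1 / (n : ℝ)) atTop (𝓝 (1 / (s : ℝ) - 0)) :=
    tendsto_const_nhds.sub tendsto_one_div_atTop_nhds_zero_nat
  rw [sub_zero] at h1
  refine h1.congr' ?_
  filter_upwards [eventually_ge_atTop s] with n hn
  rw [if_pos hn]

/-- the general principle: a Tonelli argument -/
lemma hasSum_count {f : ℕ → ℕ} {S : ℝ} (hpos : ∀ i, 0 < f i)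
    (hS : HasSum (fun i => 1 / (f i : ℝ)) S)
    (T : ℕ → Finset ℕ) (hT : ∀ j i, i ∈ T j ↔ f i ≤ j) :
    HasSum (fun j : ℕ => ((T j).card : ℝ) / ((j : ℝ) * (j + 1))) S := by
  set g : ℕ × ℕ → ℝ := fun p => if f p.1 ≤ p.2 then 1 / ((p.2 : ℝ) * (p.2 + 1)) else 0 with hg
  have hg0 : 0 ≤ g := by
    intro p
    simp only [hg, Pi.zero_apply]
    split_ifs <;> positivity
  have hrow : ∀ i, HasSum (fun j => g (i, j)) (1 / (f i : ℝ)) := fun i => hasSum_tail (f i) (hpos i)
  have hsum : Summable g := by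
    rw [summable_prod_of_nonneg hg0]
    refine ⟨fun i => (hrow i).summable, ?_⟩
    refine hS.summable.congr (fun i => ?_)
    rw [(hrow i).tsum_eq]
  have hgS : HasSum g S := by
    have h1 := hsum.hasSum
    have h2 := h1.prod_fiberwise hrow
    rwa [hS.unique h2]
  have hswap : HasSum (fun p : ℕ × ℕ => g p.swap) S := (Equiv.prodComm ℕ ℕ).hasSum_iff.mpr hgS
  refine hswap.prod_fiberwise (fun j => ?_)
  have h3 : HasSum (fun i => g (i, j)) (∑ i ∈ T j, g (i, j)) := by
    apply hasSum_sum_of_ne_finset_zero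
    intro i hi
    rw [hT] at hi
    simp [hg, hi]
  have h4 : ∑ i ∈ T j, g (i, j) = ((T j).card : ℝ) / ((j : ℝ) * (j + 1)) := by
    rw [Finset.sum_congr rfl (g := fun _ => 1 / ((j : ℝ) * (j + 1)))]
    · rw [Finset.sum_const, nsmul_eq_mul]; ring
    · intro i hi
      rw [hT] at hi
      simp [hg, hi]
  rw [← h4]
  exact h3

lemma colc_spec (k j a : ℕ) : 2 ^ a * 3 ^ (k - 1) ≤ j ↔ a < colc k j := by
  have h3 : 0 < 3 ^ (k - 1) := by positivity
  have key : ∀ a, (2 ^ a * 3 ^ (k - 1) ≤ j ↔
      a < if j / 3 ^ (k - 1) = 0 then 0 else Nat.log 2 (j / 3 ^ (k - 1)) + 1) := by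
    intro a
    rw [← Nat.le_div_iff_mul_le h3]
    split_ifs with h
    · rw [h]; simp
    · rw [← Nat.le_log_iff_pow_le (by norm_num) h]; omega
  have hf : (Finset.range j).filter (fun a => 2 ^ a * 3 ^ (k - 1) ≤ j) =
      Finset.range (if j / 3 ^ (k - 1) = 0 then 0 else Nat.log 2 (j / 3 ^ (k - 1)) + 1) := by
    ext a
    rw [Finset.mem_filter, Finset.mem_range, Finset.mem_range, ← key a]
    constructor
    · exact fun h => h.2
    · intro h
      refine ⟨?_, h⟩
      calc a < 2 ^ a := Nat.lt_two_pow_self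
        _ ≤ 2 ^ a * 3 ^ (k - 1) := Nat.le_mul_of_pos_right _ h3
        _ ≤ j := h
  rw [key a]
  unfold colc
  rw [hf, Finset.card_range]

lemma nfree_le (k j : ℕ) : nfree k j ≤ colc k j := by
  unfold nfree
  set c := colc k j with hc
  have hcard : (Finset.Ico (k - 1) (k - 1 + c)).card = c := by rw [Nat.card_Ico]; omega
  conv_rhs => rw [← hcard]
  apply Finset.card_le_card_of_injOn (fun b => Nat.log 2 (j / 3 ^ b))
  · intro b hb
    rw [Finset.mem_coe, Finset.mem_filter] at hb
    obtain ⟨-, h1, h2⟩ := hb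
    have h3 : 0 < 3 ^ b := by positivity
    rw [← Nat.le_div_iff_mul_le h3] at h1
    rw [← Nat.div_lt_iff_lt_mul h3] at h2
    have hne : j / 3 ^ b ≠ 0 := by
      have : 0 < 2 ^ (k - 1) := by positivity
      omega
    rw [Finset.coe_Ico, Set.mem_Ico]
    refine ⟨(Nat.le_log_iff_pow_le (by norm_num) hne).mpr h1, ?_⟩
    exact (Nat.log_lt_iff_lt_pow (by norm_num) hne).mpr h2
  · have key : ∀ b ∈ (Finset.range j).filter (fun b => 2 ^ (k - 1) * 3 ^ b ≤ j ∧
        j < 2 ^ (k - 1 + c) * 3 ^ b), ∀ b' ∈ (Finset.range j).filter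
        (fun b => 2 ^ (k - 1) * 3 ^ b ≤ j ∧ j < 2 ^ (k - 1 + c) * 3 ^ b), b < b' →
        Nat.log 2 (j / 3 ^ b) ≠ Nat.log 2 (j / 3 ^ b') := by
      intro b hb b' hb' hlt heq
      rw [Finset.mem_filter] at hb hb'
      have h3 : 0 < 3 ^ b := by positivity
      have h3' : 0 < 3 ^ b' := by positivity
      have hne : j / 3 ^ b ≠ 0 := by
        have := (Nat.le_div_iff_mul_le h3).mpr hb.2.1
        have : 0 < 2 ^ (k - 1) := by positivity
        omega
      have hne' : j / 3 ^ b' ≠ 0 := by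
        have := (Nat.le_div_iff_mul_le h3').mpr hb'.2.1
        have : 0 < 2 ^ (k - 1) := by positivity
        omega
      have h4 : 2 ^ Nat.log 2 (j / 3 ^ b') ≤ j / 3 ^ b' := Nat.pow_log_le_self 2 hne'
      rw [Nat.le_div_iff_mul_le h3', ← heq] at h4
      have h5 : j / 3 ^ b < 2 ^ (Nat.log 2 (j / 3 ^ b) + 1) := Nat.lt_pow_succ_log_self (by norm_num) _
      rw [Nat.div_lt_iff_lt_mul h3] at h5
      have h6 : 2 * 3 ^ b ≤ 3 ^ b' := by
        calc 2 * 3 ^ b ≤ 3 * 3 ^ b := by omega
          _ = 3 ^ (b + 1) := by ring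
          _ ≤ 3 ^ b' := Nat.pow_le_pow_right (by norm_num) hlt
      have h7 : 2 ^ (Nat.log 2 (j / 3 ^ b) + 1) * 3 ^ b ≤ 2 ^ Nat.log 2 (j / 3 ^ b) * 3 ^ b' := by
        calc 2 ^ (Nat.log 2 (j / 3 ^ b) + 1) * 3 ^ b
            = 2 ^ Nat.log 2 (j / 3 ^ b) * (2 * 3 ^ b) := by ring
          _ ≤ _ := Nat.mul_le_mul_left _ h6
      omega
    intro b hb b' hb' heq
    rcases lt_trichotomy b b' with h | h | h
    · exact absurd heq (key b hb b' hb' h)
    · exact h
    · exact absurd heq.symm (key b' hb' b hb h)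

lemma nfree_eq (k m j : ℕ) (hk : 3 ≤ k) (h1 : 2 ^ (k - 1) < 3 ^ m) (h2 : 3 ^ m ≤ 3 * 2 ^ (k - 1)) :
    (nfree k j : ℝ) =
      (((Finset.range j).filter (fun b => 2 ^ (k - 1) * 3 ^ (b + (k - m)) ≤ j)).card : ℝ) +
      if 3 ^ m < 2 ^ k then
        ((((Finset.range j).filter (fun a => 2 ^ a * 3 ^ (k - 1) ≤ j)).card : ℝ) -
        (((Finset.range j).filter (fun a => 2 ^ (k + a) * 3 ^ (k - m - 1) ≤ j)).card : ℝ)) else 0 := by
  have hm1 : 1 ≤ m := by
    rcases Nat.eq_zero_or_pos m with h | h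
    · subst h
      have : 0 < 2 ^ (k - 1) := by positivity
      simp at h1
    · exact h
  have hmk : m ≤ k - 1 := by
    by_contra hcon
    push Not at hcon
    have e1 : 3 ^ k ≤ 3 ^ m := Nat.pow_le_pow_right (by norm_num) (by omega)
    have e2 : 2 ^ (k - 1) < 3 ^ (k - 1) := Nat.pow_lt_pow_left (by norm_num) (by omega)
    have e3 : 3 ^ k = 3 * 3 ^ (k - 1) := by
      rw [← pow_succ']; congr 1; omega
    omega
  set c := colc k j with hc
  have hcs := colc_spec k j
  rw [← hc] at hcs
  -- powers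
  have p1 : 2 ^ k = 2 * 2 ^ (k - 1) := by rw [← pow_succ']; congr 1; omega
  have p2 : 3 ^ (k - 1) = 3 ^ m * 3 ^ (k - m - 1) := by rw [← pow_add]; congr 1; omega
  -- membership characterisation for large b
  have hbig : ∀ b, k - m ≤ b → 2 ^ (k - 1) * 3 ^ b ≤ j → j < 2 ^ (k - 1 + c) * 3 ^ b := by
    intro b hb hle
    have e1 : 3 ^ (k - 1) ≤ 2 ^ (k - 1) * 3 ^ b := by
      have e2 : 3 ^ m * 3 ^ (k - m - 1) ≤ (3 * 2 ^ (k - 1)) * 3 ^ (k - m - 1) :=
        Nat.mul_le_mul_right _ h2
      have e3 : 3 ^ (k - m) ≤ 3 ^ b := Nat.pow_le_pow_right (by norm_num) hb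
      have e4 : 3 ^ (k - m) = 3 * 3 ^ (k - m - 1) := by rw [← pow_succ']; congr 1; omega
      calc 3 ^ (k - 1) ≤ (3 * 2 ^ (k - 1)) * 3 ^ (k - m - 1) := by rw [p2]; exact e2
        _ = 2 ^ (k - 1) * 3 ^ (k - m) := by rw [e4]; ring
        _ ≤ 2 ^ (k - 1) * 3 ^ b := Nat.mul_le_mul_left _ e3
    have e5 : ¬ (2 ^ c * 3 ^ (k - 1) ≤ j) := by rw [hcs]; omega
    push Not at e5
    calc j < 2 ^ c * 3 ^ (k - 1) := e5
      _ ≤ 2 ^ c * (2 ^ (k - 1) * 3 ^ b) := Nat.mul_le_mul_left _ e1
      _ = 2 ^ (k - 1 + c) * 3 ^ b := by rw [pow_add]; ring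
  -- small b with 2^k 3^b ≤ 3^(k-1) never occurs
  have hsmall : ∀ b, 2 ^ k * 3 ^ b ≤ 3 ^ (k - 1) → 2 ^ (k - 1) * 3 ^ b ≤ j →
      ¬ j < 2 ^ (k - 1 + c) * 3 ^ b := by
    intro b hb hle hlt
    rcases Nat.eq_zero_or_pos c with h0 | h0
    · rw [h0] at hlt
      simp only [add_zero] at hlt
      omega
    · have e1 : 2 ^ (c - 1) * 3 ^ (k - 1) ≤ j := (hcs (c - 1)).mpr (by omega)
      have e2 : 2 ^ (k - 1 + c) * 3 ^ b = 2 ^ (c - 1) * (2 ^ k * 3 ^ b) := by
        rw [← mul_assoc, ← pow_add]; congr 2; omega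
      have e3 : 2 ^ (c - 1) * (2 ^ k * 3 ^ b) ≤ 2 ^ (c - 1) * 3 ^ (k - 1) := Nat.mul_le_mul_left _ hb
      omega
  -- description of the set
  set cond : Prop := 3 ^ m < 2 ^ k ∧ 3 ^ (k - 1) ≤ j ∧ j < 2 ^ (k - 1 + c) * 3 ^ (k - m - 1)
    with hcond
  classical
  have hset : (Finset.range j).filter (fun b => 2 ^ (k - 1) * 3 ^ b ≤ j ∧
      j < 2 ^ (k - 1 + c) * 3 ^ b) =
      (((Finset.range j).filter (fun b => 2 ^ (k - 1) * 3 ^ (b + (k - m)) ≤ j)).image
        (fun b => b + (k - m))) ∪ (if cond then {k - m - 1} else ∅) := by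
    ext b
    rw [Finset.mem_union, Finset.mem_filter, Finset.mem_image, Finset.mem_range]
    constructor
    · rintro ⟨hb, hb1, hb2⟩
      by_cases hbm : k - m ≤ b
      · left
        refine ⟨b - (k - m), ?_, by omega⟩
        rw [Finset.mem_filter, Finset.mem_range]
        refine ⟨by omega, ?_⟩
        rw [Nat.sub_add_cancel hbm]; exact hb1
      · right
        push Not at hbm
        -- b < k - m
        have hbk : b = k - m - 1 := by
          by_contra hne
          have hb' : b + 1 ≤ k - m - 1 := by omega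
          refine hsmall b ?_ hb1 hb2
          have e1 : 3 ^ (b + 1) ≤ 3 ^ (k - m - 1) := Nat.pow_le_pow_right (by norm_num) hb'
          calc 2 ^ k * 3 ^ b = 2 ^ (k - 1) * (2 * 3 ^ b) := by rw [p1]; ring
            _ ≤ 3 ^ m * (3 * 3 ^ b) := Nat.mul_le_mul (le_of_lt h1) (by omega)
            _ = 3 ^ m * 3 ^ (b + 1) := by rw [pow_succ]; ring
            _ ≤ 3 ^ m * 3 ^ (k - m - 1) := Nat.mul_le_mul_left _ e1
            _ = 3 ^ (k - 1) := p2.symm
        have hlt : 3 ^ m < 2 ^ k := by
          by_contra hcon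
          push Not at hcon
          refine hsmall b ?_ hb1 hb2
          rw [hbk, p2]
          exact Nat.mul_le_mul_right _ hcon
        have hcpos : 0 < c := by
          by_contra hcon
          have : c = 0 := by omega
          rw [this] at hb2
          simp only [add_zero] at hb2
          omega
        have hj3 : 3 ^ (k - 1) ≤ j := by
          have := (hcs 0).mpr hcpos
          simpa using this
        have hc' : cond := ⟨hlt, hj3, by rw [← hbk]; exact hb2⟩
        rw [if_pos hc', Finset.mem_singleton]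
        exact hbk
    · rintro (⟨b', hb', rfl⟩ | hb)
      · rw [Finset.mem_filter, Finset.mem_range] at hb'
        have h3 := hb'.2
        refine ⟨?_, h3, hbig _ (by omega) h3⟩
        calc b' + (k - m) < 3 ^ (b' + (k - m)) := Nat.lt_pow_self (by norm_num)
          _ ≤ 2 ^ (k - 1) * 3 ^ (b' + (k - m)) := Nat.le_mul_of_pos_left _ (by positivity)
          _ ≤ j := h3
      · by_cases hc' : cond
        · rw [if_pos hc', Finset.mem_singleton] at hb
          subst hb
          have e1 : 2 ^ (k - 1) * 3 ^ (k - m - 1) ≤ j := by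
            calc 2 ^ (k - 1) * 3 ^ (k - m - 1) ≤ 3 ^ m * 3 ^ (k - m - 1) :=
                  Nat.mul_le_mul_right _ (le_of_lt h1)
              _ = 3 ^ (k - 1) := p2.symm
              _ ≤ j := hc'.2.1
          refine ⟨?_, e1, hc'.2.2⟩
          calc k - m - 1 < 3 ^ (k - m - 1) := Nat.lt_pow_self (by norm_num)
            _ ≤ 2 ^ (k - 1) * 3 ^ (k - m - 1) := Nat.le_mul_of_pos_left _ (by positivity)
            _ ≤ j := e1
        · rw [if_neg hc'] at hb
          simp at hb
  have hcard : nfree k j =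
      ((Finset.range j).filter (fun b => 2 ^ (k - 1) * 3 ^ (b + (k - m)) ≤ j)).card +
      (if cond then 1 else 0) := by
    unfold nfree
    rw [← hc, hset, Finset.card_union_of_disjoint, Finset.card_image_of_injective]
    · congr 1
      split_ifs <;> simp
    · intro x y hxy
      simpa using hxy
    · split_ifs with hc'
      · rw [Finset.disjoint_singleton_right, Finset.mem_image]
        rintro ⟨b', -, hb'⟩
        omega
      · exact Finset.disjoint_empty_right _
  rw [hcard]
  push_cast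
  congr 1
  by_cases hx : 3 ^ m < 2 ^ k
  · rw [if_pos hx]
    have hT2 : ((Finset.range j).filter (fun a => 2 ^ a * 3 ^ (k - 1) ≤ j)).card = c := rfl
    rw [hT2]
    -- bounds between 2^k 3^(k-m-1) and 3^(k-1)
    have q1 : 3 ^ (k - 1) < 2 ^ k * 3 ^ (k - m - 1) := by
      rw [p2]; exact Nat.mul_lt_mul_of_pos_right hx (by positivity)
    have q2 : 2 ^ k * 3 ^ (k - m - 1) ≤ 2 * 3 ^ (k - 1) := by
      rw [p2, p1, mul_assoc]
      exact Nat.mul_le_mul_left _ (Nat.mul_le_mul_right _ (le_of_lt h1))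
    have hT3 : (Finset.range j).filter (fun a => 2 ^ (k + a) * 3 ^ (k - m - 1) ≤ j) =
        Finset.range (if cond then c - 1 else c) := by
      ext a
      rw [Finset.mem_filter, Finset.mem_range, Finset.mem_range]
      have e0 : 2 ^ (k + a) * 3 ^ (k - m - 1) = 2 ^ a * (2 ^ k * 3 ^ (k - m - 1)) := by
        rw [pow_add]; ring
      have hup : 2 ^ (k + a) * 3 ^ (k - m - 1) ≤ j → a < c := by
        intro h
        rw [← hcs a]
        have : 2 ^ a * 3 ^ (k - 1) ≤ 2 ^ a * (2 ^ k * 3 ^ (k - m - 1)) :=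
          Nat.mul_le_mul_left _ (le_of_lt q1)
        omega
      have hdown : a + 1 < c → 2 ^ (k + a) * 3 ^ (k - m - 1) ≤ j := by
        intro h
        have h' := (hcs (a + 1)).mpr h
        have : 2 ^ a * (2 ^ k * 3 ^ (k - m - 1)) ≤ 2 ^ a * (2 * 3 ^ (k - 1)) :=
          Nat.mul_le_mul_left _ q2
        have e5 : 2 ^ (a + 1) * 3 ^ (k - 1) = 2 ^ a * (2 * 3 ^ (k - 1)) := by rw [pow_succ]; ring
        omega
      have hr : 2 ^ (k + a) * 3 ^ (k - m - 1) ≤ j → a < j := by
        intro h
        calc a < 2 ^ a := Nat.lt_two_pow_self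
          _ ≤ 2 ^ (k + a) := Nat.pow_le_pow_right (by norm_num) (by omega)
          _ ≤ 2 ^ (k + a) * 3 ^ (k - m - 1) := Nat.le_mul_of_pos_right _ (by positivity)
          _ ≤ j := h
      constructor
      · rintro ⟨-, h⟩
        have hac := hup h
        split_ifs with hc'
        · by_contra hcon
          have hac' : a = c - 1 := by omega
          have h3 := hc'.2.2
          have e6 : k - 1 + c = k + a := by omega
          rw [e6] at h3
          omega
        · exact hac
      · intro h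
        have hmain : 2 ^ (k + a) * 3 ^ (k - m - 1) ≤ j := by
          split_ifs at h with hc'
          · exact hdown (by omega)
          · rcases Nat.lt_or_ge (a + 1) c with h' | h'
            · exact hdown h'
            · have hac' : a + 1 = c := by omega
              have hj3 : 3 ^ (k - 1) ≤ j := by
                have := (hcs 0).mpr (by omega)
                simpa using this
              by_contra hcon
              push Not at hcon
              apply hc'
              refine ⟨hx, hj3, ?_⟩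
              have e6 : k - 1 + c = k + a := by omega
              rw [e6]; exact hcon
        exact ⟨hr hmain, hmain⟩
    rw [hT3, Finset.card_range]
    split_ifs with hc'
    · have hcpos : 0 < c := by
        rw [← hcs 0]; simpa using hc'.2.1
      rw [Nat.cast_sub hcpos]; push_cast; ring
    · simp
  · rw [if_neg hx]
    have : ¬ cond := fun h => hx h.1
    rw [if_neg this]

end E5

open E5 in
theorem stmtE5 : StmtE5 := by
  intro k m hk h1 h2
  refine ⟨fun j => nfree_le k j, ?_⟩
  have hm1 : 1 ≤ m := by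
    rcases Nat.eq_zero_or_pos m with h | h
    · subst h
      simp at h1
    · exact h
  have hmk : m ≤ k - 1 := by
    by_contra hcon
    push Not at hcon
    have e1 : 3 ^ k ≤ 3 ^ m := Nat.pow_le_pow_right (by norm_num) (by omega)
    have e2 : 2 ^ (k - 1) < 3 ^ (k - 1) := Nat.pow_lt_pow_left (by norm_num) (by omega)
    have e3 : 3 ^ k = 3 * 3 ^ (k - 1) := by
      rw [← pow_succ']; congr 1; omega
    omega
  have g3 : HasSum (fun b : ℕ => ((1 : ℝ) / 3) ^ b) (3 / 2) := by
    have := hasSum_geometric_of_lt_one (r := (1 : ℝ) / 3) (by norm_num) (by norm_num)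
    convert this using 1
    norm_num
  have g2 : HasSum (fun b : ℕ => ((1 : ℝ) / 2) ^ b) 2 := by
    have := hasSum_geometric_of_lt_one (r := (1 : ℝ) / 2) (by norm_num) (by norm_num)
    convert this using 1
    norm_num
  -- the three sums
  have r1 : (3 : ℝ) ^ k = 3 ^ m * 3 ^ (k - m) := by rw [← pow_add]; congr 1; omega
  have r2 : (2 : ℝ) ^ k = 2 * 2 ^ (k - 1) := by rw [← pow_succ']; congr 1; omega
  have r3 : (3 : ℝ) ^ k = 3 * 3 ^ (k - 1) := by rw [← pow_succ']; congr 1; omega
  have r4 : (3 : ℝ) ^ (k - m) = 3 * 3 ^ (k - m - 1) := by rw [← pow_succ']; congr 1; omega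
  have hA := hasSum_count (f := fun b => 2 ^ (k - 1) * 3 ^ (b + (k - m)))
    (S := 3 / 3 ^ k * (3 ^ m / 2 ^ k)) (fun i => by positivity) (by
      have := g3.mul_left ((1 : ℝ) / (2 ^ (k - 1) * 3 ^ (k - m)))
      refine hs_conv this (fun b => ?_) ?_
      · push_cast
        rw [pow_add, one_div_pow]
        field_simp
      · rw [r1, r2]
        field_simp)
    (fun j => (Finset.range j).filter (fun b => 2 ^ (k - 1) * 3 ^ (b + (k - m)) ≤ j)) (by
      intro j i
      rw [Finset.mem_filter, Finset.mem_range]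
      constructor
      · exact fun h => h.2
      · intro h
        refine ⟨?_, h⟩
        calc i < 3 ^ i := Nat.lt_pow_self (by norm_num)
          _ ≤ 3 ^ (i + (k - m)) := Nat.pow_le_pow_right (by norm_num) (by omega)
          _ ≤ 2 ^ (k - 1) * 3 ^ (i + (k - m)) := Nat.le_mul_of_pos_left _ (by positivity)
          _ ≤ j := h)
  have hB := hasSum_count (f := fun a => 2 ^ a * 3 ^ (k - 1))
    (S := 3 / 3 ^ k * 2) (fun i => by positivity) (by
      have := g2.mul_left ((1 : ℝ) / (3 ^ (k - 1)))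
      refine hs_conv this (fun b => ?_) ?_
      · push_cast
        rw [one_div_pow]
        field_simp
      · rw [r3]
        field_simp)
    (fun j => (Finset.range j).filter (fun a => 2 ^ a * 3 ^ (k - 1) ≤ j)) (by
      intro j i
      rw [Finset.mem_filter, Finset.mem_range]
      constructor
      · exact fun h => h.2
      · intro h
        refine ⟨?_, h⟩
        calc i < 2 ^ i := Nat.lt_pow_self (by norm_num)
          _ ≤ 2 ^ i * 3 ^ (k - 1) := Nat.le_mul_of_pos_right _ (by positivity)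
          _ ≤ j := h)
  have hC := hasSum_count (f := fun a => 2 ^ (k + a) * 3 ^ (k - m - 1))
    (S := 3 / 3 ^ k * (2 * (3 ^ m / 2 ^ k))) (fun i => by positivity) (by
      have := g2.mul_left ((1 : ℝ) / (2 ^ k * 3 ^ (k - m - 1)))
      refine hs_conv this (fun b => ?_) ?_
      · push_cast
        rw [one_div_pow, pow_add]
        field_simp
      · rw [r1, r4]
        field_simp)
    (fun j => (Finset.range j).filter (fun a => 2 ^ (k + a) * 3 ^ (k - m - 1) ≤ j)) (by
      intro j i
      rw [Finset.mem_filter, Finset.mem_range]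
      constructor
      · exact fun h => h.2
      · intro h
        refine ⟨?_, h⟩
        calc i < 2 ^ i := Nat.lt_pow_self (by norm_num)
          _ ≤ 2 ^ (k + i) := Nat.pow_le_pow_right (by norm_num) (by omega)
          _ ≤ 2 ^ (k + i) * 3 ^ (k - m - 1) := Nat.le_mul_of_pos_right _ (by positivity)
          _ ≤ j := h)
  by_cases hx : 3 ^ m < 2 ^ k
  · have hx' : (3 : ℝ) ^ m / 2 ^ k < 1 := by
      rw [div_lt_one (by positivity)]; exact_mod_cast hx
    have h := hA.add (hB.sub hC)
    refine hs_conv h (fun j => ?_) ?_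
    · rw [nfree_eq k m j hk h1 h2, if_pos hx]
      ring
    · rw [abs_of_neg (by linarith)]
      ring
  · have hx' : 1 ≤ (3 : ℝ) ^ m / 2 ^ k := by
      rw [one_le_div (by positivity)]; exact_mod_cast (not_lt.mp hx)
    refine hs_conv hA (fun j => ?_) ?_
    · rw [nfree_eq k m j hk h1 h2, if_neg hx, add_zero]
    · rw [abs_of_nonneg (by linarith)]
      ring

end GeoProg
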