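import Pool.Agent.Helper7.GeoProg.P_E2
import Pool.Agent.Helper7.GeoProg.P_A5

/-!
# MP_f5ac68_nt, packet E6: the numbers `2^a * 3^b ≤ j` outside `grid k`
-/

namespace GeoProg

namespace E6

open Filter Topology E2

/-- pairs with large first exponent -/
def tA (K j : ℕ) : Finset (ℕ × ℕ) :=
  (Finset.range (j + 1) ×ˢ Finset.range (j + 1)).filter (fun z => 2 ^ (K + z.1) * 3 ^ z.2 ≤ j)

/-- pairs with large second exponent -/
def tB (K j : ℕ) : Finset (ℕ × ℕ) :=
  (Finset.range (j + 1) ×ˢ Finset.range (j + 1)).filter (fun z => 2 ^ z.1 * 3 ^ (K + z.2) ≤ j)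

theorem bnd {a b a' b' j : ℕ} (ha : a' ≤ a) (hb : b' ≤ b) (h : 2 ^ a * 3 ^ b ≤ j) :
    a' < j + 1 ∧ b' < j + 1 := by
  have h1 : a < 2 ^ a := Nat.lt_pow_self (by norm_num)
  have h2 : b < 3 ^ b := Nat.lt_pow_self (by norm_num)
  have h3 : 2 ^ a * 1 ≤ 2 ^ a * 3 ^ b := Nat.mul_le_mul_left _ (Nat.one_le_pow _ _ (by norm_num))
  have h4 : 1 * 3 ^ b ≤ 2 ^ a * 3 ^ b := Nat.mul_le_mul_right _ (Nat.one_le_pow _ _ (by norm_num))
  omega

theorem mem_tA {K j : ℕ} (z : ℕ × ℕ) : z ∈ tA K j ↔ 2 ^ (K + z.1) * 3 ^ z.2 ≤ j := by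
  unfold tA
  rw [Finset.mem_filter, Finset.mem_product, Finset.mem_range, Finset.mem_range]
  exact ⟨fun h => h.2, fun h => ⟨bnd (by omega) le_rfl h, h⟩⟩

theorem mem_tB {K j : ℕ} (z : ℕ × ℕ) : z ∈ tB K j ↔ 2 ^ z.1 * 3 ^ (K + z.2) ≤ j := by
  unfold tB
  rw [Finset.mem_filter, Finset.mem_product, Finset.mem_range, Finset.mem_range]
  exact ⟨fun h => h.2, fun h => ⟨bnd le_rfl (by omega) h, h⟩⟩

theorem hasSum_pair : HasSum (fun z : ℕ × ℕ => 1 / (2 : ℝ) ^ z.1 * (1 / (3 : ℝ) ^ z.2)) 3 := by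
  have hs : Summable (fun z : ℕ × ℕ => 1 / (2 : ℝ) ^ z.1 * (1 / (3 : ℝ) ^ z.2)) :=
    Summable.mul_of_nonneg (f := fun a : ℕ => 1 / (2 : ℝ) ^ a) (g := fun b : ℕ => 1 / (3 : ℝ) ^ b)
      hasSum_two.summable hasSum_three.summable
      (fun a => by positivity) (fun b => by positivity)
  have h := hasSum_two.mul hasSum_three hs
  exact hs_of h (fun z => rfl) (by norm_num)

theorem sumA (K : ℕ) :
    HasSum (fun j : ℕ => ((tA K j).card : ℝ) / ((j : ℝ) * (j + 1))) (3 / 2 ^ K) := by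
  refine count_hasSum (fun z : ℕ × ℕ => 2 ^ (K + z.1) * 3 ^ z.2) (fun z => by positivity) ?_ _
    (fun j => ⟨_, mem_tA, rfl⟩)
  refine hs_of (hasSum_pair.mul_left (1 / (2 : ℝ) ^ K)) (fun z => ?_) ?_
  · push_cast
    rw [pow_add]
    field_simp
  · ring

theorem sumB (K : ℕ) :
    HasSum (fun j : ℕ => ((tB K j).card : ℝ) / ((j : ℝ) * (j + 1))) (3 / 3 ^ K) := by
  refine count_hasSum (fun z : ℕ × ℕ => 2 ^ z.1 * 3 ^ (K + z.2)) (fun z => by positivity) ?_ _
    (fun j => ⟨_, mem_tB, rfl⟩)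
  refine hs_of (hasSum_pair.mul_left (1 / (3 : ℝ) ^ K)) (fun z => ?_) ?_
  · push_cast
    rw [pow_add]
    field_simp
  · ring

end E6

open E2 E6 in
/-- [E6] -/
theorem stmtE6 : StmtE6 := by
  classical
  intro k hk
  refine ⟨fun j => (tA (2 * k - 2) j).card + (tB (2 * k - 2) j).card, fun j => ?_, ?_⟩
  · have hsub : Nat.smoothNumbers 4 ∩ Set.Icc 1 j ⊆
        (((grid k).filter (· ≤ j)) ∪
        (((Finset.range j).filter (fun b => 2 ^ (k - 1) * 3 ^ b ≤ j)).image
          (fun b => 2 ^ (k - 1) * 3 ^ b)) ∪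
        (((Finset.range j).filter (fun a => 2 ^ a * 3 ^ (k - 1) ≤ j)).image
          (fun a => 2 ^ a * 3 ^ (k - 1))) ∪
        ((tA (2 * k - 2) j).image (fun z => 2 ^ (2 * k - 2 + z.1) * 3 ^ z.2)) ∪
        ((tB (2 * k - 2) j).image (fun z => 2 ^ z.1 * 3 ^ (2 * k - 2 + z.2))) : Finset ℕ) := by
      rintro s ⟨hs, hs1, hsj⟩
      have h := A5_smooth hs
      set a := s.factorization 2 with ha
      set b := s.factorization 3 with hb
      simp only [Finset.coe_union, Set.mem_union, Finset.mem_coe, Finset.mem_filter,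
        Finset.mem_image]
      rw [h] at hsj
      by_cases h1 : 2 * k - 2 ≤ a
      · left; right
        refine ⟨(a - (2 * k - 2), b), ?_, ?_⟩
        · rw [mem_tA]
          simpa [Nat.add_sub_cancel' h1] using hsj
        · simpa [Nat.add_sub_cancel' h1] using h.symm
      by_cases h2 : 2 * k - 2 ≤ b
      · right
        refine ⟨(a, b - (2 * k - 2)), ?_, ?_⟩
        · rw [mem_tB]
          simpa [Nat.add_sub_cancel' h2] using hsj
        · simpa [Nat.add_sub_cancel' h2] using h.symm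
      left; left
      by_cases h3 : a = k - 1
      · left; right
        refine ⟨b, ⟨?_, ?_⟩, ?_⟩
        · rw [Finset.mem_range]
          rw [h3] at hsj
          exact lt_of_row hsj
        · rw [h3] at hsj; exact hsj
        · rw [h, h3]
      by_cases h4 : b = k - 1
      · right
        refine ⟨a, ⟨?_, ?_⟩, ?_⟩
        · rw [Finset.mem_range]
          rw [h4] at hsj
          exact lt_of_col hsj
        · rw [h4] at hsj; exact hsj
        · rw [h, h4]
      · left; left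
        refine ⟨?_, by rw [h]; exact hsj⟩
        unfold grid expo
        rw [Finset.mem_image]
        refine ⟨(a, b), ?_, h.symm⟩
        rw [Finset.mem_product, Finset.mem_erase, Finset.mem_erase, Finset.mem_range,
          Finset.mem_range]
        exact ⟨⟨h3, by omega⟩, ⟨h4, by omega⟩⟩
    unfold count
    refine (Set.ncard_le_ncard hsub (Finset.finite_toSet _)).trans ?_
    rw [Set.ncard_coe_finset]
    refine (Finset.card_union_le _ _).trans ?_
    have e1 := Finset.card_image_le (s := tB (2 * k - 2) j)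
      (f := fun z => 2 ^ z.1 * 3 ^ (2 * k - 2 + z.2))
    have e2 := Finset.card_image_le (s := tA (2 * k - 2) j)
      (f := fun z => 2 ^ (2 * k - 2 + z.1) * 3 ^ z.2)
    have e3 := Finset.card_image_le (s := (Finset.range j).filter (fun a => 2 ^ a * 3 ^ (k - 1) ≤ j))
      (f := fun a => 2 ^ a * 3 ^ (k - 1))
    have e4 := Finset.card_image_le (s := (Finset.range j).filter (fun b => 2 ^ (k - 1) * 3 ^ b ≤ j))
      (f := fun b => 2 ^ (k - 1) * 3 ^ b)
    have e5 := Finset.card_union_le ((grid k).filter (· ≤ j) ∪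
        (((Finset.range j).filter (fun b => 2 ^ (k - 1) * 3 ^ b ≤ j)).image
          (fun b => 2 ^ (k - 1) * 3 ^ b)) ∪
        (((Finset.range j).filter (fun a => 2 ^ a * 3 ^ (k - 1) ≤ j)).image
          (fun a => 2 ^ a * 3 ^ (k - 1)))) ((tA (2 * k - 2) j).image
            (fun z => 2 ^ (2 * k - 2 + z.1) * 3 ^ z.2))
    have e6 := Finset.card_union_le ((grid k).filter (· ≤ j) ∪
        (((Finset.range j).filter (fun b => 2 ^ (k - 1) * 3 ^ b ≤ j)).image
          (fun b => 2 ^ (k - 1) * 3 ^ b)))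
        (((Finset.range j).filter (fun a => 2 ^ a * 3 ^ (k - 1) ≤ j)).image
          (fun a => 2 ^ a * 3 ^ (k - 1)))
    have e7 := Finset.card_union_le ((grid k).filter (· ≤ j))
        (((Finset.range j).filter (fun b => 2 ^ (k - 1) * 3 ^ b ≤ j)).image
          (fun b => 2 ^ (k - 1) * 3 ^ b))
    show _ ≤ ((grid k).filter (· ≤ j)).card + rowc k j + colc k j +
      ((tA (2 * k - 2) j).card + (tB (2 * k - 2) j).card)
    unfold rowc colc
    omega
  · have h := (sumA (2 * k - 2)).add (sumB (2 * k - 2))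
    have e : (fun j : ℕ => (((tA (2 * k - 2) j).card + (tB (2 * k - 2) j).card : ℕ) : ℝ) /
        ((j : ℝ) * (j + 1))) = fun j : ℕ => ((tA (2 * k - 2) j).card : ℝ) / ((j : ℝ) * (j + 1)) +
        ((tB (2 * k - 2) j).card : ℝ) / ((j : ℝ) * (j + 1)) := by
      funext j
      push_cast
      rw [add_div]
    rw [e]
    refine ⟨h.summable, ?_⟩
    rw [h.tsum_eq]
    obtain ⟨n, rfl⟩ : ∃ n, k = n + 1 := ⟨k - 1, by omega⟩
    have e2 : 2 * (n + 1) - 2 = 2 * n := by omega
    rw [e2, pow_mul, pow_mul, pow_succ (4 : ℝ)]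
    norm_num
    have h4 : (0 : ℝ) < 4 ^ n := by positivity
    have h9 : (4 : ℝ) ^ n ≤ 9 ^ n := by gcongr; norm_num
    have h5 : (3 : ℝ) / 9 ^ n ≤ 3 / 4 ^ n := by gcongr
    have h6 : (100 : ℝ) / (4 ^ n * 4) = 25 / 4 ^ n := by
      field_simp
      norm_num
    rw [h6]
    have h7 : (3 : ℝ) / 4 ^ n + 3 / 4 ^ n ≤ 25 / 4 ^ n := by
      rw [← add_div]
      gcongr
      norm_num
    linarith

end GeoProg
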