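import Pool.Agent.Helper7.GeoProg.Stmts

/-!
# MP_f5ac68_nt, packet 9: the greedy set
-/

namespace GeoProg

open Filter Topology

theorem greedyExp_iff (k a : ℕ) : GreedyExp k a ↔ ¬ ∃ d : ℕ, 0 < d ∧ (k - 1) * d ≤ a ∧
    ∀ i : ℕ, ∀ _ : 0 < i ∧ i < k ∧ 0 < d ∧ i * d ≤ a, GreedyExp k (a - i * d) := by
  conv_lhs => rw [GreedyExp]

theorem mul_le_aux {k i d a : ℕ} (hi : i < k) (h : (k - 1) * d ≤ a) : i * d ≤ a :=
  le_trans (Nat.mul_le_mul_right d (by omega)) h

theorem not_greedyExp {k a : ℕ} (h : ¬ GreedyExp k a) : ∃ d : ℕ, 0 < d ∧ (k - 1) * d ≤ a ∧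
    ∀ i : ℕ, 0 < i → i < k → GreedyExp k (a - i * d) := by
  rw [greedyExp_iff, not_not] at h
  obtain ⟨d, hd, hda, hh⟩ := h
  exact ⟨d, hd, hda, fun i hi hik => hh i ⟨hi, hik, hd, mul_le_aux hik hda⟩⟩

theorem greedyExp_not_of {k a d : ℕ} (hd : 0 < d) (hda : (k - 1) * d ≤ a)
    (h : ∀ i : ℕ, 0 < i → i < k → GreedyExp k (a - i * d)) : ¬ GreedyExp k a := by
  rw [greedyExp_iff, not_not]
  exact ⟨d, hd, hda, fun i hi => h i hi.1 hi.2.1⟩

theorem greedyExp_of_lt {k a : ℕ} (h : a < k - 1) : GreedyExp k a := by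
  rw [greedyExp_iff]
  rintro ⟨d, hd, hda, -⟩
  have : (k - 1) * 1 ≤ (k - 1) * d := Nat.mul_le_mul_left _ hd
  omega

theorem apFree_greedy {k : ℕ} (hk : 3 ≤ k) : APFree k {a | GreedyExp k a} := by
  rintro ⟨a, d, hd, h⟩
  have h0 := h (k - 1) (by omega)
  refine greedyExp_not_of (k := k) (a := a + (k - 1) * d) (d := d) hd (by omega) ?_ h0
  intro i hi hik
  have h1 := h (k - 1 - i) (by omega)
  have h2 : a + (k - 1) * d - i * d = a + (k - 1 - i) * d := by
    have : (k - 1) * d = (k - 1 - i) * d + i * d := by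
      rw [← Nat.add_mul]; congr 1; omega
    omega
  rw [h2]; exact h1

theorem stmtG1 : StmtG1 := by
  intro k hk
  refine ⟨apFree_greedy hk, fun a ha => not_greedyExp ha, fun a ha => greedyExp_of_lt ha, ?_⟩
  refine greedyExp_not_of (k := k) (a := k - 1) (d := 1) one_pos (by omega) ?_
  intro i hi hik
  exact greedyExp_of_lt (by omega)

theorem gpFree_Gset (hV1 : StmtV1) (hV2 : StmtV2) {k : ℕ} (hk : 3 ≤ k) : GPFree k (Gset k) := by
  refine ⟨fun m hm => hm.1, ?_⟩
  intro hgp
  obtain ⟨x, hx, h01, hrel⟩ := (hV1 k (Gset k) hk (fun m hm => hm.1)).1 hgp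
  obtain ⟨hexp, -⟩ := hV2 k x hk (fun i hi => (hx i hi).1) hrel
  have heq : x 0 = x 1 := by
    refine Nat.eq_of_factorization_eq (hx 0 (by omega)).1.ne' (hx 1 (by omega)).1.ne' ?_
    intro p
    by_cases hp : p.Prime
    swap
    · rw [Nat.factorization_eq_zero_of_not_prime _ hp, Nat.factorization_eq_zero_of_not_prime _ hp]
    obtain ⟨c, d, hcd⟩ := hexp p
    have hAP := apFree_greedy hk
    have hG : ∀ i < k, GreedyExp k ((x i).factorization p) := fun i hi => (hx i hi).2 p hp
    rcases lt_trichotomy d 0 with hd | hd | hd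
    · exfalso
      apply hAP
      refine ⟨(x (k - 1)).factorization p, (-d).toNat, by omega, ?_⟩
      intro i hi
      have h1 := hG (k - 1 - i) (by omega)
      have e1 := hcd (k - 1 - i) (by omega)
      have e2 := hcd (k - 1) (by omega)
      have e3 : (x (k - 1)).factorization p + i * (-d).toNat =
          (x (k - 1 - i)).factorization p := by
        have e4 : (((-d).toNat : ℕ) : ℤ) = -d := Int.toNat_of_nonneg (by omega)
        have e5 : ((k - 1 - i : ℕ) : ℤ) = ((k - 1 : ℕ) : ℤ) - i := by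
          rw [Nat.cast_sub (by omega)]
        zify
        rw [e1, e2, e4, e5]
        ring
      simp only [Set.mem_setOf_eq]
      rw [e3]; exact h1
    · have e1 := hcd 0 (by omega)
      have e2 := hcd 1 (by omega)
      rw [hd] at e1 e2
      have : ((x 0).factorization p : ℤ) = (x 1).factorization p := by rw [e1, e2]; ring
      exact_mod_cast this
    · exfalso
      apply hAP
      refine ⟨(x 0).factorization p, d.toNat, by omega, ?_⟩
      intro i hi
      have h1 := hG i hi
      have e1 := hcd i hi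
      have e2 := hcd 0 (by omega)
      have e3 : (x 0).factorization p + i * d.toNat = (x i).factorization p := by
        have e4 : ((d.toNat : ℕ) : ℤ) = d := Int.toNat_of_nonneg (by omega)
        zify
        rw [e1, e2, e4]
        push_cast
        ring
      simp only [Set.mem_setOf_eq]
      rw [e3]; exact h1
  omega

theorem exists_prog {k : ℕ} (hk : 3 ≤ k) {s : ℕ} (hs : 0 < s) (hsG : s ∉ Gset k) :
    ∃ x : ℕ → ℕ, x (k - 1) = s ∧
    (∀ i, i + 1 < k → x i ∈ Gset k ∧ x i < s ∧ x i ∣ s) ∧ x 0 < x 1 ∧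
    (∀ i, i + 2 < k → x i * x (i + 2) = x (i + 1) ^ 2) := by
  classical
  have hch : ∀ p : ℕ, ∃ d : ℕ, ¬ GreedyExp k (s.factorization p) →
      (0 < d ∧ (k - 1) * d ≤ s.factorization p ∧
        ∀ i : ℕ, 0 < i → i < k → GreedyExp k (s.factorization p - i * d)) := by
    intro p
    by_cases h : GreedyExp k (s.factorization p)
    · exact ⟨0, fun h' => absurd h h'⟩
    · obtain ⟨d, hd⟩ := not_greedyExp h
      exact ⟨d, fun _ => hd⟩
  choose d hd using hch
  set J : Finset ℕ := s.primeFactors.filter (fun p => ¬ GreedyExp k (s.factorization p)) with hJ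
  set q : ℕ := ∏ p ∈ J, p ^ d p with hq
  have hJp : ∀ p ∈ J, p.Prime := fun p hp =>
    Nat.prime_of_mem_primeFactors (Finset.mem_filter.1 hp).1
  have hq0 : q ≠ 0 := by
    rw [hq, Finset.prod_ne_zero_iff]
    intro p hp
    exact pow_ne_zero _ (hJp p hp).ne_zero
  have hqf : ∀ p : ℕ, q.factorization p = if p ∈ J then d p else 0 := by
    intro p
    rw [hq, Nat.factorization_prod (fun r hr => pow_ne_zero _ (hJp r hr).ne_zero)]
    rw [Finset.sum_apply']
    have h1 : ∀ r ∈ J, ((r ^ d r).factorization) p = if r = p then d r else 0 := by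
      intro r hr
      rw [(hJp r hr).factorization_pow, Finsupp.single_apply]
    rw [Finset.sum_congr rfl h1, Finset.sum_ite_eq' J p d]
  have hdvd : q ^ (k - 1) ∣ s := by
    rw [← Nat.factorization_le_iff_dvd (pow_ne_zero _ hq0) hs.ne']
    intro p
    rw [Nat.factorization_pow, Finsupp.smul_apply, smul_eq_mul, hqf]
    split_ifs with h
    · exact (hd p (Finset.mem_filter.1 h).2).2.1
    · simp
  obtain ⟨t, ht⟩ := hdvd
  have ht0 : t ≠ 0 := by
    rintro rfl
    simp at ht; omega
  -- q ≥ 2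
  have hJne : ∃ p, p ∈ J := by
    have h1 : ¬ ∀ p : ℕ, p.Prime → GreedyExp k (s.factorization p) := fun h => hsG ⟨hs, h⟩
    push_neg at h1
    obtain ⟨p, hp, hpn⟩ := h1
    refine ⟨p, ?_⟩
    rw [hJ, Finset.mem_filter]
    refine ⟨?_, hpn⟩
    rw [Nat.mem_primeFactors]
    refine ⟨hp, ?_, hs.ne'⟩
    by_contra hnd
    rw [Nat.factorization_eq_zero_of_not_dvd hnd] at hpn
    exact hpn (greedyExp_of_lt (by omega))
  have hq2 : 2 ≤ q := by
    obtain ⟨p, hp⟩ := hJne
    have h1 : q.factorization p ≠ 0 := by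
      rw [hqf, if_pos hp]
      exact (hd p (Finset.mem_filter.1 hp).2).1.ne'
    have h2 : q ≠ 1 := by
      intro h; rw [h] at h1; simp at h1
    omega
  have hsx : ∀ i : ℕ, i + 1 < k → (t * q ^ i) * q ^ (k - 1 - i) = s := by
    intro i hi
    rw [ht, mul_assoc, ← pow_add, mul_comm]
    congr 2; omega
  refine ⟨fun i => t * q ^ i, ?_, ?_, ?_, ?_⟩
  · simp only
    rw [ht, mul_comm]
  · intro i hi
    simp only
    have hx0 : t * q ^ i ≠ 0 := mul_ne_zero ht0 (pow_ne_zero _ hq0)
    refine ⟨⟨Nat.pos_of_ne_zero hx0, ?_⟩, ?_, ⟨q ^ (k - 1 - i), (hsx i hi).symm⟩⟩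
    · intro p hp
      have h1 : s.factorization p = (t * q ^ i).factorization p
          + (k - 1 - i) * q.factorization p := by
        rw [← hsx i hi, Nat.factorization_mul hx0 (pow_ne_zero _ hq0), Finsupp.add_apply,
          Nat.factorization_pow, Finsupp.smul_apply, smul_eq_mul]
      have h2 : (t * q ^ i).factorization p = s.factorization p
          - (k - 1 - i) * q.factorization p := by omega
      rw [h2, hqf]
      split_ifs with h
      · exact (hd p (Finset.mem_filter.1 h).2).2.2 _ (by omega) (by omega)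
      · rw [Nat.mul_zero, Nat.sub_zero]
        by_contra hn
        apply h
        rw [hJ, Finset.mem_filter]
        refine ⟨?_, hn⟩
        rw [Nat.mem_primeFactors]
        refine ⟨hp, ?_, hs.ne'⟩
        by_contra hnd
        rw [Nat.factorization_eq_zero_of_not_dvd hnd] at hn
        exact hn (greedyExp_of_lt (by omega))
    · have h3 : 2 ≤ q ^ (k - 1 - i) := by
        calc 2 ≤ q := hq2
          _ = q ^ 1 := (pow_one q).symm
          _ ≤ q ^ (k - 1 - i) := Nat.pow_le_pow_right (by omega) (by omega)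
      have h4 := hsx i hi
      have h5 : 0 < t * q ^ i := Nat.pos_of_ne_zero hx0
      nlinarith
  · simp only [pow_zero, mul_one, pow_one]
    have : 0 < t := Nat.pos_of_ne_zero ht0
    nlinarith
  · intro i hi
    simp only
    ring

theorem stmtG2 (hV1 : StmtV1) (hV2 : StmtV2) : StmtG2 := by
  intro k hk
  exact ⟨gpFree_Gset hV1 hV2 hk, fun s hs hsG => exists_prog hk hs hsG⟩

theorem stmtG3 : StmtG3 := by
  classical
  intro k p S hk hp hS
  set G : Set ℕ := {a | GreedyExp k a} with hG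
  set f : ℕ → ℝ := fun a => 1 / (p : ℝ) ^ a with hf
  have hp0 : (0 : ℝ) < p := by positivity
  have hp1 : (1 / (p : ℝ)) < 1 := by
    rw [div_lt_one hp0]
    exact_mod_cast (by omega : 1 < p)
  have hf' : f = fun a => (1 / (p : ℝ)) ^ a := by
    funext a
    simp only [hf, one_div, inv_pow]
  have hfs : Summable f := by
    rw [hf']
    exact summable_geometric_of_lt_one (by positivity) hp1
  have hf0 : ∀ a, 0 ≤ f a := fun a => by simp only [hf]; positivity
  by_cases hSG : S = G
  · rw [hSG]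
  have hex : ∃ a, ¬ (a ∈ S ↔ a ∈ G) := by
    by_contra hcon
    push_neg at hcon
    exact hSG (Set.ext fun a => by simpa using hcon a)
  set a0 := Nat.find hex with ha0
  have hne : ¬ (a0 ∈ S ↔ a0 ∈ G) := Nat.find_spec hex
  have heq : ∀ a < a0, (a ∈ S ↔ a ∈ G) := fun a ha => not_not.1 (Nat.find_min hex ha)
  have hnS : a0 ∉ S := by
    intro hin
    have hnG : ¬ GreedyExp k a0 := fun h => hne ⟨fun _ => h, fun _ => hin⟩
    obtain ⟨d, hd, hda, hdG⟩ := not_greedyExp hnG
    apply hS
    refine ⟨a0 - (k - 1) * d, d, hd, ?_⟩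
    intro j hj
    have e1 : a0 - (k - 1) * d + j * d = a0 - (k - 1 - j) * d := by
      have : (k - 1) * d = (k - 1 - j) * d + j * d := by
        rw [← Nat.add_mul]; congr 1; omega
      omega
    rw [e1]
    by_cases hj' : k - 1 - j = 0
    · rw [hj']; simpa using hin
    · have h2 : (k - 1 - j) * d ≤ a0 := mul_le_aux (by omega) hda
      have h3 : 0 < (k - 1 - j) * d := Nat.mul_pos (by omega) hd
      rw [heq _ (by omega)]
      exact hdG _ (by omega) (by omega)
  have hinG : a0 ∈ G := by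
    by_contra h
    exact hne ⟨fun h' => absurd h' hnS, fun h' => absurd h' h⟩
  have hsS : Summable (S.indicator f) := hfs.indicator S
  have hsG : Summable (G.indicator f) := hfs.indicator G
  rw [← hsS.sum_add_tsum_nat_add (a0 + 1), ← hsG.sum_add_tsum_nat_add (a0 + 1),
    Finset.sum_range_succ, Finset.sum_range_succ, Set.indicator_of_notMem hnS,
    Set.indicator_of_mem hinG]
  have h1 : ∑ i ∈ Finset.range a0, S.indicator f i = ∑ i ∈ Finset.range a0, G.indicator f i := by
    apply Finset.sum_congr rfl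
    intro i hi
    have := heq i (Finset.mem_range.1 hi)
    by_cases hi' : i ∈ S
    · rw [Set.indicator_of_mem hi', Set.indicator_of_mem (this.1 hi')]
    · rw [Set.indicator_of_notMem hi', Set.indicator_of_notMem (fun h => hi' (this.2 h))]
  have h2 : ∑' i : ℕ, S.indicator f (i + (a0 + 1)) ≤ ∑' i : ℕ, f (i + (a0 + 1)) := by
    apply Summable.tsum_le_tsum
    · intro i
      exact Set.indicator_le_self' (fun _ _ => hf0 _) _
    · exact (summable_nat_add_iff (a0 + 1)).2 hsS
    · exact (summable_nat_add_iff (a0 + 1)).2 hfs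
  have h3 : ∑' i : ℕ, f (i + (a0 + 1)) ≤ f a0 := by
    have e : (fun i : ℕ => f (i + (a0 + 1))) =
        fun i : ℕ => (1 / (p : ℝ)) ^ (a0 + 1) * (1 / (p : ℝ)) ^ i := by
      funext i
      rw [hf']
      simp only
      rw [← pow_add]
      congr 1; omega
    rw [e, tsum_mul_left, tsum_geometric_of_lt_one (by positivity) hp1]
    rw [hf']
    simp only
    rw [pow_succ, mul_assoc]
    have h4 : (1 / (p : ℝ)) * (1 - 1 / (p : ℝ))⁻¹ ≤ 1 := by
      rw [← div_eq_mul_inv, div_le_one (by linarith)]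
      have : (2 : ℝ) ≤ p := by exact_mod_cast hp
      have h5 : 1 / (p : ℝ) ≤ 1 / 2 := one_div_le_one_div_of_le (by norm_num) this
      linarith
    calc (1 / (p : ℝ)) ^ a0 * ((1 / (p : ℝ)) * (1 - 1 / (p : ℝ))⁻¹)
        ≤ (1 / (p : ℝ)) ^ a0 * 1 := by
          apply mul_le_mul_of_nonneg_left h4 (by positivity)
      _ = (1 / (p : ℝ)) ^ a0 := mul_one _
  have h4 : 0 ≤ ∑' i : ℕ, G.indicator f (i + (a0 + 1)) := by
    apply tsum_nonneg
    intro i
    exact Set.indicator_nonneg (fun _ _ => hf0 _) _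
  rw [h1]
  linarith

end GeoProg
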