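import Pool.Agent.Helper7.GeoProg.Stmts

/-!
# MP_f5ac68_nt, packet 4: density implies logarithmic density
-/

namespace GeoProg

open Filter Topology Finset Asymptotics

theorem count_zero' (A : Set ℕ) : count A 0 = 0 := by
  simp [count]

theorem count_succ' (A : Set ℕ) (N : ℕ) :
    (count A (N + 1) : ℝ) = count A N + A.indicator (fun _ => (1 : ℝ)) (N + 1) := by
  have hI : Set.Icc 1 (N + 1) = insert (N + 1) (Set.Icc 1 N) := by
    ext x; simp only [Set.mem_Icc, Set.mem_insert_iff]; omega
  have hfin : (A ∩ Set.Icc 1 N).Finite := (Set.finite_Icc 1 N).subset Set.inter_subset_right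
  unfold count
  rw [hI]
  by_cases h : N + 1 ∈ A
  · rw [Set.inter_insert_of_mem h, Set.ncard_insert_of_notMem (by simp) hfin,
      Set.indicator_of_mem h]
    push_cast
    rfl
  · rw [Set.inter_insert_of_notMem h, Set.indicator_of_notMem h, add_zero]

theorem count_le_self (A : Set ℕ) (N : ℕ) : count A N ≤ N := by
  unfold count
  calc (A ∩ Set.Icc 1 N).ncard ≤ (Set.Icc 1 N).ncard :=
        Set.ncard_le_ncard Set.inter_subset_right (Set.finite_Icc 1 N)
    _ = N := by rw [← Finset.coe_Icc, Set.ncard_coe_finset]; simp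

theorem harm_succ' (A : Set ℕ) (N : ℕ) :
    harm A (N + 1) = harm A N + A.indicator (fun _ => (1 : ℝ)) (N + 1) / ((N : ℝ) + 1) := by
  unfold harm
  rw [Finset.sum_Icc_succ_top (by omega)]
  congr 1
  by_cases h : N + 1 ∈ A
  · rw [Set.indicator_of_mem h, Set.indicator_of_mem h]; push_cast; rfl
  · rw [Set.indicator_of_notMem h, Set.indicator_of_notMem h, zero_div]

/-- Abel summation. -/
theorem harm_eq (A : Set ℕ) (N : ℕ) :
    harm A N = ∑ j ∈ range N, ((count A (j + 1) : ℝ) / ((j + 1 : ℕ) : ℝ)) * (1 / ((j : ℝ) + 2)) +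
      (count A N : ℝ) / ((N : ℝ) + 1) := by
  induction N with
  | zero => simp [harm, count_zero']
  | succ N ih =>
    rw [harm_succ', ih, Finset.sum_range_succ, count_succ']
    push_cast
    have h1 : (N : ℝ) + 1 ≠ 0 := by positivity
    have h2 : (N : ℝ) + 2 ≠ 0 := by positivity
    have h3 : (N : ℝ) + 1 + 1 ≠ 0 := by positivity
    field_simp
    ring

/-- Packet L. -/
theorem stmtL : StmtL := by
  intro A d hd
  have hd1 : Tendsto (fun j : ℕ => (count A (j + 1) : ℝ) / ((j + 1 : ℕ) : ℝ)) atTop (𝓝 d) :=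
    hd.comp (tendsto_add_atTop_nat 1)
  obtain ⟨g, hg⟩ : ∃ g : ℕ → ℝ, ∀ j, g j = 1 / ((j : ℝ) + 2) := ⟨_, fun _ => rfl⟩
  have hgpos : ∀ j, 0 < g j := fun j => by rw [hg]; positivity
  obtain ⟨h, hh⟩ : ∃ h : ℕ → ℝ, ∀ N, h N = ∑ j ∈ range N, g j := ⟨_, fun _ => rfl⟩
  -- the comparison with the harmonic numbers
  have hharm : ∀ N, h N = (harmonic N : ℝ) - 1 + 1 / ((N : ℝ) + 1) := by
    intro N
    rw [hh]
    induction N with
    | zero => simp
    | succ N ih =>
      rw [Finset.sum_range_succ, ih, hg, harmonic_succ]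
      push_cast
      have h1 : (N : ℝ) + 1 ≠ 0 := by positivity
      have h2 : (N : ℝ) + 2 ≠ 0 := by positivity
      have h3 : (N : ℝ) + 1 + 1 ≠ 0 := by positivity
      field_simp
      ring
  have hlog : Tendsto (fun N : ℕ => Real.log (N : ℝ)) atTop atTop :=
    Real.tendsto_log_atTop.comp tendsto_natCast_atTop_atTop
  have hlogpos : ∀ᶠ N : ℕ in atTop, 0 < Real.log (N : ℝ) := hlog.eventually_gt_atTop 0
  have hratio : Tendsto (fun N : ℕ => h N / Real.log N) atTop (𝓝 1) := by
    have h1 : Tendsto (fun N : ℕ => ((harmonic N : ℝ) - Real.log N - 1 + 1 / ((N : ℝ) + 1)) /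
        Real.log N) atTop (𝓝 0) := by
      refine Tendsto.div_atTop (a := Real.eulerMascheroniConstant - 1 + 0) ?_ hlog
      exact (Real.tendsto_harmonic_sub_log.sub_const 1).add tendsto_one_div_add_atTop_nhds_zero_nat
    have h2 := h1.const_add 1
    rw [add_zero] at h2
    refine h2.congr' ?_
    filter_upwards [hlogpos] with N hN
    rw [hharm N]
    field_simp
    ring
  have htop : Tendsto (fun N : ℕ => ∑ j ∈ range N, g j) atTop atTop := by
    have h1 : Tendsto (fun N : ℕ => (h N / Real.log N) * Real.log N) atTop atTop :=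
      hratio.pos_mul_atTop one_pos hlog
    refine h1.congr' ?_
    filter_upwards [hlogpos] with N hN
    rw [div_mul_cancel₀ _ hN.ne', hh]
  -- the little-o estimate
  obtain ⟨f, hf⟩ : ∃ f : ℕ → ℝ, ∀ j, f j =
      (((count A (j + 1) : ℝ) / ((j + 1 : ℕ) : ℝ)) - d) * g j := ⟨_, fun _ => rfl⟩
  have hfo : f =o[atTop] g := by
    rw [isLittleO_iff_tendsto (fun j hj => absurd hj (hgpos j).ne')]
    have h1 : Tendsto (fun j : ℕ => ((count A (j + 1) : ℝ) / ((j + 1 : ℕ) : ℝ)) - d) atTop
        (𝓝 (d - d)) := hd1.sub_const d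
    rw [sub_self] at h1
    refine h1.congr fun j => ?_
    rw [hf, mul_div_assoc, div_self (hgpos j).ne', mul_one]
  have hsum := hfo.sum_range (fun j => (hgpos j).le) htop
  have hsum' : Tendsto (fun N : ℕ => (∑ j ∈ range N, f j) / h N) atTop (𝓝 0) := by
    have := hsum.tendsto_div_nhds_zero
    refine this.congr fun N => ?_
    rw [hh]
  have hsum2 : Tendsto (fun N : ℕ => (∑ j ∈ range N, f j) / Real.log N) atTop (𝓝 0) := by
    have h1 := hsum'.mul hratio
    rw [zero_mul] at h1
    refine h1.congr' ?_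
    have hpos : ∀ᶠ N : ℕ in atTop, 0 < ∑ j ∈ range N, g j := htop.eventually_gt_atTop 0
    filter_upwards [hpos] with N hN
    have hN' : h N ≠ 0 := by rw [hh]; exact hN.ne'
    field_simp
  have hlast : Tendsto (fun N : ℕ => ((count A N : ℝ) / ((N : ℝ) + 1)) / Real.log N) atTop
      (𝓝 0) := by
    refine squeeze_zero' (g := fun N : ℕ => 1 / Real.log (N : ℝ)) ?_ ?_ ?_
    · filter_upwards [hlogpos] with N hN
      positivity
    · filter_upwards [hlogpos] with N hN
      gcongr
      rw [div_le_one (by positivity)]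
      have := count_le_self A N
      have h2 : (count A N : ℝ) ≤ N := by exact_mod_cast this
      linarith
    · exact Tendsto.div_atTop tendsto_const_nhds hlog
  have hfinal : Tendsto (fun N : ℕ => d * (h N / Real.log N) +
      (∑ j ∈ range N, f j) / Real.log N + ((count A N : ℝ) / ((N : ℝ) + 1)) / Real.log N)
      atTop (𝓝 (d * 1 + 0 + 0)) := ((hratio.const_mul d).add hsum2).add hlast
  rw [mul_one, add_zero, add_zero] at hfinal
  refine hfinal.congr fun N => ?_
  rw [harm_eq A N, ← mul_div_assoc, ← add_div, ← add_div]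
  congr 2
  rw [hh, Finset.mul_sum, ← Finset.sum_add_distrib]
  refine Finset.sum_congr rfl fun j _ => ?_
  rw [hf, ← hg j]
  ring

end GeoProg
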