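import Pool.Agent.Helper7.GeoProg.Stmts

/-!
# MP_f5ac68_nt, packet P: Euler products over smooth numbers with restricted exponents, and the
upper bound for the upper density of a set defined by exponent conditions
-/

namespace GeoProg

open Filter Topology

/-- one Euler factor is summable -/
lemma P_summable_factor (S : Set ℕ) {p : ℕ} (hp : p.Prime) :
    Summable (fun a : ℕ => S.indicator (fun a : ℕ => 1 / (p : ℝ) ^ a) a) := by
  have h1 : Summable (fun a : ℕ => (1 / (p : ℝ)) ^ a) := by
    refine summable_geometric_of_lt_one (by positivity) ?_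
    have : (1 : ℝ) < p := by exact_mod_cast hp.one_lt
    rw [div_lt_one (by linarith)]
    exact this
  refine Summable.of_nonneg_of_le (fun a => ?_) (fun a => ?_) h1
  · exact Set.indicator_nonneg (fun a _ => by positivity) a
  · by_cases ha : a ∈ S
    · rw [Set.indicator_of_mem ha, one_div_pow]
    · rw [Set.indicator_of_notMem ha]
      positivity

/-- Euler product over smooth numbers with restricted exponents. -/
lemma P_euler (S : ℕ → Set ℕ) (n : ℕ) :
    HasSum (fun s : Nat.smoothNumbers n =>
      ({m : ℕ | ∀ p ∈ Nat.primesBelow n, m.factorization p ∈ S p}.indicator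
        (fun s : ℕ => 1 / (s : ℝ)) (s : ℕ)))
      (∏ p ∈ Nat.primesBelow n,
        ∑' a : ℕ, (S p).indicator (fun a : ℕ => 1 / (p : ℝ) ^ a) a) := by
  classical
  induction n with
  | zero =>
    rw [Nat.smoothNumbers_zero]
    have h0 : Nat.primesBelow 0 = ∅ := by simp
    rw [h0, Finset.prod_empty]
    have h := hasSum_fintype (fun s : ({1} : Set ℕ) =>
      ({m : ℕ | ∀ p ∈ (∅ : Finset ℕ), m.factorization p ∈ S p}.indicator
        (fun s : ℕ => 1 / (s : ℝ)) (s : ℕ)))
    convert h using 1
    simp
  | succ p ih =>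
    by_cases hp : p.Prime
    · have hpb : Nat.primesBelow (p + 1) = insert p (Nat.primesBelow p) :=
        (Nat.primesBelow_succ p).trans (if_pos hp)
      have hnot : p ∉ Nat.primesBelow p := Nat.notMem_primesBelow p
      rw [hpb, Finset.prod_insert hnot]
      have hfac := (P_summable_factor (S p) hp).hasSum
      have hprod : HasSum (fun x : ℕ × Nat.smoothNumbers p =>
          (S p).indicator (fun a : ℕ => 1 / (p : ℝ) ^ a) x.1 *
          ({m : ℕ | ∀ q ∈ Nat.primesBelow p, m.factorization q ∈ S q}.indicator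
            (fun s : ℕ => 1 / (s : ℝ)) (x.2 : ℕ)))
          ((∑' a : ℕ, (S p).indicator (fun a : ℕ => 1 / (p : ℝ) ^ a) a) *
            ∏ q ∈ Nat.primesBelow p,
              ∑' a : ℕ, (S q).indicator (fun a : ℕ => 1 / (q : ℝ) ^ a) a) := by
        refine hfac.mul ih ?_
        refine Summable.mul_of_nonneg hfac.summable ih.summable ?_ ?_
        · intro a
          exact Set.indicator_nonneg (fun a _ => by positivity) a
        · intro s
          exact Set.indicator_nonneg (fun a _ => by positivity) _
      rw [← (Nat.equivProdNatSmoothNumbers hp).hasSum_iff]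
      convert hprod using 1
      funext x
      obtain ⟨e, m, hm⟩ := x
      have hcop : Nat.Coprime p m := hp.smoothNumbers_coprime hm
      have hm0 : m ≠ 0 := Nat.ne_zero_of_mem_smoothNumbers hm
      have hpe0 : p ^ e ≠ 0 := pow_ne_zero _ hp.ne_zero
      have hfp : (p ^ e * m).factorization p = e := by
        rw [Nat.factorization_mul hpe0 hm0, Finsupp.add_apply, hp.factorization_pow,
          Finsupp.single_eq_same,
          Nat.factorization_eq_zero_of_not_dvd ((Nat.Prime.coprime_iff_not_dvd hp).1 hcop), add_zero]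
      have hfq : ∀ q, q ≠ p → (p ^ e * m).factorization q = m.factorization q := by
        intro q hq
        rw [Nat.factorization_mul hpe0 hm0, Finsupp.add_apply, hp.factorization_pow,
          Finsupp.single_eq_of_ne hq, zero_add]
      simp only [Function.comp, Nat.equivProdNatSmoothNumbers_apply]
      have hiff : (p ^ e * m ∈ {m : ℕ | ∀ q ∈ insert p (Nat.primesBelow p),
          m.factorization q ∈ S q}) ↔ (e ∈ S p ∧
            m ∈ {m : ℕ | ∀ q ∈ Nat.primesBelow p, m.factorization q ∈ S q}) := by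
        simp only [Set.mem_ofPred_eq, Finset.mem_insert, forall_eq_or_imp, hfp]
        refine and_congr_right (fun _ => ?_)
        refine forall₂_congr (fun q hq => ?_)
        rw [hfq q (fun h => hnot (h ▸ hq))]
      by_cases h1 : e ∈ S p
      · by_cases h2 : m ∈ {m : ℕ | ∀ q ∈ Nat.primesBelow p, m.factorization q ∈ S q}
        · rw [Set.indicator_of_mem (hiff.2 ⟨h1, h2⟩), Set.indicator_of_mem h1,
            Set.indicator_of_mem h2]
          push_cast
          rw [div_mul_div_comm, one_mul]
        · rw [Set.indicator_of_notMem (fun h => h2 (hiff.1 h).2), Set.indicator_of_notMem h2,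
            mul_zero]
      · rw [Set.indicator_of_notMem (fun h => h1 (hiff.1 h).1), Set.indicator_of_notMem h1,
            zero_mul]
    · have hpb : Nat.primesBelow (p + 1) = Nat.primesBelow p :=
        (Nat.primesBelow_succ p).trans (if_neg hp)
      rw [hpb, Nat.smoothNumbers_succ hp]
      exact ih

/-- the same over all natural numbers -/
lemma P_euler' (S : ℕ → Set ℕ) (n : ℕ) :
    HasSum ((Nat.smoothNumbers n ∩
        {m : ℕ | ∀ p ∈ Nat.primesBelow n, m.factorization p ∈ S p}).indicator
        (fun s : ℕ => 1 / (s : ℝ)))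
      (∏ p ∈ Nat.primesBelow n,
        ∑' a : ℕ, (S p).indicator (fun a : ℕ => 1 / (p : ℝ) ^ a) a) := by
  have h := P_euler S n
  have h2 := (hasSum_subtype_iff_indicator (f :=
      ({m : ℕ | ∀ p ∈ Nat.primesBelow n, m.factorization p ∈ S p}.indicator
        (fun s : ℕ => 1 / (s : ℝ)))) (s := Nat.smoothNumbers n)).1 h
  rw [Set.indicator_indicator] at h2
  exact h2

/-- an exponent of the greedy set at `0`. -/
lemma P_greedy_zero {k : ℕ} (hk : 3 ≤ k) : GreedyExp k 0 := by
  rw [GreedyExp]
  rintro ⟨d, hd, h, -⟩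
  have : 0 < (k - 1) * d := Nat.mul_pos (by omega) hd
  omega

/-- [P2]. -/
theorem stmtP2 : StmtP2 := by
  classical
  intro k n hk ε hε
  have hs := P_euler' (fun _ => {a | GreedyExp k a}) n
  have ht := hs.tendsto_sum_nat
  set W : ℝ := ∏ p ∈ Nat.primesBelow n,
    ∑' a : ℕ, {a | GreedyExp k a}.indicator (fun a : ℕ => 1 / (p : ℝ) ^ a) a with hW
  have hev : ∀ᶠ m : ℕ in atTop, W - ε < ∑ i ∈ Finset.range m, (Nat.smoothNumbers n ∩
        {m : ℕ | ∀ p ∈ Nat.primesBelow n, m.factorization p ∈ {a | GreedyExp k a}}).indicator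
        (fun s : ℕ => 1 / (s : ℝ)) i :=
    ht.eventually (lt_mem_nhds (by linarith))
  obtain ⟨T, hT⟩ := eventually_atTop.1 hev
  refine ⟨T, fun N hN B hB => ?_⟩
  refine (hT (N + 1) (by omega)).le.trans (le_of_eq ?_)
  rw [hsum, ← Finset.sum_indicator_subset_of_eq_zero (s := B) (t := Finset.range (N + 1))
    (fun s : ℕ => 1 / (s : ℝ)) (fun _ x => x) ?_ (by simp)]
  · refine Finset.sum_congr rfl (fun s hsr => ?_)
    have hiff : s ∈ (B : Set ℕ) ↔ s ∈ (Nat.smoothNumbers n ∩
        {m : ℕ | ∀ p ∈ Nat.primesBelow n, m.factorization p ∈ {a | GreedyExp k a}}) := by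
      rw [Finset.mem_coe, hB]
      have hsN : s ≤ N := by
        have := Finset.mem_range.1 hsr
        omega
      constructor
      · rintro ⟨-, h1, h2⟩
        exact ⟨h1, fun p hp => h2.2 p (Nat.prime_of_mem_primesBelow hp)⟩
      · rintro ⟨h1, h2⟩
        refine ⟨hsN, h1, Nat.pos_of_ne_zero (Nat.ne_zero_of_mem_smoothNumbers h1), fun p hp => ?_⟩
        by_cases hpn : p < n
        · exact h2 p (Nat.mem_primesBelow.2 ⟨hpn, hp⟩)
        · have h0 : s.factorization p = 0 := by
            refine Nat.factorization_eq_zero_of_not_dvd (fun hd => hpn ?_)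
            exact Nat.mem_smoothNumbers'.1 h1 p hp hd
          rw [h0]
          exact P_greedy_zero hk
    by_cases hsB : s ∈ (B : Set ℕ)
    · rw [Set.indicator_of_mem hsB, Set.indicator_of_mem (hiff.1 hsB)]
    · rw [Set.indicator_of_notMem hsB, Set.indicator_of_notMem (fun h => hsB (hiff.2 h))]
  · intro s hs'
    have := ((hB s).1 hs').1
    exact Finset.mem_range.2 (by omega)

/-- monotone bound of the counting function -/
lemma P_count_eq (A : Set ℕ) [DecidablePred (· ∈ A)] (N : ℕ) :
    count A N = ((Finset.Icc 1 N).filter (· ∈ A)).card := by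
  rw [count, ← Set.ncard_coe_finset]
  congr 1
  ext x
  simp only [Set.mem_inter_iff, Set.mem_Icc, Finset.coe_filter, Finset.mem_Icc, Set.mem_ofPred_eq]
  tauto

lemma P_count_le (A : Set ℕ) (N : ℕ) : count A N ≤ N := by
  classical
  rw [P_count_eq]
  refine (Finset.card_filter_le _ _).trans (by simp)

/-- [P1]. -/
theorem stmtP1 (hR : StmtR) (hS : StmtS) (hD : StmtD1) : StmtP1 := by
  classical
  intro n S
  set E : Set ℕ := {m | 0 < m ∧ ∀ p : ℕ, p.Prime → m.factorization p ∈ S p} with hE
  set X : Set ℕ := Nat.smoothNumbers n ∩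
        {m : ℕ | ∀ p ∈ Nat.primesBelow n, m.factorization p ∈ S p} with hX
  set W : ℝ := ∏ p ∈ Nat.primesBelow n, ∑' a : ℕ,
    (S p).indicator (fun a : ℕ => 1 / (p : ℝ) ^ a) a with hW
  have hsum : HasSum (X.indicator (fun s : ℕ => 1 / (s : ℝ))) W := P_euler' S n
  obtain ⟨hd0, hd1, hsm⟩ := hS n
  obtain ⟨C, hC⟩ := hR n
  have hC0 : 0 ≤ C := (abs_nonneg _).trans (hC 0)
  -- the counting inequality
  have hcount : ∀ N : ℕ, (count E N : ℝ) ≤
      ∑ s ∈ (Finset.Icc 1 N).filter (· ∈ X), (count {m | Rough n m} (N / s) : ℝ) := by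
    intro N
    have hsub : (Finset.Icc 1 N).filter (· ∈ E) ⊆
        ((Finset.Icc 1 N).filter (· ∈ X)).biUnion (fun s =>
          ((Finset.Icc 1 (N / s)).filter (· ∈ {m | Rough n m})).image (fun r => s * r)) := by
      intro m hm
      rw [Finset.mem_filter, Finset.mem_Icc] at hm
      obtain ⟨⟨hm1, hmN⟩, hmE⟩ := hm
      obtain ⟨s, r, hs, hr, hsr⟩ := (hD n).1 m hmE.1
      have hs0 : s ≠ 0 := Nat.ne_zero_of_mem_smoothNumbers hs
      have hr0 : r ≠ 0 := hr.1.ne'
      rw [Finset.mem_biUnion]
      refine ⟨s, ?_, ?_⟩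
      · rw [Finset.mem_filter, Finset.mem_Icc]
        refine ⟨⟨Nat.pos_of_ne_zero hs0, ?_⟩, hs, ?_⟩
        · refine le_trans ?_ hmN
          rw [hsr]
          exact Nat.le_mul_of_pos_right s hr.1
        · intro p hp
          have hpp := Nat.prime_of_mem_primesBelow hp
          have h1 := hmE.2 p hpp
          have h2 : r.factorization p = 0 := by
            refine Nat.factorization_eq_zero_of_not_dvd (fun hdv => ?_)
            have h3 := hr.2 p hpp hdv
            have h4 := Nat.lt_of_mem_primesBelow hp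
            omega
          rw [hsr, Nat.factorization_mul hs0 hr0, Finsupp.add_apply, h2, add_zero] at h1
          exact h1
      · rw [Finset.mem_image]
        refine ⟨r, ?_, hsr.symm⟩
        rw [Finset.mem_filter, Finset.mem_Icc]
        refine ⟨⟨hr.1, ?_⟩, hr⟩
        rw [Nat.le_div_iff_mul_le (Nat.pos_of_ne_zero hs0), mul_comm, ← hsr]
        exact hmN
    have h1 : count E N ≤ ∑ s ∈ (Finset.Icc 1 N).filter (· ∈ X),
        count {m | Rough n m} (N / s) := by
      rw [P_count_eq]
      refine (Finset.card_le_card hsub).trans (Finset.card_biUnion_le.trans ?_)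
      refine Finset.sum_le_sum (fun s _ => ?_)
      rw [P_count_eq]
      exact Finset.card_image_le
    exact_mod_cast h1
  -- it is enough to bound the quotient eventually
  refine le_of_forall_pos_le_add (fun ε hε => ?_)
  -- tail of the smooth sum
  obtain ⟨K, hK⟩ : ∃ K : ℕ, ∀ N : ℕ, ∑ s ∈ (Finset.Ioc K N).filter (· ∈ Nat.smoothNumbers n),
      1 / (s : ℝ) ≤ ε / 2 := by
    have ht := hsm.tendsto_sum_nat
    have hev : ∀ᶠ m : ℕ in atTop, (delta n)⁻¹ - ε / 2 < ∑ i ∈ Finset.range m,
        (Nat.smoothNumbers n).indicator (fun s : ℕ => 1 / (s : ℝ)) i :=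
      ht.eventually (lt_mem_nhds (by linarith))
    obtain ⟨K, hK⟩ := eventually_atTop.1 hev
    refine ⟨K, fun N => ?_⟩
    have h1 := hK (K + 1) (by omega)
    have hnn : ∀ i : ℕ, 0 ≤ (Nat.smoothNumbers n).indicator (fun s : ℕ => 1 / (s : ℝ)) i :=
      fun i => Set.indicator_nonneg (fun a _ => by positivity) i
    have hdisj : Disjoint (Finset.range (K + 1)) (Finset.Ioc K N) := by
      rw [Finset.disjoint_left]
      intro a ha hb
      have := Finset.mem_range.1 ha
      have := (Finset.mem_Ioc.1 hb).1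
      omega
    have h2 := sum_le_hasSum (Finset.range (K + 1) ∪ Finset.Ioc K N) (fun i _ => hnn i) hsm
    rw [Finset.sum_union hdisj] at h2
    have h3 : ∑ s ∈ (Finset.Ioc K N).filter (· ∈ Nat.smoothNumbers n), 1 / (s : ℝ) =
        ∑ i ∈ Finset.Ioc K N, (Nat.smoothNumbers n).indicator (fun s : ℕ => 1 / (s : ℝ)) i := by
      rw [Finset.sum_filter]
      refine Finset.sum_congr rfl (fun i _ => ?_)
      rw [Set.indicator_apply]
    rw [h3]
    linarith
  -- the bound for each N
  have hbd : ∀ N : ℕ, (count E N : ℝ) ≤ (delta n * W + ε / 2) * N + C * K := by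
    intro N
    refine (hcount N).trans ?_
    have hsplit : ∑ s ∈ (Finset.Icc 1 N).filter (· ∈ X), (count {m | Rough n m} (N / s) : ℝ) ≤
        ∑ s ∈ (Finset.Icc 1 K).filter (· ∈ X), (delta n * N * (1 / (s : ℝ)) + C) +
        ∑ s ∈ (Finset.Ioc K N).filter (· ∈ Nat.smoothNumbers n), N * (1 / (s : ℝ)) := by
      have hfl : ∀ s : ℕ, ((N / s : ℕ) : ℝ) ≤ N * (1 / (s : ℝ)) := by
        intro s
        rw [mul_one_div]
        exact Nat.cast_div_le
      have hpt : ∀ s ∈ (Finset.Icc 1 N).filter (· ∈ X), (count {m | Rough n m} (N / s) : ℝ) ≤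
          (if s ≤ K then (delta n * N * (1 / (s : ℝ)) + C) else N * (1 / (s : ℝ))) := by
        intro s _
        split_ifs with hsK
        · have h1 := (abs_le.1 (hC (N / s))).2
          have h2 : delta n * ((N / s : ℕ) : ℝ) ≤ delta n * (N * (1 / (s : ℝ))) :=
            mul_le_mul_of_nonneg_left (hfl s) hd0.le
          linarith
        · refine le_trans ?_ (hfl s)
          exact_mod_cast P_count_le _ _
      refine (Finset.sum_le_sum hpt).trans ?_
      rw [Finset.sum_ite, Finset.filter_filter, Finset.filter_filter]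
      refine add_le_add ?_ ?_
      · refine Finset.sum_le_sum_of_subset_of_nonneg ?_ (fun s _ _ => by positivity)
        intro s hs
        simp only [Finset.mem_filter, Finset.mem_Icc] at hs ⊢
        exact ⟨⟨hs.1.1, hs.2.2⟩, hs.2.1⟩
      · refine Finset.sum_le_sum_of_subset_of_nonneg ?_ (fun s _ _ => by positivity)
        intro s hs
        simp only [Finset.mem_filter, Finset.mem_Icc, Finset.mem_Ioc, not_le] at hs ⊢
        exact ⟨⟨hs.2.2, hs.1.2⟩, hs.2.1.1⟩
    refine hsplit.trans ?_
    have hA : ∑ s ∈ (Finset.Icc 1 K).filter (· ∈ X), (delta n * N * (1 / (s : ℝ)) + C) ≤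
        delta n * N * W + C * K := by
      rw [Finset.sum_add_distrib, ← Finset.mul_sum]
      refine add_le_add ?_ ?_
      · refine mul_le_mul_of_nonneg_left ?_ (by positivity)
        have hnn : ∀ i : ℕ, 0 ≤ X.indicator (fun s : ℕ => 1 / (s : ℝ)) i :=
          fun i => Set.indicator_nonneg (fun a _ => by positivity) i
        have h2 := sum_le_hasSum (Finset.Icc 1 K) (fun i _ => hnn i) hsum
        refine le_trans (le_of_eq ?_) h2
        rw [Finset.sum_filter]
        refine Finset.sum_congr rfl (fun i _ => ?_)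
        rw [Set.indicator_apply]
      · rw [Finset.sum_const, nsmul_eq_mul, mul_comm]
        refine mul_le_mul_of_nonneg_left ?_ hC0
        have : ((Finset.Icc 1 K).filter (· ∈ X)).card ≤ K :=
          (Finset.card_filter_le _ _).trans (by simp)
        exact_mod_cast this
    have hB : ∑ s ∈ (Finset.Ioc K N).filter (· ∈ Nat.smoothNumbers n), (N : ℝ) * (1 / (s : ℝ)) ≤
        ε / 2 * N := by
      rw [← Finset.mul_sum, mul_comm]
      exact mul_le_mul_of_nonneg_right (hK N) (by positivity)
    calc _ ≤ (delta n * N * W + C * K) + ε / 2 * N := add_le_add hA hB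
      _ = _ := by ring
  rw [upperDensity]
  refine limsup_le_of_le ?_ ?_
  · refine IsCoboundedUnder.of_frequently_ge (a := 0) (Frequently.of_forall (fun N => ?_))
    positivity
  · have hev : ∀ᶠ N : ℕ in atTop, C * K / (ε / 2) ≤ (N : ℝ) :=
      tendsto_natCast_atTop_atTop.eventually_ge_atTop _
    filter_upwards [hev, eventually_gt_atTop 0] with N hN hN0
    have hN0' : (0 : ℝ) < N := by exact_mod_cast hN0
    rw [div_le_iff₀ hN0']
    rw [div_le_iff₀ (by positivity)] at hN
    have := hbd N
    nlinarith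

end GeoProg
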