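import Pool.Agent.Helper7.GeoProg.Stmts

/-!
# MP_f5ac68_nt, packet 5: the rough numbers without a `(k-1)`-st power of a prime as divisor
-/

set_option autoImplicit false

namespace GeoProg

open Filter Topology Finset

/-! ### The tail bound -/

theorem stmtQt : StmtQt := by
  intro k n hk hn
  have hn1 : (0 : ℝ) < (n : ℝ) - 1 := by
    have : (2 : ℝ) ≤ n := by exact_mod_cast hn
    linarith
  refine Real.tsum_le_of_sum_range_le (fun m => ?_) (fun N => ?_)
  · split_ifs <;> positivity
  · have key : ∀ N : ℕ, n ≤ N → ∑ m ∈ range N, (if n ≤ m then 1 / (m : ℝ) ^ (k - 1) else 0) ≤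
        1 / ((n : ℝ) - 1) - 1 / ((N : ℝ) - 1) := by
      intro N hN
      induction N, hN using Nat.le_induction with
      | base =>
        rw [Finset.sum_eq_zero]
        · simp
        · intro m hm
          rw [if_neg]
          rw [mem_range] at hm
          omega
      | succ N hN ih =>
        rw [sum_range_succ, if_pos hN]
        have hN2 : (2 : ℝ) ≤ N := by exact_mod_cast hn.trans hN
        have h1 : 1 / (N : ℝ) ^ (k - 1) ≤ 1 / ((N : ℝ) - 1) - 1 / (N : ℝ) := by
          have h2 : (N : ℝ) ^ 2 ≤ (N : ℝ) ^ (k - 1) :=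
            pow_le_pow_right₀ (by linarith) (by omega)
          have hne : (N : ℝ) - 1 ≠ 0 := by linarith
          have hne' : (N : ℝ) ≠ 0 := by linarith
          have h3 : 1 / ((N : ℝ) - 1) - 1 / (N : ℝ) = 1 / (((N : ℝ) - 1) * N) := by
            rw [div_sub_div _ _ hne hne']
            congr 1
            ring
          rw [h3]
          apply one_div_le_one_div_of_le
          · apply mul_pos <;> linarith
          · nlinarith
        push_cast
        have h4 : (N : ℝ) + 1 - 1 = N := by ring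
        rw [h4]
        linarith
    rcases le_total n N with h | h
    · refine (key N h).trans ?_
      have hN1 : (0 : ℝ) ≤ (N : ℝ) - 1 := by
        have : (2 : ℝ) ≤ N := by exact_mod_cast hn.trans h
        linarith
      have : 0 ≤ 1 / ((N : ℝ) - 1) := by positivity
      linarith
    · rw [Finset.sum_eq_zero]
      · positivity
      · intro m hm
        rw [if_neg]
        rw [mem_range] at hm
        omega

/-! ### The set is free of progressions -/

theorem gpfree_Qset (hV1 : StmtV1) (hV2 : StmtV2) (k n : ℕ) (hk : 3 ≤ k) :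
    GPFree k (Qset k n) := by
  have hpos : ∀ m ∈ Qset k n, 0 < m := fun m hm => hm.1.1
  refine ⟨hpos, ?_⟩
  rw [hV1 k (Qset k n) hk hpos]
  rintro ⟨x, hxQ, hx01, hxx⟩
  have hxpos : ∀ i < k, 0 < x i := fun i hi => hpos _ (hxQ i hi)
  obtain ⟨hexp, -⟩ := hV2 k x hk hxpos hxx
  have heq : x 0 = x 1 := by
    apply Nat.eq_of_factorization_eq (hxpos 0 (by omega)).ne' (hxpos 1 (by omega)).ne'
    intro p
    by_cases hp : p.Prime
    · obtain ⟨c, d, hcd⟩ := hexp p
      have hb : ∀ i < k, 0 ≤ c + i * d ∧ c + i * d ≤ (k : ℤ) - 2 := by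
        intro i hi
        rw [← hcd i hi]
        refine ⟨by positivity, ?_⟩
        have h1 := (hxQ i hi).2 p hp
        have h2 : (x i).factorization p < k - 1 := by
          by_contra hcon
          push Not at hcon
          exact h1 ((hp.pow_dvd_iff_le_factorization (hxpos i hi).ne').2 hcon)
        omega
      have h0 := hb 0 (by omega)
      have h1 := hb (k - 1) (by omega)
      have hd : d = 0 := by
        rcases lt_trichotomy d 0 with hd | hd | hd
        · exfalso
          have : ((k - 1 : ℕ) : ℤ) * d ≤ ((k - 1 : ℕ) : ℤ) * (-1) :=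
            mul_le_mul_of_nonneg_left (by omega) (by positivity)
          push_cast [show 1 ≤ k by omega] at this h1 h0
          omega
        · exact hd
        · exfalso
          have : ((k - 1 : ℕ) : ℤ) * 1 ≤ ((k - 1 : ℕ) : ℤ) * d :=
            mul_le_mul_of_nonneg_left (by omega) (by positivity)
          push_cast [show 1 ≤ k by omega] at this h1 h0
          omega
      have e0 := hcd 0 (by omega)
      have e1 := hcd 1 (by omega)
      rw [hd] at e0 e1
      simp only [mul_zero, add_zero] at e0 e1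
      exact_mod_cast e0.trans e1.symm
    · rw [Nat.factorization_eq_zero_of_not_prime _ hp, Nat.factorization_eq_zero_of_not_prime _ hp]
  omega

/-! ### The density -/

/-- the rough numbers without a `K`-th power of a prime below `y` as divisor -/
def QY (K n y : ℕ) : Set ℕ := {m | Rough n m ∧ ∀ p : ℕ, p.Prime → p < y → ¬ p ^ K ∣ m}

/-- the finite version of `QY` -/
noncomputable def FY (K n y N : ℕ) : Finset ℕ :=
  open Classical in (Icc 1 N).filter (fun m => m ∈ QY K n y)

lemma mem_FY (K n y N m : ℕ) : m ∈ FY K n y N ↔ (1 ≤ m ∧ m ≤ N) ∧ m ∈ QY K n y := by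
  classical
  unfold FY
  rw [mem_filter, mem_Icc]

lemma count_QY (K n y N : ℕ) : count (QY K n y) N = (FY K n y N).card := by
  unfold count
  rw [← Set.ncard_coe_finset]
  congr 1
  ext m
  simp only [Set.mem_inter_iff, Set.mem_Icc, mem_coe, mem_FY]
  tauto

/-- the densities -/
noncomputable def DY (K n : ℕ) : ℕ → ℝ
  | 0 => delta n
  | y + 1 => open Classical in if y.Prime ∧ n ≤ y then DY K n y * (1 - 1 / (y : ℝ) ^ K) else DY K n y

lemma QY_zero (K n : ℕ) : QY K n 0 = {m | Rough n m} := by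
  ext m
  unfold QY
  simp

lemma QY_succ_of_not (K n y : ℕ) (hK : 0 < K) (h : ¬ (y.Prime ∧ n ≤ y)) :
    QY K n (y + 1) = QY K n y := by
  ext m
  unfold QY
  simp only [Set.mem_ofPred_eq]
  refine and_congr_right (fun hm => ?_)
  constructor
  · intro h1 p hp hpy
    exact h1 p hp (by omega)
  · intro h1 p hp hpy hdvd
    rcases Nat.lt_succ_iff_lt_or_eq.1 hpy with h2 | h2
    · exact h1 p hp h2 hdvd
    · subst h2
      have h3 : n ≤ p := hm.2 p hp ((dvd_pow_self p hK.ne').trans hdvd)
      exact h ⟨hp, h3⟩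

lemma FY_succ (K n y N : ℕ) (_hK : 0 < K) (hy : y.Prime) (hny : n ≤ y) :
    (FY K n (y + 1) N).card + (FY K n y (N / y ^ K)).card = (FY K n y N).card := by
  classical
  have hyK : 0 < y ^ K := pow_pos hy.pos _
  have himg : ((FY K n y (N / y ^ K)).image (fun m => y ^ K * m)).card =
      (FY K n y (N / y ^ K)).card :=
    card_image_of_injective _ (fun a b h => Nat.eq_of_mul_eq_mul_left hyK h)
  rw [← himg, ← card_union_of_disjoint]
  · congr 1
    ext m
    rw [mem_union, mem_FY, mem_FY, mem_image]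
    constructor
    · rintro (⟨h1, h2, h3⟩ | ⟨a, ha, rfl⟩)
      · exact ⟨h1, h2, fun p hp hpy => h3 p hp (by omega)⟩
      · rw [mem_FY] at ha
        obtain ⟨⟨ha1, ha2⟩, ha3, ha4⟩ := ha
        refine ⟨⟨Nat.mul_pos hyK ha1, ?_⟩, ⟨Nat.mul_pos hyK ha1, ?_⟩, ?_⟩
        · rw [Nat.le_div_iff_mul_le hyK] at ha2
          linarith [mul_comm a (y ^ K)]
        · intro p hp hdvd
          rcases (Nat.Prime.dvd_mul hp).1 hdvd with h | h
          · have := hp.dvd_of_dvd_pow h
            rw [Nat.prime_dvd_prime_iff_eq hp hy] at this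
            omega
          · exact ha3.2 p hp h
        · intro p hp hpy hdvd
          apply ha4 p hp hpy
          apply Nat.Coprime.dvd_of_dvd_mul_left _ hdvd
          apply Nat.Coprime.pow
          exact (Nat.coprime_primes hp hy).2 (by omega)
    · rintro ⟨h1, h2, h3⟩
      by_cases hd : y ^ K ∣ m
      · right
        obtain ⟨a, rfl⟩ := hd
        have ha : 0 < a := Nat.pos_of_mul_pos_left (by omega : 0 < y ^ K * a)
        refine ⟨a, ?_, rfl⟩
        rw [mem_FY]
        refine ⟨⟨ha, ?_⟩, ⟨ha, ?_⟩, ?_⟩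
        · rw [Nat.le_div_iff_mul_le hyK]
          linarith [h1.2, mul_comm a (y ^ K)]
        · intro p hp hpa
          exact h2.2 p hp (Dvd.dvd.mul_left hpa _)
        · intro p hp hpy hpa
          exact h3 p hp hpy (Dvd.dvd.mul_left hpa _)
      · left
        refine ⟨h1, h2, ?_⟩
        intro p hp hpy
        rcases Nat.lt_succ_iff_lt_or_eq.1 hpy with h4 | h4
        · exact h3 p hp h4
        · rw [h4]; exact hd
  · rw [Finset.disjoint_left]
    intro m hm hm'
    rw [mem_FY] at hm
    rw [mem_image] at hm'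
    obtain ⟨a, -, rfl⟩ := hm'
    exact hm.2.2 y hy (by omega) (Dvd.intro _ rfl)

lemma delta_nonneg' (n : ℕ) : 0 ≤ delta n := by
  unfold delta
  apply prod_nonneg
  intro p hp
  have hp2 := (Nat.prime_of_mem_primesBelow hp).two_le
  have : (2 : ℝ) ≤ p := by exact_mod_cast hp2
  have h1 : 1 / (p : ℝ) ≤ 1 := by
    rw [div_le_one (by linarith)]
    linarith
  linarith

lemma inv_pow_le_one (y K : ℕ) (hy : 1 ≤ y) : 1 / (y : ℝ) ^ K ≤ 1 := by
  have h1 : (1 : ℝ) ≤ (y : ℝ) ^ K := one_le_pow₀ (by exact_mod_cast hy)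
  rw [div_le_one (by linarith)]
  exact h1

lemma DY_nonneg (K n y : ℕ) : 0 ≤ DY K n y := by
  induction y with
  | zero => exact delta_nonneg' n
  | succ y ih =>
    unfold DY
    split_ifs with h
    · apply mul_nonneg ih
      have := inv_pow_le_one y K h.1.one_le
      linarith
    · exact ih

lemma DY_succ_le (K n y : ℕ) : DY K n (y + 1) ≤ DY K n y := by
  have h0 := DY_nonneg K n y
  conv_lhs => unfold DY
  split_ifs with h
  · have h1 : 0 ≤ 1 / (y : ℝ) ^ K := by positivity
    nlinarith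
  · exact le_rfl

lemma DY_antitone (K n : ℕ) : Antitone (DY K n) := antitone_nat_of_succ_le (DY_succ_le K n)

lemma DY_lower (K n y : ℕ) : delta n * (1 - ∑ m ∈ range y, (if n ≤ m then 1 / (m : ℝ) ^ K else 0)) ≤
    DY K n y := by
  induction y with
  | zero => simp [DY]
  | succ y ih =>
    have h0 := DY_nonneg K n y
    have hd := delta_nonneg' n
    have hle : DY K n y ≤ delta n := DY_antitone K n (Nat.zero_le y)
    conv_rhs => unfold DY
    rw [sum_range_succ]
    have h1 : 0 ≤ 1 / (y : ℝ) ^ K := by positivity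
    by_cases h : y.Prime ∧ n ≤ y
    · rw [if_pos h, if_pos h.2]
      have := mul_le_mul_of_nonneg_right hle h1
      linarith
    · rw [if_neg h]
      split_ifs with h'
      · have := mul_nonneg hd h1
        linarith
      · linarith

lemma count_err (hR : StmtR) (K n y : ℕ) (hK : 0 < K) :
    ∃ C : ℝ, ∀ N : ℕ, |(count (QY K n y) N : ℝ) - DY K n y * N| ≤ C := by
  induction y with
  | zero =>
    rw [QY_zero]
    exact hR n
  | succ y ih =>
    obtain ⟨C, hC⟩ := ih
    by_cases h : y.Prime ∧ n ≤ y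
    · refine ⟨2 * C + DY K n y, fun N => ?_⟩
      have hD := DY_nonneg K n y
      have e1 : DY K n (y + 1) = DY K n y * (1 - 1 / (y : ℝ) ^ K) := by
        conv_lhs => unfold DY
        rw [if_pos h]
      have e2 := FY_succ K n y N hK h.1 h.2
      rw [← count_QY, ← count_QY, ← count_QY] at e2
      have e3 : (count (QY K n (y + 1)) N : ℝ) = count (QY K n y) N -
          count (QY K n y) (N / y ^ K) := by
        have : ((count (QY K n (y + 1)) N + count (QY K n y) (N / y ^ K) : ℕ) : ℝ) =
          (count (QY K n y) N : ℕ) := by rw [e2]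
        push_cast at this
        linarith
      have c1 := hC N
      have c2 := hC (N / y ^ K)
      have hyK : (0 : ℝ) < (y : ℝ) ^ K := pow_pos (by exact_mod_cast h.1.pos) _
      have f1 : ((N / y ^ K : ℕ) : ℝ) ≤ (N : ℝ) / (y : ℝ) ^ K := by
        have := @Nat.cast_div_le ℝ _ _ _ N (y ^ K)
        push_cast at this
        exact this
      have f2 : (N : ℝ) / (y : ℝ) ^ K - 1 ≤ ((N / y ^ K : ℕ) : ℝ) := by
        have h1 : N < (N / y ^ K + 1) * y ^ K := by
          have := Nat.lt_div_mul_add (a := N) (pow_pos h.1.pos K)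
          linarith
        have h2 : (N : ℝ) < ((N / y ^ K : ℕ) + 1) * (y : ℝ) ^ K := by exact_mod_cast h1
        have h3 : (N : ℝ) / (y : ℝ) ^ K < ((N / y ^ K : ℕ) : ℝ) + 1 := by
          rw [div_lt_iff₀ hyK]
          exact h2
        linarith
      have g1 : DY K n y * ((N / y ^ K : ℕ) : ℝ) ≤ DY K n y * ((N : ℝ) / (y : ℝ) ^ K) :=
        mul_le_mul_of_nonneg_left f1 hD
      have g2 : DY K n y * ((N : ℝ) / (y : ℝ) ^ K - 1) ≤ DY K n y * ((N / y ^ K : ℕ) : ℝ) :=
        mul_le_mul_of_nonneg_left f2 hD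
      rw [e1, e3]
      rw [abs_le] at c1 c2 ⊢
      have e4 : DY K n y * (1 - 1 / (y : ℝ) ^ K) * N =
          DY K n y * N - DY K n y * ((N : ℝ) / (y : ℝ) ^ K) := by ring
      rw [e4]
      constructor <;> linarith [c1.1, c1.2, c2.1, c2.2]
    · refine ⟨C, fun N => ?_⟩
      rw [QY_succ_of_not K n y hK h]
      have e1 : DY K n (y + 1) = DY K n y := by
        conv_lhs => unfold DY
        rw [if_neg h]
      rw [e1]
      exact hC N

/-- the finite version of `Qset` -/
noncomputable def FQ (k n N : ℕ) : Finset ℕ :=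
  open Classical in (Icc 1 N).filter (fun m => m ∈ Qset k n)

lemma mem_FQ (k n N m : ℕ) : m ∈ FQ k n N ↔ (1 ≤ m ∧ m ≤ N) ∧ m ∈ Qset k n := by
  classical
  unfold FQ
  rw [mem_filter, mem_Icc]

lemma count_Qset (k n N : ℕ) : count (Qset k n) N = (FQ k n N).card := by
  unfold count
  rw [← Set.ncard_coe_finset]
  congr 1
  ext m
  simp only [Set.mem_inter_iff, Set.mem_Icc, mem_coe, mem_FQ]
  tauto

lemma FQ_subset (k n y N : ℕ) : FQ k n N ⊆ FY (k - 1) n y N := by
  intro m hm
  rw [mem_FQ] at hm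
  rw [mem_FY]
  exact ⟨hm.1, hm.2.1, fun p hp _ => hm.2.2 p hp⟩

lemma FY_card_le (k n y N : ℕ) (hk : 3 ≤ k) : ((FY (k - 1) n y N).card : ℝ) ≤
    (FQ k n N).card + N * ∑' m : ℕ, (if y ≤ m then 1 / (m : ℝ) ^ (k - 1) else 0) := by
  classical
  have hsub : FY (k - 1) n y N ⊆ FQ k n N ∪
      (Ico y (N + 1)).biUnion (fun p => (Ioc 0 N).filter (fun m => p ^ (k - 1) ∣ m)) := by
    intro m hm
    rw [mem_FY] at hm
    rw [mem_union]
    by_cases hQ : m ∈ Qset k n
    · left
      rw [mem_FQ]
      exact ⟨hm.1, hQ⟩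
    · right
      have : ∃ p : ℕ, p.Prime ∧ p ^ (k - 1) ∣ m := by
        by_contra hcon
        push Not at hcon
        exact hQ ⟨hm.2.1, hcon⟩
      obtain ⟨p, hp, hpm⟩ := this
      rw [mem_biUnion]
      refine ⟨p, ?_, ?_⟩
      · rw [mem_Ico]
        constructor
        · by_contra hlt
          exact hm.2.2 p hp (by omega) hpm
        · have h1 : p ^ (k - 1) ≤ m := Nat.le_of_dvd (by omega) hpm
          have h2 : p ≤ p ^ (k - 1) := Nat.le_self_pow (by omega) p
          omega
      · rw [mem_filter, mem_Ioc]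
        exact ⟨⟨by omega, hm.1.2⟩, hpm⟩
  have h1 : (FY (k - 1) n y N).card ≤ (FQ k n N).card +
      ∑ p ∈ Ico y (N + 1), N / p ^ (k - 1) := by
    refine (card_le_card hsub).trans ((card_union_le _ _).trans ?_)
    apply Nat.add_le_add_left
    refine card_biUnion_le.trans ?_
    apply sum_le_sum
    intro p _
    rw [Nat.Ioc_filter_dvd_card_eq_div]
  have h2 : ((∑ p ∈ Ico y (N + 1), N / p ^ (k - 1) : ℕ) : ℝ) ≤
      N * ∑' m : ℕ, (if y ≤ m then 1 / (m : ℝ) ^ (k - 1) else 0) := by
    have hs : Summable (fun m : ℕ => (if y ≤ m then 1 / (m : ℝ) ^ (k - 1) else 0)) := by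
      refine Summable.of_nonneg_of_le (fun m => ?_) (fun m => ?_)
        (Real.summable_one_div_nat_pow.2 (by omega : 1 < k - 1))
      · split_ifs <;> positivity
      · split_ifs
        · exact le_rfl
        · positivity
    have h3 : ∑ p ∈ Ico y (N + 1), 1 / (p : ℝ) ^ (k - 1) ≤
        ∑' m : ℕ, (if y ≤ m then 1 / (m : ℝ) ^ (k - 1) else 0) := by
      have h4 : ∑ p ∈ Ico y (N + 1), 1 / (p : ℝ) ^ (k - 1) =
          ∑ p ∈ Ico y (N + 1), (if y ≤ p then 1 / (p : ℝ) ^ (k - 1) else 0) := by
        apply sum_congr rfl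
        intro p hp
        rw [if_pos (mem_Ico.1 hp).1]
      rw [h4]
      apply hs.sum_le_tsum
      intro m _
      split_ifs <;> positivity
    rw [Nat.cast_sum]
    calc ∑ p ∈ Ico y (N + 1), ((N / p ^ (k - 1) : ℕ) : ℝ)
        ≤ ∑ p ∈ Ico y (N + 1), (N : ℝ) * (1 / (p : ℝ) ^ (k - 1)) := by
          apply sum_le_sum
          intro p _
          have := @Nat.cast_div_le ℝ _ _ _ N (p ^ (k - 1))
          push_cast at this
          rw [mul_one_div]
          exact this
      _ = (N : ℝ) * ∑ p ∈ Ico y (N + 1), (1 / (p : ℝ) ^ (k - 1)) := by rw [mul_sum]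
      _ ≤ _ := mul_le_mul_of_nonneg_left h3 (by positivity)
  have h5 : ((FY (k - 1) n y N).card : ℝ) ≤ (FQ k n N).card +
      ((∑ p ∈ Ico y (N + 1), N / p ^ (k - 1) : ℕ) : ℝ) := by exact_mod_cast h1
  linarith

theorem stmtQ (hR : StmtR) (hV1 : StmtV1) (hV2 : StmtV2) : StmtQ := by
  intro k n hk hn
  refine ⟨gpfree_Qset hV1 hV2 k n hk, ?_⟩
  have hK : 0 < k - 1 := by omega
  have hbdd : BddBelow (Set.range (DY (k - 1) n)) := ⟨0, by
    rintro _ ⟨y, rfl⟩
    exact DY_nonneg _ _ _⟩
  have hs : Summable (fun m : ℕ => (if n ≤ m then 1 / (m : ℝ) ^ (k - 1) else 0)) := by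
    refine Summable.of_nonneg_of_le (fun m => ?_) (fun m => ?_)
      (Real.summable_one_div_nat_pow.2 (by omega : 1 < k - 1))
    · split_ifs <;> positivity
    · split_ifs
      · exact le_rfl
      · positivity
  refine ⟨⨅ y, DY (k - 1) n y, ?_, ?_, ?_⟩
  · unfold HasDensity
    rw [Metric.tendsto_atTop]
    intro ε hε
    -- choose y
    have t1 : Tendsto (DY (k - 1) n) atTop (𝓝 (⨅ y, DY (k - 1) n y)) :=
      tendsto_atTop_ciInf (DY_antitone _ _) hbdd
    have t2 : ∀ᶠ y in atTop, DY (k - 1) n y < (⨅ y, DY (k - 1) n y) + ε / 2 :=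
      (tendsto_order.1 t1).2 _ (by linarith)
    have t3 : ∀ᶠ y : ℕ in atTop, 1 / ((y : ℝ) - 1) < ε / 2 := by
      have : Tendsto (fun y : ℕ => 1 / ((y : ℝ) - 1)) atTop (𝓝 0) := by
        have h1 : Tendsto (fun y : ℕ => (y : ℝ) - 1) atTop atTop :=
          tendsto_atTop_add_const_right _ _ tendsto_natCast_atTop_atTop
        simpa [Function.comp_def, one_div] using tendsto_inv_atTop_zero.comp h1
      exact (tendsto_order.1 this).2 _ (by linarith)
    obtain ⟨y, hy1, hy2, hy3⟩ := (t2.and (t3.and (eventually_ge_atTop 2))).exists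
    obtain ⟨C, hC⟩ := count_err hR (k - 1) n y hK
    obtain ⟨N0, hN0⟩ := exists_nat_gt (2 * C / ε)
    refine ⟨N0 + 1, fun N hN => ?_⟩
    have hNpos : (0 : ℝ) < N := by
      have : 0 < N := by omega
      exact_mod_cast this
    have hCN : C < ε / 2 * N := by
      have h1 : (N0 : ℝ) < N := by exact_mod_cast (by omega : N0 < N)
      have h2 : 2 * C / ε < N := hN0.trans h1
      rw [div_lt_iff₀ hε] at h2
      linarith
    have hcN := hC N
    rw [abs_le] at hcN
    have htail : ∑' m : ℕ, (if y ≤ m then 1 / (m : ℝ) ^ (k - 1) else 0) ≤ 1 / ((y : ℝ) - 1) :=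
      stmtQt k y hk hy3
    have hup : (count (Qset k n) N : ℝ) ≤ count (QY (k - 1) n y) N := by
      rw [count_Qset, count_QY]
      exact_mod_cast card_le_card (FQ_subset k n y N)
    have hlow : (count (QY (k - 1) n y) N : ℝ) ≤ count (Qset k n) N + N * (ε / 2) := by
      rw [count_Qset, count_QY]
      refine (FY_card_le k n y N hk).trans ?_
      have : (N : ℝ) * ∑' m : ℕ, (if y ≤ m then 1 / (m : ℝ) ^ (k - 1) else 0) ≤ N * (ε / 2) :=
        mul_le_mul_of_nonneg_left (by linarith) hNpos.le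
      linarith
    have hinf : (⨅ y, DY (k - 1) n y) ≤ DY (k - 1) n y := ciInf_le hbdd y
    rw [Real.dist_eq, abs_lt]
    have e1 : (⨅ y, DY (k - 1) n y) * N ≤ DY (k - 1) n y * N :=
      mul_le_mul_of_nonneg_right hinf hNpos.le
    have e2 : DY (k - 1) n y * N ≤ ((⨅ y, DY (k - 1) n y) + ε / 2) * N :=
      mul_le_mul_of_nonneg_right hy1.le hNpos.le
    constructor
    · have : ((⨅ y, DY (k - 1) n y) - ε) * N < count (Qset k n) N := by linarith [hcN.1]
      have h1 : (⨅ y, DY (k - 1) n y) - ε < (count (Qset k n) N : ℝ) / N := by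
        rw [lt_div_iff₀ hNpos]
        exact this
      linarith
    · have : (count (Qset k n) N : ℝ) < ((⨅ y, DY (k - 1) n y) + ε) * N := by linarith [hcN.2]
      have h1 : (count (Qset k n) N : ℝ) / N < (⨅ y, DY (k - 1) n y) + ε := by
        rw [div_lt_iff₀ hNpos]
        exact this
      linarith
  · apply le_ciInf
    intro y
    refine le_trans ?_ (DY_lower (k - 1) n y)
    apply mul_le_mul_of_nonneg_left _ (delta_nonneg' n)
    have : ∑ m ∈ range y, (if n ≤ m then 1 / (m : ℝ) ^ (k - 1) else 0) ≤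
        ∑' m : ℕ, (if n ≤ m then 1 / (m : ℝ) ^ (k - 1) else 0) := by
      apply hs.sum_le_tsum
      intro m _
      split_ifs <;> positivity
    linarith
  · exact ciInf_le hbdd 0

end GeoProg
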