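import Pool.Agent.Helper7.GeoProg.Stmts

/-!
# MP_f5ac68_nt, packet 6: upper bounds through the fibres
-/

namespace GeoProg

open Filter Topology Finset

theorem gpfree_mono {k : ℕ} {A B : Set ℕ} (h : A ⊆ B) (hB : GPFree k B) : GPFree k A := by
  refine ⟨fun m hm => hB.1 m (h hm), fun ⟨a, q, ha, hq, hi⟩ => hB.2 ⟨a, q, ha, hq, ?_⟩⟩
  intro i hik
  obtain ⟨m, hm, hm'⟩ := hi i hik
  exact ⟨m, h hm, hm'⟩

/-- If the multiples `b * m`, `b ∈ B`, are in a `GPF_k` set then `B` is in `GPF_k`. -/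
theorem gpfree_of_mul {k m : ℕ} {A B : Set ℕ} (hm : 0 < m) (hA : GPFree k A)
    (h : ∀ b ∈ B, b * m ∈ A) : GPFree k B := by
  refine ⟨fun b hb => ?_, fun ⟨a, q, ha, hq, hi⟩ => hA.2 ⟨a * m, q, Nat.mul_pos ha hm, hq, ?_⟩⟩
  · have := hA.1 _ (h b hb)
    exact Nat.pos_of_mul_pos_right this
  · intro i hik
    obtain ⟨b, hb, hb'⟩ := hi i hik
    refine ⟨b * m, h b hb, ?_⟩
    push_cast
    rw [hb']
    ring

/-- The fibres of a finite set over the rough numbers. -/
theorem fibres (hD1 : StmtD1) (k n N : ℕ) (A : Set ℕ) (hA : GPFree k A) :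
    ∃ (T : Finset ℕ) (s m : ℕ → ℕ), (∀ x, x ∈ T ↔ x ∈ Finset.Icc 1 N ∧ x ∈ A) ∧
      (∀ x ∈ T, m x ∈ Finset.Icc 1 N) ∧ (∀ x ∈ T, Rough n (m x)) ∧
      (∀ x ∈ T, x = s x * m x) ∧
      (∀ r, Set.InjOn s {x | x ∈ T ∧ m x = r}) ∧
      (∀ r, SmoothFin n ((T.filter (fun x => m x = r)).image s)) ∧
      (∀ r, GPFree k (((T.filter (fun x => m x = r)).image s : Finset ℕ) : Set ℕ)) ∧
      (∀ r, ∀ b ∈ (T.filter (fun x => m x = r)).image s, b ≤ N / r) := by
  classical
  have hch : ∀ x : ℕ, ∃ s m : ℕ, 0 < x → s ∈ Nat.smoothNumbers n ∧ Rough n m ∧ x = s * m := by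
    intro x
    by_cases hx : 0 < x
    · obtain ⟨s, m, h⟩ := (hD1 n).1 x hx
      exact ⟨s, m, fun _ => h⟩
    · exact ⟨0, 0, fun h => absurd h hx⟩
  choose s m hsm using hch
  obtain ⟨T, hT⟩ : ∃ T : Finset ℕ, ∀ x, x ∈ T ↔ x ∈ Finset.Icc 1 N ∧ x ∈ A :=
    ⟨(Finset.Icc 1 N).filter (fun x => x ∈ A), fun x => by rw [Finset.mem_filter]⟩
  have hpos : ∀ x ∈ T, 0 < x := fun x hx => by
    have := (Finset.mem_Icc.mp ((hT x).mp hx).1).1
    omega
  have hs : ∀ x ∈ T, s x ∈ Nat.smoothNumbers n := fun x hx => (hsm x (hpos x hx)).1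
  have hspos : ∀ x ∈ T, 0 < s x := fun x hx =>
    Nat.pos_of_ne_zero (Nat.ne_zero_of_mem_smoothNumbers (hs x hx))
  have hm : ∀ x ∈ T, Rough n (m x) := fun x hx => (hsm x (hpos x hx)).2.1
  have hx : ∀ x ∈ T, x = s x * m x := fun x hx => (hsm x (hpos x hx)).2.2
  refine ⟨T, s, m, hT, ?_, hm, hx, ?_, ?_, ?_, ?_⟩
  · intro x hxT
    rw [Finset.mem_Icc]
    refine ⟨(hm x hxT).1, ?_⟩
    have h1 := (Finset.mem_Icc.mp ((hT x).mp hxT).1).2
    have h2 := hx x hxT
    have h3 := hspos x hxT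
    calc m x ≤ s x * m x := Nat.le_mul_of_pos_left _ h3
      _ ≤ N := by rw [← h2]; exact h1
  · rintro r x ⟨hxT, hxr⟩ y ⟨hyT, hyr⟩ hxy
    rw [hx x hxT, hx y hyT, hxy, hxr, hyr]
  · intro r b hb
    obtain ⟨x, hxf, rfl⟩ := Finset.mem_image.mp hb
    exact hs x (Finset.mem_filter.mp hxf).1
  · intro r
    by_cases hr : 0 < r
    · refine gpfree_of_mul hr hA ?_
      intro b hb
      obtain ⟨x, hxf, rfl⟩ := Finset.mem_image.mp (Finset.mem_coe.mp hb)
      obtain ⟨hxT, hxr⟩ := Finset.mem_filter.mp hxf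
      rw [← hxr, ← hx x hxT]
      exact ((hT x).mp hxT).2
    · have hempty : T.filter (fun x => m x = r) = ∅ := by
        rw [Finset.filter_eq_empty_iff]
        intro x hxT hxr
        have := (hm x hxT).1
        omega
      rw [hempty]
      exact gpfree_mono (by simp) hA
  · intro r b hb
    obtain ⟨x, hxf, rfl⟩ := Finset.mem_image.mp hb
    obtain ⟨hxT, hxr⟩ := Finset.mem_filter.mp hxf
    have hrpos : 0 < r := by rw [← hxr]; exact (hm x hxT).1
    rw [Nat.le_div_iff_mul_le hrpos, ← hxr, ← hx x hxT]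
    exact (Finset.mem_Icc.mp ((hT x).mp hxT).1).2

/-- Packet U1. -/
theorem stmtU1 (hD1 : StmtD1) : StmtU1 := by
  classical
  intro k n H A _ hA hH N
  obtain ⟨T, s, m, hT, hmN, hmr, hx, hinj, hsm, hgp, _⟩ := fibres hD1 k n N A hA
  have h1 : harm A N = ∑ x ∈ T, (1 : ℝ) / x := by
    unfold harm
    rw [← Finset.sum_filter_add_sum_filter_not (Finset.Icc 1 N) (fun x => x ∈ A)]
    have h2 : ∑ x ∈ (Finset.Icc 1 N).filter (fun x => ¬ x ∈ A),
        A.indicator (fun a : ℕ => (1 : ℝ) / a) x = 0 :=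
      Finset.sum_eq_zero fun x hx => Set.indicator_of_notMem (Finset.mem_filter.mp hx).2 _
    rw [h2, add_zero]
    have h3 : (Finset.Icc 1 N).filter (fun x => x ∈ A) = T := by
      ext x; rw [Finset.mem_filter, hT x]
    rw [h3]
    exact Finset.sum_congr rfl fun x hx => Set.indicator_of_mem ((hT x).mp hx).2 _
  have h2 : ∑ x ∈ T, (1 : ℝ) / x =
      ∑ r ∈ Finset.Icc 1 N, ∑ x ∈ T.filter (fun x => m x = r), (1 : ℝ) / x :=
    (Finset.sum_fiberwise_of_maps_to hmN _).symm
  rw [h1, h2]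
  unfold harm
  rw [Finset.mul_sum]
  refine Finset.sum_le_sum fun r hr => ?_
  by_cases hrr : Rough n r
  · rw [Set.indicator_of_mem (show r ∈ {m | Rough n m} from hrr)]
    have hrpos : (0 : ℝ) < r := by exact_mod_cast hrr.1
    have h3 : ∑ x ∈ T.filter (fun x => m x = r), (1 : ℝ) / x =
        hsum ((T.filter (fun x => m x = r)).image s) * (1 / (r : ℝ)) := by
      unfold hsum
      rw [Finset.sum_image, Finset.sum_mul]
      · refine Finset.sum_congr rfl fun x hxf => ?_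
        obtain ⟨hxT, hxr⟩ := Finset.mem_filter.mp hxf
        have h4 : (x : ℝ) = s x * r := by
          have := hx x hxT
          rw [hxr] at this
          exact_mod_cast this
        rw [h4, one_div_mul_one_div]
      · intro x hxf y hyf hxy
        exact hinj r (by simpa using hxf) (by simpa using hyf) hxy
    rw [h3]
    exact mul_le_mul_of_nonneg_right (hH _ (hsm r) (hgp r)) (by positivity)
  · rw [Set.indicator_of_notMem (show r ∉ {m | Rough n m} from hrr), mul_zero]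
    have hempty : T.filter (fun x => m x = r) = ∅ := by
      rw [Finset.filter_eq_empty_iff]
      intro x hxT hxr
      exact hrr (hxr ▸ hmr x hxT)
    rw [hempty, Finset.sum_empty]

/-- Packet U2. -/
theorem stmtU2 (hD1 : StmtD1) : StmtU2 := by
  classical
  intro k n f A _ hA hf N
  obtain ⟨T, s, m, hT, hmN, hmr, hx, hinj, hsm, hgp, hle⟩ := fibres hD1 k n N A hA
  have h1 : count A N = T.card := by
    unfold count
    rw [← Set.ncard_coe_finset]
    congr 1
    ext x
    simp only [Set.mem_inter_iff, Set.mem_Icc, Finset.mem_coe, hT x, Finset.mem_Icc]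
    tauto
  have h2 : T.card = ∑ r ∈ Finset.Icc 1 N, (T.filter (fun x => m x = r)).card :=
    Finset.card_eq_sum_card_fiberwise hmN
  rw [h1, h2]
  push_cast
  refine Finset.sum_le_sum fun r hr => ?_
  by_cases hrr : Rough n r
  · rw [Set.indicator_of_mem (show r ∈ {m | Rough n m} from hrr)]
    have h3 : (T.filter (fun x => m x = r)).card = ((T.filter (fun x => m x = r)).image s).card := by
      rw [Finset.card_image_of_injOn]
      intro x hxf y hyf hxy
      exact hinj r (by simpa using hxf) (by simpa using hyf) hxy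
    rw [h3]
    exact_mod_cast hf (N / r) _ (hsm r) (hle r) (hgp r)
  · rw [Set.indicator_of_notMem (show r ∉ {m | Rough n m} from hrr)]
    have hempty : T.filter (fun x => m x = r) = ∅ := by
      rw [Finset.filter_eq_empty_iff]
      intro x hxT hxr
      exact hrr (hxr ▸ hmr x hxT)
    rw [hempty, Finset.card_empty, Nat.cast_zero]

end GeoProg
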