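import Pool.Agent.Helper7.GeoProg.Defs

/-!
# MP_f5ac68_nt: the statements of the packets
-/

namespace GeoProg

open Filter Topology

/-! ## V: progressions as integer sequences -/

/-- [V1] A set of positive integers contains a `k`-term progression iff it contains an integer
sequence with `x i * x (i+2) = x (i+1)^2` and `x 0 < x 1`. -/
def StmtV1 : Prop := ∀ (k : ℕ) (A : Set ℕ), 3 ≤ k → (∀ m ∈ A, 0 < m) →
  (HasGP k A ↔ ∃ x : ℕ → ℕ, (∀ i < k, x i ∈ A) ∧ x 0 < x 1 ∧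
    ∀ i, i + 2 < k → x i * x (i + 2) = x (i + 1) ^ 2)

/-- [V2] Prime exponents along such a sequence form an arithmetic progression, and the sequence
is strictly increasing as soon as `x 0 < x 1`. -/
def StmtV2 : Prop := ∀ (k : ℕ) (x : ℕ → ℕ), 3 ≤ k → (∀ i < k, 0 < x i) →
  (∀ i, i + 2 < k → x i * x (i + 2) = x (i + 1) ^ 2) →
  ((∀ p : ℕ, ∃ c d : ℤ, ∀ i < k, ((x i).factorization p : ℤ) = c + i * d) ∧
   (x 0 < x 1 → ∀ i j, i < j → j < k → x i < x j))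

/-- [V3] In a `GPF_k` set such a sequence is constant (also the decreasing ones are excluded). -/
def StmtV3 : Prop := ∀ (k : ℕ) (A : Set ℕ) (x : ℕ → ℕ), 3 ≤ k → GPFree k A →
  (∀ i < k, x i ∈ A) → (∀ i, i + 2 < k → x i * x (i + 2) = x (i + 1) ^ 2) →
  ∀ i < k, x i = x 0

/-! ## D: the decomposition into smooth and rough part -/

/-- [D1] existence and uniqueness of `N = s * m`, `s` `n`-smooth, `m` `n`-rough. -/
def StmtD1 : Prop := ∀ n : ℕ,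
  (∀ N : ℕ, 0 < N → ∃ s m : ℕ, s ∈ Nat.smoothNumbers n ∧ Rough n m ∧ N = s * m) ∧
  (∀ s s' m m' : ℕ, s ∈ Nat.smoothNumbers n → s' ∈ Nat.smoothNumbers n → Rough n m →
    Rough n m' → s * m = s' * m' → s = s' ∧ m = m')

/-- [D2] A set fibred over a `GPF_k` set of rough numbers with `GPF_k` fibres of smooth numbers
is in `GPF_k`. -/
def StmtD2 : Prop := ∀ (k n : ℕ) (Q : Set ℕ) (B : ℕ → Set ℕ), 3 ≤ k → GPFree k Q →
  (∀ m ∈ Q, Rough n m) →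
  (∀ m ∈ Q, GPFree k (B m) ∧ ∀ s ∈ B m, s ∈ Nat.smoothNumbers n) →
  GPFree k {x | ∃ m ∈ Q, ∃ s ∈ B m, x = s * m}

/-! ## R, L, Q, S: counting rough numbers, logarithmic density, power-free rough numbers -/

/-- [R] The `n`-rough numbers have density `delta n`, with bounded error. -/
def StmtR : Prop := ∀ n : ℕ, ∃ C : ℝ, ∀ N : ℕ,
  |(count {m | Rough n m} N : ℝ) - delta n * N| ≤ C

/-- [L] Density implies logarithmic density. -/
def StmtL : Prop := ∀ (A : Set ℕ) (d : ℝ), HasDensity A d →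
  Tendsto (fun N : ℕ => harm A N / Real.log N) atTop (𝓝 d)

/-- [Q] The set `Qset k n` is in `GPF_k` and has a density close to `delta n`. -/
def StmtQ : Prop := ∀ k n : ℕ, 3 ≤ k → 2 ≤ n → GPFree k (Qset k n) ∧
  ∃ D : ℝ, HasDensity (Qset k n) D ∧
    delta n * (1 - ∑' m : ℕ, (if n ≤ m then 1 / (m : ℝ) ^ (k - 1) else 0)) ≤ D ∧ D ≤ delta n

/-- [Q'] the tail bound. -/
def StmtQt : Prop := ∀ k n : ℕ, 3 ≤ k → 2 ≤ n →
  ∑' m : ℕ, (if n ≤ m then 1 / (m : ℝ) ^ (k - 1) else 0) ≤ 1 / ((n : ℝ) - 1)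

/-- [S] The reciprocals of the smooth numbers. -/
def StmtS : Prop := ∀ n : ℕ, 0 < delta n ∧ delta n ≤ 1 ∧
  HasSum (fun s : ℕ => (Nat.smoothNumbers n).indicator (fun s : ℕ => 1 / (s : ℝ)) s) (delta n)⁻¹

/-- [Dl] An elementary lower bound for `delta n`. -/
def StmtDl : Prop := ∀ n : ℕ, 1 ≤ n → 1 / (2 * Real.sqrt n) ≤ delta n

/-! ## U: upper bounds through the fibres -/

/-- [U1] Harmonic sums. -/
def StmtU1 : Prop := ∀ (k n : ℕ) (H : ℝ) (A : Set ℕ), 3 ≤ k → GPFree k A →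
  (∀ B : Finset ℕ, SmoothFin n B → GPFree k (B : Set ℕ) → hsum B ≤ H) →
  ∀ N : ℕ, harm A N ≤ H * harm {m | Rough n m} N

/-- [U2] Counting. -/
def StmtU2 : Prop := ∀ (k n : ℕ) (f : ℕ → ℕ) (A : Set ℕ), 3 ≤ k → GPFree k A →
  (∀ (j : ℕ) (B : Finset ℕ), SmoothFin n B → (∀ b ∈ B, b ≤ j) → GPFree k (B : Set ℕ) →
    B.card ≤ f j) →
  ∀ N : ℕ, (count A N : ℝ) ≤
    ∑ m ∈ Finset.Icc 1 N, {m | Rough n m}.indicator (fun m : ℕ => (f (N / m) : ℝ)) m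

/-! ## B: lower bounds -/

/-- [B1] Sets with a density. -/
def StmtB1 : Prop := ∀ (k n : ℕ) (Q : Set ℕ) (D : ℝ) (B : Finset ℕ), 3 ≤ k → GPFree k Q →
  (∀ m ∈ Q, Rough n m) → HasDensity Q D → SmoothFin n B → GPFree k (B : Set ℕ) →
  ∃ A : Set ℕ, GPFree k A ∧ HasDensity A (D * hsum B)

/-- [B2] Finite sets adapted to one scale. -/
def StmtB2 : Prop := ∀ (k n T : ℕ) (Q : Set ℕ) (D : ℝ) (B : ℕ → Finset ℕ), 3 ≤ k → 1 ≤ T →
  GPFree k Q → (∀ m ∈ Q, Rough n m) → HasDensity Q D →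
  (∀ j, 1 ≤ j → j ≤ T → SmoothFin n (B j) ∧ GPFree k (B j : Set ℕ) ∧ ∀ b ∈ B j, b ≤ j) →
  ∀ ε : ℝ, 0 < ε → ∀ᶠ N : ℕ in atTop, ∃ F : Finset ℕ, F ⊆ Finset.Icc 1 N ∧
    GPFree k (F : Set ℕ) ∧
    (D * (∑ j ∈ Finset.Ico 1 T, ((B j).card : ℝ) / ((j : ℝ) * (j + 1)) + ((B T).card : ℝ) / T)
      - ε) * N ≤ F.card

/-- [B3] From finite sets to upper density. -/
def StmtB3 : Prop := ∀ (k : ℕ) (c : ℝ), 3 ≤ k →
  (∀ M : ℕ, ∃ N : ℕ, M ≤ N ∧ ∃ F : Finset ℕ, F ⊆ Finset.Icc 1 N ∧ GPFree k (F : Set ℕ) ∧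
    c * N ≤ F.card) →
  ∃ A : Set ℕ, GPFree k A ∧ c ≤ upperDensity A

/-! ## G: the greedy set -/

/-- [G1] The greedy set of exponents. -/
def StmtG1 : Prop := ∀ k : ℕ, 3 ≤ k → APFree k {a | GreedyExp k a} ∧
  (∀ a : ℕ, ¬ GreedyExp k a → ∃ d : ℕ, 0 < d ∧ (k - 1) * d ≤ a ∧
    ∀ i : ℕ, 0 < i → i < k → GreedyExp k (a - i * d)) ∧
  (∀ a : ℕ, a < k - 1 → GreedyExp k a) ∧ ¬ GreedyExp k (k - 1)

/-- [G2] Rankin's set is in `GPF_k`, and every other positive integer is the last term of a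
progression whose other terms are in it (they are divisors of it). -/
def StmtG2 : Prop := ∀ k : ℕ, 3 ≤ k → GPFree k (Gset k) ∧
  ∀ s : ℕ, 0 < s → s ∉ Gset k → ∃ x : ℕ → ℕ, x (k - 1) = s ∧
    (∀ i, i + 1 < k → x i ∈ Gset k ∧ x i < s ∧ x i ∣ s) ∧ x 0 < x 1 ∧
    (∀ i, i + 2 < k → x i * x (i + 2) = x (i + 1) ^ 2)

/-- [G3] Among the `k`-AP-free sets of exponents the greedy set has the largest weight. -/
def StmtG3 : Prop := ∀ (k p : ℕ) (S : Set ℕ), 3 ≤ k → 2 ≤ p → APFree k S →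
  ∑' a : ℕ, S.indicator (fun a : ℕ => 1 / (p : ℝ) ^ a) a ≤
    ∑' a : ℕ, {a | GreedyExp k a}.indicator (fun a : ℕ => 1 / (p : ℝ) ^ a) a

/-- [P] Sets defined by exponent conditions: an upper bound for the upper density. -/
def StmtP1 : Prop := ∀ (n : ℕ) (S : ℕ → Set ℕ),
  upperDensity {m | 0 < m ∧ ∀ p : ℕ, p.Prime → m.factorization p ∈ S p} ≤
    delta n * ∏ p ∈ Nat.primesBelow n, ∑' a : ℕ, (S p).indicator (fun a : ℕ => 1 / (p : ℝ) ^ a) a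

/-- [P2] The harmonic sums of the smooth members of Rankin's set. -/
def StmtP2 : Prop := ∀ (k n : ℕ), 3 ≤ k → ∀ ε : ℝ, 0 < ε → ∃ T : ℕ, ∀ N : ℕ, T ≤ N →
  ∀ B : Finset ℕ, (∀ s : ℕ, s ∈ B ↔ (s ≤ N ∧ s ∈ Nat.smoothNumbers n ∧ s ∈ Gset k)) →
  (∏ p ∈ Nat.primesBelow n,
    ∑' a : ℕ, {a | GreedyExp k a}.indicator (fun a : ℕ => 1 / (p : ℝ) ^ a) a) - ε ≤ hsum B

/-! ## M: the local modification -/

/-- [M] A finite smooth `GPF_k` set which agrees with Rankin's set on an initial segment of a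
fixed length can be improved by a fixed amount. -/
def StmtM : Prop := ∀ k : ℕ, 3 ≤ k → ∃ (Z n₀ : ℕ) (g : ℝ), 0 < g ∧ ∀ n : ℕ, n₀ ≤ n →
  ∀ B : Finset ℕ, SmoothFin n B → GPFree k (B : Set ℕ) →
  (∀ s : ℕ, s ≤ Z → s ∈ Nat.smoothNumbers n → (s ∈ B ↔ s ∈ Gset k)) →
  ∃ B' : Finset ℕ, SmoothFin n B' ∧ GPFree k (B' : Set ℕ) ∧ hsum B + g ≤ hsum B'

end GeoProg
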