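import Pool.Agent.Helper7.GeoProg.Stmts2

/-!
# MP_f5ac68_nt: third set of packet statements (second-order asymptotics of `alpha k`)
-/

namespace GeoProg

open Filter Topology

/-- number of `b` with `2^(k-1) * 3^b ≤ j` -/
def rowc (k j : ℕ) : ℕ := ((Finset.range j).filter (fun b => 2 ^ (k - 1) * 3 ^ b ≤ j)).card

/-- number of `a` with `2^a * 3^(k-1) ≤ j` -/
def colc (k j : ℕ) : ℕ := ((Finset.range j).filter (fun a => 2 ^ a * 3 ^ (k - 1) ≤ j)).card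

/-- number of `b` with `2^(k-1) * 3^b ≤ j < 2^(k-1+c) * 3^b`, `c = colc k j` -/
def nfree (k j : ℕ) : ℕ :=
  ((Finset.range j).filter (fun b => 2 ^ (k - 1) * 3 ^ b ≤ j ∧
    j < 2 ^ (k - 1 + colc k j) * 3 ^ b)).card

/-- [E1] -/
def StmtE1 : Prop := ∀ (k j : ℕ) (B : Finset ℕ), 3 ≤ k → SmoothFin 4 B → (∀ b ∈ B, b ≤ j) →
  GPFree k (B : Set ℕ) →
  B.card + rowc k j + colc k j ≤ count (Nat.smoothNumbers 4) j + nfree k j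

/-- [E2] -/
def StmtE2 : Prop :=
  HasSum (fun j : ℕ => (count (Nat.smoothNumbers 4) j : ℝ) / ((j : ℝ) * (j + 1))) 3 ∧
  ∀ k : ℕ, 3 ≤ k →
    HasSum (fun j : ℕ => (rowc k j : ℝ) / ((j : ℝ) * (j + 1))) (3 / 2 ^ k) ∧
    HasSum (fun j : ℕ => (colc k j : ℝ) / ((j : ℝ) * (j + 1))) (6 / 3 ^ k)

/-- [E3] -/
def StmtE3 : Prop := ∀ k j : ℕ, 16 ≤ k → 1 ≤ j → 4 ^ (k - 1) * j ≤ 15 ^ (k - 1) →
  ∃ F : Finset ℕ, SmoothFin 5 F ∧ GPFree k (F : Set ℕ) ∧ (∀ b ∈ F, b ≤ j) ∧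
    count (Nat.smoothNumbers 4) j + nfree k j ≤ F.card + rowc k j + colc k j

/-- [E5] the sum of `nfree` in closed form; `3^m` is the least power of `3` above `2^(k-1)` -/
def StmtE5 : Prop := ∀ k m : ℕ, 3 ≤ k → 2 ^ (k - 1) < 3 ^ m → 3 ^ m ≤ 3 * 2 ^ (k - 1) →
  (∀ j : ℕ, nfree k j ≤ colc k j) ∧
  HasSum (fun j : ℕ => (nfree k j : ℝ) / ((j : ℝ) * (j + 1)))
    (3 / 3 ^ k * (1 + |(3 : ℝ) ^ m / 2 ^ k - 1|))

/-- [E6] the numbers `2^a * 3^b ≤ j` outside `grid k` -/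
def StmtE6 : Prop := ∀ k : ℕ, 3 ≤ k → ∃ x : ℕ → ℕ,
  (∀ j : ℕ, count (Nat.smoothNumbers 4) j ≤
    ((grid k).filter (· ≤ j)).card + rowc k j + colc k j + x j) ∧
  Summable (fun j : ℕ => (x j : ℝ) / ((j : ℝ) * (j + 1))) ∧
  ∑' j : ℕ, (x j : ℝ) / ((j : ℝ) * (j + 1)) ≤ 100 / 4 ^ k

end GeoProg
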