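import Pool.Agent.Helper7.GeoProg.T3

/-! # Product sets do not reach `beta k` -/

namespace GeoProg

open Filter Topology

theorem product_sets_lt_beta (hQ : StmtQ) (hQt : StmtQt)
    (hS : StmtS) (hDl : StmtDl) (hB1 : StmtB1) (hG2 : StmtG2) (hG3 : StmtG3)
    (hP1 : StmtP1) (hP2 : StmtP2) (hM : StmtM) : ∀ k : ℕ, 3 ≤ k →
    ∃ c : ℝ, c < beta k ∧ ∀ S : ℕ → Set ℕ, (∀ p : ℕ, p.Prime → APFree k (S p)) →
      upperDensity {m | 0 < m ∧ ∀ p : ℕ, p.Prime → m.factorization p ∈ S p} ≤ c := by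
  classical
  intro k hk
  obtain ⟨Z, n₀, g, hg, hMn⟩ := hM k hk
  -- the choice of n
  obtain ⟨n, hn0, hn3, hng⟩ : ∃ n : ℕ, n₀ ≤ n ∧ 3 ≤ n ∧ (8 / g + 1) ^ 2 ≤ (n : ℝ) := by
    obtain ⟨m, hm⟩ := exists_nat_ge ((8 / g + 1) ^ 2)
    refine ⟨max (max n₀ 3) m, ?_, ?_, ?_⟩
    · exact (le_max_left _ _).trans (le_max_left _ _)
    · exact (le_max_right _ _).trans (le_max_left _ _)
    · refine hm.trans ?_
      exact_mod_cast le_max_right _ _
  obtain ⟨hδ0, hδ1, _⟩ := hS n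
  set δ := delta n with hδ
  have hn3' : (3 : ℝ) ≤ n := by exact_mod_cast hn3
  have hnpos : (0 : ℝ) < (n : ℝ) - 1 := by linarith
  set W : ℝ := ∏ p ∈ Nat.primesBelow n,
    ∑' a : ℕ, {a | GreedyExp k a}.indicator (fun a : ℕ => 1 / (p : ℝ) ^ a) a with hW
  refine ⟨δ * W, ?_, ?_⟩
  swap
  · intro S hSf
    refine (hP1 n S).trans ?_
    apply mul_le_mul_of_nonneg_left _ hδ0.le
    apply Finset.prod_le_prod
    · intro p _
      exact tsum_nonneg (fun a => Set.indicator_nonneg (fun _ _ => by positivity) a)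
    · intro p hp
      have hpp := Nat.prime_of_mem_primesBelow hp
      exact hG3 k p (S p) hk hpp.two_le (hSf p hpp)
  -- the initial segment of Rankin's set
  obtain ⟨T, hT⟩ := hP2 k n hk (g / 2) (by positivity)
  set N := max T Z with hN
  set B : Finset ℕ := (Finset.range (N + 1)).filter
    (fun s => s ∈ Nat.smoothNumbers n ∧ s ∈ Gset k) with hB
  have hmem : ∀ s : ℕ, s ∈ B ↔ (s ≤ N ∧ s ∈ Nat.smoothNumbers n ∧ s ∈ Gset k) := by
    intro s
    rw [hB, Finset.mem_filter, Finset.mem_range]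
    constructor
    · rintro ⟨h1, h2⟩; exact ⟨by omega, h2⟩
    · rintro ⟨h1, h2⟩; exact ⟨by omega, h2⟩
  have hBW := hT N (le_max_left _ _) B hmem
  rw [← hW] at hBW
  have hBs : SmoothFin n B := fun b hb => ((hmem b).1 hb).2.1
  have hBG : GPFree k (B : Set ℕ) :=
    gpfree_of_subset_gset hG2 hk (fun b hb => ((hmem b).1 hb).2.2)
  obtain ⟨B', hB's, hB', hle⟩ := hMn n hn0 B hBs hBG (fun s hs hsn => by
    rw [hmem]
    have : s ≤ N := hs.trans (le_max_right _ _)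
    tauto)
  obtain ⟨hQG, D, hD, hDl', hDu⟩ := qset_density hQ hQt hS hk (n := n) (by omega)
  obtain ⟨A, hA, hAd⟩ := hB1 k n (Qset k n) D B' hk hQG (fun m hm => hm.1) hD hB's hB'
  have hβ := le_beta hA hAd
  have hhalf : 1 / ((n : ℝ) - 1) ≤ 1 / 2 := by
    apply one_div_le_one_div_of_le (by norm_num)
    linarith
  have hBδ : hsum B' * δ ≤ 1 := by
    have h1 := hsum_le_inv hS n B' hB's
    calc hsum B' * δ ≤ δ⁻¹ * δ := mul_le_mul_of_nonneg_right h1 hδ0.le
      _ = 1 := inv_mul_cancel₀ hδ0.ne'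
  have hBnn := hsum_nonneg B'
  have hsq : 1 / ((n : ℝ) - 1) < g / 2 * δ := by
    have h1 := hDl n (by omega)
    have hn' : (0 : ℝ) < n := by linarith
    have hsqrt : 8 / g + 1 ≤ Real.sqrt n := by
      rw [show 8 / g + 1 = Real.sqrt ((8 / g + 1) ^ 2) from (Real.sqrt_sq (by positivity)).symm]
      exact Real.sqrt_le_sqrt hng
    have hsn : Real.sqrt n * Real.sqrt n = n := Real.mul_self_sqrt hn'.le
    have hspos : 0 < Real.sqrt n := Real.sqrt_pos.2 hn'
    have h2 : g / 2 * (1 / (2 * Real.sqrt n)) ≤ g / 2 * δ := by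
      apply mul_le_mul_of_nonneg_left h1 (by positivity)
    refine lt_of_lt_of_le ?_ h2
    have e1 : g / 2 * (1 / (2 * Real.sqrt n)) = g / (4 * Real.sqrt n) := by
      field_simp
      ring
    rw [e1, div_lt_div_iff₀ hnpos (by positivity)]
    have h3 : 8 / g < Real.sqrt n := by linarith
    have h3' : 8 < Real.sqrt n * g := by
      rwa [div_lt_iff₀ hg] at h3
    have h4 : 8 * Real.sqrt n < g * n := by
      calc 8 * Real.sqrt n < (Real.sqrt n * g) * Real.sqrt n :=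
            mul_lt_mul_of_pos_right h3' hspos
        _ = g * (Real.sqrt n * Real.sqrt n) := by ring
        _ = g * n := by rw [hsn]
    have h5 : g * n ≤ 2 * (g * (n - 1)) := by nlinarith
    linarith
  refine lt_of_lt_of_le ?_ hβ
  have hlow : W + g / 2 ≤ hsum B' := by linarith
  have e1 : δ * (1 - 1 / ((n : ℝ) - 1)) * hsum B' ≤ D * hsum B' :=
    mul_le_mul_of_nonneg_right hDl' hBnn
  have e3 : δ * (1 / ((n : ℝ) - 1)) * hsum B' ≤ 1 / ((n : ℝ) - 1) := by
    have : (0 : ℝ) ≤ 1 / ((n : ℝ) - 1) := by positivity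
    calc δ * (1 / ((n : ℝ) - 1)) * hsum B' = (1 / ((n : ℝ) - 1)) * (hsum B' * δ) := by ring
      _ ≤ (1 / ((n : ℝ) - 1)) * 1 := mul_le_mul_of_nonneg_left hBδ this
      _ = _ := mul_one _
  have e4 : δ * (W + g / 2) ≤ δ * hsum B' := mul_le_mul_of_nonneg_left hlow hδ0.le
  nlinarith

end GeoProg
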