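import Pool.Agent.Helper7.GeoProg.Basic

/-! # `beta k < alpha k` -/

namespace GeoProg

open Filter Topology

lemma hsum_le_inv (hS : StmtS) (n : ℕ) (B : Finset ℕ) (hB : SmoothFin n B) :
    hsum B ≤ (delta n)⁻¹ := by
  classical
  obtain ⟨_, _, h⟩ := hS n
  have h1 := h.summable.sum_le_tsum B (fun i _ => Set.indicator_nonneg (fun _ _ => by positivity) i)
  rw [h.tsum_eq] at h1
  refine le_trans (le_of_eq ?_) h1
  unfold hsum
  apply Finset.sum_congr rfl
  intro b hb
  rw [Set.indicator_of_mem (hB b hb)]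

/-- the lower bound for the density of `Qset` in the form which is used below -/
lemma qset_density (hQ : StmtQ) (hQt : StmtQt) (hS : StmtS) {k n : ℕ} (hk : 3 ≤ k) (hn : 2 ≤ n) :
    GPFree k (Qset k n) ∧ ∃ D : ℝ, HasDensity (Qset k n) D ∧
      delta n * (1 - 1 / ((n : ℝ) - 1)) ≤ D ∧ D ≤ delta n := by
  obtain ⟨h1, D, h2, h3, h4⟩ := hQ k n hk hn
  refine ⟨h1, D, h2, ?_, h4⟩
  have h5 := hQt k n hk hn
  have h6 := (hS n).1
  refine le_trans ?_ h3
  apply mul_le_mul_of_nonneg_left _ h6.le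
  linarith

lemma gpfree_of_subset_gset (hG2 : StmtG2) {k : ℕ} (hk : 3 ≤ k) {A : Set ℕ} (h : A ⊆ Gset k) :
    GPFree k A := (hG2 k hk).1.mono h

theorem beta_lt_alpha (hV1 : StmtV1) (hR : StmtR) (hL : StmtL) (hQ : StmtQ) (hQt : StmtQt)
    (hS : StmtS) (hDl : StmtDl) (hU1 : StmtU1) (hB2 : StmtB2) (hB3 : StmtB3) (hG2 : StmtG2)
    (hM : StmtM) : ∀ k : ℕ, 3 ≤ k → beta k < alpha k := by
  classical
  intro k hk
  obtain ⟨Z, n₀, g, hg, hMn⟩ := hM k hk
  set W : ℝ := ((Z : ℝ) + 1) * (Z + 2) with hW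
  have hW2 : (2 : ℝ) ≤ W := by
    have : (0 : ℝ) ≤ Z := by positivity
    rw [hW]; nlinarith
  have hW0 : 0 < W := by linarith
  -- the choice of n
  obtain ⟨n, hn0, hn3, hnW⟩ : ∃ n : ℕ, n₀ ≤ n ∧ 3 ≤ n ∧ (16 * W) ^ 2 ≤ (n : ℝ) := by
    obtain ⟨m, hm⟩ := exists_nat_ge ((16 * W) ^ 2)
    refine ⟨max (max n₀ 3) m, ?_, ?_, ?_⟩
    · exact (le_max_left _ _).trans (le_max_left _ _)
    · exact (le_max_right _ _).trans (le_max_left _ _)
    · refine hm.trans ?_
      exact_mod_cast le_max_right _ _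
  obtain ⟨hδ0, hδ1, _⟩ := hS n
  set δ := delta n with hδ
  have hnpos : (0 : ℝ) < (n : ℝ) - 1 := by
    have : (3 : ℝ) ≤ n := by exact_mod_cast hn3
    linarith
  -- the supremum of the harmonic sums
  set HS : Set ℝ := {y | ∃ B : Finset ℕ, SmoothFin n B ∧ GPFree k (B : Set ℕ) ∧ y = hsum B} with hHS
  have hne : HS.Nonempty := ⟨hsum ∅, ∅, fun b hb => absurd hb (Finset.notMem_empty b), by
    simpa using gpFree_empty k (by omega), rfl⟩
  have hbdd : BddAbove HS := by
    refine ⟨δ⁻¹, ?_⟩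
    rintro y ⟨B, hB, _, rfl⟩
    exact hsum_le_inv hS n B hB
  set H := sSup HS with hH
  have hHle : ∀ B : Finset ℕ, SmoothFin n B → GPFree k (B : Set ℕ) → hsum B ≤ H :=
    fun B h1 h2 => le_csSup hbdd ⟨B, h1, h2, rfl⟩
  set ε := min (g / 2) (1 / (8 * W)) with hε
  have hε0 : 0 < ε := by
    rw [hε]; apply lt_min <;> positivity
  obtain ⟨y, ⟨B, hBs, hB, rfl⟩, hBH⟩ := exists_lt_of_lt_csSup hne (show H - ε < H by linarith)
  -- deviation from the greedy set
  have hdev : ∃ s, s ≤ Z ∧ s ∈ Nat.smoothNumbers n ∧ ¬ (s ∈ B ↔ s ∈ Gset k) := by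
    by_contra hcon
    push Not at hcon
    obtain ⟨B', hB's, hB', hle⟩ := hMn n hn0 B hBs hB (fun s hs hsn => by
      have := hcon s hs hsn
      tauto)
    have h1 := hHle B' hB's hB'
    have h2 : ε ≤ g / 2 := min_le_left _ _
    linarith
  set s₀ := Nat.find hdev with hs₀
  obtain ⟨hs₀Z, hs₀n, hs₀d⟩ := Nat.find_spec hdev
  rw [← hs₀] at hs₀Z hs₀n hs₀d
  have hmin : ∀ s, s < s₀ → s ∈ Nat.smoothNumbers n → (s ∈ B ↔ s ∈ Gset k) := by
    intro s hs hsn
    by_contra hcon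
    exact Nat.find_min hdev hs ⟨by omega, hsn, hcon⟩
  have hs₀pos : 0 < s₀ := Nat.pos_of_ne_zero (Nat.mem_smoothNumbers.1 hs₀n).1
  -- s₀ is in Gset and not in B
  have hs₀G : s₀ ∈ Gset k ∧ s₀ ∉ B := by
    by_cases hsG : s₀ ∈ Gset k
    · refine ⟨hsG, fun h => hs₀d ⟨fun _ => hsG, fun _ => h⟩⟩
    · exfalso
      have hsB : s₀ ∈ B := by
        by_contra h
        exact hs₀d ⟨fun h' => absurd h' h, fun h' => absurd h' hsG⟩
      obtain ⟨x, hxk, hx, h01, hrel⟩ := (hG2 k hk).2 s₀ hs₀pos hsG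
      apply hB.2
      refine (hV1 k B hk hB.1).2 ⟨x, ?_, h01, hrel⟩
      intro i hi
      rcases Nat.lt_or_ge (i + 1) k with h | h
      · obtain ⟨h1, h2, h3⟩ := hx i h
        have h4 : x i ∈ Nat.smoothNumbers n := by
          rw [Nat.mem_smoothNumbers'] at hs₀n ⊢
          exact fun p hp hpd => hs₀n p hp (hpd.trans h3)
        exact (hmin _ h2 h4).2 h1
      · have : i = k - 1 := by omega
        rw [this, hxk]
        exact hsB
  obtain ⟨hs₀G, hs₀B⟩ := hs₀G
  -- the family adapted to the scales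
  set T := max (B.sup id) (s₀ + 1) with hT
  have hTpos : 1 ≤ T := by
    have : s₀ + 1 ≤ T := le_max_right _ _
    omega
  have hBT : ∀ b ∈ B, b ≤ T := fun b hb =>
    (Finset.le_sup (f := id) hb).trans (le_max_left _ _)
  let Bf : ℕ → Finset ℕ := fun j =>
    if j = s₀ then insert s₀ (B.filter (· ≤ s₀)) else B.filter (· ≤ j)
  have hBf : ∀ j, 1 ≤ j → j ≤ T → SmoothFin n (Bf j) ∧ GPFree k (Bf j : Set ℕ) ∧
      ∀ b ∈ Bf j, b ≤ j := by
    intro j _ _
    by_cases hj : j = s₀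
    · simp only [Bf, hj, if_true]
      refine ⟨?_, ?_, ?_⟩
      · intro b hb
        rcases Finset.mem_insert.1 hb with rfl | hb
        · exact hs₀n
        · exact hBs b (Finset.mem_filter.1 hb).1
      · apply gpfree_of_subset_gset hG2 hk
        intro b hb
        rw [Finset.mem_coe] at hb
        rcases Finset.mem_insert.1 hb with rfl | hb
        · exact hs₀G
        · have h1 := Finset.mem_filter.1 hb
          have h2 : b < s₀ := by
            rcases Nat.lt_or_ge b s₀ with h | h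
            · exact h
            · exfalso
              have : b = s₀ := le_antisymm h1.2 h
              rw [this] at h1
              exact hs₀B h1.1
          exact (hmin b h2 (hBs b h1.1)).1 h1.1
      · intro b hb
        rcases Finset.mem_insert.1 hb with rfl | hb
        · exact le_refl _
        · exact (Finset.mem_filter.1 hb).2
    · simp only [Bf, hj, if_false]
      refine ⟨fun b hb => hBs b (Finset.mem_filter.1 hb).1, ?_,
        fun b hb => (Finset.mem_filter.1 hb).2⟩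
      apply hB.mono
      intro b hb
      rw [Finset.mem_coe] at hb
      exact (Finset.mem_filter.1 hb).1
  obtain ⟨hQG, D, hD, hDl', hDu⟩ := qset_density hQ hQt hS hk (n := n) (by omega)
  have hα := alpha_ge hB2 hB3 hk hTpos hQG (fun m hm => hm.1) hD hBf
  -- the sum
  have hBfT : Bf T = B := by
    have h1 : T ≠ s₀ := by
      have : s₀ + 1 ≤ T := le_max_right _ _
      omega
    simp only [Bf, h1, if_false]
    exact Finset.filter_true_of_mem (fun b hb => hBT b hb)
  have hsumeq : hsum B + 1 / ((s₀ : ℝ) * (s₀ + 1)) ≤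
      ∑ j ∈ Finset.Ico 1 T, ((Bf j).card : ℝ) / ((j : ℝ) * (j + 1)) + ((Bf T).card : ℝ) / T := by
    rw [hBfT]
    have hpos : ∀ b ∈ B, 0 < b := fun b hb => hB.1 b hb
    rw [← abel_card B hpos T hBT]
    have h1 : ∑ j ∈ Finset.Ico 1 T, ((B.filter (· ≤ j)).card : ℝ) / ((j : ℝ) * (j + 1)) +
        1 / ((s₀ : ℝ) * (s₀ + 1)) =
        ∑ j ∈ Finset.Ico 1 T, ((Bf j).card : ℝ) / ((j : ℝ) * (j + 1)) := by
      have h2 : (1 : ℝ) / ((s₀ : ℝ) * (s₀ + 1)) =
          ∑ j ∈ Finset.Ico 1 T, (if j = s₀ then 1 / ((j : ℝ) * (j + 1)) else 0) := by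
        rw [Finset.sum_ite_eq' (Finset.Ico 1 T) s₀]
        rw [if_pos]
        rw [Finset.mem_Ico]
        have : s₀ + 1 ≤ T := le_max_right _ _
        omega
      rw [h2, ← Finset.sum_add_distrib]
      apply Finset.sum_congr rfl
      intro j _
      by_cases hj : j = s₀
      · simp only [Bf, hj, if_true]
        rw [Finset.card_insert_of_notMem (fun h => hs₀B (Finset.mem_filter.1 h).1)]
        push_cast
        ring
      · simp only [Bf, hj, if_false, add_zero]
    linarith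
  -- the upper bound for beta
  have hβ := beta_le hR hL hU1 hk n H hHle
  have hβ' : beta k ≤ (hsum B + ε) * δ := by
    refine hβ.trans ?_
    apply mul_le_mul_of_nonneg_right _ hδ0.le
    linarith
  -- the comparison
  have hs₀W : (s₀ : ℝ) * (s₀ + 1) ≤ W := by
    have h1 : (s₀ : ℝ) ≤ Z := by exact_mod_cast hs₀Z
    have h2 : (0 : ℝ) ≤ s₀ := by positivity
    rw [hW]
    nlinarith
  have hs₀pos' : (0 : ℝ) < (s₀ : ℝ) * (s₀ + 1) := by
    have : (0 : ℝ) < s₀ := by exact_mod_cast hs₀pos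
    positivity
  have h1W : 1 / W ≤ 1 / ((s₀ : ℝ) * (s₀ + 1)) := one_div_le_one_div_of_le hs₀pos' hs₀W
  have hhalf : 1 / ((n : ℝ) - 1) ≤ 1 / 2 := by
    apply one_div_le_one_div_of_le (by norm_num)
    have : (3 : ℝ) ≤ n := by exact_mod_cast hn3
    linarith
  have hD2 : δ / 2 ≤ D := by
    refine le_trans ?_ hDl'
    nlinarith
  have hBδ : hsum B * δ ≤ 1 := by
    have h1 := hsum_le_inv hS n B hBs
    calc hsum B * δ ≤ δ⁻¹ * δ := mul_le_mul_of_nonneg_right h1 hδ0.le
      _ = 1 := inv_mul_cancel₀ hδ0.ne'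
  have hBnn := hsum_nonneg B
  have hεW : ε ≤ 1 / (8 * W) := min_le_right _ _
  -- sqrt estimate
  have hsq : 1 / ((n : ℝ) - 1) < 3 / 8 * (1 / W) * δ := by
    have h1 := hDl n (by omega)
    have hn' : (0 : ℝ) < n := by exact_mod_cast (by omega : 0 < n)
    have hsqrt : 16 * W ≤ Real.sqrt n := by
      rw [show 16 * W = Real.sqrt ((16 * W) ^ 2) from (Real.sqrt_sq (by positivity)).symm]
      exact Real.sqrt_le_sqrt hnW
    have hsn : Real.sqrt n * Real.sqrt n = n := Real.mul_self_sqrt hn'.le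
    have hspos : 0 < Real.sqrt n := Real.sqrt_pos.2 hn'
    have h2 : 3 / 8 * (1 / W) * (1 / (2 * Real.sqrt n)) ≤ 3 / 8 * (1 / W) * δ := by
      apply mul_le_mul_of_nonneg_left h1 (by positivity)
    refine lt_of_lt_of_le ?_ h2
    have e1 : 3 / 8 * (1 / W) * (1 / (2 * Real.sqrt n)) = 3 / (16 * W * Real.sqrt n) := by
      field_simp
      ring
    rw [e1, div_lt_div_iff₀ hnpos (by positivity)]
    have h3 : 16 * W * Real.sqrt n ≤ n := by
      calc 16 * W * Real.sqrt n ≤ Real.sqrt n * Real.sqrt n :=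
            mul_le_mul_of_nonneg_right hsqrt hspos.le
        _ = n := hsn
    have h4 : (3 : ℝ) ≤ n := by exact_mod_cast hn3
    linarith
  calc beta k ≤ (hsum B + ε) * δ := hβ'
    _ < D * (hsum B + 1 / W) := by
        have e1 : δ * (1 - 1 / ((n : ℝ) - 1)) * hsum B ≤ D * hsum B :=
          mul_le_mul_of_nonneg_right hDl' hBnn
        have e2 : δ / 2 * (1 / W) ≤ D * (1 / W) := mul_le_mul_of_nonneg_right hD2 (by positivity)
        have e3 : δ * (1 / ((n : ℝ) - 1)) * hsum B ≤ 1 / ((n : ℝ) - 1) := by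
          have : (0 : ℝ) ≤ 1 / ((n : ℝ) - 1) := by positivity
          calc δ * (1 / ((n : ℝ) - 1)) * hsum B = (1 / ((n : ℝ) - 1)) * (hsum B * δ) := by ring
            _ ≤ (1 / ((n : ℝ) - 1)) * 1 := mul_le_mul_of_nonneg_left hBδ this
            _ = _ := mul_one _
        have e4 : ε * δ ≤ 1 / (8 * W) * δ := mul_le_mul_of_nonneg_right hεW hδ0.le
        have e5 : 1 / (8 * W) * δ = 1 / 8 * (1 / W) * δ := by field_simp
        nlinarith
    _ ≤ D * (∑ j ∈ Finset.Ico 1 T, ((Bf j).card : ℝ) / ((j : ℝ) * (j + 1)) +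
        ((Bf T).card : ℝ) / T) := by
        apply mul_le_mul_of_nonneg_left _ (by linarith [hδ0])
        linarith
    _ ≤ alpha k := hα

end GeoProg
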