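import Pool.Agent.Helper7.GeoProg.TG
import Pool.Agent.Helper7.GeoProg.Stmts3

/-! # Second-order asymptotics of `alpha k` -/

namespace GeoProg

open Filter Topology

/-- the upper bound -/
theorem alpha_exp_upper (hA1 : StmtA1) (hA2 : StmtA2) (hE1 : StmtE1) (hE2 : StmtE2)
    (hE5 : StmtE5) {k m : ℕ} (hk : 3 ≤ k) (h1 : 2 ^ (k - 1) < 3 ^ m)
    (h2 : 3 ^ m ≤ 3 * 2 ^ (k - 1)) :
    alpha k ≤ 1 - 1 / 2 ^ k - (1 - |(3 : ℝ) ^ m / 2 ^ k - 1|) / 3 ^ k := by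
  obtain ⟨hs, hα⟩ := hA1 k 4 hk (by norm_num)
  rw [delta_four] at hα
  obtain ⟨hsm, hrc⟩ := hE2
  obtain ⟨hr, hc⟩ := hrc k hk
  obtain ⟨_, hn⟩ := hE5 k m hk h1 h2
  set g := 3 / 3 ^ k * (1 + |(3 : ℝ) ^ m / 2 ^ k - 1|) with hg
  have hle : ∑' j : ℕ, (smoothCard k 4 j : ℝ) / ((j : ℝ) * (j + 1)) ≤
      3 + g - 3 / 2 ^ k - 6 / 3 ^ k := by
    have hcomb := ((hsm.add hn).sub hr).sub hc
    refine hasSum_le ?_ hs.hasSum hcomb
    intro j
    obtain ⟨B, hB1, hB2, hB3, hB4⟩ := (hA2 k 4 j hk).1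
    have h3 := hE1 k j B hk hB1 hB2 hB3
    rw [← hB4] at h3
    have h4 : (smoothCard k 4 j : ℝ) ≤ (count (Nat.smoothNumbers 4) j : ℝ) + nfree k j
        - rowc k j - colc k j := by
      have : ((smoothCard k 4 j + rowc k j + colc k j : ℕ) : ℝ) ≤
          ((count (Nat.smoothNumbers 4) j + nfree k j : ℕ) : ℝ) := by exact_mod_cast h3
      push_cast at this
      linarith
    have h5 : (0 : ℝ) ≤ (j : ℝ) * (j + 1) := by positivity
    calc (smoothCard k 4 j : ℝ) / ((j : ℝ) * (j + 1)) ≤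
        ((count (Nat.smoothNumbers 4) j : ℝ) + nfree k j - rowc k j - colc k j) /
          ((j : ℝ) * (j + 1)) := div_le_div_of_nonneg_right h4 h5
      _ = _ := by ring
  refine hα.trans ?_
  have h3 := mul_le_mul_of_nonneg_left hle (by norm_num : (0 : ℝ) ≤ 1 / 3)
  refine h3.trans (le_of_eq ?_)
  rw [hg]
  ring

lemma limit_step {D η α U : ℝ} (hD0 : 0 ≤ D) (u t : ℕ → ℝ) (v : ℕ → ℝ) (hu : HasSum u U)
    (h0 : u 0 = 0) (ht0 : t 0 = 0)
    (hpt : ∀ j, 1 ≤ j → u j - t j ≤ v j) (htail : ∀ T : ℕ, ∑ j ∈ Finset.range T, t j ≤ η)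
    (hα : ∀ T : ℕ, D * ∑ j ∈ Finset.Ico 1 (T + 1), v j ≤ α) : D * (U - η) ≤ α := by
  have h1 : ∀ T : ℕ, D * (∑ j ∈ Finset.range (T + 1), u j - η) ≤ α := by
    intro T
    refine le_trans ?_ (hα T)
    apply mul_le_mul_of_nonneg_left _ hD0
    have h4 : ∑ j ∈ Finset.range (T + 1), (u j - t j) ≤ ∑ j ∈ Finset.Ico 1 (T + 1), v j := by
      rw [Finset.range_eq_Ico, Finset.sum_eq_sum_Ico_succ_bot (by omega), h0, ht0, sub_zero,
        zero_add]
      apply Finset.sum_le_sum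
      intro j hj
      rw [Finset.mem_Ico] at hj
      exact hpt j hj.1
    rw [Finset.sum_sub_distrib] at h4
    have h5 := htail (T + 1)
    linarith
  have h2 : Tendsto (fun T : ℕ => D * (∑ j ∈ Finset.range (T + 1), u j - η)) atTop
      (𝓝 (D * (U - η))) :=
    (((hu.tendsto_sum_nat).comp (tendsto_add_atTop_nat 1)).sub_const η).const_mul D
  exact le_of_tendsto' h2 h1

/-- the lower bound, with the tail as a hypothesis -/
theorem alpha_exp_lower (hQ : StmtQ) (hA3 : StmtA3) (hB2 : StmtB2) (hB3 : StmtB3)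
    (hA6 : StmtA6) (hE2 : StmtE2) (hE3 : StmtE3) (hE5 : StmtE5) (hE6 : StmtE6)
    {k m : ℕ} (hk : 16 ≤ k) (h1 : 2 ^ (k - 1) < 3 ^ m) (h2 : 3 ^ m ≤ 3 * 2 ^ (k - 1))
    (η : ℝ)
    (htail : ∀ T : ℕ, ∑ j ∈ Finset.range T, (if 15 ^ (k - 1) < 4 ^ (k - 1) * j then
      (colc k j : ℝ) / ((j : ℝ) * (j + 1)) else 0) ≤ η) :
    ∃ D : ℝ, 1 / 3 * (1 - 16 / 4 ^ k) ≤ D ∧ D ≤ 1 / 3 ∧
    D * (3 + 3 / 3 ^ k * (1 + |(3 : ℝ) ^ m / 2 ^ k - 1|) - 3 / 2 ^ k - 6 / 3 ^ k - 100 / 4 ^ k - η)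
      ≤ alpha k := by
  classical
  obtain ⟨hQG, D, hD, hD1, hD2⟩ := hQ k 5 (by omega) (by norm_num)
  obtain ⟨g1, g2, g3⟩ := hA6 k (by omega)
  obtain ⟨hsm, hrc⟩ := hE2
  obtain ⟨hr, hc⟩ := hrc k (by omega)
  obtain ⟨hnc, hn⟩ := hE5 k m (by omega) h1 h2
  obtain ⟨x, hx1, hx2, hx3⟩ := hE6 k (by omega)
  choose F hF1 hF2 hF3 hF4 using fun j => hE3 k j hk
  obtain ⟨Bf, hBfa, hBfb⟩ : ∃ Bf : ℕ → Finset ℕ,
      (∀ j (hj1 : 1 ≤ j) (hj2 : 4 ^ (k - 1) * j ≤ 15 ^ (k - 1)), Bf j = F j hj1 hj2) ∧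
      (∀ j, ¬ (4 ^ (k - 1) * j ≤ 15 ^ (k - 1)) → Bf j = (grid k).filter (· ≤ j)) := by
    refine ⟨fun j => if h : 1 ≤ j ∧ 4 ^ (k - 1) * j ≤ 15 ^ (k - 1) then F j h.1 h.2 else
      (grid k).filter (· ≤ j), ?_, ?_⟩
    · intro j hj1 hj2
      simp only [hj1, hj2, and_self, dif_pos]
    · intro j hj
      simp only [hj, and_false, dif_neg, not_false_eq_true]
  have hBf : ∀ j, 1 ≤ j → SmoothFin 5 (Bf j) ∧ GPFree k (Bf j : Set ℕ) ∧
      ∀ b ∈ Bf j, b ≤ j := by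
    intro j hj1
    by_cases hj : 4 ^ (k - 1) * j ≤ 15 ^ (k - 1)
    · rw [hBfa j hj1 hj]
      exact ⟨hF1 j hj1 hj, hF2 j hj1 hj, hF3 j hj1 hj⟩
    · rw [hBfb j hj]
      refine ⟨fun b hb => g1 b (Finset.mem_filter.1 hb).1, ?_,
        fun b hb => (Finset.mem_filter.1 hb).2⟩
      apply g2.mono
      intro b hb
      rw [Finset.mem_coe] at hb
      exact (Finset.mem_filter.1 hb).1
  have hD0 : 0 ≤ D := by
    have h1 : ∀ N : ℕ, 0 ≤ (count (Qset k 5) N : ℝ) / N := fun N => ratio_nonneg _ N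
    exact ge_of_tendsto' hD h1
  rw [delta_five] at hD1 hD2
  refine ⟨D, ?_, hD2, ?_⟩
  · refine le_trans ?_ hD1
    apply mul_le_mul_of_nonneg_left _ (by norm_num)
    have h3 := hA3 k 5 (by omega) (by norm_num)
    have h4 : 1 / (((k : ℝ) - 2) * (((5 : ℕ) : ℝ) - 1) ^ (k - 2)) ≤ 16 / 4 ^ k := by
      have h5 : (4 : ℝ) ^ k = 16 * 4 ^ (k - 2) := by
        obtain ⟨j, rfl⟩ : ∃ j, k = j + 2 := ⟨k - 2, by omega⟩
        rw [pow_add]
        simp
        ring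
      have h6 : (0 : ℝ) < 4 ^ (k - 2) := by positivity
      have h7 : (16 : ℝ) ≤ k := by exact_mod_cast hk
      rw [h5, div_le_div_iff₀ (by push_cast; norm_num; linarith) (by positivity)]
      push_cast
      norm_num
      nlinarith
    linarith
  -- the comparison
  have hsumm := ((((hsm.add hn).sub hr).sub hc).sub hx2.hasSum)
  have hmain := limit_step (α := alpha k) (η := η) hD0 _
    (fun j => if 15 ^ (k - 1) < 4 ^ (k - 1) * j then
      (colc k j : ℝ) / ((j : ℝ) * (j + 1)) else 0)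
    (fun j => ((Bf j).card : ℝ) / ((j : ℝ) * (j + 1))) hsumm (by simp) (by simp) ?_ htail ?_
  · refine le_trans ?_ hmain
    apply mul_le_mul_of_nonneg_left _ hD0
    linarith
  · intro j hj1
    have h5 : (0 : ℝ) ≤ (j : ℝ) * (j + 1) := by positivity
    by_cases hj : 4 ^ (k - 1) * j ≤ 15 ^ (k - 1)
    · have h6 : ¬ (15 ^ (k - 1) < 4 ^ (k - 1) * j) := by omega
      simp only [h6, if_false, sub_zero]
      have h7 := hF4 j hj1 hj
      rw [hBfa j hj1 hj]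
      have h9 : (count (Nat.smoothNumbers 4) j : ℝ) + nfree k j - rowc k j - colc k j - x j ≤
          ((F j hj1 hj).card : ℝ) := by
        have : ((count (Nat.smoothNumbers 4) j + nfree k j : ℕ) : ℝ) ≤
            (((F j hj1 hj).card + rowc k j + colc k j : ℕ) : ℝ) := by exact_mod_cast h7
        push_cast at this
        have h10 : (0 : ℝ) ≤ x j := by positivity
        linarith
      refine le_trans (le_of_eq ?_) (div_le_div_of_nonneg_right h9 h5)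
      ring
    · have h6 : 15 ^ (k - 1) < 4 ^ (k - 1) * j := by omega
      simp only [h6, if_true]
      rw [hBfb j hj]
      have h7 := hx1 j
      have h9 : (count (Nat.smoothNumbers 4) j : ℝ) + nfree k j - rowc k j - colc k j - x j
          - colc k j ≤ (((grid k).filter (· ≤ j)).card : ℝ) := by
        have h10 : ((count (Nat.smoothNumbers 4) j : ℕ) : ℝ) ≤
            ((((grid k).filter (· ≤ j)).card + rowc k j + colc k j + x j : ℕ) : ℝ) := by
          exact_mod_cast h7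
        have h11 : (nfree k j : ℝ) ≤ colc k j := by exact_mod_cast hnc j
        push_cast at h10
        linarith
      refine le_trans (le_of_eq ?_) (div_le_div_of_nonneg_right h9 h5)
      ring
  · intro T
    have h3 := alpha_ge hB2 hB3 (T := T + 1) (B := Bf) (by omega) (by omega) hQG
      (fun m hm => hm.1) hD (fun j hj _ => hBf j hj)
    refine le_trans ?_ h3
    apply mul_le_mul_of_nonneg_left _ hD0
    have h8 : (0 : ℝ) ≤ ((Bf (T + 1)).card : ℝ) / ((T + 1 : ℕ) : ℝ) := by positivity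
    linarith

end GeoProg
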