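import Pool.Agent.Helper7.GeoProg.TE

/-! # Second-order asymptotics of `alpha k`: the tail and the conclusion -/

namespace GeoProg

open Filter Topology

lemma tele_le (L T : ℕ) (hL : 1 ≤ L) :
    ∑ j ∈ (Finset.range T).filter (fun j => L ≤ j), (1 : ℝ) / ((j : ℝ) * (j + 1)) ≤ 1 / L := by
  have hL' : (0 : ℝ) < L := by exact_mod_cast hL
  have key : ∀ T, L ≤ T →
      ∑ j ∈ Finset.Ico L T, (1 : ℝ) / ((j : ℝ) * (j + 1)) = 1 / L - 1 / T := by
    intro T hT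
    induction T, hT using Nat.le_induction with
    | base => simp
    | succ V hV ih =>
      rw [Finset.sum_Ico_succ_top hV, ih]
      have h5 : (0 : ℝ) < V := by exact_mod_cast (by omega : 0 < V)
      push_cast
      field_simp
      ring
  rcases Nat.lt_or_ge T L with h | h
  · rw [Finset.filter_false_of_mem]
    · rw [Finset.sum_empty]; positivity
    · intro j hj
      rw [Finset.mem_range] at hj
      omega
  · have : (Finset.range T).filter (fun j => L ≤ j) = Finset.Ico L T := by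
      ext j
      rw [Finset.mem_filter, Finset.mem_range, Finset.mem_Ico]
      tauto
    rw [this, key T h]
    have : (0 : ℝ) ≤ 1 / (T : ℝ) := by positivity
    linarith

/-- counting functions are summable against `1/(j(j+1))` -/
lemma count_sum_le (f : ℕ → ℕ) (hf : ∀ a, 1 ≤ f a) (S : ℝ)
    (hS : HasSum (fun a => (1 : ℝ) / (f a : ℝ)) S) (T : ℕ) :
    ∑ j ∈ Finset.range T, (((Finset.range j).filter (fun a => f a ≤ j)).card : ℝ) /
      ((j : ℝ) * (j + 1)) ≤ S := by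
  classical
  have h1 : ∀ j ∈ Finset.range T, (((Finset.range j).filter (fun a => f a ≤ j)).card : ℝ) /
      ((j : ℝ) * (j + 1)) ≤ ∑ a ∈ Finset.range T, if f a ≤ j then 1 / ((j : ℝ) * (j + 1)) else 0 := by
    intro j hj
    rw [Finset.mem_range] at hj
    rw [← Finset.sum_filter, Finset.sum_const, nsmul_eq_mul, mul_one_div]
    apply div_le_div_of_nonneg_right _ (by positivity)
    have : ((Finset.range j).filter (fun a => f a ≤ j)) ⊆
        ((Finset.range T).filter (fun a => f a ≤ j)) := by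
      intro a ha
      rw [Finset.mem_filter, Finset.mem_range] at ha ⊢
      exact ⟨by omega, ha.2⟩
    exact_mod_cast Finset.card_le_card this
  refine (Finset.sum_le_sum h1).trans ?_
  rw [Finset.sum_comm]
  have h2 : ∀ a ∈ Finset.range T,
      ∑ j ∈ Finset.range T, (if f a ≤ j then (1 : ℝ) / ((j : ℝ) * (j + 1)) else 0) ≤
      1 / (f a : ℝ) := by
    intro a _
    rw [← Finset.sum_filter]
    exact tele_le (f a) T (hf a)
  refine (Finset.sum_le_sum h2).trans ?_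
  exact sum_le_hasSum _ (fun i _ => by positivity) hS

lemma colc_le (k j : ℕ) : colc k j ≤
    k + ((Finset.range j).filter (fun a => 2 ^ a * (2 ^ k * 3 ^ (k - 1)) ≤ j)).card := by
  classical
  unfold colc
  have hsub : (Finset.range j).filter (fun a => 2 ^ a * 3 ^ (k - 1) ≤ j) ⊆
      Finset.range k ∪
      ((Finset.range j).filter (fun a => 2 ^ a * (2 ^ k * 3 ^ (k - 1)) ≤ j)).image (· + k) := by
    intro a ha
    rw [Finset.mem_filter, Finset.mem_range] at ha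
    rw [Finset.mem_union, Finset.mem_range, Finset.mem_image]
    rcases Nat.lt_or_ge a k with h | h
    · exact Or.inl h
    · refine Or.inr ⟨a - k, ?_, by omega⟩
      rw [Finset.mem_filter, Finset.mem_range]
      refine ⟨by omega, ?_⟩
      calc 2 ^ (a - k) * (2 ^ k * 3 ^ (k - 1)) = 2 ^ (a - k + k) * 3 ^ (k - 1) := by
            rw [pow_add]; ring
        _ = 2 ^ a * 3 ^ (k - 1) := by rw [Nat.sub_add_cancel h]
        _ ≤ j := ha.2
  refine (Finset.card_le_card hsub).trans ((Finset.card_union_le _ _).trans ?_)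
  rw [Finset.card_range]
  exact Nat.add_le_add_left Finset.card_image_le _

lemma tail_bound (k : ℕ) (hk : 3 ≤ k) (T : ℕ) :
    ∑ j ∈ Finset.range T, (if 15 ^ (k - 1) < 4 ^ (k - 1) * j then
      (colc k j : ℝ) / ((j : ℝ) * (j + 1)) else 0) ≤
    k * (4 / 15 : ℝ) ^ (k - 1) + 6 / 6 ^ k := by
  classical
  -- the least j
  set L := 15 ^ (k - 1) / 4 ^ (k - 1) + 1 with hL
  have h4 : 0 < 4 ^ (k - 1) := by positivity
  have hcond : ∀ j : ℕ, 15 ^ (k - 1) < 4 ^ (k - 1) * j ↔ L ≤ j := by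
    intro j
    rw [hL, Nat.add_one_le_iff, Nat.div_lt_iff_lt_mul h4, mul_comm]
  have hLr : 1 / (L : ℝ) ≤ (4 / 15 : ℝ) ^ (k - 1) := by
    have h1 : 15 ^ (k - 1) < 4 ^ (k - 1) * L := (hcond L).2 le_rfl
    have h2 : (15 : ℝ) ^ (k - 1) < 4 ^ (k - 1) * L := by exact_mod_cast h1
    have hLpos : (0 : ℝ) < L := by
      rw [hL]; positivity
    rw [div_pow, div_le_div_iff₀ hLpos (by positivity)]
    linarith
  have hS : HasSum (fun a : ℕ => (1 : ℝ) / ((2 ^ a * (2 ^ k * 3 ^ (k - 1)) : ℕ) : ℝ)) (6 / 6 ^ k) := by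
    have h := (hasSum_geometric_two).mul_right (1 / ((2 : ℝ) ^ k * 3 ^ (k - 1)))
    have e1 : (fun a : ℕ => (1 : ℝ) / ((2 ^ a * (2 ^ k * 3 ^ (k - 1)) : ℕ) : ℝ)) =
        fun a : ℕ => ((1 : ℝ) / 2) ^ a * (1 / ((2 : ℝ) ^ k * 3 ^ (k - 1))) := by
      ext a
      push_cast
      rw [one_div_pow]
      field_simp
    have e2 : (6 : ℝ) / 6 ^ k = 2 * (1 / ((2 : ℝ) ^ k * 3 ^ (k - 1))) := by
      have h6 : (6 : ℝ) ^ k = 3 * (2 ^ k * 3 ^ (k - 1)) := by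
        have h3 : (3 : ℝ) ^ k = 3 * 3 ^ (k - 1) := by
          rw [← pow_succ']; congr 1; omega
        have : (6 : ℝ) ^ k = 2 ^ k * 3 ^ k := by rw [← mul_pow]; norm_num
        rw [this, h3]; ring
      rw [h6]
      field_simp
      norm_num
    rw [e1, e2]
    exact h
  have hcount := count_sum_le (fun a => 2 ^ a * (2 ^ k * 3 ^ (k - 1)))
    (fun a => Nat.succ_le_of_lt (by positivity)) _ hS T
  have htele := tele_le L T (by rw [hL]; exact Nat.succ_le_succ (Nat.zero_le _))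
  have hterm : ∀ j ∈ Finset.range T, (if 15 ^ (k - 1) < 4 ^ (k - 1) * j then
      (colc k j : ℝ) / ((j : ℝ) * (j + 1)) else 0) ≤
      k * (if L ≤ j then 1 / ((j : ℝ) * (j + 1)) else 0) +
      (((Finset.range j).filter (fun a => 2 ^ a * (2 ^ k * 3 ^ (k - 1)) ≤ j)).card : ℝ) /
        ((j : ℝ) * (j + 1)) := by
    intro j _
    by_cases hj : L ≤ j
    · rw [if_pos ((hcond j).2 hj), if_pos hj, mul_one_div, ← add_div]
      apply div_le_div_of_nonneg_right _ (by positivity)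
      exact_mod_cast colc_le k j
    · rw [if_neg (fun h => hj ((hcond j).1 h)), if_neg hj, mul_zero, zero_add]
      positivity
  refine (Finset.sum_le_sum hterm).trans ?_
  rw [Finset.sum_add_distrib, ← Finset.mul_sum, ← Finset.sum_filter]
  have h1 : (k : ℝ) * ∑ j ∈ (Finset.range T).filter (fun j => L ≤ j),
      (1 : ℝ) / ((j : ℝ) * (j + 1)) ≤ k * (4 / 15 : ℝ) ^ (k - 1) :=
    mul_le_mul_of_nonneg_left (htele.trans hLr) (by positivity)
  linarith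

/-- the numerical conclusion -/
lemma numeric_exp {k : ℕ} (hk : 16 ≤ k) {D g y α : ℝ} (hD1 : 1 / 3 * (1 - 16 / 4 ^ k) ≤ D)
    (hD2 : D ≤ 1 / 3) (hy0 : 0 ≤ y) (hy1 : y ≤ 1) (hg : g = 3 / 3 ^ k * (1 + y))
    (h : D * (3 + g - 3 / 2 ^ k - 6 / 3 ^ k - 100 / 4 ^ k -
      (k * (4 / 15 : ℝ) ^ (k - 1) + 6 / 6 ^ k)) ≤ α) :
    1 - 1 / 2 ^ k - (1 - y) / 3 ^ k - 110 * (3 / 11 : ℝ) ^ k ≤ α := by
  -- elementary bounds
  have e4 : (1 : ℝ) / 4 ^ k ≤ (3 / 11 : ℝ) ^ k := by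
    rw [← one_div_pow]
    exact pow_le_pow_left₀ (by norm_num) (by norm_num) k
  have e6 : (1 : ℝ) / 6 ^ k ≤ 1 / 100 * (3 / 11 : ℝ) ^ k := by
    have h1 : (1 : ℝ) / 6 ^ k = (1 / 6 : ℝ) ^ k := (one_div_pow _ _).symm
    have h2 : (1 / 6 : ℝ) ^ k = (11 / 18 : ℝ) ^ k * (3 / 11 : ℝ) ^ k := by
      rw [← mul_pow]; norm_num
    rw [h1, h2]
    apply mul_le_mul_of_nonneg_right _ (by positivity)
    calc (11 / 18 : ℝ) ^ k ≤ (11 / 18 : ℝ) ^ 16 :=
          pow_le_pow_of_le_one (by norm_num) (by norm_num) hk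
      _ ≤ 1 / 100 := by norm_num
  have ek : (k : ℝ) * (4 / 15 : ℝ) ^ (k - 1) ≤ 165 * (3 / 11 : ℝ) ^ k := by
    have h1 : (4 / 15 : ℝ) ^ (k - 1) = 15 / 4 * (4 / 15 : ℝ) ^ k := by
      have : (4 / 15 : ℝ) ^ k = (4 / 15) * (4 / 15 : ℝ) ^ (k - 1) := by
        rw [← pow_succ']; congr 1; omega
      rw [this]; ring
    have h2 : (4 / 15 : ℝ) ^ k = (44 / 45 : ℝ) ^ k * (3 / 11 : ℝ) ^ k := by
      rw [← mul_pow]; norm_num
    have h3 : (k : ℝ) * (44 / 45 : ℝ) ^ k ≤ 44 := by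
      have h4 : 1 + (k : ℝ) * (1 / 44) ≤ (1 + 1 / 44 : ℝ) ^ k :=
        one_add_mul_le_pow (by norm_num) k
      have h5 : (44 / 45 : ℝ) ^ k * (1 + 1 / 44 : ℝ) ^ k = 1 := by
        rw [← mul_pow]; norm_num
      have h6 : (0 : ℝ) < (44 / 45 : ℝ) ^ k := by positivity
      have h7 : (44 / 45 : ℝ) ^ k * (1 + (k : ℝ) * (1 / 44)) ≤ 1 :=
        (mul_le_mul_of_nonneg_left h4 h6.le).trans h5.le
      nlinarith
    rw [h1, h2]
    have h8 : (0 : ℝ) ≤ (3 / 11 : ℝ) ^ k := by positivity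
    calc (k : ℝ) * (15 / 4 * ((44 / 45 : ℝ) ^ k * (3 / 11 : ℝ) ^ k)) =
        15 / 4 * ((k : ℝ) * (44 / 45 : ℝ) ^ k) * (3 / 11 : ℝ) ^ k := by ring
      _ ≤ 15 / 4 * 44 * (3 / 11 : ℝ) ^ k := by
          apply mul_le_mul_of_nonneg_right _ h8
          linarith
      _ = 165 * (3 / 11 : ℝ) ^ k := by norm_num
  set z := (3 / 11 : ℝ) ^ k with hz
  have hz0 : 0 < z := by positivity
  set p2 : ℝ := 1 / 2 ^ k with hp2
  set p3 : ℝ := 1 / 3 ^ k with hp3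
  set p4 : ℝ := 1 / 4 ^ k with hp4
  set p6 : ℝ := 1 / 6 ^ k with hp6
  set w : ℝ := (k : ℝ) * (4 / 15 : ℝ) ^ (k - 1) with hw
  have hp20 : 0 < p2 := by positivity
  have hp30 : 0 < p3 := by positivity
  have hp40 : 0 < p4 := by positivity
  have hp60 : 0 < p6 := by positivity
  have hw0 : 0 ≤ w := by positivity
  have hp31 : p3 ≤ 1 / 27 := by
    rw [hp3, ← one_div_pow]
    calc (1 / 3 : ℝ) ^ k ≤ (1 / 3 : ℝ) ^ 3 :=
          pow_le_pow_of_le_one (by norm_num) (by norm_num) (by omega)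
      _ = 1 / 27 := by norm_num
  have i1 : (16 : ℝ) / 4 ^ k = 16 * p4 := by rw [hp4]; ring
  have i2 : (3 : ℝ) / 2 ^ k = 3 * p2 := by rw [hp2]; ring
  have i3 : (6 : ℝ) / 3 ^ k = 6 * p3 := by rw [hp3]; ring
  have i4 : (100 : ℝ) / 4 ^ k = 100 * p4 := by rw [hp4]; ring
  have i5 : (6 : ℝ) / 6 ^ k = 6 * p6 := by rw [hp6]; ring
  have i6 : (3 : ℝ) / 3 ^ k = 3 * p3 := by rw [hp3]; ring
  have i7 : (1 - y) / 3 ^ k = (1 - y) * p3 := by rw [hp3]; ring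
  rw [i2, i3, i4, i5, hg, i6] at h
  rw [i1] at hD1
  rw [i7]
  set V := 3 + 3 * p3 * (1 + y) - 3 * p2 - 6 * p3 - 100 * p4 - (w + 6 * p6) with hV
  have hV4 : V ≤ 4 := by
    have : 3 * p3 * (1 + y) ≤ 6 * p3 := by nlinarith
    linarith
  -- D * V ≥ V/3 - (16/3) p4 * max V 0
  have hDV : V / 3 - 64 / 3 * p4 ≤ D * V := by
    rcases le_total 0 V with hV0 | hV0
    · have h1 := mul_le_mul_of_nonneg_right hD1 hV0
      have h2 : 16 * p4 * V ≤ 16 * p4 * 4 := mul_le_mul_of_nonneg_left hV4 (by positivity)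
      nlinarith
    · have h1 := mul_le_mul_of_nonpos_right hD2 hV0
      nlinarith
  have : V / 3 = 1 + p3 * (1 + y) - p2 - 2 * p3 - 100 / 3 * p4 - w / 3 - 2 * p6 := by
    rw [hV]; ring
  have e7 : p3 * (1 + y) - 2 * p3 = -((1 - y) * p3) := by ring
  have h8 : D * V ≤ α := h
  linarith

/-- All parts together. -/
theorem expansions
    (hβ : ∃ C : ℝ, ∀ k : ℕ, 3 ≤ k → |beta k - (1 - 1 / 2 ^ k - 2 / 3 ^ k)| ≤ C / 4 ^ k)
    (hgap : ∃ c C : ℝ, 0 < c ∧ ∀ k : ℕ, 3 ≤ k →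
      c / 3 ^ k ≤ alpha k - beta k ∧ alpha k - beta k ≤ C / 3 ^ k)
    (hQ : StmtQ) (hA1 : StmtA1) (hA2 : StmtA2) (hA3 : StmtA3) (hB2 : StmtB2) (hB3 : StmtB3)
    (hA6 : StmtA6) (hE1 : StmtE1) (hE2 : StmtE2) (hE3 : StmtE3) (hE5 : StmtE5) (hE6 : StmtE6) :
    (∀ k m : ℕ, 3 ≤ k → 2 ^ (k - 1) < 3 ^ m → 3 ^ m ≤ 3 * 2 ^ (k - 1) →
      alpha k ≤ 1 - 1 / 2 ^ k - (1 - |(3 : ℝ) ^ m / 2 ^ k - 1|) / 3 ^ k) ∧
    (∃ C : ℝ, ∀ k m : ℕ, 3 ≤ k → 2 ^ (k - 1) < 3 ^ m → 3 ^ m ≤ 3 * 2 ^ (k - 1) →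
      1 - 1 / 2 ^ k - (1 - |(3 : ℝ) ^ m / 2 ^ k - 1|) / 3 ^ k - C * (3 / 11) ^ k ≤ alpha k) ∧
    (∃ C : ℝ, ∀ k : ℕ, 3 ≤ k → |beta k - (1 - 1 / 2 ^ k - 2 / 3 ^ k)| ≤ C / 4 ^ k) ∧
    (∃ c : ℝ, 0 < c ∧ ∀ k : ℕ, 3 ≤ k → c / 3 ^ k ≤ alpha k - beta k) := by
  refine ⟨fun k m hk h1 h2 => alpha_exp_upper hA1 hA2 hE1 hE2 hE5 hk h1 h2, ?_, hβ, ?_⟩
  · refine ⟨max 110 ((11 / 3 : ℝ) ^ 16), fun k m hk h1 h2 => ?_⟩
    have hy : |(3 : ℝ) ^ m / 2 ^ k - 1| ≤ 1 := by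
      have h2' : (3 : ℝ) ^ m ≤ 3 * 2 ^ (k - 1) := by exact_mod_cast h2
      have h3 : (2 : ℝ) ^ k = 2 * 2 ^ (k - 1) := by
        rw [← pow_succ']; congr 1; omega
      have h4 : (0 : ℝ) < 2 ^ (k - 1) := by positivity
      have h5 : (0 : ℝ) < 3 ^ m := by positivity
      rw [abs_le]
      constructor
      · have : (0 : ℝ) < 3 ^ m / 2 ^ k := by positivity
        linarith
      · rw [sub_le_iff_le_add, div_le_iff₀ (by positivity), h3]
        linarith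
    have hz0 : (0 : ℝ) < (3 / 11 : ℝ) ^ k := by positivity
    rcases Nat.lt_or_ge k 16 with hk16 | hk16
    · have h5 : (1 : ℝ) ≤ (11 / 3 : ℝ) ^ 16 * (3 / 11) ^ k := by
        have h6 : (3 / 11 : ℝ) ^ 16 ≤ (3 / 11 : ℝ) ^ k :=
          pow_le_pow_of_le_one (by norm_num) (by norm_num) hk16.le
        calc (1 : ℝ) = (11 / 3 : ℝ) ^ 16 * (3 / 11) ^ 16 := by rw [← mul_pow]; norm_num
          _ ≤ _ := mul_le_mul_of_nonneg_left h6 (by positivity)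
      have h7 : (11 / 3 : ℝ) ^ 16 * (3 / 11) ^ k ≤ max 110 ((11 / 3 : ℝ) ^ 16) * (3 / 11) ^ k :=
        mul_le_mul_of_nonneg_right (le_max_right _ _) hz0.le
      have h8 := alpha_nonneg k (by omega)
      have h9 : (0 : ℝ) ≤ (1 - |(3 : ℝ) ^ m / 2 ^ k - 1|) / 3 ^ k :=
        div_nonneg (by linarith) (by positivity)
      have h10 : (0 : ℝ) < 1 / 2 ^ k := by positivity
      linarith
    · obtain ⟨D, hD1, hD2, hD⟩ := alpha_exp_lower hQ hA3 hB2 hB3 hA6 hE2 hE3 hE5 hE6 hk16 h1 h2 _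
        (tail_bound k hk)
      have h3 := numeric_exp hk16 hD1 hD2 (abs_nonneg _) hy rfl hD
      have h4 : 110 * (3 / 11 : ℝ) ^ k ≤ max 110 ((11 / 3 : ℝ) ^ 16) * (3 / 11) ^ k :=
        mul_le_mul_of_nonneg_right (le_max_left _ _) hz0.le
      linarith
  · obtain ⟨c, C, hc, h⟩ := hgap
    exact ⟨c, hc, fun k hk => (h k hk).1⟩

end GeoProg
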