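import Pool.Agent.Helper7.GeoProg.TL

/-! # Asymptotics at the scale `3^(-k)` -/

namespace GeoProg

open Filter Topology

lemma delta_four : delta 4 = 1 / 3 := by
  unfold delta
  have : Nat.primesBelow 4 = {2, 3} := by decide
  rw [this]
  norm_num

lemma delta_five : delta 5 = 1 / 3 := by
  unfold delta
  have : Nat.primesBelow 5 = {2, 3} := by decide
  rw [this]
  norm_num

theorem beta_asym_upper (hR : StmtR) (hL : StmtL) (hU1 : StmtU1) (hA5 : StmtA5) {k : ℕ}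
    (hk : 3 ≤ k) :
    beta k ≤ 1 - 1 / 2 ^ k - 2 / 3 ^ k + 3 / 4 ^ k := by
  have h := beta_le hR hL hU1 hk 4 _ (fun B h1 h2 => hA5 k B hk h1 h2)
  rw [delta_four] at h
  refine h.trans ?_
  -- 2 (k+1) 2^k ≤ 3 * 3^k
  have hind : ∀ j : ℕ, 3 ≤ j → 2 * ((j : ℝ) + 1) * 2 ^ j ≤ 3 * 3 ^ j := by
    intro j hj
    induction j, hj using Nat.le_induction with
    | base => norm_num
    | succ j hj ih =>
      have h3 : (3 : ℝ) ≤ j := by exact_mod_cast hj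
      push_cast
      rw [pow_succ, pow_succ]
      have h2 : (0 : ℝ) < 2 ^ j := by positivity
      nlinarith
  have h6 := hind k hk
  have e1 : (0 : ℝ) < 2 ^ k := by positivity
  have e2 : (0 : ℝ) < 3 ^ k := by positivity
  have e3 : (0 : ℝ) < 4 ^ k := by positivity
  have e4 : (4 : ℝ) ^ k = 2 ^ k * 2 ^ k := by rw [← mul_pow]; norm_num
  have h7 : 2 * ((k : ℝ) + 1) / 2 ^ k / 3 ^ k ≤ 3 / 4 ^ k := by
    rw [div_div, div_le_div_iff₀ (by positivity) (by positivity), e4]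
    have : 2 * ((k : ℝ) + 1) * (2 ^ k * 2 ^ k) = (2 * ((k : ℝ) + 1) * 2 ^ k) * 2 ^ k := by ring
    rw [this]
    calc (2 * ((k : ℝ) + 1) * 2 ^ k) * 2 ^ k ≤ (3 * 3 ^ k) * 2 ^ k :=
          mul_le_mul_of_nonneg_right h6 e1.le
      _ = 3 * (2 ^ k * 3 ^ k) := by ring
  have e5 : (3 - 3 / 2 ^ k - 3 / 3 ^ k * (2 - 2 * ((k : ℝ) + 1) / 2 ^ k)) * (1 / 3) =
      1 - 1 / 2 ^ k - 2 / 3 ^ k + 2 * ((k : ℝ) + 1) / 2 ^ k / 3 ^ k := by
    field_simp
    ring
  rw [e5]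
  linarith

/-- the numerical lower bound for `D * (hsum grid + extra)` -/
lemma grid_numeric {k : ℕ} (hk : 3 ≤ k) {D x : ℝ} (hx : 0 ≤ x)
    (hD : 1 / 3 * (1 - 1 / (((k : ℝ) - 2) * (((5 : ℕ) : ℝ) - 1) ^ (k - 2))) ≤ D) :
    1 - 1 / 2 ^ k - 2 / 3 ^ k - 21 / 4 ^ k + 1 / 4 * x ≤
      D * ((2 - 2 / 2 ^ k - 8 / 4 ^ k) * (3 / 2 - 3 / 3 ^ k - 27 / 2 / 9 ^ k) + x) := by
  obtain ⟨m, rfl⟩ : ∃ m, k = m + 3 := ⟨k - 3, by omega⟩
  set a : ℝ := 1 / 2 ^ (m + 3) with ha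
  set b : ℝ := 1 / 3 ^ (m + 3) with hb
  set q : ℝ := 1 / 4 ^ (m + 3) with hq
  set r : ℝ := 1 / 9 ^ (m + 3) with hr
  have ha0 : 0 < a := by positivity
  have hb0 : 0 < b := by positivity
  have hq0 : 0 < q := by positivity
  have hr0 : 0 < r := by positivity
  have ha1 : a ≤ 1 / 8 := by
    rw [ha, pow_add]
    have : (1 : ℝ) ≤ 2 ^ m := one_le_pow₀ (by norm_num)
    apply one_div_le_one_div_of_le (by norm_num)
    nlinarith
  have hb1 : b ≤ 1 / 27 := by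
    rw [hb, pow_add]
    have : (1 : ℝ) ≤ 3 ^ m := one_le_pow₀ (by norm_num)
    apply one_div_le_one_div_of_le (by norm_num)
    nlinarith
  have hq1 : q ≤ 1 / 64 := by
    rw [hq, pow_add]
    have : (1 : ℝ) ≤ 4 ^ m := one_le_pow₀ (by norm_num)
    apply one_div_le_one_div_of_le (by norm_num)
    nlinarith
  have hr1 : r ≤ 1 / 729 := by
    rw [hr, pow_add]
    have : (1 : ℝ) ≤ 9 ^ m := one_le_pow₀ (by norm_num)
    apply one_div_le_one_div_of_le (by norm_num)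
    nlinarith
  have hrq : 9 * r ≤ q := by
    rw [hr, hq]
    have h1 : (4 : ℝ) ^ m ≤ 9 ^ m := pow_le_pow_left₀ (by norm_num) (by norm_num) m
    have h2 : (0 : ℝ) < 4 ^ m := by positivity
    rw [mul_one_div, div_le_div_iff₀ (by positivity) (by positivity), pow_add, pow_add]
    nlinarith
  have e1 : (2 : ℝ) / 2 ^ (m + 3) = 2 * a := by rw [ha]; ring
  have e2 : (8 : ℝ) / 4 ^ (m + 3) = 8 * q := by rw [hq]; ring
  have e3 : (3 : ℝ) / 3 ^ (m + 3) = 3 * b := by rw [hb]; ring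
  have e4 : (27 : ℝ) / 2 / 9 ^ (m + 3) = 27 / 2 * r := by rw [hr]; ring
  have e5 : (2 : ℝ) / 3 ^ (m + 3) = 2 * b := by rw [hb]; ring
  have e6 : (21 : ℝ) / 4 ^ (m + 3) = 21 * q := by rw [hq]; ring
  have herr : 1 / ((((m + 3 : ℕ) : ℝ) - 2) * (((5 : ℕ) : ℝ) - 1) ^ (m + 3 - 2)) ≤ 16 * q := by
    have h1 : m + 3 - 2 = m + 1 := by omega
    rw [h1, hq]
    push_cast
    have h2 : (4 : ℝ) ^ (m + 3) = 16 * 4 ^ (m + 1) := by rw [pow_add, pow_add]; ring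
    rw [h2]
    have h3 : (0 : ℝ) < 4 ^ (m + 1) := by positivity
    have h5 : (0 : ℝ) ≤ m := by positivity
    have h4 : 16 * (1 / (16 * (4 : ℝ) ^ (m + 1))) = 1 / 4 ^ (m + 1) := by
      field_simp
    rw [h4]
    apply one_div_le_one_div_of_le h3
    have : (5 : ℝ) - 1 = 4 := by norm_num
    rw [this]
    nlinarith
  rw [e1, e2, e3, e4, e5, e6]
  set e := 1 / ((((m + 3 : ℕ) : ℝ) - 2) * (((5 : ℕ) : ℝ) - 1) ^ (m + 3 - 2)) with he
  have hX : 0 ≤ (2 - 2 * a - 8 * q) * (3 / 2 - 3 * b - 27 / 2 * r) + x := by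
    have h1 : 0 ≤ 2 - 2 * a - 8 * q := by linarith
    have h2 : 0 ≤ 3 / 2 - 3 * b - 27 / 2 * r := by linarith
    have := mul_nonneg h1 h2
    linarith
  have h1 : 1 / 3 * (1 - 16 * q) * ((2 - 2 * a - 8 * q) * (3 / 2 - 3 * b - 27 / 2 * r) + x) ≤
      D * ((2 - 2 * a - 8 * q) * (3 / 2 - 3 * b - 27 / 2 * r) + x) := by
    apply mul_le_mul_of_nonneg_right _ hX
    refine le_trans ?_ hD
    linarith
  refine le_trans ?_ h1
  have e7 : (2 - 2 * a - 8 * q) * (3 / 2 - 3 * b - 27 / 2 * r) =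
      3 * ((1 - a - 4 * q) * (1 - 2 * b - 9 * r)) := by ring
  rw [e7]
  have h2 : 1 - a - 4 * q - 2 * b - 9 * r ≤ (1 - a - 4 * q) * (1 - 2 * b - 9 * r) := by
    have : 0 ≤ (a + 4 * q) * (2 * b + 9 * r) := by positivity
    nlinarith
  have h3 : (1 - a - 4 * q) * (1 - 2 * b - 9 * r) ≤ 1 := by
    have h4 : 0 ≤ 1 - a - 4 * q := by linarith
    have h5 : 0 ≤ 1 - 2 * b - 9 * r := by linarith
    have h6 : 1 - a - 4 * q ≤ 1 := by linarith
    have h7 : 1 - 2 * b - 9 * r ≤ 1 := by linarith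
    calc (1 - a - 4 * q) * (1 - 2 * b - 9 * r) ≤ 1 * 1 := by
          apply mul_le_mul h6 h7 h5 (by norm_num)
      _ = 1 := by norm_num
  have h4 : 0 ≤ 16 * q := by positivity
  have h5 : 16 * q * ((1 - a - 4 * q) * (1 - 2 * b - 9 * r)) ≤ 16 * q * 1 :=
    mul_le_mul_of_nonneg_left h3 h4
  have h6 : 0 ≤ (1 / 12 - 16 / 3 * q) * x := by
    apply mul_nonneg _ hx
    linarith
  nlinarith

theorem beta_asym_lower (hQ : StmtQ) (hA3 : StmtA3) (hB1 : StmtB1) (hA6 : StmtA6) {k : ℕ}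
    (hk : 3 ≤ k) :
    1 - 1 / 2 ^ k - 2 / 3 ^ k - 21 / 4 ^ k ≤ beta k := by
  obtain ⟨hQG, D, hD, hD1, _⟩ := hQ k 5 hk (by norm_num)
  obtain ⟨h1, h2, h3⟩ := hA6 k hk
  obtain ⟨A, hA, hAd⟩ := hB1 k 5 (Qset k 5) D (grid k) hk hQG (fun m hm => hm.1) hD h1 h2
  have hβ := le_beta hA hAd
  rw [h3] at hβ
  have hD' : 1 / 3 * (1 - 1 / (((k : ℝ) - 2) * (((5 : ℕ) : ℝ) - 1) ^ (k - 2))) ≤ D := by
    refine le_trans ?_ hD1
    rw [delta_five]
    apply mul_le_mul_of_nonneg_left _ (by norm_num)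
    have := hA3 k 5 hk (by norm_num)
    linarith
  have := grid_numeric hk (le_refl (0 : ℝ)) hD'
  rw [mul_zero, add_zero, add_zero] at this
  linarith

theorem alpha_asym_lower (hQ : StmtQ) (hA3 : StmtA3) (hB2 : StmtB2) (hB3 : StmtB3)
    (hA6 : StmtA6) (hA7 : StmtA7) {k : ℕ} (hk : 4 ≤ k) :
    1 - 1 / 2 ^ k - 2 / 3 ^ k - 21 / 4 ^ k + 1 / 16 / 3 ^ k ≤ alpha k := by
  classical
  obtain ⟨hQG, D, hD, hD1, _⟩ := hQ k 5 (by omega) (by norm_num)
  obtain ⟨h1, h2, h3⟩ := hA6 k (by omega)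
  obtain ⟨L, U, hL, hLU, hLU1, hF⟩ := hA7 k hk
  choose F hF1 hF2 hF3 hF4 using hF
  set T := max ((grid k).sup id) (U + 1) with hT
  have hUT : U + 1 ≤ T := le_max_right _ _
  have hgT : ∀ b ∈ grid k, b ≤ T := fun b hb =>
    (Finset.le_sup (f := id) hb).trans (le_max_left _ _)
  let Bf : ℕ → Finset ℕ := fun j =>
    if h : L ≤ j ∧ j < U then F j h.1 h.2 else (grid k).filter (· ≤ j)
  have hBf : ∀ j, 1 ≤ j → j ≤ T → SmoothFin 5 (Bf j) ∧ GPFree k (Bf j : Set ℕ) ∧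
      ∀ b ∈ Bf j, b ≤ j := by
    intro j _ _
    by_cases hj : L ≤ j ∧ j < U
    · simp only [Bf, hj, and_self, dif_pos]
      exact ⟨hF1 j hj.1 hj.2, hF2 j hj.1 hj.2, hF3 j hj.1 hj.2⟩
    · simp only [Bf, hj, dif_neg, not_false_eq_true]
      refine ⟨fun b hb => h1 b (Finset.mem_filter.1 hb).1, ?_,
        fun b hb => (Finset.mem_filter.1 hb).2⟩
      apply h2.mono
      intro b hb
      rw [Finset.mem_coe] at hb
      exact (Finset.mem_filter.1 hb).1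
  have hα := alpha_ge hB2 hB3 (by omega) (by omega) hQG (fun m hm => hm.1) hD hBf
  have hBfT : Bf T = grid k := by
    have hn : ¬ (L ≤ T ∧ T < U) := by omega
    simp only [Bf, hn, dif_neg, not_false_eq_true]
    exact Finset.filter_true_of_mem (fun b hb => hgT b hb)
  have htel : ∀ V : ℕ, L ≤ V →
      ∑ j ∈ Finset.Ico L V, (1 : ℝ) / ((j : ℝ) * (j + 1)) = 1 / (L : ℝ) - 1 / V := by
    intro V hV
    induction V, hV using Nat.le_induction with
    | base => simp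
    | succ V hV ih =>
      rw [Finset.sum_Ico_succ_top hV, ih]
      have h5 : (0 : ℝ) < V := by exact_mod_cast (by omega : 0 < V)
      push_cast
      field_simp
      ring
  have hsum : hsum (grid k) + (1 / (L : ℝ) - 1 / U) ≤
      ∑ j ∈ Finset.Ico 1 T, ((Bf j).card : ℝ) / ((j : ℝ) * (j + 1)) + ((Bf T).card : ℝ) / T := by
    rw [hBfT, ← abel_card (grid k) (fun b hb => h2.1 b hb) T hgT, ← htel U hLU.le]
    have h5 : ∑ j ∈ Finset.Ico L U, (1 : ℝ) / ((j : ℝ) * (j + 1)) =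
        ∑ j ∈ Finset.Ico 1 T, (if L ≤ j ∧ j < U then 1 / ((j : ℝ) * (j + 1)) else 0) := by
      rw [← Finset.sum_filter]
      apply Finset.sum_congr _ (fun _ _ => rfl)
      ext j
      rw [Finset.mem_filter, Finset.mem_Ico, Finset.mem_Ico]
      constructor
      · rintro ⟨h5, h6⟩; exact ⟨⟨by omega, by omega⟩, h5, h6⟩
      · rintro ⟨_, h5, h6⟩; exact ⟨h5, h6⟩
    have h6 : ∑ j ∈ Finset.Ico 1 T, (((grid k).filter (· ≤ j)).card : ℝ) / ((j : ℝ) * (j + 1)) +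
        ∑ j ∈ Finset.Ico 1 T, (if L ≤ j ∧ j < U then 1 / ((j : ℝ) * (j + 1)) else 0) ≤
        ∑ j ∈ Finset.Ico 1 T, ((Bf j).card : ℝ) / ((j : ℝ) * (j + 1)) := by
      rw [← Finset.sum_add_distrib]
      apply Finset.sum_le_sum
      intro j _
      by_cases hj : L ≤ j ∧ j < U
      · simp only [Bf, hj, and_self, dif_pos, if_true]
        rw [← add_div]
        apply div_le_div_of_nonneg_right _ (by positivity)
        exact_mod_cast hF4 j hj.1 hj.2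
      · simp only [Bf, hj, dif_neg, not_false_eq_true, if_false, add_zero]
        exact le_refl _
    rw [h5]
    linarith
  have hD0 : 0 ≤ D := by
    have h1 : ∀ N : ℕ, 0 ≤ (count (Qset k 5) N : ℝ) / N := fun N => ratio_nonneg _ N
    exact ge_of_tendsto' hD h1
  have hD' : 1 / 3 * (1 - 1 / (((k : ℝ) - 2) * (((5 : ℕ) : ℝ) - 1) ^ (k - 2))) ≤ D := by
    refine le_trans ?_ hD1
    rw [delta_five]
    apply mul_le_mul_of_nonneg_left _ (by norm_num)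
    have := hA3 k 5 (by omega) (by norm_num)
    linarith
  have hx : (0 : ℝ) ≤ 1 / 4 / 3 ^ k := by positivity
  have hnum := grid_numeric (by omega : 3 ≤ k) hx hD'
  have e1 : (1 : ℝ) / 4 / 3 ^ k ≤ 1 / (L : ℝ) - 1 / U := by
    refine le_trans (le_of_eq ?_) hLU1
    have : (3 : ℝ) ^ k = 3 * 3 ^ (k - 1) := by
      rw [← pow_succ']
      congr 1
      omega
    rw [this]
    field_simp
    norm_num
  have e2 : (1 : ℝ) / 4 * (1 / 4 / 3 ^ k) = 1 / 16 / 3 ^ k := by ring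
  rw [e2] at hnum
  refine hnum.trans (le_trans ?_ hα)
  apply mul_le_mul_of_nonneg_left _ hD0
  rw [← h3]
  linarith

/-- Asymptotics of `beta` and the order of `alpha - beta`. -/
theorem gap_order (hβl : ∀ k : ℕ, 3 ≤ k → 1 - 1 / 2 ^ k - 2 / 3 ^ k - 21 / 4 ^ k ≤ beta k)
    (hβu : ∀ k : ℕ, 3 ≤ k → beta k ≤ 1 - 1 / 2 ^ k - 2 / 3 ^ k + 3 / 4 ^ k)
    (hαl : ∀ k : ℕ, 4 ≤ k → 1 - 1 / 2 ^ k - 2 / 3 ^ k - 21 / 4 ^ k + 1 / 16 / 3 ^ k ≤ alpha k)
    (hαu : StmtA4) (hlt : ∀ k : ℕ, 3 ≤ k → beta k < alpha k) :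
    (∃ C : ℝ, ∀ k : ℕ, 3 ≤ k → |beta k - (1 - 1 / 2 ^ k - 2 / 3 ^ k)| ≤ C / 4 ^ k) ∧
    (∃ c C : ℝ, 0 < c ∧ ∀ k : ℕ, 3 ≤ k →
      c / 3 ^ k ≤ alpha k - beta k ∧ alpha k - beta k ≤ C / 3 ^ k) := by
  constructor
  · refine ⟨21, fun k hk => ?_⟩
    have h1 := hβl k hk
    have h2 := hβu k hk
    have h3 : (3 : ℝ) / 4 ^ k ≤ 21 / 4 ^ k := by
      apply div_le_div_of_nonneg_right (by norm_num) (by positivity)
    rw [abs_le]
    constructor <;> linarith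
  · -- the finitely many small k
    obtain ⟨k₀, hk₀, hmin⟩ := Finset.exists_min_image (Finset.Icc 3 24)
      (fun k : ℕ => (alpha k - beta k) * 3 ^ k) ⟨3, by simp⟩
    rw [Finset.mem_Icc] at hk₀
    set c₀ := (alpha k₀ - beta k₀) * 3 ^ k₀ with hc₀
    have hc₀pos : 0 < c₀ := by
      have := hlt k₀ hk₀.1
      have h1 : 0 < alpha k₀ - beta k₀ := by linarith
      positivity
    refine ⟨min c₀ (1 / 32), 23, lt_min hc₀pos (by norm_num), fun k hk => ⟨?_, ?_⟩⟩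
    · rcases Nat.lt_or_ge k 25 with h | h
      · have h1 := hmin k (by rw [Finset.mem_Icc]; omega)
        rw [div_le_iff₀ (by positivity)]
        exact (min_le_left _ _).trans h1
      · have h1 := hαl k (by omega)
        have h2 := hβu k hk
        have h3 : (24 : ℝ) / 4 ^ k ≤ 1 / 32 / 3 ^ k := by
          rw [div_div, div_le_div_iff₀ (by positivity) (by positivity)]
          obtain ⟨m, rfl⟩ : ∃ m, k = m + 25 := ⟨k - 25, by omega⟩
          have h4 : (3 : ℝ) ^ m ≤ 4 ^ m := pow_le_pow_left₀ (by norm_num) (by norm_num) m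
          have h5 : (0 : ℝ) < 3 ^ m := by positivity
          rw [pow_add, pow_add]
          nlinarith
        have h4 : (1 : ℝ) / 16 / 3 ^ k = 2 * (1 / 32 / 3 ^ k) := by ring
        have h5 : (24 : ℝ) / 4 ^ k = 21 / 4 ^ k + 3 / 4 ^ k := by ring
        have h6 : min c₀ (1 / 32) / 3 ^ k ≤ 1 / 32 / 3 ^ k := by
          apply div_le_div_of_nonneg_right (min_le_right _ _) (by positivity)
        linarith
    · have h1 := hαu k hk
      have h2 := hβl k hk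
      have h3 : (21 : ℝ) / 4 ^ k ≤ 21 / 3 ^ k := by
        apply div_le_div_of_nonneg_left (by norm_num) (by positivity)
        exact pow_le_pow_left₀ (by norm_num) (by norm_num) k
      have h4 : (23 : ℝ) / 3 ^ k = 2 / 3 ^ k + 21 / 3 ^ k := by ring
      linarith

end GeoProg
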