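import Pool.Agent.Helper7.GeoProg.T3
import Pool.Agent.Helper7.GeoProg.Stmts2

/-! # Limit formulas for `alpha k` and `beta k` -/

namespace GeoProg

open Filter Topology

lemma beta_nonneg (k : ℕ) (hk : 1 ≤ k) : 0 ≤ beta k :=
  le_beta (gpFree_empty k hk) hasDensity_empty

lemma upperDensity_empty : upperDensity ∅ = 0 := hasDensity_empty.eq_upper.symm

lemma alpha_nonneg (k : ℕ) (hk : 1 ≤ k) : 0 ≤ alpha k := by
  have := le_alpha (gpFree_empty k hk)
  rwa [upperDensity_empty] at this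

lemma smoothHarm_bdd (hS : StmtS) (k n : ℕ) :
    BddAbove {y : ℝ | ∃ B : Finset ℕ, SmoothFin n B ∧ GPFree k (B : Set ℕ) ∧ y = hsum B} := by
  refine ⟨(delta n)⁻¹, ?_⟩
  rintro y ⟨B, hB, _, rfl⟩
  exact hsum_le_inv hS n B hB

lemma le_smoothHarm (hS : StmtS) {k n : ℕ} {B : Finset ℕ} (h1 : SmoothFin n B)
    (h2 : GPFree k (B : Set ℕ)) : hsum B ≤ smoothHarm k n :=
  le_csSup (smoothHarm_bdd hS k n) ⟨B, h1, h2, rfl⟩

lemma smoothHarm_nonempty (k n : ℕ) (hk : 1 ≤ k) :
    {y : ℝ | ∃ B : Finset ℕ, SmoothFin n B ∧ GPFree k (B : Set ℕ) ∧ y = hsum B}.Nonempty :=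
  ⟨hsum ∅, ∅, fun b hb => absurd hb (Finset.notMem_empty b), by
    simpa using gpFree_empty k hk, rfl⟩

lemma smoothHarm_nonneg (hS : StmtS) (k n : ℕ) (hk : 1 ≤ k) : 0 ≤ smoothHarm k n := by
  have h := le_smoothHarm hS (k := k) (n := n) (B := ∅)
    (fun b hb => absurd hb (Finset.notMem_empty b)) (by simpa using gpFree_empty k hk)
  have : hsum ∅ = 0 := by simp [hsum]
  rwa [this] at h

theorem beta_upper (hR : StmtR) (hL : StmtL) (hU1 : StmtU1) (hS : StmtS) {k : ℕ} (hk : 3 ≤ k)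
    (n : ℕ) : beta k ≤ delta n * smoothHarm k n := by
  have := beta_le hR hL hU1 hk n (smoothHarm k n) (fun B h1 h2 => le_smoothHarm hS h1 h2)
  rwa [mul_comm] at this

theorem beta_lower (hQ : StmtQ) (hA3 : StmtA3) (hS : StmtS) (hB1 : StmtB1) {k n : ℕ}
    (hk : 3 ≤ k) (hn : 2 ≤ n) :
    (1 - 1 / (((k : ℝ) - 2) * ((n : ℝ) - 1) ^ (k - 2))) * (delta n * smoothHarm k n) ≤ beta k := by
  obtain ⟨hQG, D, hD, hD1, hD2⟩ := hQ k n hk hn
  have hδ := (hS n).1
  have hD1' : delta n * (1 - 1 / (((k : ℝ) - 2) * ((n : ℝ) - 1) ^ (k - 2))) ≤ D := by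
    refine le_trans ?_ hD1
    apply mul_le_mul_of_nonneg_left _ hδ.le
    have := hA3 k n hk hn
    linarith
  have hD0 : 0 ≤ D := by
    have h1 : ∀ N : ℕ, 0 ≤ (count (Qset k n) N : ℝ) / N := fun N => ratio_nonneg _ N
    exact ge_of_tendsto' hD h1
  have hmain : D * smoothHarm k n ≤ beta k := by
    rcases hD0.eq_or_lt with h | h
    · rw [← h, zero_mul]
      exact beta_nonneg k (by omega)
    · have : smoothHarm k n ≤ beta k / D := by
        refine csSup_le (smoothHarm_nonempty k n (by omega)) ?_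
        rintro y ⟨B, hB1', hB2', rfl⟩
        rw [le_div_iff₀ h, mul_comm]
        obtain ⟨A, hA, hAd⟩ := hB1 k n (Qset k n) D B hk hQG (fun m hm => hm.1) hD hB1' hB2'
        exact le_beta hA hAd
      rw [le_div_iff₀ h] at this
      linarith
  refine le_trans ?_ hmain
  have h1 := mul_le_mul_of_nonneg_right hD1' (smoothHarm_nonneg hS k n (by omega))
  linarith

theorem alpha_lower' (hB2 : StmtB2) (hB3 : StmtB3) (hA2 : StmtA2) (hA1 : StmtA1) {k n : ℕ}
    {Q : Set ℕ} {D : ℝ} (hk : 3 ≤ k) (hn : 2 ≤ n) (hQ : GPFree k Q) (hQr : ∀ m ∈ Q, Rough n m)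
    (hD : HasDensity Q D) :
    D * ∑' j : ℕ, (smoothCard k n j : ℝ) / ((j : ℝ) * (j + 1)) ≤ alpha k := by
  have hs := (hA1 k n hk hn).1
  have hD0 : 0 ≤ D := by
    have h1 : ∀ N : ℕ, 0 ≤ (count Q N : ℝ) / N := fun N => ratio_nonneg _ N
    exact ge_of_tendsto' hD h1
  choose B hB using fun j => (hA2 k n j hk).1
  have h1 : ∀ T : ℕ, D * ∑ j ∈ Finset.range T, (smoothCard k n j : ℝ) / ((j : ℝ) * (j + 1))
      ≤ alpha k := by
    intro T
    have h2 := alpha_ge hB2 hB3 (T := T + 1) (B := B) hk (by omega) hQ hQr hD (fun j _ _ =>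
      ⟨(hB j).1, (hB j).2.2.1, (hB j).2.1⟩)
    refine le_trans ?_ h2
    apply mul_le_mul_of_nonneg_left _ hD0
    have h3 : ∑ j ∈ Finset.range T, (smoothCard k n j : ℝ) / ((j : ℝ) * (j + 1)) ≤
        ∑ j ∈ Finset.Ico 1 (T + 1), ((B j).card : ℝ) / ((j : ℝ) * (j + 1)) := by
      have h4 : ∑ j ∈ Finset.range (T + 1), (smoothCard k n j : ℝ) / ((j : ℝ) * (j + 1)) =
          ∑ j ∈ Finset.Ico 1 (T + 1), ((B j).card : ℝ) / ((j : ℝ) * (j + 1)) := by
        rw [Finset.range_eq_Ico, Finset.sum_eq_sum_Ico_succ_bot (by omega)]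
        simp only [Nat.cast_zero, zero_mul, div_zero, zero_add]
        apply Finset.sum_congr rfl
        intro j _
        rw [(hB j).2.2.2]
      rw [← h4]
      apply Finset.sum_le_sum_of_subset_of_nonneg
      · intro j hj
        rw [Finset.mem_range] at hj ⊢
        omega
      · intro i _ _
        positivity
    have h5 : (0 : ℝ) ≤ ((B (T + 1)).card : ℝ) / ((T + 1 : ℕ) : ℝ) := by positivity
    linarith
  have h2 := (hs.hasSum.tendsto_sum_nat).const_mul D
  exact le_of_tendsto' h2 h1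

theorem alpha_lower (hQ : StmtQ) (hA3 : StmtA3) (hS : StmtS) (hB2 : StmtB2) (hB3 : StmtB3)
    (hA2 : StmtA2) (hA1 : StmtA1) {k n : ℕ} (hk : 3 ≤ k) (hn : 2 ≤ n) :
    (1 - 1 / (((k : ℝ) - 2) * ((n : ℝ) - 1) ^ (k - 2))) *
      (delta n * ∑' j : ℕ, (smoothCard k n j : ℝ) / ((j : ℝ) * (j + 1))) ≤ alpha k := by
  obtain ⟨hQG, D, hD, hD1, hD2⟩ := hQ k n hk hn
  have hδ := (hS n).1
  have hD1' : delta n * (1 - 1 / (((k : ℝ) - 2) * ((n : ℝ) - 1) ^ (k - 2))) ≤ D := by
    refine le_trans ?_ hD1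
    apply mul_le_mul_of_nonneg_left _ hδ.le
    have := hA3 k n hk hn
    linarith
  have h := alpha_lower' hB2 hB3 hA2 hA1 hk hn hQG (fun m hm => hm.1) hD
  refine le_trans ?_ h
  have h1 : (0 : ℝ) ≤ ∑' j : ℕ, (smoothCard k n j : ℝ) / ((j : ℝ) * (j + 1)) :=
    tsum_nonneg (fun j => by positivity)
  have h2 := mul_le_mul_of_nonneg_right hD1' h1
  linarith

lemma maxCard_spec (k N : ℕ) (hk : 1 ≤ k) :
    (∃ B : Finset ℕ, B ⊆ Finset.Icc 1 N ∧ GPFree k (B : Set ℕ) ∧ maxCard k N = B.card) ∧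
    (∀ B : Finset ℕ, B ⊆ Finset.Icc 1 N → GPFree k (B : Set ℕ) → B.card ≤ maxCard k N) := by
  have hbdd : BddAbove {c : ℕ | ∃ B : Finset ℕ, B ⊆ Finset.Icc 1 N ∧ GPFree k (B : Set ℕ) ∧
      c = B.card} := by
    refine ⟨N, ?_⟩
    rintro c ⟨B, hB, _, rfl⟩
    have := Finset.card_le_card hB
    rw [Nat.card_Icc] at this
    omega
  have hne : {c : ℕ | ∃ B : Finset ℕ, B ⊆ Finset.Icc 1 N ∧ GPFree k (B : Set ℕ) ∧
      c = B.card}.Nonempty := ⟨0, ∅, Finset.empty_subset _, by simpa using gpFree_empty k hk, rfl⟩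
  constructor
  · exact Nat.sSup_mem hne hbdd
  · intro B h1 h2
    exact le_csSup hbdd ⟨B, h1, h2, rfl⟩

/-- The formula `alpha k = lim r_k(N)/N`. -/
theorem tendsto_maxCard (hQ : StmtQ) (hQt : StmtQt) (hS : StmtS) (hB2 : StmtB2) (hB3 : StmtB3)
    (hA2 : StmtA2) (hA1 : StmtA1) {k : ℕ} (hk : 3 ≤ k) :
    Tendsto (fun N : ℕ => (maxCard k N : ℝ) / (N : ℝ)) atTop (𝓝 (alpha k)) := by
  rw [tendsto_order]
  constructor
  · -- lower bound
    intro c hc
    have hα0 := alpha_nonneg k (by omega)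
    -- choose n
    have hlim : Tendsto (fun n : ℕ => (1 - 1 / ((n : ℝ) - 1)) * alpha k) atTop (𝓝 (alpha k)) := by
      have h1 : Tendsto (fun n : ℕ => (n : ℝ) - 1) atTop atTop :=
        tendsto_atTop_add_const_right _ _ tendsto_natCast_atTop_atTop
      have h2 : Tendsto (fun n : ℕ => 1 / ((n : ℝ) - 1)) atTop (𝓝 0) :=
        tendsto_const_nhds.div_atTop h1
      have h3 := (tendsto_const_nhds (x := (1 : ℝ))).sub h2
      rw [sub_zero] at h3
      have h4 := h3.mul_const (alpha k)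
      rwa [one_mul] at h4
    obtain ⟨n, hn1, hn2⟩ := (((tendsto_order.1 hlim).1 c hc).and (eventually_ge_atTop 3)).exists
    obtain ⟨hQG, D, hD, hD1, hD2⟩ := qset_density hQ hQt hS hk (n := n) (by omega)
    have hs := hA1 k n hk (by omega)
    have hδ := (hS n).1
    set sg := ∑' j : ℕ, (smoothCard k n j : ℝ) / ((j : ℝ) * (j + 1)) with hsg
    have hsg0 : 0 ≤ sg := tsum_nonneg (fun j => by positivity)
    have hn3 : (3 : ℝ) ≤ n := by exact_mod_cast hn2
    have hhalf : 1 / ((n : ℝ) - 1) ≤ 1 / 2 := by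
      apply one_div_le_one_div_of_le (by norm_num)
      linarith
    have hcD : c < D * sg := by
      refine lt_of_lt_of_le hn1 ?_
      calc (1 - 1 / ((n : ℝ) - 1)) * alpha k ≤ (1 - 1 / ((n : ℝ) - 1)) * (delta n * sg) := by
            apply mul_le_mul_of_nonneg_left hs.2
            linarith
        _ = delta n * (1 - 1 / ((n : ℝ) - 1)) * sg := by ring
        _ ≤ D * sg := mul_le_mul_of_nonneg_right hD1 hsg0
    have hD0 : 0 ≤ D := by
      have h1 : ∀ N : ℕ, 0 ≤ (count (Qset k n) N : ℝ) / N := fun N => ratio_nonneg _ N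
      exact ge_of_tendsto' hD h1
    have hpart := (hs.1.hasSum.tendsto_sum_nat).const_mul D
    obtain ⟨T, hT⟩ := ((tendsto_order.1 hpart).1 c hcD).exists
    choose B hB using fun j => (hA2 k n j hk).1
    set v := D * (∑ j ∈ Finset.Ico 1 (T + 1), ((B j).card : ℝ) / ((j : ℝ) * (j + 1)) +
      ((B (T + 1)).card : ℝ) / ((T + 1 : ℕ) : ℝ)) with hv
    have hcv : c < v := by
      refine lt_of_lt_of_le hT ?_
      rw [hv]
      apply mul_le_mul_of_nonneg_left _ hD0
      have h4 : ∑ j ∈ Finset.range (T + 1), (smoothCard k n j : ℝ) / ((j : ℝ) * (j + 1)) =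
          ∑ j ∈ Finset.Ico 1 (T + 1), ((B j).card : ℝ) / ((j : ℝ) * (j + 1)) := by
        rw [Finset.range_eq_Ico, Finset.sum_eq_sum_Ico_succ_bot (by omega)]
        simp only [Nat.cast_zero, zero_mul, div_zero, zero_add]
        apply Finset.sum_congr rfl
        intro j _
        rw [(hB j).2.2.2]
      rw [← h4, Finset.sum_range_succ]
      have h5 : (0 : ℝ) ≤ ((B (T + 1)).card : ℝ) / ((T + 1 : ℕ) : ℝ) := by positivity
      have h6 : (0 : ℝ) ≤ (smoothCard k n T : ℝ) / ((T : ℝ) * (T + 1)) := by positivity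
      linarith
    have h := hB2 k n (T + 1) (Qset k n) D B hk (by omega) hQG (fun m hm => hm.1) hD
      (fun j _ _ => ⟨(hB j).1, (hB j).2.2.1, (hB j).2.1⟩) ((v - c) / 2) (by linarith)
    filter_upwards [h, eventually_gt_atTop 0] with N hN hN0
    obtain ⟨F, hF, hFG, hFc⟩ := hN
    have hN0' : (0 : ℝ) < N := by exact_mod_cast hN0
    rw [lt_div_iff₀ hN0']
    have h7 : (F.card : ℝ) ≤ maxCard k N := by
      exact_mod_cast (maxCard_spec k N (by omega)).2 F hF hFG
    refine lt_of_lt_of_le ?_ (hFc.trans h7)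
    apply mul_lt_mul_of_pos_right _ hN0'
    rw [← hv]
    linarith
  · -- upper bound
    intro c hc
    by_contra hcon
    rw [Filter.not_eventually] at hcon
    have hfr : ∃ᶠ N : ℕ in atTop, c ≤ (maxCard k N : ℝ) / (N : ℝ) := by
      refine hcon.mono (fun N hN => not_lt.1 hN)
    obtain ⟨A, hA, hAc⟩ := hB3 k c hk (fun M => by
      obtain ⟨N, hN1, hN2⟩ := (hfr.and_eventually (eventually_ge_atTop (max M 1))).exists
      refine ⟨N, (le_max_left _ _).trans hN2, ?_⟩
      obtain ⟨B, hB1, hB2', hB3'⟩ := (maxCard_spec k N (by omega)).1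
      refine ⟨B, hB1, hB2', ?_⟩
      have hN0 : (0 : ℝ) < N := by
        have : 1 ≤ N := (le_max_right _ _).trans hN2
        exact_mod_cast this
      rw [hB3', le_div_iff₀ hN0] at hN1
      exact hN1)
    have := le_alpha hA
    linarith

lemma maxHarm_bdd (k N : ℕ) :
    BddAbove {y : ℝ | ∃ B : Finset ℕ, B ⊆ Finset.Icc 1 N ∧ GPFree k (B : Set ℕ) ∧ y = hsum B} := by
  refine ⟨hsum (Finset.Icc 1 N), ?_⟩
  rintro y ⟨B, hB, _, rfl⟩
  exact hsum_mono hB

lemma harm_coe (F : Finset ℕ) (N : ℕ) (hF : F ⊆ Finset.Icc 1 N) :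
    harm (F : Set ℕ) N = hsum F := by
  classical
  unfold harm hsum
  rw [← Finset.sum_subset hF]
  · apply Finset.sum_congr rfl
    intro b hb
    rw [Set.indicator_of_mem (Finset.mem_coe.2 hb)]
  · intro b _ hb
    rw [Set.indicator_of_notMem (fun h => hb (Finset.mem_coe.1 h))]

lemma harm_eq_hsum (A : Set ℕ) (N : ℕ) : ∃ F : Finset ℕ, F ⊆ Finset.Icc 1 N ∧
    (F : Set ℕ) ⊆ A ∧ harm A N = hsum F := by
  classical
  refine ⟨(Finset.Icc 1 N).filter (· ∈ A), Finset.filter_subset _ _, ?_, ?_⟩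
  · intro b hb
    rw [Finset.mem_coe, Finset.mem_filter] at hb
    exact hb.2
  · unfold harm hsum
    rw [Finset.sum_filter]
    apply Finset.sum_congr rfl
    intro b _
    rw [Set.indicator_apply]

/-- The formula `beta k = lim L_k(N)/log N`. -/
theorem tendsto_maxHarm (hR : StmtR) (hL : StmtL) (hU1 : StmtU1) (hQ : StmtQ) (hA3 : StmtA3)
    (hQt : StmtQt) (hS : StmtS) (hB1 : StmtB1) {k : ℕ} (hk : 3 ≤ k) :
    Tendsto (fun N : ℕ => maxHarm k N / Real.log N) atTop (𝓝 (beta k)) := by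
  have hβ0 := beta_nonneg k (by omega)
  rw [tendsto_order]
  constructor
  · intro c hc
    obtain ⟨d, ⟨A, hA, hAd⟩, hd⟩ := exists_lt_of_lt_csSup
      (⟨0, ∅, gpFree_empty k (by omega), hasDensity_empty⟩ :
        {x | ∃ A : Set ℕ, GPFree k A ∧ HasDensity A x}.Nonempty) hc
    filter_upwards [(tendsto_order.1 (hL A d hAd)).1 c hd, eventually_gt_atTop 1] with N hN hN1
    have hlog : 0 < Real.log N := Real.log_pos (by exact_mod_cast hN1)
    refine lt_of_lt_of_le hN ?_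
    apply div_le_div_of_nonneg_right _ hlog.le
    obtain ⟨F, hF1, hF2, hF3⟩ := harm_eq_hsum A N
    rw [hF3]
    exact le_csSup (maxHarm_bdd k N) ⟨F, hF1, hA.mono hF2, rfl⟩
  · intro c hc
    -- choose n
    have hlim : Tendsto (fun n : ℕ => (1 - 1 / ((n : ℝ) - 1)) * c) atTop (𝓝 c) := by
      have h1 : Tendsto (fun n : ℕ => (n : ℝ) - 1) atTop atTop :=
        tendsto_atTop_add_const_right _ _ tendsto_natCast_atTop_atTop
      have h2 : Tendsto (fun n : ℕ => 1 / ((n : ℝ) - 1)) atTop (𝓝 0) :=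
        tendsto_const_nhds.div_atTop h1
      have h3 := (tendsto_const_nhds (x := (1 : ℝ))).sub h2
      rw [sub_zero] at h3
      have h4 := h3.mul_const c
      rwa [one_mul] at h4
    obtain ⟨n, hn1, hn2⟩ :=
      (((tendsto_order.1 hlim).1 (beta k) hc).and (eventually_ge_atTop 3)).exists
    have hn3 : (3 : ℝ) ≤ n := by exact_mod_cast hn2
    have hhalf : 1 / ((n : ℝ) - 1) ≤ 1 / 2 := by
      apply one_div_le_one_div_of_le (by norm_num)
      linarith
    -- the value at level n is less than c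
    have hlow := beta_lower hQ hA3 hS hB1 hk (n := n) (by omega)
    have herr : 1 / (((k : ℝ) - 2) * ((n : ℝ) - 1) ^ (k - 2)) ≤ 1 / ((n : ℝ) - 1) := by
      apply one_div_le_one_div_of_le (by linarith)
      have hk3 : (3 : ℝ) ≤ k := by exact_mod_cast hk
      have h1 : ((n : ℝ) - 1) ^ 1 ≤ ((n : ℝ) - 1) ^ (k - 2) :=
        pow_le_pow_right₀ (by linarith) (by omega)
      rw [pow_one] at h1
      have h2 : (0 : ℝ) ≤ ((n : ℝ) - 1) ^ (k - 2) := by
        apply pow_nonneg; linarith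
      nlinarith
    have hEn : delta n * smoothHarm k n < c := by
      have hE0 : 0 ≤ delta n * smoothHarm k n :=
        mul_nonneg (hS n).1.le (smoothHarm_nonneg hS k n (by omega))
      have h1 : (1 - 1 / ((n : ℝ) - 1)) * (delta n * smoothHarm k n) ≤ beta k := by
        refine le_trans ?_ hlow
        apply mul_le_mul_of_nonneg_right _ hE0
        linarith
      have h2 : (1 - 1 / ((n : ℝ) - 1)) * (delta n * smoothHarm k n) <
          (1 - 1 / ((n : ℝ) - 1)) * c := lt_of_le_of_lt h1 hn1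
      exact lt_of_mul_lt_mul_left h2 (by linarith)
    have h2 := hL {m | Rough n m} (delta n) (hasDensity_rough hR n)
    have h3 := h2.const_mul (smoothHarm k n)
    rw [mul_comm] at hEn
    filter_upwards [(tendsto_order.1 h3).2 c hEn, eventually_gt_atTop 1] with N hN hN1
    have hlog : 0 < Real.log N := Real.log_pos (by exact_mod_cast hN1)
    refine lt_of_le_of_lt ?_ hN
    rw [← mul_div_assoc]
    apply div_le_div_of_nonneg_right _ hlog.le
    refine csSup_le ⟨hsum ∅, ∅, Finset.empty_subset _, by simpa using gpFree_empty k (by omega),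
      rfl⟩ ?_
    rintro y ⟨F, hF, hFG, rfl⟩
    rw [← harm_coe F N hF]
    exact hU1 k n (smoothHarm k n) (F : Set ℕ) hk hFG (fun B h1 h2 => le_smoothHarm hS h1 h2) N

end GeoProg
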